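import Pool.Agent.Lib.MP_d92c84_an.Bes

/-!
# Bessel functions for large argument

Everything follows from the first order system for `(J_m, J_{m+1})`.
-/

set_option autoImplicit false

namespace DrumF

open Filter Topology Set

/-- `J_m ^ 2 + J_{m+1} ^ 2`. -/
noncomputable def en (m : ℕ) (x : ℝ) : ℝ := J m x ^ 2 + J (m + 1) x ^ 2

/-- The modified energy. -/
noncomputable def Ge (m : ℕ) (x : ℝ) : ℝ := x * en m x - (2 * m + 1) * (J m x * J (m + 1) x)

theorem en_nonneg (m : ℕ) (x : ℝ) : 0 ≤ en m x := by unfold en; positivity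

theorem hasDerivAt_en (m : ℕ) {x : ℝ} (hx : x ≠ 0) :
    HasDerivAt (en m) (2 / x * (m * J m x ^ 2 - (m + 1) * J (m + 1) x ^ 2)) x := by
  have h1 := ((hasDerivAt_J m hx).pow 2).add ((hasDerivAt_J' m hx).pow 2)
  have h2 : (2 : ℕ) * J m x ^ (2 - 1) * ((m : ℝ) / x * J m x - J (m + 1) x) +
      (2 : ℕ) * J (m + 1) x ^ (2 - 1) * (J m x - ((m : ℝ) + 1) / x * J (m + 1) x) =
      2 / x * (m * J m x ^ 2 - (m + 1) * J (m + 1) x ^ 2) := by
    push_cast
    simp only [pow_one]
    field_simp
    ring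
  rw [← h2]
  exact h1

theorem en_pos (m : ℕ) {x₀ : ℝ} (hx₀ : 0 < x₀) : 0 < en m x₀ := by
  rcases (en_nonneg m x₀).lt_or_eq with h | h
  · exact h
  exfalso
  have hS : ∀ x : ℝ, 0 < x → HasDerivAt (fun y => y ^ (2 * m + 2) * en m y)
      (x ^ (2 * m + 1) * ((4 * m + 2) * J m x ^ 2)) x := by
    intro x hx
    have h1 := (hasDerivAt_pow (2 * m + 2) x).mul (hasDerivAt_en m hx.ne')
    have h2 : ((2 * m + 2 : ℕ) : ℝ) * x ^ (2 * m + 2 - 1) * en m x +
        x ^ (2 * m + 2) * (2 / x * (m * J m x ^ 2 - (m + 1) * J (m + 1) x ^ 2)) =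
        x ^ (2 * m + 1) * ((4 * m + 2) * J m x ^ 2) := by
      have h3 : 2 * m + 2 - 1 = 2 * m + 1 := by omega
      have h4 : x ^ (2 * m + 2) = x ^ (2 * m + 1) * x := by rw [← pow_succ]
      rw [h3, h4]
      unfold en
      push_cast
      field_simp
      ring
    rw [← h2]
    exact h1
  have hmono : MonotoneOn (fun y => y ^ (2 * m + 2) * en m y) (Ioi 0) := by
    apply monotoneOn_of_deriv_nonneg (convex_Ioi 0)
    · intro x hx
      exact (hS x hx).continuousAt.continuousWithinAt
    · intro x hx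
      rw [interior_Ioi] at hx
      exact (hS x hx).differentiableAt.differentiableWithinAt
    · intro x hx
      rw [interior_Ioi] at hx
      rw [(hS x hx).deriv]
      have : (0 : ℝ) < x := hx
      positivity
  have hz : ∀ x ∈ Ioc (0 : ℝ) x₀, J m x = 0 := by
    intro x hx
    have h1 := hmono (show x ∈ Ioi (0 : ℝ) from hx.1) (show x₀ ∈ Ioi (0 : ℝ) from hx₀) hx.2
    simp only [← h, mul_zero] at h1
    have h2 : 0 < x ^ (2 * m + 2) := pow_pos hx.1 _
    have h3 : en m x ≤ 0 := by
      by_contra hc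
      push Not at hc
      have := mul_pos h2 hc
      linarith
    have h4 : J m x ^ 2 ≤ 0 := by
      have : 0 ≤ J (m + 1) x ^ 2 := by positivity
      unfold en at h3
      linarith
    exact pow_eq_zero_iff (two_ne_zero) |>.1 (le_antisymm h4 (by positivity))
  have h5 : Tendsto (fun x : ℝ => F m ((x : ℂ) ^ 2 / 4)) (𝓝[>] 0) (𝓝 (F m 0)) := by
    have h6 : Continuous fun x : ℝ => F m ((x : ℂ) ^ 2 / 4) := by
      have := (differentiable_F m).continuous
      fun_prop
    have h7 := h6.tendsto 0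
    simp only [Complex.ofReal_zero, ne_eq, OfNat.ofNat_ne_zero, not_false_eq_true, zero_pow, zero_div] at h7
    exact h7.mono_left nhdsWithin_le_nhds
  have h6 : ∀ᶠ x : ℝ in 𝓝[>] 0, F m ((x : ℂ) ^ 2 / 4) = 0 := by
    filter_upwards [Ioc_mem_nhdsGT hx₀] with x hx
    have h7 := hz x hx
    have h8 := J_eq m x
    rw [h7] at h8
    unfold Jc at h8
    have h9 : ((x : ℂ) / 2) ^ m ≠ 0 := by
      apply pow_ne_zero
      have : (x : ℂ) ≠ 0 := by exact_mod_cast hx.1.ne'
      exact div_ne_zero this two_ne_zero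
    have h10 := h8.symm
    rw [Complex.ofReal_zero] at h10
    exact (mul_eq_zero.1 h10).resolve_left h9
  have h7 : F m 0 = 0 :=
    tendsto_nhds_unique (h5.congr' h6) tendsto_const_nhds
  rw [F_zero] at h7
  have : (m.factorial : ℂ) ≠ 0 := by exact_mod_cast m.factorial_ne_zero
  exact (one_div_ne_zero this) h7

theorem hasDerivAt_Ge (m : ℕ) {x : ℝ} (hx : x ≠ 0) :
    HasDerivAt (Ge m) ((2 * m + 1) * (J m x * J (m + 1) x) / x) x := by
  have h1 := ((hasDerivAt_id x).mul (hasDerivAt_en m hx)).sub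
    (((hasDerivAt_J m hx).mul (hasDerivAt_J' m hx)).const_mul (2 * (m : ℝ) + 1))
  have h2 : 1 * en m x + id x * (2 / x * (m * J m x ^ 2 - (m + 1) * J (m + 1) x ^ 2)) -
      (2 * (m : ℝ) + 1) * (((m : ℝ) / x * J m x - J (m + 1) x) * J (m + 1) x +
        J m x * (J m x - ((m : ℝ) + 1) / x * J (m + 1) x)) =
      (2 * m + 1) * (J m x * J (m + 1) x) / x := by
    unfold en
    simp only [id]
    field_simp
    ring
  rw [← h2]
  exact h1

private theorem abs_prod_le (m : ℕ) (x : ℝ) : |J m x * J (m + 1) x| ≤ en m x / 2 := by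
  unfold en
  rw [abs_le]
  constructor
  · nlinarith [sq_nonneg (J m x + J (m + 1) x)]
  · nlinarith [sq_nonneg (J m x - J (m + 1) x)]

private theorem Ge_lower (m : ℕ) {x : ℝ} (hx : (2 * m + 1 : ℝ) ≤ x) : x * en m x / 2 ≤ Ge m x := by
  have h1 := abs_prod_le m x
  have h2 := en_nonneg m x
  have h3 := (abs_le.1 h1).2
  unfold Ge
  have h4 : (2 * (m : ℝ) + 1) * (J m x * J (m + 1) x) ≤ (2 * m + 1) * (en m x / 2) :=
    mul_le_mul_of_nonneg_left h3 (by positivity)
  have h5 : (2 * (m : ℝ) + 1) * (en m x / 2) ≤ x * (en m x / 2) :=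
    mul_le_mul_of_nonneg_right hx (by positivity)
  linarith

private theorem Ge_upper (m : ℕ) {x : ℝ} (hx : (2 * m + 1 : ℝ) ≤ x) : Ge m x ≤ 2 * (x * en m x) := by
  have h1 := abs_prod_le m x
  have h2 := en_nonneg m x
  have h3 := (abs_le.1 h1).1
  unfold Ge
  have h4 : (2 * (m : ℝ) + 1) * (-(en m x / 2)) ≤ (2 * m + 1) * (J m x * J (m + 1) x) :=
    mul_le_mul_of_nonneg_left h3 (by positivity)
  have h5 : (2 * (m : ℝ) + 1) * (en m x / 2) ≤ x * (en m x / 2) :=
    mul_le_mul_of_nonneg_right hx (by positivity)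
  have h6 : 0 ≤ x * en m x := mul_nonneg (by linarith [(Nat.cast_nonneg m : (0 : ℝ) ≤ m)]) h2
  linarith

private theorem Ge_deriv_bound (m : ℕ) {x : ℝ} (hx : (2 * m + 1 : ℝ) ≤ x) :
    |(2 * m + 1) * (J m x * J (m + 1) x) / x| ≤ (2 * m + 1) / x ^ 2 * Ge m x := by
  have hx0 : 0 < x := by
    have := (Nat.cast_nonneg m : (0 : ℝ) ≤ m)
    linarith
  have h1 := abs_prod_le m x
  have h2 := Ge_lower m hx
  rw [abs_div, abs_mul, abs_of_pos hx0, abs_of_nonneg (by positivity : (0 : ℝ) ≤ 2 * m + 1)]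
  have h3 : (2 * (m : ℝ) + 1) * |J m x * J (m + 1) x| / x ≤ (2 * m + 1) * (en m x / 2) / x := by
    gcongr
  have h4 : (2 * (m : ℝ) + 1) * (en m x / 2) / x = (2 * m + 1) / x ^ 2 * (x * en m x / 2) := by
    field_simp
  rw [h4] at h3
  refine h3.trans ?_
  gcongr

/-- The energy decays exactly like `1 / x`. -/
theorem en_bounds (m : ℕ) : ∃ c C : ℝ, 0 < c ∧ 0 < C ∧
    ∀ x : ℝ, (2 * m + 1 : ℝ) ≤ x → c / x ≤ en m x ∧ en m x ≤ C / x := by
  set a : ℝ := 2 * m + 1 with ha
  have ha0 : 0 < a := by positivity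
  have hP : AntitoneOn (fun y => Ge m y * Real.exp (a / y)) (Ici a) := by
    have hd : ∀ x : ℝ, 0 < x → HasDerivAt (fun y => Ge m y * Real.exp (a / y))
        ((2 * m + 1) * (J m x * J (m + 1) x) / x * Real.exp (a / x) +
          Ge m x * (Real.exp (a / x) * (-a / x ^ 2))) x := by
      intro x hx
      have h1 : HasDerivAt (fun y : ℝ => a / y) (-a / x ^ 2) x := by
        have := (hasDerivAt_inv hx.ne').const_mul a
        have h2 : (fun y : ℝ => a / y) = fun y => a * y⁻¹ := by
          funext y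
          rw [div_eq_mul_inv]
        rw [h2]
        have h3 : -a / x ^ 2 = a * -(x ^ 2)⁻¹ := by
          field_simp
        rw [h3]
        exact this
      exact (hasDerivAt_Ge m hx.ne').mul h1.exp
    apply antitoneOn_of_deriv_nonpos (convex_Ici a)
    · intro x hx
      exact (hd x (lt_of_lt_of_le ha0 hx)).continuousAt.continuousWithinAt
    · intro x hx
      rw [interior_Ici] at hx
      exact (hd x (ha0.trans hx)).differentiableAt.differentiableWithinAt
    · intro x hx
      rw [interior_Ici] at hx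
      have hxa : a < x := hx
      have hx0 : 0 < x := ha0.trans hxa
      rw [(hd x hx0).deriv]
      have h1 := (abs_le.1 (Ge_deriv_bound m (x := x) (by rw [← ha]; exact hxa.le))).2
      have h2 := Real.exp_pos (a / x)
      have h3 : (2 * m + 1) * (J m x * J (m + 1) x) / x * Real.exp (a / x) +
          Ge m x * (Real.exp (a / x) * (-a / x ^ 2)) =
          ((2 * m + 1) * (J m x * J (m + 1) x) / x - (2 * m + 1) / x ^ 2 * Ge m x) * Real.exp (a / x) := by
        rw [ha]
        ring
      rw [h3]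
      apply mul_nonpos_of_nonpos_of_nonneg
      · linarith
      · exact h2.le
  have hQ : MonotoneOn (fun y => Ge m y * Real.exp (-a / y)) (Ici a) := by
    have hd : ∀ x : ℝ, 0 < x → HasDerivAt (fun y => Ge m y * Real.exp (-a / y))
        ((2 * m + 1) * (J m x * J (m + 1) x) / x * Real.exp (-a / x) +
          Ge m x * (Real.exp (-a / x) * (a / x ^ 2))) x := by
      intro x hx
      have h1 : HasDerivAt (fun y : ℝ => -a / y) (a / x ^ 2) x := by
        have := (hasDerivAt_inv hx.ne').const_mul (-a)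
        have h2 : (fun y : ℝ => -a / y) = fun y => -a * y⁻¹ := by
          funext y
          rw [div_eq_mul_inv]
        rw [h2]
        have h3 : a / x ^ 2 = -a * -(x ^ 2)⁻¹ := by
          field_simp
        rw [h3]
        exact this
      exact (hasDerivAt_Ge m hx.ne').mul h1.exp
    apply monotoneOn_of_deriv_nonneg (convex_Ici a)
    · intro x hx
      exact (hd x (lt_of_lt_of_le ha0 hx)).continuousAt.continuousWithinAt
    · intro x hx
      rw [interior_Ici] at hx
      exact (hd x (ha0.trans hx)).differentiableAt.differentiableWithinAt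
    · intro x hx
      rw [interior_Ici] at hx
      have hxa : a < x := hx
      have hx0 : 0 < x := ha0.trans hxa
      rw [(hd x hx0).deriv]
      have h1 := (abs_le.1 (Ge_deriv_bound m (x := x) (by rw [← ha]; exact hxa.le))).1
      have h2 := Real.exp_pos (-a / x)
      have h3 : (2 * m + 1) * (J m x * J (m + 1) x) / x * Real.exp (-a / x) +
          Ge m x * (Real.exp (-a / x) * (a / x ^ 2)) =
          ((2 * m + 1) * (J m x * J (m + 1) x) / x + (2 * m + 1) / x ^ 2 * Ge m x) * Real.exp (-a / x) := by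
        rw [ha]
        ring
      rw [h3]
      apply mul_nonneg
      · linarith
      · exact h2.le
  have hGa : 0 < Ge m a := by
    have h1 := Ge_lower m (x := a) (by rw [← ha])
    have h2 := en_pos m ha0
    have : 0 < a * en m a / 2 := by positivity
    linarith
  refine ⟨Ge m a * Real.exp (-a / a) / 2, 2 * (Ge m a * Real.exp (a / a)), by positivity, by positivity, ?_⟩
  intro x hx
  have hx0 : 0 < x := lt_of_lt_of_le ha0 hx
  have h1 := hP (show a ∈ Ici a from le_refl a) (show x ∈ Ici a from hx) hx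
  have h2 := hQ (show a ∈ Ici a from le_refl a) (show x ∈ Ici a from hx) hx
  simp only at h1 h2
  have h3 := Ge_lower m (x := x) (by rw [← ha]; exact hx)
  have h4 := Ge_upper m (x := x) (by rw [← ha]; exact hx)
  have h5 : 1 ≤ Real.exp (a / x) := Real.one_le_exp (by positivity)
  have h6 : Real.exp (-a / x) ≤ 1 := Real.exp_le_one_iff.2 (by
    rw [neg_div]
    have : 0 < a / x := by positivity
    linarith)
  have h7 : 0 ≤ Ge m x := by
    have : 0 ≤ x * en m x / 2 := by
      have := en_nonneg m x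
      positivity
    linarith
  constructor
  · rw [div_le_iff₀ hx0]
    have h8 : Ge m x * Real.exp (-a / x) ≤ Ge m x := mul_le_of_le_one_right h7 h6
    nlinarith
  · rw [le_div_iff₀ hx0]
    have h8 : Ge m x ≤ Ge m x * Real.exp (a / x) := le_mul_of_one_le_right h7 h5
    nlinarith

theorem tendsto_J (m : ℕ) : Tendsto (J m) atTop (𝓝 0) := by
  obtain ⟨c, C, hc, hC, h⟩ := en_bounds m
  have h1 : Tendsto (fun x : ℝ => J m x ^ 2) atTop (𝓝 0) := by
    have h2 : Tendsto (fun x : ℝ => C / x) atTop (𝓝 0) := tendsto_const_nhds.div_atTop tendsto_id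
    refine squeeze_zero' (Eventually.of_forall fun x => sq_nonneg _) ?_ h2
    filter_upwards [eventually_ge_atTop (2 * (m : ℝ) + 1)] with x hx
    have h3 := (h x hx).2
    unfold en at h3
    have : 0 ≤ J (m + 1) x ^ 2 := by positivity
    linarith
  have h2 : Tendsto (fun x : ℝ => Real.sqrt (J m x ^ 2)) atTop (𝓝 (Real.sqrt 0)) :=
    (Real.continuous_sqrt.tendsto 0).comp h1
  rw [Real.sqrt_zero] at h2
  have h3 : (fun x : ℝ => Real.sqrt (J m x ^ 2)) = fun x => |J m x| := by
    funext x
    exact Real.sqrt_sq_eq_abs _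
  rw [h3] at h2
  exact (tendsto_zero_iff_abs_tendsto_zero _).2 h2

private theorem osc_aux (m : ℕ) (σ X : ℝ) (hσ : σ = 1 ∨ σ = -1)
    (hX : ∀ x, X ≤ x → |J m x| < σ * J (m + 1) x) : False := by
  obtain ⟨c, C, hc, hC, h⟩ := en_bounds m
  set X' : ℝ := max (max X (2 * m + 1)) (2 * m + 2) with hX'
  have hX1 : X ≤ X' := (le_max_left _ _).trans (le_max_left _ _)
  have hX2 : (2 * m + 1 : ℝ) ≤ X' := (le_max_right _ _).trans (le_max_left _ _)
  have hX3 : (2 * m + 2 : ℝ) ≤ X' := le_max_right _ _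
  have hm0 : (0 : ℝ) ≤ m := Nat.cast_nonneg m
  have hX0 : 0 < X' := by linarith
  have hσ2 : σ ^ 2 = 1 := by rcases hσ with h | h <;> rw [h] <;> norm_num
  set d : ℝ := Real.sqrt (c / 2) with hd
  have hd0 : 0 < d := Real.sqrt_pos.2 (by positivity)
  -- lower bound for the second component
  have hlow : ∀ x, X' ≤ x → d / Real.sqrt x ≤ σ * J (m + 1) x := by
    intro x hx
    have hx0 : 0 < x := hX0.trans_le hx
    have h1 := hX x (hX1.trans hx)
    have h2 := (h x (hX2.trans hx)).1
    have h3 : 0 ≤ |J m x| := abs_nonneg _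
    have h4 : J m x ^ 2 ≤ (σ * J (m + 1) x) ^ 2 := by
      rw [← sq_abs]
      exact pow_le_pow_left₀ h3 h1.le 2
    have h5 : (σ * J (m + 1) x) ^ 2 = J (m + 1) x ^ 2 := by
      rw [mul_pow, hσ2, one_mul]
    have h6 : c / x / 2 ≤ (σ * J (m + 1) x) ^ 2 := by
      unfold en at h2
      rw [h5] at h4 ⊢
      linarith
    have h7 : (d / Real.sqrt x) ^ 2 ≤ (σ * J (m + 1) x) ^ 2 := by
      rw [div_pow, hd, Real.sq_sqrt (by positivity), Real.sq_sqrt hx0.le]
      have : c / 2 / x = c / x / 2 := by ring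
      rw [this]
      exact h6
    exact (pow_le_pow_iff_left₀ (by positivity) (h3.trans h1.le) two_ne_zero).1 h7
  have hder : ∀ x, X' ≤ x → HasDerivAt (fun y => σ * J m y + d * Real.sqrt y)
      (σ * ((m : ℝ) / x * J m x - J (m + 1) x) + d * (1 / (2 * Real.sqrt x))) x := by
    intro x hx
    have hx0 : 0 < x := hX0.trans_le hx
    exact ((hasDerivAt_J m hx0.ne').const_mul σ).add ((Real.hasDerivAt_sqrt hx0.ne').const_mul d)
  have hanti : AntitoneOn (fun y => σ * J m y + d * Real.sqrt y) (Ici X') := by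
    apply antitoneOn_of_deriv_nonpos (convex_Ici X')
    · intro x hx
      exact (hder x hx).continuousAt.continuousWithinAt
    · intro x hx
      rw [interior_Ici] at hx
      exact (hder x (le_of_lt hx)).differentiableAt.differentiableWithinAt
    · intro x hx
      rw [interior_Ici] at hx
      have hx' : X' ≤ x := le_of_lt hx
      have hx0 : 0 < x := hX0.trans_le hx'
      rw [(hder x hx').deriv]
      have h1 := hX x (hX1.trans hx')
      have h2 := hlow x hx'
      have h3 : σ * ((m : ℝ) / x * J m x) ≤ σ * J (m + 1) x / 2 := by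
        have h4 : σ * ((m : ℝ) / x * J m x) ≤ |σ * ((m : ℝ) / x * J m x)| := le_abs_self _
        have h5 : |σ * ((m : ℝ) / x * J m x)| = (m : ℝ) / x * |J m x| := by
          rw [abs_mul, abs_mul, abs_of_nonneg (by positivity : (0 : ℝ) ≤ (m : ℝ) / x)]
          have : |σ| = 1 := by rcases hσ with h | h <;> rw [h] <;> norm_num
          rw [this, one_mul]
        have h6 : (m : ℝ) / x ≤ 1 / 2 := by
          rw [div_le_div_iff₀ hx0 (by norm_num)]
          linarith
        have h7 : (m : ℝ) / x * |J m x| ≤ 1 / 2 * (σ * J (m + 1) x) :=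
          mul_le_mul h6 h1.le (abs_nonneg _) (by norm_num)
        linarith
      have h4 : d * (1 / (2 * Real.sqrt x)) = d / Real.sqrt x / 2 := by
        field_simp
      rw [h4, mul_sub]
      linarith
  -- contradiction for large x
  have hbd : ∀ x, X' ≤ x → |J m x| ≤ Real.sqrt C := by
    intro x hx
    have hx0 : 0 < x := hX0.trans_le hx
    have h1 := (h x (hX2.trans hx)).2
    have h2 : C / x ≤ C := div_le_self hC.le (by linarith)
    have h3 : J m x ^ 2 ≤ C := by
      unfold en at h1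
      have : 0 ≤ J (m + 1) x ^ 2 := by positivity
      linarith
    exact Real.abs_le_sqrt h3
  set B : ℝ := |σ * J m X' + d * Real.sqrt X'| + Real.sqrt C + 1 with hB
  have hB0 : 0 < B := by positivity
  set x₁ : ℝ := max X' ((B / d) ^ 2) with hx₁
  have h1 := hanti (show X' ≤ X' from le_rfl) (show X' ≤ x₁ from le_max_left _ _) (le_max_left _ _)
  simp only at h1
  have h2 : B / d ≤ Real.sqrt x₁ := by
    apply Real.le_sqrt_of_sq_le
    exact le_max_right _ _
  have h3 : B ≤ d * Real.sqrt x₁ := by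
    rw [div_le_iff₀ hd0] at h2
    linarith
  have h4 := hbd x₁ (le_max_left _ _)
  have h5 : -Real.sqrt C ≤ σ * J m x₁ := by
    have : |σ * J m x₁| = |J m x₁| := by
      rw [abs_mul]
      have : |σ| = 1 := by rcases hσ with h | h <;> rw [h] <;> norm_num
      rw [this, one_mul]
    rw [← this] at h4
    exact (abs_le.1 h4).1
  have h6 := le_abs_self (σ * J m X' + d * Real.sqrt X')
  linarith

theorem osc (m : ℕ) (X : ℝ) : ∃ x, X ≤ x ∧ |J (m + 1) x| ≤ |J m x| := by
  by_contra hcon
  push Not at hcon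
  have hne : ∀ x, X ≤ x → J (m + 1) x ≠ 0 := by
    intro x hx h0
    have := hcon x hx
    rw [h0, abs_zero] at this
    exact absurd this (not_lt.2 (abs_nonneg _))
  rcases lt_or_gt_of_ne (hne X le_rfl) with hs | hs
  · have h1 : ∀ x, X ≤ x → J (m + 1) x < 0 := by
      intro x hx
      by_contra h2
      push Not at h2
      have h3 : (0 : ℝ) ∈ J (m + 1) '' Icc X x :=
        intermediate_value_Icc hx (continuous_J (m + 1)).continuousOn ⟨hs.le, h2⟩
      obtain ⟨y, hy, hy0⟩ := h3
      exact hne y hy.1 hy0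
    refine osc_aux m (-1) X (Or.inr rfl) fun x hx => ?_
    have h2 := hcon x hx
    rw [abs_of_neg (h1 x hx)] at h2
    linarith
  · have h1 : ∀ x, X ≤ x → 0 < J (m + 1) x := by
      intro x hx
      by_contra h2
      push Not at h2
      have h3 : (0 : ℝ) ∈ J (m + 1) '' Icc X x :=
        intermediate_value_Icc' hx (continuous_J (m + 1)).continuousOn ⟨h2, hs.le⟩
      obtain ⟨y, hy, hy0⟩ := h3
      exact hne y hy.1 hy0
    refine osc_aux m 1 X (Or.inl rfl) fun x hx => ?_
    have h2 := hcon x hx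
    rw [abs_of_pos (h1 x hx)] at h2
    linarith

/-- Arbitrarily large points where `J_M` dominates all `J_m`, `m ≤ M`. -/
theorem good_points (M : ℕ) : ∃ K : ℝ, 0 < K ∧ ∀ X : ℝ, ∃ x, X ≤ x ∧ J M x ≠ 0 ∧
    ∀ m ≤ M, |J m x| ≤ K * |J M x| := by
  choose c C hc hC h using en_bounds
  set S : ℝ := ∑ m ∈ Finset.range (M + 1), C m with hS
  have hSpos : 0 < S := Finset.sum_pos (fun m _ => hC m) ⟨0, by simp⟩
  refine ⟨Real.sqrt (2 * S / c M), Real.sqrt_pos.2 (by have := hc M; positivity), fun X => ?_⟩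
  obtain ⟨x, hx, hx2⟩ := osc M (max X (2 * M + 1))
  have hxX : X ≤ x := (le_max_left _ _).trans hx
  have hxM : (2 * M + 1 : ℝ) ≤ x := (le_max_right _ _).trans hx
  have hM0 : (0 : ℝ) ≤ M := Nat.cast_nonneg M
  have hx0 : 0 < x := by linarith
  have h1 := (h M x hxM).1
  have h2 : J (M + 1) x ^ 2 ≤ J M x ^ 2 := by
    rw [← sq_abs (J (M + 1) x), ← sq_abs (J M x)]
    exact pow_le_pow_left₀ (abs_nonneg _) hx2 2
  have h3 : c M / x ≤ 2 * J M x ^ 2 := by
    unfold en at h1
    linarith
  have hcM := hc M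
  refine ⟨x, hxX, ?_, ?_⟩
  · intro h0
    rw [h0] at h3
    have : 0 < c M / x := by positivity
    norm_num at h3
    linarith
  · intro m hm
    have hmx : (2 * m + 1 : ℝ) ≤ x := by
      have : (m : ℝ) ≤ M := by exact_mod_cast hm
      linarith
    have h4 := (h m x hmx).2
    have h5 : J m x ^ 2 ≤ C m / x := by
      unfold en at h4
      have : 0 ≤ J (m + 1) x ^ 2 := by positivity
      linarith
    have h6 : C m ≤ S := Finset.single_le_sum (f := C) (fun i _ => (hC i).le) (Finset.mem_range.2 (by omega))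
    have h7 : J m x ^ 2 ≤ 2 * S / c M * J M x ^ 2 := by
      have h8 : C m / x ≤ S / x := by gcongr
      have h9 : S / x = S / c M * (c M / x) := by field_simp
      have h10 : S / c M * (c M / x) ≤ S / c M * (2 * J M x ^ 2) := by gcongr
      have h11 : S / c M * (2 * J M x ^ 2) = 2 * S / c M * J M x ^ 2 := by ring
      linarith
    have h8 : Real.sqrt (J m x ^ 2) ≤ Real.sqrt (2 * S / c M * J M x ^ 2) := Real.sqrt_le_sqrt h7
    rw [Real.sqrt_sq_eq_abs, Real.sqrt_mul (by positivity), Real.sqrt_sq_eq_abs] at h8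
    exact h8

end DrumF
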