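import Mathlib

/-!
# Bessel functions of integer order

`F m w = ∑ (-1)^j w^j / (j! (j + m)!)`, `Jc m w = (w / 2) ^ m F m (w ^ 2 / 4)`, `J m` is the real Bessel function.
-/

set_option autoImplicit false

namespace DrumF

open Complex Filter Topology

/-- The power series `∑ (-1)^j w^j / (j! (j + m)!)`. -/
noncomputable def F (m : ℕ) (w : ℂ) : ℂ := ∑' j : ℕ, (-1) ^ j * w ^ j / (j.factorial * (j + m).factorial)

/-- The Bessel function of the first kind of order `m`. -/
noncomputable def J (m : ℕ) (x : ℝ) : ℝ :=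
  ∑' j : ℕ, (-1) ^ j * (x / 2) ^ (2 * j + m) / (j.factorial * (j + m).factorial)

theorem norm_term_le (m j : ℕ) (w : ℂ) :
    ‖(-1) ^ j * w ^ j / (j.factorial * (j + m).factorial)‖ ≤ ‖w‖ ^ j / j.factorial := by
  rw [norm_div, norm_mul, norm_pow, norm_neg, norm_one, one_pow, one_mul, norm_pow, norm_mul]
  have h1 : ‖((j.factorial : ℕ) : ℂ)‖ = (j.factorial : ℝ) := by
    rw [Complex.norm_natCast]
  have h2 : ‖(((j + m).factorial : ℕ) : ℂ)‖ = ((j + m).factorial : ℝ) := by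
    rw [Complex.norm_natCast]
  rw [h1, h2]
  have h3 : (0 : ℝ) < j.factorial := by exact_mod_cast j.factorial_pos
  have h4 : (1 : ℝ) ≤ (j + m).factorial := by exact_mod_cast (j + m).factorial_pos
  apply div_le_div_of_nonneg_left (by positivity) h3
  nlinarith

theorem summable_term (m : ℕ) (w : ℂ) :
    Summable fun j : ℕ => (-1) ^ j * w ^ j / (j.factorial * (j + m).factorial : ℂ) :=
  Summable.of_norm_bounded (Real.summable_pow_div_factorial ‖w‖) fun j => norm_term_le m j w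

private theorem term_le_ball {R : ℝ} (m j : ℕ) {w : ℂ} (hw : w ∈ Metric.ball (0 : ℂ) R) :
    ‖(-1) ^ j * w ^ j / (j.factorial * (j + m).factorial : ℂ)‖ ≤ R ^ j / j.factorial := by
  refine (norm_term_le m j w).trans ?_
  have h1 : ‖w‖ ≤ R := by
    have := mem_ball_zero_iff.1 hw
    exact this.le
  gcongr

private theorem term_diff (m j : ℕ) (U : Set ℂ) :
    DifferentiableOn ℂ (fun w : ℂ => (-1) ^ j * w ^ j / (j.factorial * (j + m).factorial : ℂ)) U := by
  intro w _
  fun_prop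

theorem differentiable_F (m : ℕ) : Differentiable ℂ (F m) := by
  intro w
  have h1 : DifferentiableOn ℂ (F m) (Metric.ball (0 : ℂ) (‖w‖ + 1)) :=
    differentiableOn_tsum_of_summable_norm (Real.summable_pow_div_factorial (‖w‖ + 1))
      (fun j => term_diff m j _) Metric.isOpen_ball fun j v hv => term_le_ball m j hv
  exact (h1 w (by simp)).differentiableAt (Metric.isOpen_ball.mem_nhds (by simp))

theorem hasDerivAt_F (m : ℕ) (w : ℂ) : HasDerivAt (F m) (-F (m + 1) w) w := by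
  have h1 : HasSum (fun j : ℕ => deriv (fun v : ℂ => (-1) ^ j * v ^ j / (j.factorial * (j + m).factorial : ℂ)) w)
      (deriv (F m) w) :=
    hasSum_deriv_of_summable_norm (U := Metric.ball (0 : ℂ) (‖w‖ + 1))
      (Real.summable_pow_div_factorial (‖w‖ + 1))
      (fun j => term_diff m j _) Metric.isOpen_ball (fun j v hv => term_le_ball m j hv) (by simp)
  have h2 : ∀ j : ℕ, deriv (fun v : ℂ => (-1) ^ (j + 1) * v ^ (j + 1) /
      ((j + 1).factorial * (j + 1 + m).factorial : ℂ)) w =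
      -((-1) ^ j * w ^ j / (j.factorial * (j + (m + 1)).factorial : ℂ)) := by
    intro j
    have h3 : HasDerivAt (fun v : ℂ => (-1) ^ (j + 1) * v ^ (j + 1) /
      ((j + 1).factorial * (j + 1 + m).factorial : ℂ))
      ((-1) ^ (j + 1) * (((j + 1 : ℕ) : ℂ) * w ^ j) / ((j + 1).factorial * (j + 1 + m).factorial : ℂ)) w := by
      have h4 := ((hasDerivAt_pow (j + 1) w).const_mul ((-1 : ℂ) ^ (j + 1))).div_const
        ((j + 1).factorial * (j + 1 + m).factorial : ℂ)
      simpa using h4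
    rw [h3.deriv]
    have h5 : ((j + 1).factorial : ℂ) = ((j : ℂ) + 1) * (j.factorial : ℂ) := by
      rw [Nat.factorial_succ]
      push_cast
      ring
    have h6 : j + 1 + m = j + (m + 1) := by ring
    have h7 : (j.factorial : ℂ) ≠ 0 := by exact_mod_cast j.factorial_ne_zero
    have h8 : ((j + (m + 1)).factorial : ℂ) ≠ 0 := by exact_mod_cast (j + (m + 1)).factorial_ne_zero
    have h9 : ((j : ℂ) + 1) ≠ 0 := by exact_mod_cast Nat.succ_ne_zero j
    rw [h5, h6]
    push_cast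
    field_simp
    ring
  have h3 : deriv (F m) w = -F (m + 1) w := by
    have h4 := h1.tsum_eq
    have h5 := h1.summable
    rw [h5.tsum_eq_zero_add] at h4
    rw [← h4]
    have h6 : deriv (fun v : ℂ => (-1) ^ 0 * v ^ 0 / ((0 : ℕ).factorial * (0 + m).factorial : ℂ)) w = 0 := by
      simp
    rw [h6, zero_add]
    unfold F
    rw [← tsum_neg]
    exact tsum_congr h2
  rw [← h3]
  exact (differentiable_F m w).hasDerivAt

theorem F_rec (m : ℕ) (w : ℂ) : (m + 1) * F (m + 1) w - w * F (m + 2) w = F m w := by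
  have h1 := summable_term (m + 1) w
  have h2 := summable_term (m + 2) w
  have h3 : w * F (m + 2) w = ∑' j : ℕ, w * ((-1) ^ j * w ^ j / (j.factorial * (j + (m + 2)).factorial : ℂ)) := by
    unfold F
    rw [tsum_mul_left]
  have h4 : Summable fun j : ℕ => w * ((-1) ^ j * w ^ j / (j.factorial * (j + (m + 2)).factorial : ℂ)) :=
    h2.mul_left w
  have h5 : (m + 1) * F (m + 1) w =
      ∑' j : ℕ, ((m : ℂ) + 1) * ((-1) ^ j * w ^ j / (j.factorial * (j + (m + 1)).factorial : ℂ)) := by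
    unfold F
    rw [tsum_mul_left]
  have h6 : Summable fun j : ℕ => ((m : ℂ) + 1) * ((-1) ^ j * w ^ j / (j.factorial * (j + (m + 1)).factorial : ℂ)) :=
    h1.mul_left _
  rw [h5, h3, h6.tsum_eq_zero_add]
  have h7 : F m w = (-1) ^ 0 * w ^ 0 / ((0 : ℕ).factorial * (0 + m).factorial : ℂ) +
      ∑' j : ℕ, ((-1) ^ (j + 1) * w ^ (j + 1) / ((j + 1).factorial * (j + 1 + m).factorial : ℂ)) := by
    unfold F
    rw [(summable_term m w).tsum_eq_zero_add]
  rw [h7, add_sub_assoc]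
  have h8 : Summable fun j : ℕ => ((m : ℂ) + 1) *
      ((-1) ^ (j + 1) * w ^ (j + 1) / ((j + 1).factorial * (j + 1 + (m + 1)).factorial : ℂ)) :=
    (summable_nat_add_iff 1).2 h6
  rw [← h8.tsum_sub h4]
  have hm : ((m.factorial : ℕ) : ℂ) ≠ 0 := by exact_mod_cast m.factorial_ne_zero
  have hm1 : ((m : ℂ) + 1) ≠ 0 := by exact_mod_cast Nat.succ_ne_zero m
  have h9 : ((m : ℂ) + 1) * ((-1) ^ 0 * w ^ 0 / ((0 : ℕ).factorial * (0 + (m + 1)).factorial : ℂ)) =
      (-1) ^ 0 * w ^ 0 / ((0 : ℕ).factorial * (0 + m).factorial : ℂ) := by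
    have : ((0 + (m + 1)).factorial : ℂ) = ((m : ℂ) + 1) * (m.factorial : ℂ) := by
      rw [zero_add, Nat.factorial_succ]
      push_cast
      ring
    rw [this, zero_add]
    field_simp
  rw [h9]
  congr 1
  refine tsum_congr fun j => ?_
  have hj : ((j.factorial : ℕ) : ℂ) ≠ 0 := by exact_mod_cast j.factorial_ne_zero
  have hj1 : ((j : ℂ) + 1) ≠ 0 := by exact_mod_cast Nat.succ_ne_zero j
  have hjm : (((j + 1 + m).factorial : ℕ) : ℂ) ≠ 0 := by exact_mod_cast (j + 1 + m).factorial_ne_zero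
  have hjm1 : ((j : ℂ) + m + 2) ≠ 0 := by exact_mod_cast Nat.succ_ne_zero (j + m + 1)
  have e1 : ((j + 1).factorial : ℂ) = ((j : ℂ) + 1) * (j.factorial : ℂ) := by
    rw [Nat.factorial_succ]
    push_cast
    ring
  have e2 : ((j + 1 + (m + 1)).factorial : ℂ) = ((j : ℂ) + m + 2) * ((j + 1 + m).factorial : ℂ) := by
    rw [show j + 1 + (m + 1) = (j + 1 + m) + 1 by ring, Nat.factorial_succ]
    push_cast
    ring
  have e3 : ((j + (m + 2)).factorial : ℂ) = ((j : ℂ) + m + 2) * ((j + 1 + m).factorial : ℂ) := by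
    rw [show j + (m + 2) = (j + 1 + m) + 1 by ring, Nat.factorial_succ]
    push_cast
    ring
  rw [e1, e2, e3]
  field_simp
  ring

theorem F_zero (m : ℕ) : F m 0 = 1 / (m.factorial : ℂ) := by
  unfold F
  rw [tsum_eq_single 0]
  · simp
  · intro j hj
    simp [hj]

/-- The complex Bessel function. -/
noncomputable def Jc (m : ℕ) (w : ℂ) : ℂ := (w / 2) ^ m * F m (w ^ 2 / 4)

theorem J_eq (m : ℕ) (x : ℝ) : (J m x : ℂ) = Jc m x := by
  unfold J Jc F
  rw [Complex.ofReal_tsum, ← tsum_mul_left]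
  refine tsum_congr fun j => ?_
  push_cast
  have h1 : ((x : ℂ) ^ 2 / 4) ^ j = ((x : ℂ) / 2) ^ (2 * j) := by
    rw [pow_mul]
    congr 1
    ring
  rw [h1, pow_add]
  ring

theorem J_re (m : ℕ) (x : ℝ) : J m x = (Jc m x).re := by
  rw [← J_eq, Complex.ofReal_re]

theorem differentiable_Jc (m : ℕ) : Differentiable ℂ (Jc m) := by
  unfold Jc
  have h1 := differentiable_F m
  fun_prop

theorem hasDerivAt_Jc (m : ℕ) {w : ℂ} (hw : w ≠ 0) :
    HasDerivAt (Jc m) ((m : ℂ) / w * Jc m w - Jc (m + 1) w) w := by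
  have h1 : HasDerivAt (fun w : ℂ => (w / 2) ^ m) ((m : ℂ) * (w / 2) ^ (m - 1) * (1 / 2)) w := by
    have h2 : HasDerivAt (fun w : ℂ => w / 2) (1 / 2) w := (hasDerivAt_id w).div_const 2
    exact h2.pow m
  have h3 : HasDerivAt (fun w : ℂ => F m (w ^ 2 / 4)) (-F (m + 1) (w ^ 2 / 4) * (2 * w / 4)) w := by
    have h4 : HasDerivAt (fun w : ℂ => w ^ 2 / 4) (2 * w / 4) w := by
      have := (hasDerivAt_pow 2 w).div_const 4
      simpa using this
    exact (hasDerivAt_F m (w ^ 2 / 4)).comp w h4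
  have h5 := h1.mul h3
  have h6 : (m : ℂ) * (w / 2) ^ (m - 1) * (1 / 2) * F m (w ^ 2 / 4) +
      (w / 2) ^ m * (-F (m + 1) (w ^ 2 / 4) * (2 * w / 4)) = (m : ℂ) / w * Jc m w - Jc (m + 1) w := by
    unfold Jc
    rcases Nat.eq_zero_or_pos m with hm | hm
    · subst hm
      simp
      ring
    · obtain ⟨n, rfl⟩ : ∃ n, m = n + 1 := ⟨m - 1, by omega⟩
      simp only [Nat.add_sub_cancel]
      push_cast
      field_simp
      ring
  rw [← h6]
  exact h5

theorem hasDerivAt_Jc' (m : ℕ) {w : ℂ} (hw : w ≠ 0) :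
    HasDerivAt (Jc (m + 1)) (Jc m w - ((m : ℂ) + 1) / w * Jc (m + 1) w) w := by
  have h1 := hasDerivAt_Jc (m + 1) hw
  have h2 : ((m + 1 : ℕ) : ℂ) / w * Jc (m + 1) w - Jc (m + 1 + 1) w =
      Jc m w - ((m : ℂ) + 1) / w * Jc (m + 1) w := by
    have h3 := F_rec m (w ^ 2 / 4)
    unfold Jc
    rw [← h3]
    push_cast
    field_simp
    ring
  rw [← h2]
  exact h1

theorem hasDerivAt_J (m : ℕ) {x : ℝ} (hx : x ≠ 0) :
    HasDerivAt (J m) ((m : ℝ) / x * J m x - J (m + 1) x) x := by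
  have h1 := (hasDerivAt_Jc m (w := (x : ℂ)) (by exact_mod_cast hx)).real_of_complex
  have h2 : (fun y : ℝ => (Jc m y).re) = J m := funext fun y => (J_re m y).symm
  rw [h2] at h1
  have h3 : (((m : ℂ) / (x : ℂ) * Jc m x - Jc (m + 1) x).re) = (m : ℝ) / x * J m x - J (m + 1) x := by
    rw [← J_eq, ← J_eq]
    have : (m : ℂ) / (x : ℂ) * (J m x : ℂ) - (J (m + 1) x : ℂ) =
      (((m : ℝ) / x * J m x - J (m + 1) x : ℝ) : ℂ) := by push_cast; ring
    rw [this, Complex.ofReal_re]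
  rw [h3] at h1
  exact h1

theorem hasDerivAt_J' (m : ℕ) {x : ℝ} (hx : x ≠ 0) :
    HasDerivAt (J (m + 1)) (J m x - ((m : ℝ) + 1) / x * J (m + 1) x) x := by
  have h1 := (hasDerivAt_Jc' m (w := (x : ℂ)) (by exact_mod_cast hx)).real_of_complex
  have h2 : (fun y : ℝ => (Jc (m + 1) y).re) = J (m + 1) := funext fun y => (J_re (m + 1) y).symm
  rw [h2] at h1
  have h3 : ((Jc m x - ((m : ℂ) + 1) / (x : ℂ) * Jc (m + 1) x).re) =
      J m x - ((m : ℝ) + 1) / x * J (m + 1) x := by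
    rw [← J_eq, ← J_eq]
    have : (J m x : ℂ) - ((m : ℂ) + 1) / (x : ℂ) * (J (m + 1) x : ℂ) =
      ((J m x - ((m : ℝ) + 1) / x * J (m + 1) x : ℝ) : ℂ) := by push_cast; ring
    rw [this, Complex.ofReal_re]
  rw [h3] at h1
  exact h1

theorem analytic_J (m : ℕ) (x : ℝ) : AnalyticAt ℝ (J m) x := by
  have h1 : AnalyticAt ℂ (Jc m) (x : ℂ) := (differentiable_Jc m).analyticAt _
  have h2 := h1.re_ofReal
  have h3 : (fun y : ℝ => (Jc m y).re) = J m := funext fun y => (J_re m y).symm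
  rw [h3] at h2
  exact h2

theorem continuous_J (m : ℕ) : Continuous (J m) :=
  continuous_iff_continuousAt.2 fun x => (analytic_J m x).continuousAt

end DrumF
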