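import Mathlib

/-!
# Fourier coefficients of absolutely convergent almost periodic sums
-/

set_option autoImplicit false

namespace DrumF

open Filter Topology Set MeasureTheory

/-- The mean of `e^{i μ t}` over `[0, T]`. -/
noncomputable def mean (μ T : ℝ) : ℂ := (1 / T : ℝ) * ∫ t in (0 : ℝ)..T, Complex.exp (Complex.I * μ * t)

theorem norm_exp_I (μ t : ℝ) : ‖Complex.exp (Complex.I * μ * t)‖ = 1 := by
  have h1 : Complex.I * μ * t = ((μ * t : ℝ) : ℂ) * Complex.I := by
    push_cast
    ring
  rw [h1, Complex.norm_exp_ofReal_mul_I]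

theorem norm_mean_le (μ : ℝ) {T : ℝ} (hT : 0 < T) : ‖mean μ T‖ ≤ 1 := by
  unfold mean
  have h1 : ‖∫ t in (0 : ℝ)..T, Complex.exp (Complex.I * μ * t)‖ ≤ 1 * |T - 0| :=
    intervalIntegral.norm_integral_le_of_norm_le_const fun t _ => (norm_exp_I μ t).le
  rw [norm_mul, Complex.norm_real, Real.norm_eq_abs, abs_of_pos (by positivity : (0 : ℝ) < 1 / T)]
  rw [one_mul, sub_zero, abs_of_pos hT] at h1
  calc 1 / T * ‖∫ t in (0 : ℝ)..T, Complex.exp (Complex.I * μ * t)‖ ≤ 1 / T * T := by gcongr
    _ = 1 := by field_simp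

theorem mean_zero {T : ℝ} (hT : 0 < T) : mean 0 T = 1 := by
  unfold mean
  simp only [Complex.ofReal_zero, mul_zero, zero_mul, Complex.exp_zero, intervalIntegral.integral_const, sub_zero]
  rw [Complex.real_smul]
  push_cast
  have : (T : ℂ) ≠ 0 := by exact_mod_cast hT.ne'
  field_simp

theorem mean_tendsto (μ : ℝ) : Tendsto (fun N : ℕ => mean μ (N + 1)) atTop (𝓝 (if μ = 0 then 1 else 0)) := by
  by_cases h : μ = 0
  · rw [if_pos h, h]
    refine tendsto_const_nhds.congr fun N => ?_
    rw [mean_zero (by positivity)]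
  · rw [if_neg h]
    rw [tendsto_zero_iff_norm_tendsto_zero]
    have h1 : ∀ N : ℕ, ‖mean μ (N + 1)‖ ≤ 2 / |μ| * (1 / ((N : ℝ) + 1)) := by
      intro N
      have hc : Complex.I * (μ : ℂ) ≠ 0 := mul_ne_zero Complex.I_ne_zero (by exact_mod_cast h)
      have hT : (0 : ℝ) < (N : ℝ) + 1 := by positivity
      unfold mean
      rw [integral_exp_mul_complex hc, norm_mul, norm_div, norm_mul, Complex.norm_I, one_mul, Complex.norm_real,
        Complex.norm_real, Real.norm_eq_abs, Real.norm_eq_abs, abs_of_pos (by positivity : (0 : ℝ) < 1 / (N + 1))]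
      have h2 : ‖Complex.exp (Complex.I * μ * (((N : ℝ) + 1 : ℝ) : ℂ)) - Complex.exp (Complex.I * μ * ((0 : ℝ) : ℂ))‖ ≤
          2 := by
        refine (norm_sub_le _ _).trans ?_
        rw [norm_exp_I, norm_exp_I]
        norm_num
      have hμ : 0 < |μ| := abs_pos.2 h
      calc _ ≤ 1 / ((N : ℝ) + 1) * (2 / |μ|) := by gcongr
        _ = _ := by ring
    have h2 : Tendsto (fun N : ℕ => 2 / |μ| * (1 / ((N : ℝ) + 1))) atTop (𝓝 0) := by
      have h3 := (tendsto_one_div_add_atTop_nhds_zero_nat (𝕜 := ℝ)).const_mul (2 / |μ|)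
      rwa [mul_zero] at h3
    exact squeeze_zero (fun N => norm_nonneg _) h1 h2

variable {ι : Type*} [Countable ι]

theorem mean_sum {p : ι → ℂ} (hp : Summable fun j => ‖p j‖) (μ : ι → ℝ) (T : ℝ) :
    HasSum (fun j => p j * mean (μ j) T)
      ((1 / T : ℝ) * ∫ t in (0 : ℝ)..T, ∑' j, p j * Complex.exp (Complex.I * μ j * t)) := by
  have h1 : HasSum (fun j => ∫ t in (0 : ℝ)..T, p j * Complex.exp (Complex.I * μ j * t))
      (∫ t in (0 : ℝ)..T, ∑' j, p j * Complex.exp (Complex.I * μ j * t)) := by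
    refine intervalIntegral.hasSum_integral_of_dominated_convergence (fun j _ => ‖p j‖) (fun j => ?_) (fun j => ?_)
      ?_ ?_ ?_
    · exact (by fun_prop : Continuous fun t : ℝ => p j * Complex.exp (Complex.I * μ j * t)).aestronglyMeasurable
    · refine ae_of_all _ fun t _ => ?_
      rw [norm_mul, norm_exp_I, mul_one]
    · exact ae_of_all _ fun t _ => hp
    · exact intervalIntegrable_const
    · refine ae_of_all _ fun t _ => Summable.hasSum ?_
      refine Summable.of_norm_bounded hp fun j => ?_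
      rw [norm_mul, norm_exp_I, mul_one]
  have h2 := h1.mul_left ((1 / T : ℝ) : ℂ)
  refine h2.congr_fun fun j => ?_
  unfold mean
  rw [intervalIntegral.integral_const_mul]
  ring

/-- Uniqueness of the coefficients. -/
theorem bohr {p q : ι → ℂ} (hp : Summable fun j => ‖p j‖) (hq : Summable fun j => ‖q j‖) {ω : ι → ℝ}
    (hω : ∀ j, 0 < ω j)
    (h : ∀ t : ℝ, ∑' j, (p j * Complex.exp (Complex.I * ((-ω j : ℝ) : ℂ) * t) +
      q j * Complex.exp (Complex.I * ((ω j : ℝ) : ℂ) * t)) = 0) {w : ℝ} (hw : 0 < w) :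
    ∑' j, p j * (if w - ω j = 0 then 1 else 0) = 0 := by
  have hzero : ∀ t : ℝ, ∑' j, p j * Complex.exp (Complex.I * ((w - ω j : ℝ) : ℂ) * t) +
      ∑' j, q j * Complex.exp (Complex.I * ((w + ω j : ℝ) : ℂ) * t) = 0 := by
    intro t
    have s1 : Summable fun j => p j * Complex.exp (Complex.I * ((w - ω j : ℝ) : ℂ) * t) :=
      Summable.of_norm_bounded hp fun j => by rw [norm_mul, norm_exp_I, mul_one]
    have s2 : Summable fun j => q j * Complex.exp (Complex.I * ((w + ω j : ℝ) : ℂ) * t) :=
      Summable.of_norm_bounded hq fun j => by rw [norm_mul, norm_exp_I, mul_one]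
    rw [← s1.tsum_add s2]
    have h1 : ∀ j, p j * Complex.exp (Complex.I * ((w - ω j : ℝ) : ℂ) * t) +
        q j * Complex.exp (Complex.I * ((w + ω j : ℝ) : ℂ) * t) =
        Complex.exp (Complex.I * (w : ℂ) * t) * (p j * Complex.exp (Complex.I * ((-ω j : ℝ) : ℂ) * t) +
      q j * Complex.exp (Complex.I * ((ω j : ℝ) : ℂ) * t)) := by
      intro j
      have e1 : Complex.exp (Complex.I * ((w - ω j : ℝ) : ℂ) * t) =
          Complex.exp (Complex.I * (w : ℂ) * t) * Complex.exp (Complex.I * ((-ω j : ℝ) : ℂ) * t) := by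
        rw [← Complex.exp_add]
        congr 1
        push_cast
        ring
      have e2 : Complex.exp (Complex.I * ((w + ω j : ℝ) : ℂ) * t) =
          Complex.exp (Complex.I * (w : ℂ) * t) * Complex.exp (Complex.I * ((ω j : ℝ) : ℂ) * t) := by
        rw [← Complex.exp_add]
        congr 1
        push_cast
        ring
      rw [e1, e2]
      ring
    rw [tsum_congr h1, tsum_mul_left, h t, mul_zero]
  have hmean : ∀ N : ℕ, ∑' j, p j * mean (w - ω j) (N + 1) + ∑' j, q j * mean (w + ω j) (N + 1) = 0 := by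
    intro N
    rw [(mean_sum hp (fun j => w - ω j) (N + 1)).tsum_eq, (mean_sum hq (fun j => w + ω j) (N + 1)).tsum_eq,
      ← mul_add, ← intervalIntegral.integral_add]
    · rw [intervalIntegral.integral_congr (g := fun _ => (0 : ℂ)) fun t _ => hzero t]
      simp
    · apply Continuous.intervalIntegrable
      refine continuous_tsum (fun j => ?_) hp fun j t => ?_
      · fun_prop
      · rw [norm_mul, norm_exp_I, mul_one]
    · apply Continuous.intervalIntegrable
      refine continuous_tsum (fun j => ?_) hq fun j t => ?_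
      · fun_prop
      · rw [norm_mul, norm_exp_I, mul_one]
  have l1 : Tendsto (fun N : ℕ => ∑' j, p j * mean (w - ω j) (N + 1)) atTop
      (𝓝 (∑' j, p j * (if w - ω j = 0 then 1 else 0))) := by
    refine tendsto_tsum_of_dominated_convergence hp (fun j => (mean_tendsto (w - ω j)).const_mul (p j)) ?_
    refine Eventually.of_forall fun N j => ?_
    rw [norm_mul]
    have := norm_mean_le (w - ω j) (T := (N : ℝ) + 1) (by positivity)
    calc _ ≤ ‖p j‖ * 1 := by gcongr
      _ = _ := mul_one _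
  have l2 : Tendsto (fun N : ℕ => ∑' j, q j * mean (w + ω j) (N + 1)) atTop
      (𝓝 (∑' j, q j * (if w + ω j = 0 then 1 else 0))) := by
    refine tendsto_tsum_of_dominated_convergence hq (fun j => (mean_tendsto (w + ω j)).const_mul (q j)) ?_
    refine Eventually.of_forall fun N j => ?_
    rw [norm_mul]
    have := norm_mean_le (w + ω j) (T := (N : ℝ) + 1) (by positivity)
    calc _ ≤ ‖q j‖ * 1 := by gcongr
      _ = _ := mul_one _
  have l3 : ∑' j, q j * (if w + ω j = 0 then 1 else 0 : ℂ) = 0 := by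
    have h1 : ∀ j, q j * (if w + ω j = 0 then 1 else 0 : ℂ) = 0 := by
      intro j
      rw [if_neg (by linarith [hω j]), mul_zero]
    rw [tsum_congr h1, tsum_zero]
  rw [l3] at l2
  have l4 := l1.add l2
  rw [add_zero] at l4
  exact tendsto_nhds_unique l4 (tendsto_const_nhds.congr fun N => (hmean N).symm)

end DrumF
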