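import Pool.Agent.Lib.MP_d92c84_an.Dru

/-!
# Drum solutions on a rectangle: the sine coefficients oscillate
-/

set_option autoImplicit false

namespace DrumF

open Filter Topology Set MeasureTheory

/-- The open rectangle. -/
def Rect (A B : ℝ) : Set ℂ := {x | 0 < x.re ∧ x.re < A ∧ 0 < x.im ∧ x.im < B}

theorem rect_eq (A B : ℝ) : Rect A B = Ioo 0 A ×ℂ Ioo 0 B := by
  ext x
  simp only [Rect, mem_ofPred_eq, Complex.mem_reProdIm, mem_Ioo]
  tauto

theorem isOpen_rect (A B : ℝ) : IsOpen (Rect A B) := by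
  rw [rect_eq]
  exact isOpen_Ioo.reProdIm isOpen_Ioo

theorem closure_rect {A B : ℝ} (hA : 0 < A) (hB : 0 < B) : closure (Rect A B) = Icc 0 A ×ℂ Icc 0 B := by
  rw [rect_eq, Complex.closure_reProdIm, closure_Ioo hA.ne, closure_Ioo hB.ne]

theorem isCompact_rect {A B : ℝ} (hA : 0 < A) (hB : 0 < B) : IsCompact (closure (Rect A B)) := by
  rw [closure_rect hA hB]
  exact isCompact_Icc.reProdIm isCompact_Icc

/-- Clamping. -/
def cl (l r x : ℝ) : ℝ := max l (min x r)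

theorem continuous_cl (l r : ℝ) : Continuous (cl l r) := by
  unfold cl
  fun_prop

theorem cl_mem {l r : ℝ} (h : l ≤ r) (x : ℝ) : cl l r x ∈ Icc l r :=
  ⟨le_max_left _ _, max_le h (min_le_right _ _)⟩

theorem cl_of_mem {l r x : ℝ} (hx : x ∈ Icc l r) : cl l r x = x := by
  unfold cl
  rw [min_eq_left hx.2, max_eq_right hx.1]

/-- Clamped points of the rectangle shrunk by `ε`. -/
noncomputable def pt (A B ε x y : ℝ) : ℂ := (cl ε (A - ε) x : ℂ) + (cl ε (B - ε) y : ℂ) * Complex.I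

theorem pt_re (A B ε x y : ℝ) : (pt A B ε x y).re = cl ε (A - ε) x := by simp [pt]

theorem pt_im (A B ε x y : ℝ) : (pt A B ε x y).im = cl ε (B - ε) y := by simp [pt]

theorem continuous_pt (A B ε : ℝ) : Continuous fun q : ℝ × ℝ => pt A B ε q.1 q.2 := by
  unfold pt
  have h1 := continuous_cl ε (A - ε)
  have h2 := continuous_cl ε (B - ε)
  exact (Complex.continuous_ofReal.comp (h1.comp continuous_fst)).add
    ((Complex.continuous_ofReal.comp (h2.comp continuous_snd)).mul continuous_const)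

theorem pt_mem {A B ε : ℝ} (hε : 0 < ε) (hA : 2 * ε < A) (hB : 2 * ε < B) (x y : ℝ) : pt A B ε x y ∈ Rect A B := by
  have h1 := cl_mem (show ε ≤ A - ε by linarith) x
  have h2 := cl_mem (show ε ≤ B - ε by linarith) y
  simp only [Rect, mem_ofPred_eq, pt_re, pt_im]
  exact ⟨by linarith [h1.1], by linarith [h1.2], by linarith [h2.1], by linarith [h2.2]⟩

theorem pt_mem_closure {A B ε : ℝ} (hA : 0 < A) (hB : 0 < B) (hε : 0 ≤ ε) (hA' : 2 * ε ≤ A) (hB' : 2 * ε ≤ B) (x y : ℝ) :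
    pt A B ε x y ∈ closure (Rect A B) := by
  rw [closure_rect hA hB, Complex.mem_reProdIm, pt_re, pt_im]
  have h1 := cl_mem (show ε ≤ A - ε by linarith) x
  have h2 := cl_mem (show ε ≤ B - ε by linarith) y
  exact ⟨⟨by linarith [h1.1], by linarith [h1.2]⟩, ⟨by linarith [h2.1], by linarith [h2.2]⟩⟩

theorem pt_eq {A B ε x y : ℝ} (hx : x ∈ Icc ε (A - ε)) (hy : y ∈ Icc ε (B - ε)) :
    pt A B ε x y = (x : ℂ) + (y : ℂ) * Complex.I := by
  unfold pt
  rw [cl_of_mem hx, cl_of_mem hy]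

/-- A drum solution on the rectangle. -/
structure Drum (c A B : ℝ) (z : ℂ → ℝ → ℝ) (G : ℂ → ℝ → ℂ) : Prop where
  contDiffOn : ContDiffOn ℝ 2 (FF z) (Rect A B ×ˢ univ)
  continuousOn : ContinuousOn (fun q : ℂ × ℝ => z q.1 q.2) (closure (Rect A B) ×ˢ univ)
  gradient : ∀ x ∈ Rect A B, ∀ t, HasGradientAt (fun y => z y t) (G x t) x
  continuousOn_gradient : ContinuousOn (fun q : ℂ × ℝ => G q.1 q.2) (closure (Rect A B) ×ˢ univ)
  wave : ∀ x ∈ Rect A B, ∀ t, fderiv ℝ (fderiv ℝ (FF z)) (x, t) (0, 1) (0, 1) = c ^ 2 *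
    (fderiv ℝ (fderiv ℝ (FF z)) (x, t) (1, 0) (1, 0) +
      fderiv ℝ (fderiv ℝ (FF z)) (x, t) (Complex.I, 0) (Complex.I, 0))
  clamped : ∀ x ∈ closure (Rect A B), x ∉ Rect A B → ∀ t, z x t = 0

/-- The clamped function. -/
noncomputable def zc (A B : ℝ) (z : ℂ → ℝ → ℝ) (x y t : ℝ) : ℝ := z (pt A B 0 x y) t

theorem continuous_zc {A B : ℝ} (hA : 0 < A) (hB : 0 < B) {z : ℂ → ℝ → ℝ}
    (hz : ContinuousOn (fun q : ℂ × ℝ => z q.1 q.2) (closure (Rect A B) ×ˢ univ)) :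
    Continuous fun q : ℝ × ℝ × ℝ => zc A B z q.1 q.2.1 q.2.2 := by
  unfold zc
  refine hz.comp_continuous (f := fun q : ℝ × ℝ × ℝ => (pt A B 0 q.1 q.2.1, q.2.2)) ?_ fun q =>
    ⟨pt_mem_closure hA hB le_rfl (by linarith) (by linarith) _ _, mem_univ _⟩
  exact ((continuous_pt A B 0).comp (by fun_prop : Continuous fun q : ℝ × ℝ × ℝ => (q.1, q.2.1))).prodMk
    (continuous_snd.comp continuous_snd)

/-- The derivative of the sine. -/
noncomputable def csn (A : ℝ) (m : ℕ) (x : ℝ) : ℝ :=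
  ((m : ℝ) + 1) * Real.pi / A * Real.cos (((m : ℝ) + 1) * Real.pi * x / A)

theorem hasDerivAt_sn (A : ℝ) (m : ℕ) (x : ℝ) : HasDerivAt (sn A m) (csn A m x) x := by
  unfold sn csn
  have h1 : HasDerivAt (fun x => ((m : ℝ) + 1) * Real.pi * x / A) (((m : ℝ) + 1) * Real.pi / A) x := by
    have h2 := ((hasDerivAt_id x).const_mul (((m : ℝ) + 1) * Real.pi)).div_const A
    simpa using h2
  refine h1.sin.congr_deriv ?_
  ring

theorem hasDerivAt_csn (A : ℝ) (m : ℕ) (x : ℝ) :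
    HasDerivAt (csn A m) (-((((m : ℝ) + 1) * Real.pi / A) ^ 2 * sn A m x)) x := by
  unfold sn csn
  have h1 : HasDerivAt (fun x => ((m : ℝ) + 1) * Real.pi * x / A) (((m : ℝ) + 1) * Real.pi / A) x := by
    have h2 := ((hasDerivAt_id x).const_mul (((m : ℝ) + 1) * Real.pi)).div_const A
    simpa using h2
  refine (h1.cos.const_mul (((m : ℝ) + 1) * Real.pi / A)).congr_deriv ?_
  ring

theorem abs_csn_le {A : ℝ} (hA : 0 < A) (m : ℕ) (x : ℝ) : |csn A m x| ≤ ((m : ℝ) + 1) * Real.pi / A := by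
  unfold csn
  have hp : 0 ≤ ((m : ℝ) + 1) * Real.pi / A := by have := Real.pi_pos; positivity
  rw [abs_mul, abs_of_nonneg hp]
  have := Real.abs_cos_le_one (((m : ℝ) + 1) * Real.pi * x / A)
  calc _ ≤ ((m : ℝ) + 1) * Real.pi / A * 1 := by gcongr
    _ = _ := mul_one _

theorem abs_sn_left {A ε : ℝ} (hA : 0 < A) (hε : 0 ≤ ε) (m : ℕ) : |sn A m ε| ≤ ((m : ℝ) + 1) * Real.pi / A * ε := by
  unfold sn
  have hp : 0 ≤ ((m : ℝ) + 1) * Real.pi * ε / A := by have := Real.pi_pos; positivity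
  refine (Real.abs_sin_le_abs).trans ?_
  rw [abs_of_nonneg hp]
  apply le_of_eq
  ring

theorem abs_sn_right {A ε : ℝ} (hA : 0 < A) (hε : 0 ≤ ε) (m : ℕ) :
    |sn A m (A - ε)| ≤ ((m : ℝ) + 1) * Real.pi / A * ε := by
  have h1 : sn A m (A - ε) = -(-1) ^ (m + 1) * sn A m ε := by
    unfold sn
    have h2 : ((m : ℝ) + 1) * Real.pi * (A - ε) / A =
        ((m + 1 : ℕ) : ℝ) * Real.pi - ((m : ℝ) + 1) * Real.pi * ε / A := by
      push_cast
      field_simp
    rw [h2, Real.sin_nat_mul_pi_sub]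
    ring
  rw [h1, abs_mul, abs_neg, abs_pow, abs_neg, abs_one, one_pow, one_mul]
  exact abs_sn_left hA hε m

end DrumF
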