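import Pool.Agent.Lib.MP_d92c84_an.Asy

/-!
# A closed curve in the zero set of a radial wave is a circle, and independence of the time factors
-/

set_option autoImplicit false

namespace DrumF

open Filter Topology Set

theorem J_zero_zero : J 0 0 = 1 := by
  have h := J_eq 0 0
  unfold Jc at h
  simp only [pow_zero, one_mul, Complex.ofReal_zero, ne_eq, OfNat.ofNat_ne_zero, not_false_eq_true, zero_pow,
    zero_div, F_zero, Nat.factorial_zero, Nat.cast_one, div_one] at h
  exact_mod_cast h

/-- A bounded open set whose boundary is a proper subset of a circle does not exist. -/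
theorem eq_sphere {D R : Set ℂ} (hDo : IsOpen D) (hDne : D.Nonempty) (hDb : Bornology.IsBounded D)
    (hfr : frontier D = R) {p : ℂ} {ρ : ℝ} (hρ : 0 < ρ) (hsub : R ⊆ Metric.sphere p ρ) :
    R = Metric.sphere p ρ := by
  refine Subset.antisymm hsub fun q hq => ?_
  by_contra hqR
  -- a point of `D` off the circle
  obtain ⟨x₀, hx₀⟩ := hDne
  obtain ⟨x₁, hx₁D, hx₁⟩ : ∃ x₁ ∈ D, ‖x₁ - p‖ ≠ ρ := by
    by_contra hcon
    push Not at hcon
    have h1 : D ⊆ Metric.sphere p ρ := fun x hx => by
      rw [mem_sphere_iff_norm]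
      exact hcon x hx
    have h2 : D ⊆ interior (Metric.sphere p ρ) := interior_maximal h1 hDo
    rw [interior_sphere p hρ.ne'] at h2
    exact h2 hx₀
  have hclo : ∀ S : Set ℂ, IsPreconnected S → (S ∩ D).Nonempty → (∀ x ∈ S, x ∉ R) → S ⊆ D := by
    intro S hS hne hdis
    refine hS.subset_left_of_subset_union (v := (closure D)ᶜ) hDo (isClosed_closure (s := D)).isOpen_compl ?_ ?_ hne
    · exact disjoint_compl_right.mono_left subset_closure
    · intro x hx
      by_cases hxD : x ∈ D
      · exact Or.inl hxD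
      · right
        intro hxc
        have h1 : x ∈ frontier D := by
          rw [frontier, hDo.interior_eq]
          exact ⟨hxc, hxD⟩
        rw [hfr] at h1
        exact hdis x hx h1
  -- rays
  have hray : ∀ y : ℂ, ρ ≤ ‖y - p‖ → y ∉ R → y ∈ D → False := by
    intro y hy hyR hyD
    set S : Set ℂ := (fun s : ℝ => p + s * (y - p)) '' Ici 1 with hS
    have hSc : IsPreconnected S := (convex_Ici 1).isPreconnected.image _ (by fun_prop)
    have hyS : y ∈ S := ⟨1, by simp, by simp⟩
    have hSR : ∀ x ∈ S, x ∉ R := by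
      rintro x ⟨s, hs, rfl⟩ hxR
      have h1 := hsub hxR
      rw [mem_sphere_iff_norm] at h1
      simp only [add_sub_cancel_left, norm_mul, Complex.norm_real, Real.norm_eq_abs] at h1
      have hs1 : (1 : ℝ) ≤ s := hs
      rw [abs_of_pos (by linarith)] at h1
      have h2 : s = 1 := by
        by_contra hne
        have h3 : 1 < s := lt_of_le_of_ne hs1 (Ne.symm hne)
        have h4 : 0 < ‖y - p‖ := lt_of_lt_of_le hρ hy
        nlinarith
      apply hyR
      have h3 : p + (s : ℂ) * (y - p) = y := by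
        rw [h2]
        simp
      have hxR' : p + (s : ℂ) * (y - p) ∈ R := hxR
      rwa [h3] at hxR'
    have hSD := hclo S hSc ⟨y, hyS, hyD⟩ hSR
    obtain ⟨B, hB⟩ := hDb.exists_norm_le
    have h4 : 0 < ‖y - p‖ := lt_of_lt_of_le hρ hy
    set s : ℝ := max 1 ((B + ‖p‖ + 1) / ‖y - p‖) with hs
    have h5 := hB _ (hSD ⟨s, show (1 : ℝ) ≤ s from le_max_left _ _, rfl⟩)
    have h6 : ‖(s : ℂ) * (y - p)‖ ≤ B + ‖p‖ := by
      have h7 : (s : ℂ) * (y - p) = (p + (s : ℂ) * (y - p)) - p := by ring
      rw [h7]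
      refine (norm_sub_le _ _).trans ?_
      linarith
    rw [norm_mul, Complex.norm_real, Real.norm_eq_abs, abs_of_pos (lt_of_lt_of_le one_pos (le_max_left _ _))] at h6
    have h7 : (B + ‖p‖ + 1) / ‖y - p‖ * ‖y - p‖ ≤ s * ‖y - p‖ :=
      mul_le_mul_of_nonneg_right (le_max_right _ _) h4.le
    rw [div_mul_cancel₀ _ h4.ne'] at h7
    linarith
  have hRcl : ∀ x, x ∈ R → ‖x - p‖ = ρ := fun x hx => by
    have := hsub hx
    rwa [mem_sphere_iff_norm] at this
  rcases lt_or_gt_of_ne hx₁ with h | h
  · -- inside: go to `q`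
    have hqn : ‖q - p‖ = ρ := by rwa [mem_sphere_iff_norm] at hq
    have hS : segment ℝ x₁ q ⊆ D := by
      refine hclo _ (convex_segment x₁ q).isPreconnected ⟨x₁, left_mem_segment ℝ x₁ q, hx₁D⟩ ?_
      rintro x ⟨a, b, ha, hb, hab, rfl⟩ hxR
      rcases eq_or_lt_of_le ha with h0 | h0
      · have hb1 : b = 1 := by linarith
        rw [← h0, hb1] at hxR
        simp only [zero_smul, one_smul, zero_add] at hxR
        exact hqR hxR
      · have h1 := hRcl _ hxR
        have h2 : a • x₁ + b • q - p = a • (x₁ - p) + b • (q - p) := by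
          have h3 : p = a • p + b • p := by rw [← add_smul, hab, one_smul]
          rw [smul_sub, smul_sub]
          nth_rewrite 1 [h3]
          abel
        rw [h2] at h1
        have h3 : ‖a • (x₁ - p) + b • (q - p)‖ ≤ a * ‖x₁ - p‖ + b * ‖q - p‖ := by
          refine (norm_add_le _ _).trans ?_
          rw [norm_smul, norm_smul, Real.norm_eq_abs, Real.norm_eq_abs, abs_of_nonneg ha, abs_of_nonneg hb]
        rw [h1, hqn] at h3
        nlinarith
    exact hray q hqn.ge hqR (hS (right_mem_segment ℝ x₁ q))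
  · exact hray x₁ h.le (fun hx => hx₁ (hRcl _ hx)) hx₁D

/-- A connected boundary in the zero set of a radial wave is a circle. -/
theorem circle_of_radial {D R : Set ℂ} (hDo : IsOpen D) (hDne : D.Nonempty) (hDb : Bornology.IsBounded D)
    (hfr : frontier D = R) (hRc : IsPreconnected R) (hRi : R.Infinite) {p : ℂ} {κ : ℝ} (hκ : 0 < κ)
    (hz : ∀ x ∈ R, J 0 (2 * κ * ‖x - p‖) = 0) : ∃ q : ℂ, ∃ ρ : ℝ, 0 < ρ ∧ R = Metric.sphere q ρ := by
  obtain ⟨x₀, hx₀⟩ := hRi.nonempty
  have hconst : ∀ x ∈ R, ∀ y ∈ R, ¬ ‖x - p‖ < ‖y - p‖ := by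
    intro x hx y hy hlt
    have h1 : IsPreconnected ((fun x : ℂ => ‖x - p‖) '' R) := hRc.image _ (by fun_prop)
    have h2 : Icc ‖x - p‖ ‖y - p‖ ⊆ (fun x : ℂ => ‖x - p‖) '' R :=
      h1.Icc_subset ⟨x, hx, rfl⟩ ⟨y, hy, rfl⟩
    have h3 : J 0 = fun _ => 0 := by
      have h4 : AnalyticOnNhd ℝ (J 0) univ := fun t _ => analytic_J 0 t
      have h5 : AnalyticOnNhd ℝ (fun _ : ℝ => (0 : ℝ)) univ := fun t _ => analyticAt_const
      set a := 2 * κ * ‖x - p‖ with ha
      set b := 2 * κ * ‖y - p‖ with hb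
      have hab : a < b := by rw [ha, hb]; gcongr
      refine h4.eq_of_eventuallyEq h5 (z₀ := (a + b) / 2) ?_
      filter_upwards [Ioo_mem_nhds (show a < (a + b) / 2 by linarith) (show (a + b) / 2 < b by linarith)]
        with r hr
      have h6 : r / (2 * κ) ∈ Icc ‖x - p‖ ‖y - p‖ := by
        constructor
        · rw [le_div_iff₀ (by positivity)]
          have := hr.1
          rw [ha] at this
          linarith
        · rw [div_le_iff₀ (by positivity)]
          have := hr.2
          rw [hb] at this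
          linarith
      obtain ⟨w, hw, hw2⟩ := h2 h6
      have h7 := hz w hw
      have h8 : 2 * κ * ‖w - p‖ = r := by
        have h9 : ‖w - p‖ = r / (2 * κ) := hw2
        rw [h9]
        field_simp
      rw [h8] at h7
      exact h7
    have h4 := congrFun h3 0
    rw [J_zero_zero] at h4
    exact one_ne_zero h4
  have hc : ∀ x ∈ R, ‖x - p‖ = ‖x₀ - p‖ := fun x hx =>
    le_antisymm (not_lt.1 (hconst x₀ hx₀ x hx)) (not_lt.1 (hconst x hx x₀ hx₀))
  have hρ : 0 < ‖x₀ - p‖ := by
    by_contra hcon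
    have h1 : ‖x₀ - p‖ = 0 := le_antisymm (not_lt.1 hcon) (norm_nonneg _)
    apply hRi
    refine (finite_singleton p).subset fun x hx => ?_
    have h2 := hc x hx
    rw [h1, norm_eq_zero, sub_eq_zero] at h2
    exact h2
  exact ⟨p, ‖x₀ - p‖, hρ, eq_sphere hDo hDne hDb hfr hρ fun x hx => by
    rw [mem_sphere_iff_norm]
    exact hc x hx⟩

/-- The character `t ↦ e^{iλt}`. -/
noncomputable def chr (l : ℝ) : Multiplicative ℝ →* ℂ where
  toFun t := Complex.exp (Complex.I * l * (Multiplicative.toAdd t : ℝ))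
  map_one' := by simp
  map_mul' s t := by
    rw [← Complex.exp_add]
    congr 1
    rw [toAdd_mul]
    push_cast
    ring

theorem chr_injective : Function.Injective chr := by
  intro a b hab
  have h1 : ∀ t : ℝ, Complex.exp (Complex.I * a * t) = Complex.exp (Complex.I * b * t) := fun t =>
    DFunLike.congr_fun hab (Multiplicative.ofAdd t)
  have h2 : HasDerivAt (fun t : ℝ => Complex.exp (Complex.I * a * t)) (Complex.I * a) 0 := by
    have h3 : HasDerivAt (fun t : ℝ => Complex.I * a * (t : ℂ)) (Complex.I * a) 0 := by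
      simpa using (Complex.ofRealCLM.hasDerivAt (x := (0 : ℝ))).const_mul (Complex.I * (a : ℂ))
    simpa using h3.cexp
  have h2' : HasDerivAt (fun t : ℝ => Complex.exp (Complex.I * b * t)) (Complex.I * b) 0 := by
    have h3 : HasDerivAt (fun t : ℝ => Complex.I * b * (t : ℂ)) (Complex.I * b) 0 := by
      simpa using (Complex.ofRealCLM.hasDerivAt (x := (0 : ℝ))).const_mul (Complex.I * (b : ℂ))
    simpa using h3.cexp
  have h4 : (fun t : ℝ => Complex.exp (Complex.I * a * t)) = fun t : ℝ => Complex.exp (Complex.I * b * t) :=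
    funext h1
  rw [h4] at h2
  have h5 := h2.unique h2'
  have h6 := mul_left_cancel₀ Complex.I_ne_zero h5
  exact_mod_cast h6

/-- Independence of `cos (w t)`, `sin (w t)` for finitely many `w > 0`. -/
theorem trig_indep (S : Finset ℝ) (hS : ∀ w ∈ S, 0 < w) (P Q : ℝ → ℂ)
    (h : ∀ t : ℝ, ∑ w ∈ S, ((Real.cos (w * t) : ℂ) * P w + (Real.sin (w * t) : ℂ) * Q w) = 0) :
    ∀ w ∈ S, P w = 0 ∧ Q w = 0 := by
  classical
  have hli : LinearIndependent ℂ (fun l : ℝ => (chr l : Multiplicative ℝ → ℂ)) :=
    (linearIndependent_monoidHom (Multiplicative ℝ) ℂ).comp chr chr_injective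
  rw [linearIndependent_iff'] at hli
  set G : ℝ → ℂ := fun l => if 0 < l then P l / 2 + Q l / (2 * Complex.I) else P (-l) / 2 - Q (-l) / (2 * Complex.I)
    with hG
  have hdis : Disjoint S (S.image fun w => -w) := by
    rw [Finset.disjoint_left]
    intro w hw hw'
    obtain ⟨v, hv, hvw⟩ := Finset.mem_image.1 hw'
    have h1 := hS w hw
    have h2 := hS v hv
    linarith
  have hsum : ∑ l ∈ S ∪ S.image fun w => -w, G l • (chr l : Multiplicative ℝ → ℂ) = 0 := by
    funext t
    rw [Finset.sum_apply, Pi.zero_apply, Finset.sum_union hdis,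
      Finset.sum_image (fun x _ y _ hxy => neg_injective hxy), ← Finset.sum_add_distrib]
    rw [← h (Multiplicative.toAdd t)]
    refine Finset.sum_congr rfl fun w hw => ?_
    have hw0 := hS w hw
    set τ : ℝ := Multiplicative.toAdd t with hτ
    have e1 : (chr w : Multiplicative ℝ → ℂ) t = Complex.exp (Complex.I * w * τ) := rfl
    have e2 : (chr (-w) : Multiplicative ℝ → ℂ) t = Complex.exp (Complex.I * ((-w : ℝ) : ℂ) * τ) := rfl
    simp only [Pi.smul_apply, smul_eq_mul, hG]
    rw [if_pos hw0, if_neg (by linarith), neg_neg, e1, e2]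
    have e3 : (Real.cos (w * τ) : ℂ) =
        (Complex.exp (Complex.I * w * τ) + Complex.exp (Complex.I * ((-w : ℝ) : ℂ) * τ)) / 2 := by
      rw [Complex.ofReal_cos, Complex.cos]
      congr 3
      · push_cast
        ring
      · push_cast
        ring
    have e4 : (Real.sin (w * τ) : ℂ) =
        (Complex.exp (Complex.I * w * τ) - Complex.exp (Complex.I * ((-w : ℝ) : ℂ) * τ)) / (2 * Complex.I) := by
      rw [Complex.ofReal_sin, Complex.sin]
      have e5 : Complex.exp (((w * τ : ℝ) : ℂ) * Complex.I) = Complex.exp (Complex.I * w * τ) := by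
        congr 1
        push_cast
        ring
      have e6 : Complex.exp (-((w * τ : ℝ) : ℂ) * Complex.I) = Complex.exp (Complex.I * ((-w : ℝ) : ℂ) * τ) := by
        congr 1
        push_cast
        ring
      rw [e5, e6]
      field_simp
      rw [Complex.I_sq]
      ring
    rw [e3, e4]
    ring
  have h0 := hli _ _ hsum
  intro w hw
  have hw0 := hS w hw
  have h1 := h0 w (Finset.mem_union_left _ hw)
  have h2 := h0 (-w) (Finset.mem_union_right _ (Finset.mem_image_of_mem _ hw))
  simp only [hG] at h1 h2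
  rw [if_pos hw0] at h1
  rw [if_neg (by linarith), neg_neg] at h2
  constructor
  · linear_combination h1 + h2
  · have h3 : Q w / (2 * Complex.I) = 0 := by linear_combination (h1 - h2) / 2
    rcases div_eq_zero_iff.1 h3 with h4 | h4
    · exact h4
    · exact absurd h4 (mul_ne_zero two_ne_zero Complex.I_ne_zero)

end DrumF
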