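import Mathlib

/-!
# The cosine functional equation
-/

set_option autoImplicit false

namespace DrumF

open Filter Topology Set MeasureTheory

/-- The cosine functional equation. -/
def CosEq (ω : ℝ) (b : ℝ → ℝ) : Prop := ∀ t h, b (t + h) + b (t - h) = 2 * Real.cos (ω * h) * b t

/-- Approximate version for almost solutions of `f'' = - ω ^ 2 f`. -/
theorem cos_approx {ω : ℝ} (hω : 0 < ω) {f f' f'' : ℝ → ℝ} (h1 : ∀ t, HasDerivAt f (f' t) t)
    (h2 : ∀ t, HasDerivAt f' (f'' t) t) {t h ε : ℝ} (hh : 0 ≤ h)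
    (hb : ∀ s ∈ Icc (t - h) (t + h), |f'' s + ω ^ 2 * f s| ≤ ε) :
    |f (t + h) + f (t - h) - 2 * Real.cos (ω * h) * f t| ≤ 2 * ε * h / ω := by
  set v : ℝ → ℝ := fun s => f (t + s) + f (t - s) - 2 * f t * Real.cos (ω * s) with hv
  set v' : ℝ → ℝ := fun s => f' (t + s) - f' (t - s) + 2 * ω * f t * Real.sin (ω * s) with hv'
  set v'' : ℝ → ℝ := fun s => f'' (t + s) + f'' (t - s) + 2 * ω ^ 2 * f t * Real.cos (ω * s) with hv''
  have hcos : ∀ s, HasDerivAt (fun s => Real.cos (ω * s)) (-Real.sin (ω * s) * ω) s := by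
    intro s
    have h3 : HasDerivAt (fun s => ω * s) ω s := by simpa using (hasDerivAt_id s).const_mul ω
    exact h3.cos
  have hsin : ∀ s, HasDerivAt (fun s => Real.sin (ω * s)) (Real.cos (ω * s) * ω) s := by
    intro s
    have h3 : HasDerivAt (fun s => ω * s) ω s := by simpa using (hasDerivAt_id s).const_mul ω
    exact h3.sin
  have dplus : ∀ (g g' : ℝ → ℝ), (∀ s, HasDerivAt g (g' s) s) → ∀ s, HasDerivAt (fun s => g (t + s)) (g' (t + s)) s := by
    intro g g' hg s
    have h3 : HasDerivAt (fun s => t + s) 1 s := by simpa using (hasDerivAt_id s).const_add t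
    have h4 := (hg (t + s)).comp s h3
    refine h4.congr_deriv ?_
    ring
  have dminus : ∀ (g g' : ℝ → ℝ), (∀ s, HasDerivAt g (g' s) s) →
      ∀ s, HasDerivAt (fun s => g (t - s)) (-g' (t - s)) s := by
    intro g g' hg s
    have h3 : HasDerivAt (fun s => t - s) (-1) s := by simpa using (hasDerivAt_id s).const_sub t
    have h4 := (hg (t - s)).comp s h3
    refine h4.congr_deriv ?_
    ring
  have dv : ∀ s, HasDerivAt v (v' s) s := by
    intro s
    have h3 := ((dplus f f' h1 s).add (dminus f f' h1 s)).sub ((hcos s).const_mul (2 * f t))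
    refine h3.congr_deriv ?_
    simp only [hv']
    ring
  have dv' : ∀ s, HasDerivAt v' (v'' s) s := by
    intro s
    have h3 := ((dplus f' f'' h2 s).sub (dminus f' f'' h2 s)).add ((hsin s).const_mul (2 * ω * f t))
    refine h3.congr_deriv ?_
    simp only [hv'']
    ring
  set w : ℝ → ℝ := fun s => v' s * Real.sin (ω * (h - s)) + ω * v s * Real.cos (ω * (h - s)) with hw
  have dw : ∀ s, HasDerivAt w ((v'' s + ω ^ 2 * v s) * Real.sin (ω * (h - s))) s := by
    intro s
    have e1 : HasDerivAt (fun s => ω * (h - s)) (-ω) s := by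
      have h3 : HasDerivAt (fun s => h - s) (-1) s := by simpa using (hasDerivAt_id s).const_sub h
      simpa using h3.const_mul ω
    have h3 := ((dv' s).mul e1.sin).add (((dv s).const_mul ω).mul e1.cos)
    refine h3.congr_deriv ?_
    ring
  have hrho : ∀ s, v'' s + ω ^ 2 * v s = (f'' (t + s) + ω ^ 2 * f (t + s)) + (f'' (t - s) + ω ^ 2 * f (t - s)) := by
    intro s
    simp only [hv, hv'']
    ring
  have hmv := norm_image_sub_le_of_norm_deriv_le_segment' (f := w) (a := 0) (b := h) (C := 2 * ε)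
    (fun s _ => (dw s).hasDerivWithinAt) (fun s hs => by
      rw [norm_mul, hrho, Real.norm_eq_abs, Real.norm_eq_abs]
      have g1 := hb (t + s) ⟨by linarith [hs.1], by linarith [hs.2]⟩
      have g2 := hb (t - s) ⟨by linarith [hs.2], by linarith [hs.1]⟩
      have g3 := abs_add_le (f'' (t + s) + ω ^ 2 * f (t + s)) (f'' (t - s) + ω ^ 2 * f (t - s))
      have g4 := Real.abs_sin_le_one (ω * (h - s))
      calc _ ≤ (2 * ε) * 1 := mul_le_mul (by linarith) g4 (abs_nonneg _) (by
            have := (abs_nonneg _).trans g1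
            linarith)
        _ = _ := mul_one _) h ⟨hh, le_rfl⟩
  have hw0 : w 0 = 0 := by
    simp only [hw, hv, hv', add_zero, sub_zero, mul_zero, Real.sin_zero, Real.cos_zero, sub_self, zero_add, zero_mul,
      mul_one]
    ring
  have hwh : w h = ω * (f (t + h) + f (t - h) - 2 * Real.cos (ω * h) * f t) := by
    simp only [hw, hv, sub_self, mul_zero, Real.sin_zero, Real.cos_zero, mul_one, zero_add]
    ring
  rw [hw0, hwh, sub_zero, sub_zero, norm_mul, Real.norm_eq_abs, Real.norm_eq_abs, abs_of_pos hω] at hmv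
  rw [le_div_iff₀ hω]
  linarith

theorem CosEq.of_nonneg {ω : ℝ} {b : ℝ → ℝ} (h : ∀ t h, 0 ≤ h → b (t + h) + b (t - h) = 2 * Real.cos (ω * h) * b t) :
    CosEq ω b := by
  intro t s
  rcases le_total 0 s with hs | hs
  · exact h t s hs
  · have h1 := h t (-s) (by linarith)
    rw [mul_neg, Real.cos_neg, sub_neg_eq_add, add_comm (b (t + -s))] at h1
    rw [← h1]
    rfl

/-- Passage to the limit. -/
theorem cos_limit {ω : ℝ} (hω : 0 < ω) {b : ℝ → ℝ}
    (happ : ∀ T ε : ℝ, 0 < ε → ∃ f f' f'' : ℝ → ℝ, (∀ t, HasDerivAt f (f' t) t) ∧ (∀ t, HasDerivAt f' (f'' t) t) ∧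
      ∀ s, |s| ≤ T → |f'' s + ω ^ 2 * f s| ≤ ε ∧ |f s - b s| ≤ ε) : CosEq ω b := by
  refine CosEq.of_nonneg fun t h hh => ?_
  have key : ∀ ε > 0, |b (t + h) + b (t - h) - 2 * Real.cos (ω * h) * b t| ≤ (2 * h / ω + 4) * ε := by
    intro ε hε
    obtain ⟨f, f', f'', h1, h2, h3⟩ := happ (|t| + h) ε hε
    have hmem : ∀ s ∈ Icc (t - h) (t + h), |s| ≤ |t| + h := by
      intro s hs
      rw [abs_le]
      constructor
      · linarith [hs.1, neg_abs_le t]
      · linarith [hs.2, le_abs_self t]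
    have h4 := cos_approx hω h1 h2 hh (ε := ε) fun s hs => (h3 s (hmem s hs)).1
    have a1 := (h3 (t + h) (hmem _ ⟨by linarith, le_rfl⟩)).2
    have a2 := (h3 (t - h) (hmem _ ⟨le_rfl, by linarith⟩)).2
    have a3 := (h3 t (hmem _ ⟨by linarith, by linarith⟩)).2
    have a4 : |2 * Real.cos (ω * h) * (f t - b t)| ≤ 2 * ε := by
      rw [abs_mul, abs_mul, abs_two]
      have := Real.abs_cos_le_one (ω * h)
      calc 2 * |Real.cos (ω * h)| * |f t - b t| ≤ 2 * 1 * ε := by gcongr
        _ = _ := by ring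
    have e1 : b (t + h) + b (t - h) - 2 * Real.cos (ω * h) * b t =
        (f (t + h) + f (t - h) - 2 * Real.cos (ω * h) * f t) - (f (t + h) - b (t + h)) - (f (t - h) - b (t - h)) +
          2 * Real.cos (ω * h) * (f t - b t) := by ring
    rw [e1]
    have b1 := abs_add_le ((f (t + h) + f (t - h) - 2 * Real.cos (ω * h) * f t) - (f (t + h) - b (t + h)) -
      (f (t - h) - b (t - h))) (2 * Real.cos (ω * h) * (f t - b t))
    have b2 := abs_sub ((f (t + h) + f (t - h) - 2 * Real.cos (ω * h) * f t) - (f (t + h) - b (t + h)))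
      (f (t - h) - b (t - h))
    have b3 := abs_sub (f (t + h) + f (t - h) - 2 * Real.cos (ω * h) * f t) (f (t + h) - b (t + h))
    have e2 : (2 * h / ω + 4) * ε = 2 * ε * h / ω + 4 * ε := by ring
    rw [e2]
    linarith
  have hC : 0 < 2 * h / ω + 4 := by positivity
  by_contra hne
  have h5 : 0 < |b (t + h) + b (t - h) - 2 * Real.cos (ω * h) * b t| := abs_pos.2 (sub_ne_zero.2 hne)
  have h6 := key (|b (t + h) + b (t - h) - 2 * Real.cos (ω * h) * b t| / (2 * (2 * h / ω + 4))) (by positivity)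
  have h7 : (2 * h / ω + 4) * (|b (t + h) + b (t - h) - 2 * Real.cos (ω * h) * b t| / (2 * (2 * h / ω + 4))) =
      |b (t + h) + b (t - h) - 2 * Real.cos (ω * h) * b t| / 2 := by
    field_simp
  rw [h7] at h6
  linarith

/-- The solutions of the functional equation. -/
theorem CosEq.eq {ω : ℝ} (hω : 0 < ω) {b : ℝ → ℝ} (h : CosEq ω b) (t : ℝ) :
    b t = b 0 * Real.cos (ω * t) +
      (b (Real.pi / (2 * ω)) - b (-(Real.pi / (2 * ω)))) / 2 * Real.sin (ω * t) := by
  set t₀ : ℝ := Real.pi / (2 * ω) with ht₀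
  have hωt : ω * t₀ = Real.pi / 2 := by
    rw [ht₀]
    field_simp
  -- odd part
  set o : ℝ → ℝ := fun s => (b s - b (-s)) / 2 with ho
  have ho1 : CosEq ω o := by
    intro t h'
    simp only [ho]
    have h1 := h t h'
    have h2 := h (-t) h'
    have e1 : -(t + h') = -t - h' := by ring
    have e2 : -(t - h') = -t + h' := by ring
    rw [e1, e2]
    linarith
  have ho2 : ∀ s, o (-s) = -o s := by
    intro s
    simp only [ho, neg_neg]
    ring
  have heven : ∀ s, b s + b (-s) = 2 * Real.cos (ω * s) * b 0 := by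
    intro s
    have h1 := h 0 s
    rw [zero_add, zero_sub] at h1
    exact h1
  have hodd : ∀ s, o s = Real.sin (ω * s) * o t₀ := by
    intro s
    set u : ℝ := s - t₀ with hu
    have h1 := ho1 u t₀
    have h2 := ho1 t₀ u
    have e1 : t₀ - u = -(u - t₀) := by ring
    rw [e1, ho2, add_comm t₀ u] at h2
    rw [hωt, Real.cos_pi_div_two] at h1
    have e2 : u + t₀ = s := by rw [hu]; ring
    rw [e2] at h1 h2
    have h3 : 2 * o s = 2 * Real.cos (ω * u) * o t₀ := by linarith
    have e3 : ω * u = ω * s - Real.pi / 2 := by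
      rw [hu, mul_sub, hωt]
    rw [e3, Real.cos_sub_pi_div_two] at h3
    linarith
  have h1 := heven t
  have h2 := hodd t
  simp only [ho] at h2
  linarith

theorem CosEq.bound {ω : ℝ} (hω : 0 < ω) {b : ℝ → ℝ} (h : CosEq ω b) {M : ℝ}
    (hM : ∀ t, |t| ≤ Real.pi / (2 * ω) → |b t| ≤ M) (t : ℝ) : |b t| ≤ 2 * M := by
  have hp : 0 ≤ Real.pi / (2 * ω) := by have := Real.pi_pos; positivity
  rw [h.eq hω t]
  have h0 := hM 0 (by rw [abs_zero]; exact hp)
  have h1 := hM (Real.pi / (2 * ω)) (abs_of_nonneg hp).le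
  have h2 := hM (-(Real.pi / (2 * ω))) (by rw [abs_neg]; exact (abs_of_nonneg hp).le)
  have c1 := Real.abs_cos_le_one (ω * t)
  have s1 := Real.abs_sin_le_one (ω * t)
  have hM0 : 0 ≤ M := (abs_nonneg _).trans h0
  refine (abs_add_le _ _).trans ?_
  rw [abs_mul, abs_mul, abs_div, abs_two]
  have h3 : |b (Real.pi / (2 * ω)) - b (-(Real.pi / (2 * ω)))| ≤ 2 * M := (abs_sub _ _).trans (by linarith)
  calc |b 0| * |Real.cos (ω * t)| + |b (Real.pi / (2 * ω)) - b (-(Real.pi / (2 * ω)))| / 2 * |Real.sin (ω * t)|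
      ≤ M * 1 + (2 * M) / 2 * 1 := by gcongr
    _ = 2 * M := by ring

/-- Averages over `[t - h, t + h]`. -/
noncomputable def Sm {E : Type*} [NormedAddCommGroup E] [NormedSpace ℝ E] (h : ℝ) (f : ℝ → E) (t : ℝ) : E :=
  (1 / (2 * h)) • ∫ s in (-h)..h, f (t + s)

/-- The multiplier. -/
noncomputable def snc (x : ℝ) : ℝ := Real.sin x / x

theorem CosEq.smooth {ω h : ℝ} (hω : 0 < ω) (hh : 0 < h) {b : ℝ → ℝ} (hb : CosEq ω b) (hc : Continuous b) (t : ℝ) :
    Sm h b t = snc (ω * h) * b t := by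
  unfold Sm
  have hi : ∀ a c : ℝ, IntervalIntegrable (fun s => b (t + s)) volume a c := fun a c =>
    (hc.comp (continuous_const.add continuous_id)).intervalIntegrable a c
  have hi' : ∀ a c : ℝ, IntervalIntegrable (fun s => b (t - s)) volume a c := fun a c =>
    (hc.comp (continuous_const.sub continuous_id)).intervalIntegrable a c
  have h1 : ∫ s in (-h)..(0 : ℝ), b (t + s) = ∫ s in (0 : ℝ)..h, b (t - s) := by
    have h2 := intervalIntegral.integral_comp_neg (a := 0) (b := h) fun s => b (t + s)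
    rw [neg_zero] at h2
    rw [← h2]
    rfl
  rw [← intervalIntegral.integral_add_adjacent_intervals (hi (-h) 0) (hi 0 h), h1,
    ← intervalIntegral.integral_add (hi' 0 h) (hi 0 h)]
  have h3 : ∀ s ∈ uIcc 0 h, b (t - s) + b (t + s) = (2 * b t) * Real.cos (ω * s) := by
    intro s _
    have := hb t s
    linarith
  rw [intervalIntegral.integral_congr h3, intervalIntegral.integral_const_mul,
    intervalIntegral.integral_comp_mul_left (fun s => Real.cos s) hω.ne', integral_cos, mul_zero, Real.sin_zero,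
    sub_zero]
  unfold snc
  rw [smul_eq_mul, smul_eq_mul]
  field_simp

theorem abs_snc_le {x : ℝ} (hx : 0 < x) : |snc x| ≤ 1 / x := by
  unfold snc
  rw [abs_div, abs_of_pos hx]
  have := Real.abs_sin_le_one x
  gcongr

end DrumF
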