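import Pool.Agent.Lib.MP_d92c84_an.Tub

/-!
# Continuation of the complexified critical curve
-/

set_option autoImplicit false

namespace DrumF

open Filter Topology Set
open scoped ComplexConjugate

/-- Limit of a uniformly contracting holomorphic iteration. -/
theorem limit_step {B : Set ℂ} (hB : IsOpen B) {Φ : ℂ → ℂ → ℂ} {W : ℂ → ℂ} {δ : ℝ} (hδ : 0 ≤ δ)
    (hW : DifferentiableOn ℂ W B)
    (hΦ : ∀ V : ℂ → ℂ, DifferentiableOn ℂ V B → DifferentiableOn ℂ (fun z => Φ z (V z)) B)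
    (hmaps : ∀ z ∈ B, ∀ w, ‖w - W z‖ ≤ δ → ‖Φ z w - W z‖ ≤ δ)
    (hcon : ∀ z ∈ B, ∀ w v, ‖w - W z‖ ≤ δ → ‖v - W z‖ ≤ δ → ‖Φ z w - Φ z v‖ ≤ 1 / 2 * ‖w - v‖) :
    ∃ V : ℂ → ℂ, DifferentiableOn ℂ V B ∧ (∀ z ∈ B, ‖V z - W z‖ ≤ δ ∧ Φ z (V z) = V z) ∧
      ∀ z ∈ B, ∀ w, ‖w - W z‖ ≤ δ → Φ z w = w → w = V z := by
  set F : ℕ → ℂ → ℂ := fun n => Nat.rec W (fun _ V z => Φ z (V z)) n with hF
  have F0 : F 0 = W := rfl
  have Fs : ∀ n z, F (n + 1) z = Φ z (F n z) := fun n z => rfl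
  have hFd : ∀ n, DifferentiableOn ℂ (F n) B := by
    intro n
    induction n with
    | zero => exact hW
    | succ n ih => exact hΦ (F n) ih
  have hFb : ∀ n, ∀ z ∈ B, ‖F n z - W z‖ ≤ δ := by
    intro n
    induction n with
    | zero =>
      intro z _
      rw [F0, sub_self, norm_zero]
      exact hδ
    | succ n ih =>
      intro z hz
      rw [Fs]
      exact hmaps z hz _ (ih z hz)
  have hFc : ∀ n, ∀ z ∈ B, ‖F (n + 1) z - F n z‖ ≤ (1 / 2) ^ n * δ := by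
    intro n
    induction n with
    | zero =>
      intro z hz
      rw [pow_zero, one_mul]
      exact hFb 1 z hz
    | succ n ih =>
      intro z hz
      have h1 : ‖F (n + 1 + 1) z - F (n + 1) z‖ ≤ 1 / 2 * ‖F (n + 1) z - F n z‖ :=
        hcon z hz (F (n + 1) z) (F n z) (hFb (n + 1) z hz) (hFb n z hz)
      calc _ ≤ 1 / 2 * ‖F (n + 1) z - F n z‖ := h1
        _ ≤ 1 / 2 * ((1 / 2) ^ n * δ) := by
          have := ih z hz
          gcongr
        _ = _ := by ring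
  have hsum : Summable fun n : ℕ => (1 / 2 : ℝ) ^ n * δ :=
    (summable_geometric_of_lt_one (by norm_num) (by norm_num)).mul_right δ
  set V : ℂ → ℂ := fun z => W z + ∑' n, (F (n + 1) z - F n z) with hV
  have hlim : ∀ z ∈ B, Tendsto (fun n => F n z) atTop (𝓝 (V z)) := by
    intro z hz
    have h1 : Summable fun n => F (n + 1) z - F n z := Summable.of_norm_bounded hsum fun n => hFc n z hz
    have h2 := h1.hasSum.tendsto_sum_nat.const_add (W z)
    refine h2.congr fun n => ?_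
    rw [Finset.sum_range_sub (fun n => F n z), F0]
    ring
  refine ⟨V, ?_, ?_, ?_⟩
  · refine hW.add (Complex.differentiableOn_tsum_of_summable_norm hsum (fun n => (hFd (n + 1)).sub (hFd n)) hB
      fun n z hz => hFc n z hz)
  · intro z hz
    have hVb : ‖V z - W z‖ ≤ δ :=
      le_of_tendsto ((hlim z hz).sub_const (W z)).norm (Eventually.of_forall fun n => hFb n z hz)
    refine ⟨hVb, ?_⟩
    have h1 : Tendsto (fun n => F (n + 1) z) atTop (𝓝 (V z)) := (hlim z hz).comp (tendsto_add_atTop_nat 1)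
    have h2 : Tendsto (fun n => F (n + 1) z) atTop (𝓝 (Φ z (V z))) := by
      rw [tendsto_iff_norm_sub_tendsto_zero]
      have h3 : Tendsto (fun n => 1 / 2 * ‖F n z - V z‖) atTop (𝓝 0) := by
        have h4 := (tendsto_iff_norm_sub_tendsto_zero.1 (hlim z hz)).const_mul (1 / 2)
        rwa [mul_zero] at h4
      exact squeeze_zero (fun n => norm_nonneg _) (fun n => hcon z hz _ _ (hFb n z hz) hVb) h3
    exact tendsto_nhds_unique h2 h1
  · intro z hz w hw hfix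
    have hVb : ‖V z - W z‖ ≤ δ :=
      le_of_tendsto ((hlim z hz).sub_const (W z)).norm (Eventually.of_forall fun n => hFb n z hz)
    have h1 : Tendsto (fun n => F n z) atTop (𝓝 w) := by
      rw [tendsto_iff_norm_sub_tendsto_zero]
      have h2 : ∀ n, ‖F n z - w‖ ≤ (1 / 2) ^ n * ‖F 0 z - w‖ := by
        intro n
        induction n with
        | zero => simp
        | succ n ih =>
          have h3 : ‖F (n + 1) z - Φ z w‖ ≤ 1 / 2 * ‖F n z - w‖ := hcon z hz (F n z) w (hFb n z hz) hw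
          rw [hfix] at h3
          calc _ ≤ 1 / 2 * ‖F n z - w‖ := h3
            _ ≤ 1 / 2 * ((1 / 2) ^ n * ‖F 0 z - w‖) := by gcongr
            _ = _ := by ring
      have h3 : Tendsto (fun n : ℕ => (1 / 2 : ℝ) ^ n * ‖F 0 z - w‖) atTop (𝓝 0) := by
        have h4 := (tendsto_pow_atTop_nhds_zero_of_lt_one (r := (1 / 2 : ℝ)) (by norm_num)
          (by norm_num)).mul_const ‖F 0 z - w‖
        rwa [zero_mul] at h4
      exact squeeze_zero (fun n => norm_nonneg _) h2 h3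
    exact tendsto_nhds_unique h1 (hlim z hz)

/-- Uniform contraction near the critical curve. -/
theorem contraction {κ : ℝ} (hκ : 0 < κ) {Z : Finset ℂ} {a : ℂ → ℂ} (hZ : ∀ ζ ∈ Z, ‖ζ‖ = 1) {c : ℂ} (hc : c ≠ 0)
    {R : ℝ} (_ : 0 ≤ R) : ∃ δ > 0, ∃ ε > 0, ∀ z' w', U κ Z a 0 0 z' w' = c → U κ Z a 1 0 z' w' = 0 →
      ‖w' - conj z'‖ ≤ R → ∀ z, ‖z - z'‖ ≤ ε →
        (∀ w, ‖w - w'‖ ≤ δ → ‖(w + U κ Z a 1 0 z w / (κ ^ 2 * c)) - w'‖ ≤ δ) ∧
        ∀ w v, ‖w - w'‖ ≤ δ → ‖v - w'‖ ≤ δ →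
          ‖(w + U κ Z a 1 0 z w / (κ ^ 2 * c)) - (v + U κ Z a 1 0 z v / (κ ^ 2 * c))‖ ≤ 1 / 2 * ‖w - v‖ := by
  set M : ℝ := (As Z a + 1) * Real.exp (κ * (R + 2)) with hM
  have hA := As_nonneg Z a
  have hM0 : 0 < M := by positivity
  have hcn : 0 < ‖c‖ := norm_pos_iff.2 hc
  have hκc : (κ : ℂ) ≠ 0 := by exact_mod_cast hκ.ne'
  set δ : ℝ := min 1 (‖c‖ / (4 * M * κ)) with hδ
  have hδ0 : 0 < δ := lt_min one_pos (by positivity)
  set ε : ℝ := min (min 1 (‖c‖ / (4 * M * κ))) (‖c‖ * δ / (2 * M)) with hε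
  have hε0 : 0 < ε := lt_min (lt_min one_pos (by positivity)) (by positivity)
  have hδ1 : δ ≤ 1 := min_le_left _ _
  have hδ2 : M * κ * δ ≤ ‖c‖ / 4 := by
    have h1 : δ ≤ ‖c‖ / (4 * M * κ) := min_le_right _ _
    rw [le_div_iff₀ (by positivity)] at h1
    linarith
  have hε1 : ε ≤ 1 := (min_le_left _ _).trans (min_le_left _ _)
  have hε2 : M * κ * ε ≤ ‖c‖ / 4 := by
    have h1 : ε ≤ ‖c‖ / (4 * M * κ) := (min_le_left _ _).trans (min_le_right _ _)
    rw [le_div_iff₀ (by positivity)] at h1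
    linarith
  have hε3 : M * ε ≤ ‖c‖ * δ / 2 := by
    have h1 : ε ≤ ‖c‖ * δ / (2 * M) := min_le_right _ _
    rw [le_div_iff₀ (by positivity)] at h1
    linarith
  refine ⟨δ, hδ0, ε, hε0, ?_⟩
  intro z' w' h00 h10 hRw z hz
  have hb : ∀ p q : ℕ, ∀ y v : ℂ, ‖y - z'‖ ≤ 1 → ‖v - w'‖ ≤ 1 → ‖U κ Z a p q y v‖ ≤ M * κ ^ (p + q) := by
    intro p q y v hy hv
    have h1 := norm_U_le hκ (a := a) hZ p q y v
    have h2 : ‖v - conj y‖ ≤ R + 2 := by
      have h3 : v - conj y = (v - w') + (w' - conj z') + conj (z' - y) := by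
        rw [map_sub]
        ring
      rw [h3]
      refine (norm_add_le _ _).trans ?_
      have h4 := norm_add_le (v - w') (w' - conj z')
      rw [Complex.norm_conj, norm_sub_rev z' y]
      linarith
    have h3 : Real.exp (κ * ‖v - conj y‖) ≤ Real.exp (κ * (R + 2)) := by
      apply Real.exp_le_exp.2
      gcongr
    calc _ ≤ As Z a * κ ^ (p + q) * Real.exp (κ * ‖v - conj y‖) := h1
      _ ≤ (As Z a + 1) * κ ^ (p + q) * Real.exp (κ * (R + 2)) := by
        gcongr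
        linarith
      _ = _ := by
        rw [hM]
        ring
  have hmvz : ∀ p q : ℕ, ∀ y v : ℂ, ‖y - z'‖ ≤ 1 → ‖v - w'‖ ≤ 1 →
      ‖U κ Z a p q y v - U κ Z a p q z' v‖ ≤ M * κ ^ (p + 1 + q) * ‖y - z'‖ := by
    intro p q y v hy hv
    exact (convex_closedBall z' 1).norm_image_sub_le_of_norm_hasDerivWithin_le
      (f := fun y => U κ Z a p q y v) (f' := fun y => U κ Z a (p + 1) q y v)
      (fun x _ => (U_hasDerivAt_z κ Z a p q x v).hasDerivWithinAt)
      (fun x hx => hb (p + 1) q x v (by rwa [mem_closedBall_iff_norm] at hx) hv)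
      (by simp) (by rwa [mem_closedBall_iff_norm])
  have hmvw : ∀ p q : ℕ, ∀ y v : ℂ, ‖y - z'‖ ≤ 1 → ‖v - w'‖ ≤ 1 →
      ‖U κ Z a p q y v - U κ Z a p q y w'‖ ≤ M * κ ^ (p + (q + 1)) * ‖v - w'‖ := by
    intro p q y v hy hv
    exact (convex_closedBall w' 1).norm_image_sub_le_of_norm_hasDerivWithin_le
      (f := fun v => U κ Z a p q y v) (f' := fun v => U κ Z a p (q + 1) y v)
      (fun x _ => (U_hasDerivAt_w κ Z a p q y x).hasDerivWithinAt)
      (fun x hx => hb p (q + 1) y x hy (by rwa [mem_closedBall_iff_norm] at hx))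
      (by simp) (by rwa [mem_closedBall_iff_norm])
  have hz1 : ‖z - z'‖ ≤ 1 := hz.trans hε1
  have hcon : ∀ w v, ‖w - w'‖ ≤ δ → ‖v - w'‖ ≤ δ →
      ‖(w + U κ Z a 1 0 z w / (κ ^ 2 * c)) - (v + U κ Z a 1 0 z v / (κ ^ 2 * c))‖ ≤ 1 / 2 * ‖w - v‖ := by
    intro w v hw hv
    refine (convex_closedBall w' δ).norm_image_sub_le_of_norm_hasDerivWithin_le
      (f := fun w => w + U κ Z a 1 0 z w / (κ ^ 2 * c))
      (f' := fun w => 1 + U κ Z a 1 1 z w / (κ ^ 2 * c))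
      (fun x _ => ((hasDerivAt_id x).add ((U_hasDerivAt_w κ Z a 1 0 z x).div_const _)).hasDerivWithinAt)
      (fun x hx => ?_) (by rwa [mem_closedBall_iff_norm]) (by rwa [mem_closedBall_iff_norm])
    rw [mem_closedBall_iff_norm] at hx
    have h1 : 1 + U κ Z a 1 1 z x / (κ ^ 2 * c) = (c - U κ Z a 0 0 z x) / c := by
      rw [U_eq hZ 0 0 z x]
      field_simp
      ring
    rw [h1, norm_div, div_le_iff₀ hcn, norm_sub_rev]
    have h2 : U κ Z a 0 0 z x - c = (U κ Z a 0 0 z x - U κ Z a 0 0 z w') + (U κ Z a 0 0 z w' - U κ Z a 0 0 z' w') := by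
      rw [h00]
      ring
    rw [h2]
    refine (norm_add_le _ _).trans ?_
    have h3 := hmvw 0 0 z x hz1 (hx.trans hδ1)
    have h4 := hmvz 0 0 z w' hz1 (by simp)
    rw [show 0 + (0 + 1) = 1 from rfl, pow_one] at h3
    rw [show 0 + 1 + 0 = 1 from rfl, pow_one] at h4
    have h5 : M * κ * ‖x - w'‖ ≤ M * κ * δ := by gcongr
    have h6 : M * κ * ‖z - z'‖ ≤ M * κ * ε := by gcongr
    linarith
  refine ⟨?_, hcon⟩
  intro w hw
  have h1 := hcon w w' hw (by rw [sub_self, norm_zero]; exact hδ0.le)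
  have h2 : ‖U κ Z a 1 0 z w' / (κ ^ 2 * c)‖ ≤ δ / 2 := by
    have h3 := hmvz 1 0 z w' hz1 (by simp)
    rw [h10, sub_zero] at h3
    rw [norm_div, norm_mul, norm_pow, Complex.norm_real, Real.norm_eq_abs, abs_of_pos hκ,
      div_le_iff₀ (by positivity)]
    calc _ ≤ M * κ ^ (1 + 1 + 0) * ‖z - z'‖ := h3
      _ ≤ M * κ ^ (1 + 1 + 0) * ε := by gcongr
      _ = κ ^ 2 * (M * ε) := by ring
      _ ≤ κ ^ 2 * (‖c‖ * δ / 2) := by gcongr
      _ = _ := by ring
  have h3 : (w + U κ Z a 1 0 z w / (κ ^ 2 * c)) - w' = ((w + U κ Z a 1 0 z w / (κ ^ 2 * c)) -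
      (w' + U κ Z a 1 0 z w' / (κ ^ 2 * c))) + U κ Z a 1 0 z w' / (κ ^ 2 * c) := by ring
  rw [h3]
  refine (norm_add_le _ _).trans ?_
  linarith

/-- A holomorphic function near `conj z` lives on a small disc only. -/
theorem no_section {S : ℂ → ℂ} {z₀ : ℂ} {r R : ℝ} (hR : 0 ≤ R) (hS : DifferentiableOn ℂ S (Metric.ball z₀ r))
    (hb : ∀ z ∈ Metric.ball z₀ r, ‖S z - conj z‖ ≤ R) : r ≤ R := by
  by_contra hcon
  push Not at hcon
  set ρ : ℝ := (r + R) / 2 with hρ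
  have h1 : R < ρ := by rw [hρ]; linarith
  have h2 : ρ < r := by rw [hρ]; linarith
  have hρ0 : 0 < ρ := lt_of_le_of_lt hR h1
  have hsub : Metric.closedBall z₀ ρ ⊆ Metric.ball z₀ r := Metric.closedBall_subset_ball h2
  have i1 : (∮ z in C(z₀, ρ), (S z - conj z₀)) = 0 := by
    apply DiffContOnCl.circleIntegral_eq_zero hρ0.le
    refine DifferentiableOn.diffContOnCl ?_
    rw [closure_ball z₀ hρ0.ne']
    exact (hS.mono hsub).sub_const _
  have i2 : (∮ z in C(z₀, ρ), (z - z₀)⁻¹) = 2 * Real.pi * Complex.I :=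
    circleIntegral.integral_sub_center_inv z₀ hρ0.ne'
  have hci1 : CircleIntegrable (fun z => S z - conj z₀) z₀ ρ := by
    apply ContinuousOn.circleIntegrable hρ0.le
    exact ((hS.mono hsub).sub_const _).continuousOn.mono Metric.sphere_subset_closedBall
  have hci2 : CircleIntegrable (fun z => (ρ : ℂ) ^ 2 * (z - z₀)⁻¹) z₀ ρ := by
    apply ContinuousOn.circleIntegrable hρ0.le
    refine continuousOn_const.mul (ContinuousOn.inv₀ (by fun_prop) fun z hz => ?_)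
    rw [mem_sphere_iff_norm] at hz
    intro h0
    rw [h0, norm_zero] at hz
    exact hρ0.ne hz
  have i3 : (∮ z in C(z₀, ρ), ((S z - conj z₀) - (ρ : ℂ) ^ 2 * (z - z₀)⁻¹)) =
      -((ρ : ℂ) ^ 2 * (2 * Real.pi * Complex.I)) := by
    rw [circleIntegral.integral_sub hci1 hci2, i1, circleIntegral.integral_const_mul, i2, zero_sub]
  have i4 : ‖∮ z in C(z₀, ρ), ((S z - conj z₀) - (ρ : ℂ) ^ 2 * (z - z₀)⁻¹)‖ ≤ 2 * Real.pi * ρ * R := by
    apply circleIntegral.norm_integral_le_of_norm_le_const hρ0.le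
    intro z hz
    have h3 := hb z (hsub (Metric.sphere_subset_closedBall hz))
    rw [mem_sphere_iff_norm] at hz
    have hne : z - z₀ ≠ 0 := by
      intro h0
      rw [h0, norm_zero] at hz
      exact hρ0.ne hz
    have h4 : (ρ : ℂ) ^ 2 * (z - z₀)⁻¹ = conj (z - z₀) := by
      rw [mul_inv_eq_iff_eq_mul₀ hne, mul_comm, Complex.mul_conj, Complex.normSq_eq_norm_sq, hz]
      push_cast
      rfl
    rw [h4, map_sub]
    have h5 : S z - conj z₀ - (conj z - conj z₀) = S z - conj z := by ring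
    rw [h5]
    exact h3
  rw [i3, norm_neg, norm_mul, norm_pow, Complex.norm_real, Real.norm_eq_abs, abs_of_pos hρ0, norm_mul, norm_mul,
    Complex.norm_I, Complex.norm_real, Real.norm_eq_abs, abs_of_pos Real.pi_pos, mul_one] at i4
  have h6 : ‖(2 : ℂ)‖ = 2 := by simp
  rw [h6] at i4
  have h7 : ρ ^ 2 * (2 * Real.pi) = (2 * Real.pi * ρ) * ρ := by ring
  rw [h7] at i4
  have h8 : ρ ≤ R := le_of_mul_le_mul_left i4 (by positivity)
  linarith

end DrumF
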