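import Pool.Agent.Lib.MP_d92c84_an.Asy

/-!
# The discriminant argument

`P_r(T) = ∑ J_m(r) (β_m T^m + β'_m T^(-m))`. If `P_r(T) = 2c`, `c ≠ 0`, has a double root for all `r` in an interval, then
it has one for all `r`, which is impossible for large `r`.
-/

set_option autoImplicit false

namespace DrumF

open Polynomial Filter Topology

/-- The polynomial `T^M (P_r(T) - 2c)`. -/
noncomputable def PA (β β' : ℕ → ℂ) (c : ℂ) (M : ℕ) (r : ℝ) : ℂ[X] :=
  (∑ m ∈ Finset.range (M + 1), (C ((J m r : ℂ) * β m) * X ^ (M + m) + C ((J m r : ℂ) * β' m) * X ^ (M - m))) -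
    C (2 * c) * X ^ M

/-- The polynomial `T^M (T P_r'(T))`. -/
noncomputable def PB (β β' : ℕ → ℂ) (M : ℕ) (r : ℝ) : ℂ[X] :=
  ∑ m ∈ Finset.range (M + 1), (C ((J m r : ℂ) * (m * β m)) * X ^ (M + m) +
    C ((J m r : ℂ) * (-(m * β' m))) * X ^ (M - m))

theorem natDegree_PA (β β' : ℕ → ℂ) (c : ℂ) (M : ℕ) (r : ℝ) : (PA β β' c M r).natDegree ≤ 2 * M := by
  unfold PA
  have h1 : (∑ m ∈ Finset.range (M + 1), (C ((J m r : ℂ) * β m) * X ^ (M + m) +
      C ((J m r : ℂ) * β' m) * X ^ (M - m))).natDegree ≤ 2 * M := by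
    refine natDegree_sum_le_of_forall_le _ _ fun m hm => ?_
    have hm' : m ≤ M := by
      have := Finset.mem_range.1 hm
      omega
    exact (natDegree_add_le _ _).trans (max_le ((natDegree_C_mul_X_pow_le _ _).trans (by omega))
      ((natDegree_C_mul_X_pow_le _ _).trans (by omega)))
  have h2 : (C (2 * c) * X ^ M : ℂ[X]).natDegree ≤ 2 * M :=
    (natDegree_C_mul_X_pow_le (2 * c) M).trans (by omega)
  exact (natDegree_sub_le_of_le h1 h2).trans (max_le le_rfl le_rfl)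

theorem natDegree_PB (β β' : ℕ → ℂ) (M : ℕ) (r : ℝ) : (PB β β' M r).natDegree ≤ 2 * M := by
  unfold PB
  refine natDegree_sum_le_of_forall_le _ _ fun m hm => ?_
  have hm' : m ≤ M := by
    have := Finset.mem_range.1 hm
    omega
  exact (natDegree_add_le _ _).trans (max_le ((natDegree_C_mul_X_pow_le _ _).trans (by omega))
    ((natDegree_C_mul_X_pow_le _ _).trans (by omega)))

private theorem analytic_Jof (m : ℕ) (γ : ℂ) (r : ℝ) : AnalyticAt ℝ (fun r : ℝ => (J m r : ℂ) * γ) r :=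
  ((Complex.ofRealCLM.analyticAt _).comp (analytic_J m r)).mul analyticAt_const

theorem analytic_coeff_PA (β β' : ℕ → ℂ) (c : ℂ) (M k : ℕ) (r : ℝ) :
    AnalyticAt ℝ (fun r => (PA β β' c M r).coeff k) r := by
  unfold PA
  simp only [coeff_sub, finsetSum_coeff, coeff_add, coeff_C_mul_X_pow]
  refine AnalyticAt.fun_sub (Finset.analyticAt_fun_sum _ fun m _ => AnalyticAt.fun_add ?_ ?_) analyticAt_const
  · split_ifs
    · exact analytic_Jof _ _ _
    · exact analyticAt_const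
  · split_ifs
    · exact analytic_Jof _ _ _
    · exact analyticAt_const

theorem analytic_coeff_PB (β β' : ℕ → ℂ) (M k : ℕ) (r : ℝ) :
    AnalyticAt ℝ (fun r => (PB β β' M r).coeff k) r := by
  unfold PB
  simp only [finsetSum_coeff, coeff_add, coeff_C_mul_X_pow]
  refine Finset.analyticAt_fun_sum _ fun m _ => AnalyticAt.fun_add ?_ ?_
  · split_ifs
    · exact analytic_Jof _ _ _
    · exact analyticAt_const
  · split_ifs
    · exact analytic_Jof _ _ _
    · exact analyticAt_const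

/-- The resultant. -/
noncomputable def Dsc (β β' : ℕ → ℂ) (c : ℂ) (M : ℕ) (r : ℝ) : ℂ :=
  resultant (PA β β' c M r) (PB β β' M r) (2 * M) (2 * M)

theorem analytic_Dsc (β β' : ℕ → ℂ) (c : ℂ) (M : ℕ) (r : ℝ) : AnalyticAt ℝ (Dsc β β' c M) r := by
  unfold Dsc resultant
  simp only [Matrix.det_apply]
  refine Finset.analyticAt_fun_sum _ fun σ _ => ?_
  have h1 : AnalyticAt ℝ (fun r => ∏ i, sylvester (PA β β' c M r) (PB β β' M r) (2 * M) (2 * M) (σ i) i) r := by
    refine Finset.analyticAt_fun_prod _ fun i _ => ?_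
    generalize σ i = i'
    refine Fin.addCases (fun j => ?_) (fun j => ?_) i
    · simp only [sylvester, Matrix.of_apply, Fin.addCases_left]
      split_ifs
      · exact analytic_coeff_PB _ _ _ _ _
      · exact analyticAt_const
    · simp only [sylvester, Matrix.of_apply, Fin.addCases_right]
      split_ifs
      · exact analytic_coeff_PA _ _ _ _ _ _
      · exact analyticAt_const
  have h2 : (fun r => Equiv.Perm.sign σ • ∏ i, sylvester (PA β β' c M r) (PB β β' M r) (2 * M) (2 * M) (σ i) i) =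
      fun r => ((Equiv.Perm.sign σ : ℤ) : ℂ) *
        ∏ i, sylvester (PA β β' c M r) (PB β β' M r) (2 * M) (2 * M) (σ i) i := by
    funext r
    rw [Units.smul_def, zsmul_eq_mul]
  rw [h2]
  exact analyticAt_const.mul h1

theorem res_zero {f g : ℂ[X]} {m n : ℕ} (hn : n ≠ 0) (hf : f.natDegree ≤ m) (hg : g.natDegree ≤ n) {T : ℂ}
    (h1 : f.eval T = 0) (h2 : g.eval T = 0) : resultant f g m n = 0 := by
  by_cases hf0 : f = 0
  · rw [hf0, resultant_zero_left, zero_pow hn, zero_mul]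
  obtain ⟨k, rfl⟩ := Nat.exists_eq_add_of_le hf
  rw [resultant_add_left_deg _ _ _ _ _ le_rfl, resultant_eq_prod_eval f g n hg (IsAlgClosed.splits f)]
  have h3 : (f.roots.map g.eval).prod = 0 := by
    apply Multiset.prod_eq_zero
    rw [Multiset.mem_map]
    exact ⟨T, (mem_roots hf0).2 h1, h2⟩
  rw [h3, mul_zero, mul_zero]

theorem exists_root {f g : ℂ[X]} {m n : ℕ} (hf : f.natDegree = m) (hg : g.natDegree ≤ n) (hf0 : f ≠ 0)
    (h : resultant f g m n = 0) : ∃ T : ℂ, f.eval T = 0 ∧ g.eval T = 0 := by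
  subst hf
  rw [resultant_eq_prod_eval f g n hg (IsAlgClosed.splits f)] at h
  have h1 : f.leadingCoeff ^ n ≠ 0 := pow_ne_zero _ (leadingCoeff_ne_zero.2 hf0)
  have h2 := (mul_eq_zero.1 h).resolve_left h1
  rw [Multiset.prod_eq_zero_iff, Multiset.mem_map] at h2
  obtain ⟨T, hT, hT2⟩ := h2
  exact ⟨T, (mem_roots hf0).1 hT, hT2⟩

theorem eval_PA (β β' : ℕ → ℂ) (c : ℂ) (M : ℕ) (r : ℝ) {T : ℂ} (hT : T ≠ 0) :
    (PA β β' c M r).eval T =
      T ^ M * ((∑ m ∈ Finset.range (M + 1), (J m r : ℂ) * (β m * T ^ m + β' m * T⁻¹ ^ m)) - 2 * c) := by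
  unfold PA
  rw [eval_sub, eval_finsetSum, mul_sub, Finset.mul_sum]
  congr 1
  · refine Finset.sum_congr rfl fun m hm => ?_
    have hm' : m ≤ M := by
      have := Finset.mem_range.1 hm
      omega
    simp only [eval_add, eval_mul, eval_C, eval_pow, eval_X]
    have h1 : T ^ M = T ^ (M - m) * T ^ m := by rw [← pow_add, Nat.sub_add_cancel hm']
    have h2 : T ^ (M - m) = T ^ M * T⁻¹ ^ m := by
      rw [h1, mul_assoc, ← mul_pow, mul_inv_cancel₀ hT, one_pow, mul_one]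
    rw [h2, pow_add]
    ring
  · simp only [eval_mul, eval_C, eval_pow, eval_X]
    ring

theorem eval_PB (β β' : ℕ → ℂ) (M : ℕ) (r : ℝ) {T : ℂ} (hT : T ≠ 0) :
    (PB β β' M r).eval T =
      T ^ M * ∑ m ∈ Finset.range (M + 1), (J m r : ℂ) * (m * (β m * T ^ m - β' m * T⁻¹ ^ m)) := by
  unfold PB
  rw [eval_finsetSum, Finset.mul_sum]
  refine Finset.sum_congr rfl fun m hm => ?_
  have hm' : m ≤ M := by
    have := Finset.mem_range.1 hm
    omega
  simp only [eval_add, eval_mul, eval_C, eval_pow, eval_X]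
  have h1 : T ^ M = T ^ (M - m) * T ^ m := by rw [← pow_add, Nat.sub_add_cancel hm']
  have h2 : T ^ (M - m) = T ^ M * T⁻¹ ^ m := by
    rw [h1, mul_assoc, ← mul_pow, mul_inv_cancel₀ hT, one_pow, mul_one]
  rw [h2, pow_add]
  ring

/-- The estimate: a double root forces `j_M` to be large. -/
theorem est (M : ℕ) (hM : 1 ≤ M) (a b : ℕ → ℂ) (hab : ∀ m, ‖b m‖ = ‖a m‖) (haM : a M ≠ 0) (c : ℂ) (j : ℕ → ℝ)
    (K : ℝ) (hK : 0 < K) (hj : ∀ m ≤ M, |j m| ≤ K * |j M|) (hjM : j M ≠ 0) (T : ℂ) (hT : 1 ≤ ‖T‖)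
    (h1 : ∑ m ∈ Finset.range (M + 1), (j m : ℂ) * (a m * T ^ m + b m * T⁻¹ ^ m) = 2 * c)
    (h2 : ∑ m ∈ Finset.range (M + 1), (j m : ℂ) * (m * (a m * T ^ m - b m * T⁻¹ ^ m)) = 0) :
    ‖c‖ ≤ K * (∑ m ∈ Finset.range (M + 1), ‖a m‖) *
      (2 * K * (∑ m ∈ Finset.range (M + 1), ‖a m‖) / ‖a M‖) ^ M * |j M| := by
  set S : ℝ := ∑ m ∈ Finset.range (M + 1), ‖a m‖ with hS
  have hS0 : 0 ≤ S := Finset.sum_nonneg fun m _ => norm_nonneg _
  have hjMpos : 0 < |j M| := abs_pos.2 hjM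
  have haMpos : 0 < ‖a M‖ := norm_pos_iff.2 haM
  have hT0 : 0 < ‖T‖ := lt_of_lt_of_le one_pos hT
  have hTi : ∀ m : ℕ, ‖T⁻¹ ^ m‖ ≤ 1 := by
    intro m
    rw [norm_pow, norm_inv]
    exact pow_le_one₀ (by positivity) (inv_le_one_of_one_le₀ hT)
  -- first equation
  have e1 : 2 * ‖c‖ ≤ 2 * (K * |j M| * S * ‖T‖ ^ M) := by
    have h3 : ‖(2 : ℂ) * c‖ = 2 * ‖c‖ := by rw [norm_mul, Complex.norm_ofNat]
    rw [← h3, ← h1]
    refine (norm_sum_le _ _).trans ?_
    have h4 : ∀ m ∈ Finset.range (M + 1), ‖(j m : ℂ) * (a m * T ^ m + b m * T⁻¹ ^ m)‖ ≤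
        (K * |j M|) * (2 * (‖a m‖ * ‖T‖ ^ M)) := by
      intro m hm
      have hm' : m ≤ M := by
        have := Finset.mem_range.1 hm
        omega
      rw [norm_mul, Complex.norm_real, Real.norm_eq_abs]
      refine mul_le_mul (hj m hm') ?_ (norm_nonneg _) (by positivity)
      refine (norm_add_le _ _).trans ?_
      rw [norm_mul, norm_mul, hab m, norm_pow T]
      have h5 : ‖T‖ ^ m ≤ ‖T‖ ^ M := pow_le_pow_right₀ hT hm'
      have h6 : ‖T⁻¹ ^ m‖ ≤ ‖T‖ ^ M := (hTi m).trans (one_le_pow₀ hT)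
      have h7 := norm_nonneg (a m)
      nlinarith
    refine (Finset.sum_le_sum h4).trans ?_
    rw [← Finset.mul_sum, ← Finset.mul_sum, ← Finset.sum_mul, ← hS]
    apply le_of_eq
    ring
  -- second equation
  have e2 : (M : ℝ) * |j M| * ‖a M‖ * ‖T‖ ^ M ≤ 2 * (M * K * |j M| * S * ‖T‖ ^ (M - 1)) := by
    have h3 : (j M : ℂ) * (M * (a M * T ^ M)) =
        -(∑ m ∈ Finset.range M, (j m : ℂ) * (m * (a m * T ^ m))) +
          ∑ m ∈ Finset.range (M + 1), (j m : ℂ) * (m * (b m * T⁻¹ ^ m)) := by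
      have h4 : ∑ m ∈ Finset.range (M + 1), (j m : ℂ) * (m * (a m * T ^ m - b m * T⁻¹ ^ m)) =
          ∑ m ∈ Finset.range (M + 1), (j m : ℂ) * (m * (a m * T ^ m)) -
            ∑ m ∈ Finset.range (M + 1), (j m : ℂ) * (m * (b m * T⁻¹ ^ m)) := by
        rw [← Finset.sum_sub_distrib]
        exact Finset.sum_congr rfl fun m _ => by ring
      rw [h4, Finset.sum_range_succ (fun m => (j m : ℂ) * (m * (a m * T ^ m)))] at h2
      linear_combination h2
    have h4 : ‖(j M : ℂ) * (M * (a M * T ^ M))‖ = (M : ℝ) * |j M| * ‖a M‖ * ‖T‖ ^ M := by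
      rw [norm_mul, norm_mul, norm_mul, norm_pow, Complex.norm_real, Real.norm_eq_abs, Complex.norm_natCast]
      ring
    rw [← h4, h3]
    refine (norm_add_le _ _).trans ?_
    rw [norm_neg]
    have h5 : ‖∑ m ∈ Finset.range M, (j m : ℂ) * (m * (a m * T ^ m))‖ ≤ M * K * |j M| * S * ‖T‖ ^ (M - 1) := by
      refine (norm_sum_le _ _).trans ?_
      have h6 : ∀ m ∈ Finset.range M, ‖(j m : ℂ) * (m * (a m * T ^ m))‖ ≤
          (K * |j M| * M * ‖T‖ ^ (M - 1)) * ‖a m‖ := by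
        intro m hm
        have hm' : m < M := Finset.mem_range.1 hm
        rw [norm_mul, norm_mul, norm_mul, norm_pow, Complex.norm_real, Real.norm_eq_abs, Complex.norm_natCast]
        have h7 := hj m hm'.le
        have h8 : (m : ℝ) ≤ M := by exact_mod_cast hm'.le
        have h9 : ‖T‖ ^ m ≤ ‖T‖ ^ (M - 1) := pow_le_pow_right₀ hT (by omega)
        have h10 : |j m| * (m * (‖a m‖ * ‖T‖ ^ m)) ≤ (K * |j M|) * (M * (‖a m‖ * ‖T‖ ^ (M - 1))) := by
          gcongr
        refine h10.trans (le_of_eq ?_)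
        ring
      refine (Finset.sum_le_sum h6).trans ?_
      rw [← Finset.mul_sum]
      have h7 : ∑ m ∈ Finset.range M, ‖a m‖ ≤ S := by
        rw [hS, Finset.sum_range_succ]
        linarith [norm_nonneg (a M)]
      have h8 : K * |j M| * M * ‖T‖ ^ (M - 1) * ∑ m ∈ Finset.range M, ‖a m‖ ≤
          K * |j M| * M * ‖T‖ ^ (M - 1) * S := by gcongr
      refine h8.trans (le_of_eq ?_)
      ring
    have h6 : ‖∑ m ∈ Finset.range (M + 1), (j m : ℂ) * (m * (b m * T⁻¹ ^ m))‖ ≤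
        M * K * |j M| * S * ‖T‖ ^ (M - 1) := by
      refine (norm_sum_le _ _).trans ?_
      have h6 : ∀ m ∈ Finset.range (M + 1), ‖(j m : ℂ) * (m * (b m * T⁻¹ ^ m))‖ ≤
          (K * |j M| * M * ‖T‖ ^ (M - 1)) * ‖a m‖ := by
        intro m hm
        have hm' : m ≤ M := by
          have := Finset.mem_range.1 hm
          omega
        rw [norm_mul, norm_mul, norm_mul, Complex.norm_real, Real.norm_eq_abs, Complex.norm_natCast, hab m]
        have h7 := hj m hm'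
        have h8 : (m : ℝ) ≤ M := by exact_mod_cast hm'
        have h9 : ‖T⁻¹ ^ m‖ ≤ ‖T‖ ^ (M - 1) := (hTi m).trans (one_le_pow₀ hT)
        have h10 : |j m| * (m * (‖a m‖ * ‖T⁻¹ ^ m‖)) ≤ (K * |j M|) * (M * (‖a m‖ * ‖T‖ ^ (M - 1))) := by
          gcongr
        refine h10.trans (le_of_eq ?_)
        ring
      refine (Finset.sum_le_sum h6).trans ?_
      rw [← Finset.mul_sum, ← hS]
      apply le_of_eq
      ring
    linarith
  have hM0 : (0 : ℝ) < M := by exact_mod_cast hM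
  have e3 : ‖T‖ ≤ 2 * K * S / ‖a M‖ := by
    rw [le_div_iff₀ haMpos]
    have h3 : ‖T‖ ^ M = ‖T‖ ^ (M - 1) * ‖T‖ := by rw [← pow_succ, Nat.sub_add_cancel hM]
    rw [h3] at e2
    have h4 : ((M : ℝ) * |j M| * ‖T‖ ^ (M - 1)) * (‖T‖ * ‖a M‖) ≤
        ((M : ℝ) * |j M| * ‖T‖ ^ (M - 1)) * (2 * K * S) := by
      calc _ = (M : ℝ) * |j M| * ‖a M‖ * (‖T‖ ^ (M - 1) * ‖T‖) := by ring
        _ ≤ 2 * (M * K * |j M| * S * ‖T‖ ^ (M - 1)) := e2
        _ = _ := by ring
    exact le_of_mul_le_mul_left h4 (by positivity)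
  have e4 : ‖T‖ ^ M ≤ (2 * K * S / ‖a M‖) ^ M := pow_le_pow_left₀ hT0.le e3 M
  calc ‖c‖ ≤ K * |j M| * S * ‖T‖ ^ M := by linarith
    _ ≤ K * |j M| * S * (2 * K * S / ‖a M‖) ^ M := by gcongr
    _ = _ := by ring

/-- No double root on an interval. -/
theorem no_double (M : ℕ) (hM : 1 ≤ M) (β β' : ℕ → ℂ) (hβ : ∀ m, ‖β' m‖ = ‖β m‖) (hβM : β M ≠ 0) (c : ℂ)
    (hc : c ≠ 0) (r₁ r₂ : ℝ) (hr : r₁ < r₂)
    (h : ∀ r ∈ Set.Ioo r₁ r₂, ∃ T : ℂ, T ≠ 0 ∧
      ∑ m ∈ Finset.range (M + 1), (J m r : ℂ) * (β m * T ^ m + β' m * T⁻¹ ^ m) = 2 * c ∧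
      ∑ m ∈ Finset.range (M + 1), (J m r : ℂ) * (m * (β m * T ^ m - β' m * T⁻¹ ^ m)) = 0) : False := by
  have hM2 : 2 * M ≠ 0 := by omega
  -- the discriminant vanishes
  have h0 : ∀ r ∈ Set.Ioo r₁ r₂, Dsc β β' c M r = 0 := by
    intro r hr'
    obtain ⟨T, hT, h1, h2⟩ := h r hr'
    refine res_zero hM2 (natDegree_PA _ _ _ _ _) (natDegree_PB _ _ _ _) (T := T) ?_ ?_
    · rw [eval_PA _ _ _ _ _ hT, h1, sub_self, mul_zero]
    · rw [eval_PB _ _ _ _ hT, h2, mul_zero]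
  have hall : Dsc β β' c M = fun _ => 0 := by
    have h1 : AnalyticOnNhd ℝ (Dsc β β' c M) Set.univ := fun t _ => analytic_Dsc _ _ _ _ _
    have h2 : AnalyticOnNhd ℝ (fun _ : ℝ => (0 : ℂ)) Set.univ := fun t _ => analyticAt_const
    refine h1.eq_of_eventuallyEq h2 (z₀ := (r₁ + r₂) / 2) ?_
    filter_upwards [Ioo_mem_nhds (show r₁ < (r₁ + r₂) / 2 by linarith) (show (r₁ + r₂) / 2 < r₂ by linarith)]
      with r hr'
    exact h0 r hr'
  -- a good large point
  obtain ⟨K, hK, hgood⟩ := good_points M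
  set S : ℝ := ∑ m ∈ Finset.range (M + 1), ‖β m‖ with hS
  have hS0 : 0 ≤ S := Finset.sum_nonneg fun m _ => norm_nonneg _
  set Q : ℝ := K * S * (2 * K * S / ‖β M‖) ^ M with hQ
  have hQ0 : 0 ≤ Q := by positivity
  have hc0 : 0 < ‖c‖ := norm_pos_iff.2 hc
  have hsmall : ∀ᶠ r in atTop, |J M r| < ‖c‖ / (Q + 1) := by
    have h1 := (tendsto_zero_iff_abs_tendsto_zero _).1 (tendsto_J M)
    exact h1.eventually_lt_const (by positivity)
  obtain ⟨X, hX⟩ := eventually_atTop.1 hsmall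
  obtain ⟨r, hrX, hJ, hJm⟩ := hgood X
  have hlt := hX r hrX
  -- the degree and the constant coefficient
  have hcoeff : (PA β β' c M r).coeff (2 * M) = (J M r : ℂ) * β M := by
    unfold PA
    simp only [coeff_sub, finsetSum_coeff, coeff_add, coeff_C_mul_X_pow]
    rw [Finset.sum_eq_single M]
    · rw [if_pos (by omega), if_neg (by omega), if_neg (by omega)]
      ring
    · intro m hm hmM
      have hm' : m ≤ M := by
        have := Finset.mem_range.1 hm
        omega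
      rw [if_neg (by omega), if_neg (by omega), add_zero]
    · intro hcon
      exact absurd (Finset.mem_range.2 (Nat.lt_succ_self M)) hcon
  have hcoeff0 : (PA β β' c M r).coeff 0 = (J M r : ℂ) * β' M := by
    unfold PA
    simp only [coeff_sub, finsetSum_coeff, coeff_add, coeff_C_mul_X_pow]
    rw [Finset.sum_eq_single M]
    · rw [if_neg (by omega), if_pos (by omega), if_neg (by omega)]
      ring
    · intro m hm hmM
      have hm' : m ≤ M := by
        have := Finset.mem_range.1 hm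
        omega
      rw [if_neg (by omega), if_neg (by omega), add_zero]
    · intro hcon
      exact absurd (Finset.mem_range.2 (Nat.lt_succ_self M)) hcon
  have hJc : (J M r : ℂ) ≠ 0 := by exact_mod_cast hJ
  have hne : (PA β β' c M r).coeff (2 * M) ≠ 0 := by
    rw [hcoeff]
    exact mul_ne_zero hJc hβM
  have hdeg : (PA β β' c M r).natDegree = 2 * M :=
    le_antisymm (natDegree_PA _ _ _ _ _) (le_natDegree_of_ne_zero hne)
  have hPA0 : PA β β' c M r ≠ 0 := by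
    intro h1
    rw [h1, coeff_zero] at hne
    exact hne rfl
  obtain ⟨T, hT1, hT2⟩ := exists_root hdeg (natDegree_PB β β' M r) hPA0 (congrFun hall r)
  have hβ'M : β' M ≠ 0 := by
    rw [← norm_ne_zero_iff, hβ M, norm_ne_zero_iff]
    exact hβM
  have hT : T ≠ 0 := by
    intro h1
    rw [h1, ← coeff_zero_eq_eval_zero, hcoeff0] at hT1
    exact mul_ne_zero hJc hβ'M hT1
  rw [eval_PA _ _ _ _ _ hT] at hT1
  rw [eval_PB _ _ _ _ hT] at hT2
  have hTM : T ^ M ≠ 0 := pow_ne_zero _ hT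
  have e1 := sub_eq_zero.1 ((mul_eq_zero.1 hT1).resolve_left hTM)
  have e2 := (mul_eq_zero.1 hT2).resolve_left hTM
  have hfin : ‖c‖ ≤ Q * |J M r| := by
    rcases le_total 1 ‖T‖ with h1 | h1
    · exact est M hM β β' hβ hβM c (fun m => J m r) K hK hJm hJ T h1 e1 e2
    · have h2 : 1 ≤ ‖T⁻¹‖ := by
        rw [norm_inv]
        exact (one_le_inv₀ (norm_pos_iff.2 hT)).2 h1
      have e1' : ∑ m ∈ Finset.range (M + 1), ((J m r : ℝ) : ℂ) * (β' m * T⁻¹ ^ m + β m * T⁻¹⁻¹ ^ m) = 2 * c := by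
        rw [← e1]
        refine Finset.sum_congr rfl fun m _ => ?_
        rw [inv_inv]
        ring
      have e2' : ∑ m ∈ Finset.range (M + 1), ((J m r : ℝ) : ℂ) * (m * (β' m * T⁻¹ ^ m - β m * T⁻¹⁻¹ ^ m)) = 0 := by
        have h3 : ∑ m ∈ Finset.range (M + 1), ((J m r : ℝ) : ℂ) * (m * (β' m * T⁻¹ ^ m - β m * T⁻¹⁻¹ ^ m)) =
            -∑ m ∈ Finset.range (M + 1), (J m r : ℂ) * (m * (β m * T ^ m - β' m * T⁻¹ ^ m)) := by
          rw [← Finset.sum_neg_distrib]
          refine Finset.sum_congr rfl fun m _ => ?_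
          rw [inv_inv]
          ring
        rw [h3, e2, neg_zero]
      have h3 := est M hM β' β (fun m => (hβ m).symm) hβ'M c (fun m => J m r) K hK hJm hJ T⁻¹ h2 e1' e2'
      have h4 : ∑ m ∈ Finset.range (M + 1), ‖β' m‖ = S := Finset.sum_congr rfl fun m _ => hβ m
      rw [h4, hβ M] at h3
      exact h3
  have h5 : Q * |J M r| ≤ (Q + 1) * |J M r| := by
    have := abs_nonneg (J M r)
    linarith
  have h6 : (Q + 1) * |J M r| < ‖c‖ := by
    rw [lt_div_iff₀ (by positivity)] at hlt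
    linarith
  linarith

end DrumF
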