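import Pool.Agent.Lib.MP_d92c84_an.Grn

/-!
# Solutions of the wave equation on an open subset of the plane: second derivatives
-/

set_option autoImplicit false

namespace DrumF

open Filter Topology Set MeasureTheory

section
variable {c : ℝ} {D : Set ℂ} {z : ℂ → ℝ → ℝ}

/-- `z` as a function of space and time. -/
def FF (z : ℂ → ℝ → ℝ) (q : ℂ × ℝ) : ℝ := z q.1 q.2

theorem hasF1 (hD : IsOpen D) (h : ContDiffOn ℝ 2 (FF z) (D ×ˢ univ)) {q : ℂ × ℝ} (hq : q.1 ∈ D) :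
    HasFDerivAt (FF z) (fderiv ℝ (FF z) q) q := by
  have hmem : D ×ˢ (univ : Set ℝ) ∈ 𝓝 q := (hD.prod isOpen_univ).mem_nhds ⟨hq, mem_univ _⟩
  exact ((h.contDiffAt hmem).differentiableAt (by norm_num)).hasFDerivAt

theorem cd1 (hD : IsOpen D) (h : ContDiffOn ℝ 2 (FF z) (D ×ˢ univ)) :
    ContDiffOn ℝ 1 (fderiv ℝ (FF z)) (D ×ˢ univ) :=
  h.fderiv_of_isOpen (hD.prod isOpen_univ) (by norm_num)

theorem hasF2 (hD : IsOpen D) (h : ContDiffOn ℝ 2 (FF z) (D ×ˢ univ)) {q : ℂ × ℝ} (hq : q.1 ∈ D) :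
    HasFDerivAt (fderiv ℝ (FF z)) (fderiv ℝ (fderiv ℝ (FF z)) q) q := by
  have hmem : D ×ˢ (univ : Set ℝ) ∈ 𝓝 q := (hD.prod isOpen_univ).mem_nhds ⟨hq, mem_univ _⟩
  exact (((cd1 hD h).contDiffAt hmem).differentiableAt (by norm_num)).hasFDerivAt

theorem cont1 (hD : IsOpen D) (h : ContDiffOn ℝ 2 (FF z) (D ×ˢ univ)) :
    ContinuousOn (fderiv ℝ (FF z)) (D ×ˢ univ) := (cd1 hD h).continuousOn

theorem cont2 (hD : IsOpen D) (h : ContDiffOn ℝ 2 (FF z) (D ×ˢ univ)) :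
    ContinuousOn (fderiv ℝ (fderiv ℝ (FF z))) (D ×ˢ univ) :=
  ((cd1 hD h).fderiv_of_isOpen (m := 0) (hD.prod isOpen_univ) (by norm_num)).continuousOn

/-- Derivative of `F` along a curve. -/
theorem along1 (hD : IsOpen D) (h : ContDiffOn ℝ 2 (FF z) (D ×ˢ univ)) {φ : ℝ → ℂ × ℝ} {v : ℂ × ℝ} {s : ℝ}
    (hs : (φ s).1 ∈ D) (hφ : HasDerivAt φ v s) :
    HasDerivAt (fun s => FF z (φ s)) (fderiv ℝ (FF z) (φ s) v) s :=
  (hasF1 hD h hs).comp_hasDerivAt s hφ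

/-- Derivative of `F'` along a curve. -/
theorem along2 (hD : IsOpen D) (h : ContDiffOn ℝ 2 (FF z) (D ×ˢ univ)) {φ : ℝ → ℂ × ℝ} {v : ℂ × ℝ} {s : ℝ}
    (hs : (φ s).1 ∈ D) (hφ : HasDerivAt φ v s) (w : ℂ × ℝ) :
    HasDerivAt (fun s => fderiv ℝ (FF z) (φ s) w) (fderiv ℝ (fderiv ℝ (FF z)) (φ s) v w) s := by
  have h1 : HasDerivAt (fun s => fderiv ℝ (FF z) (φ s)) (fderiv ℝ (fderiv ℝ (FF z)) (φ s) v) s :=
    (hasF2 hD h hs).comp_hasDerivAt s hφ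
  have h2 := h1.clm_apply (hasDerivAt_const s w)
  refine h2.congr_deriv ?_
  simp

/-- The wave equation in terms of the second derivative of `F`. -/
theorem wave2 (hD : IsOpen D) (h : ContDiffOn ℝ 2 (FF z) (D ×ˢ univ)) {x : ℂ} (hx : x ∈ D) {t : ℝ}
    (hw : iteratedDeriv 2 (z x) t = c ^ 2 * Laplacian.laplacian (fun y => z y t) x) :
    fderiv ℝ (fderiv ℝ (FF z)) (x, t) (0, 1) (0, 1) = c ^ 2 *
      (fderiv ℝ (fderiv ℝ (FF z)) (x, t) (1, 0) (1, 0) +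
        fderiv ℝ (fderiv ℝ (FF z)) (x, t) (Complex.I, 0) (Complex.I, 0)) := by
  have ht : iteratedDeriv 2 (z x) t = fderiv ℝ (fderiv ℝ (FF z)) (x, t) (0, 1) (0, 1) := by
    have hφ : ∀ s : ℝ, HasDerivAt (fun s : ℝ => ((x, s) : ℂ × ℝ)) ((0 : ℂ), (1 : ℝ)) s := fun s =>
      (hasDerivAt_const s x).prodMk (hasDerivAt_id s)
    have h1 : deriv (z x) = fun s => fderiv ℝ (FF z) (x, s) (0, 1) := by
      funext s
      exact (along1 hD h (φ := fun s => (x, s)) hx (hφ s)).deriv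
    rw [iteratedDeriv_succ, iteratedDeriv_one, h1]
    exact (along2 hD h (φ := fun s => (x, s)) hx (hφ t) (0, 1)).deriv
  have hl : Laplacian.laplacian (fun y => z y t) x = fderiv ℝ (fderiv ℝ (FF z)) (x, t) (1, 0) (1, 0) +
      fderiv ℝ (fderiv ℝ (FF z)) (x, t) (Complex.I, 0) (Complex.I, 0) := by
    have h1 : ∀ y ∈ D, fderiv ℝ (fun y => z y t) y = (fderiv ℝ (FF z) (y, t)).comp (ContinuousLinearMap.inl ℝ ℂ ℝ) := by
      intro y hy
      have h2 : HasFDerivAt (fun y : ℂ => ((y, t) : ℂ × ℝ)) (ContinuousLinearMap.inl ℝ ℂ ℝ) y := by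
        have h3 := (hasFDerivAt_id (𝕜 := ℝ) y).prodMk (hasFDerivAt_const t y)
        exact h3
      exact ((hasF1 hD h (q := (y, t)) hy).comp y h2).fderiv
    have h2 : fderiv ℝ (fun y => z y t) =ᶠ[𝓝 x]
        fun y => (fderiv ℝ (FF z) (y, t)).comp (ContinuousLinearMap.inl ℝ ℂ ℝ) := by
      filter_upwards [hD.mem_nhds hx] with y hy
      exact h1 y hy
    have h3 : HasFDerivAt (fun y : ℂ => ((y, t) : ℂ × ℝ)) (ContinuousLinearMap.inl ℝ ℂ ℝ) x := by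
      have h4 := (hasFDerivAt_id (𝕜 := ℝ) x).prodMk (hasFDerivAt_const t x)
      exact h4
    have h4 := (hasF2 hD h (q := (x, t)) hx).comp x h3
    have h5 := (((ContinuousLinearMap.compL ℝ ℂ (ℂ × ℝ) ℝ).flip (ContinuousLinearMap.inl ℝ ℂ ℝ)).hasFDerivAt
      (x := fderiv ℝ (FF z) (x, t))).comp x h4
    have h6 : fderiv ℝ (fderiv ℝ (fun y => z y t)) x =
        ((ContinuousLinearMap.compL ℝ ℂ (ℂ × ℝ) ℝ).flip (ContinuousLinearMap.inl ℝ ℂ ℝ)).comp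
          ((fderiv ℝ (fderiv ℝ (FF z)) (x, t)).comp (ContinuousLinearMap.inl ℝ ℂ ℝ)) := by
      rw [h2.fderiv_eq]
      exact h5.fderiv
    rw [InnerProductSpace.laplacian_eq_iteratedFDeriv_complexPlane]
    simp only
    rw [iteratedFDeriv_two_apply, iteratedFDeriv_two_apply, h6]
    simp
  rw [← ht, ← hl, hw]

/-- The spatial gradient. -/
theorem grad1 (hD : IsOpen D) (h : ContDiffOn ℝ 2 (FF z) (D ×ˢ univ)) {G : ℂ → ℝ → ℂ} {x : ℂ} (hx : x ∈ D) {t : ℝ}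
    (hg : HasGradientAt (fun y => z y t) (G x t) x) :
    fderiv ℝ (FF z) (x, t) (1, 0) = (G x t).re ∧ fderiv ℝ (FF z) (x, t) (Complex.I, 0) = (G x t).im := by
  rw [hasGradientAt_iff_hasFDerivAt] at hg
  have h2 : HasFDerivAt (fun y : ℂ => ((y, t) : ℂ × ℝ)) (ContinuousLinearMap.inl ℝ ℂ ℝ) x := by
    have h3 := (hasFDerivAt_id (𝕜 := ℝ) x).prodMk (hasFDerivAt_const t x)
    exact h3
  have h0 : HasFDerivAt (fun y => z y t) ((fderiv ℝ (FF z) (x, t)).comp (ContinuousLinearMap.inl ℝ ℂ ℝ)) x := by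
    have h3 := (hasF1 hD h (q := (x, t)) hx).comp x h2
    exact h3
  have h3 := h0.unique hg
  have e1 := DFunLike.congr_fun h3 (1 : ℂ)
  have e2 := DFunLike.congr_fun h3 Complex.I
  rw [InnerProductSpace.toDual_apply_apply, Complex.inner] at e1 e2
  constructor
  · simpa using e1
  · simpa using e2

end

end DrumF
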