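import Pool.Agent.Lib.MP_d92c84_an.Ctr

/-!
# Plane waves of one wave number: no closed critical curve
-/

set_option autoImplicit false

namespace DrumF

open Filter Topology Set
open scoped ComplexConjugate

/-- Continuation of the critical curve to a disc of any radius. -/
theorem extend {κ : ℝ} (hκ : 0 < κ) {Z : Finset ℂ} {a : ℂ → ℂ} (hZ : ∀ ζ ∈ Z, ‖ζ‖ = 1) {c : ℂ} (hc : c ≠ 0)
    {R : ℝ} (hR : 0 ≤ R) (htube : ∀ z w : ℂ, U κ Z a 1 0 z w = 0 → U κ Z a 0 1 z w = 0 → ‖w - conj z‖ ≤ R)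
    {Γ : Set ℂ} (hΓ : ∀ z ∈ Γ, U κ Z a 0 0 z (conj z) = c ∧ U κ Z a 1 0 z (conj z) = 0 ∧
      U κ Z a 0 1 z (conj z) = 0) {z₀ : ℂ} (hz₀ : z₀ ∈ Γ) (hacc : AccPt z₀ (𝓟 Γ)) {r : ℝ} (hr : 0 < r) :
    ∃ S : ℂ → ℂ, DifferentiableOn ℂ S (Metric.ball z₀ r) ∧ ∀ z ∈ Metric.ball z₀ r, ‖S z - conj z‖ ≤ R := by
  obtain ⟨δ, hδ, ε, hε, hcon⟩ := contraction hκ (a := a) hZ hc hR
  obtain ⟨N, hN⟩ := exists_nat_gt (r / ε)
  have hN0 : 0 < (N : ℝ) := lt_of_le_of_lt (by positivity) hN
  have hNc : (N : ℂ) ≠ 0 := by exact_mod_cast hN0.ne'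
  have hκc : (κ : ℂ) ≠ 0 := by exact_mod_cast hκ.ne'
  set α : ℕ → ℂ → ℂ := fun k z => z₀ + (k / N : ℂ) * (z - z₀) with hα
  have hαd : ∀ k, Differentiable ℂ (α k) := by
    intro k
    simp only [hα]
    fun_prop
  have hαstep : ∀ k, ∀ z ∈ Metric.ball z₀ r, ‖α (k + 1) z - α k z‖ ≤ ε := by
    intro k z hz
    rw [mem_ball_iff_norm] at hz
    have h1 : α (k + 1) z - α k z = (z - z₀) / N := by
      simp only [hα]
      push_cast
      field_simp
      ring
    rw [h1, norm_div, Complex.norm_natCast]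
    rw [div_lt_iff₀ hε] at hN
    rw [div_le_iff₀ hN0]
    linarith
  have key : ∀ k : ℕ, ∃ W : ℂ → ℂ, DifferentiableOn ℂ W (Metric.ball z₀ r) ∧ W z₀ = conj z₀ ∧
      ∀ z ∈ Metric.ball z₀ r, U κ Z a 0 0 (α k z) (W z) = c ∧ U κ Z a 1 0 (α k z) (W z) = 0 ∧
        U κ Z a 0 1 (α k z) (W z) = 0 := by
    intro k
    induction k with
    | zero =>
      refine ⟨fun _ => conj z₀, differentiableOn_const _, rfl, fun z _ => ?_⟩
      have h1 : α 0 z = z₀ := by
        simp only [hα]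
        simp
      rw [h1]
      exact hΓ z₀ hz₀
    | succ k ih =>
      obtain ⟨W, hWd, hW0, hW⟩ := ih
      have hball : ∀ z ∈ Metric.ball z₀ r, (∀ w, ‖w - W z‖ ≤ δ →
          ‖(w + U κ Z a 1 0 (α (k + 1) z) w / (κ ^ 2 * c)) - W z‖ ≤ δ) ∧
          ∀ w v, ‖w - W z‖ ≤ δ → ‖v - W z‖ ≤ δ →
          ‖(w + U κ Z a 1 0 (α (k + 1) z) w / (κ ^ 2 * c)) - (v + U κ Z a 1 0 (α (k + 1) z) v / (κ ^ 2 * c))‖ ≤
            1 / 2 * ‖w - v‖ := by
        intro z hz
        obtain ⟨h1, h2, h3⟩ := hW z hz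
        exact hcon (α k z) (W z) h1 h2 (htube _ _ h2 h3) (α (k + 1) z) (hαstep k z hz)
      obtain ⟨V, hVd, hV, hVu⟩ := limit_step (B := Metric.ball z₀ r) Metric.isOpen_ball
        (Φ := fun z w => w + U κ Z a 1 0 (α (k + 1) z) w / (κ ^ 2 * c)) hδ.le hWd
        (fun V hVd => hVd.add ((U_diff (hαd (k + 1)).differentiableOn hVd).div_const _))
        (fun z hz w hw => (hball z hz).1 w hw) (fun z hz w v hw hv => (hball z hz).2 w v hw hv)
      have hz₀b : z₀ ∈ Metric.ball z₀ r := Metric.mem_ball_self hr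
      have hα0 : α (k + 1) z₀ = z₀ := by
        simp only [hα]
        simp
      have hV0 : V z₀ = conj z₀ := by
        refine (hVu z₀ hz₀b (conj z₀) ?_ ?_).symm
        · rw [hW0, sub_self, norm_zero]
          exact hδ.le
        · simp only [hα0]
          rw [(hΓ z₀ hz₀).2.1, zero_div, add_zero]
      have hV10 : ∀ z ∈ Metric.ball z₀ r, U κ Z a 1 0 (α (k + 1) z) (V z) = 0 := by
        intro z hz
        have h1 : V z + U κ Z a 1 0 (α (k + 1) z) (V z) / (κ ^ 2 * c) = V z := (hV z hz).2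
        have h2 : U κ Z a 1 0 (α (k + 1) z) (V z) / (κ ^ 2 * c) = 0 := by linear_combination h1
        rcases div_eq_zero_iff.1 h2 with h3 | h3
        · exact h3
        · exact absurd h3 (mul_ne_zero (pow_ne_zero 2 hκc) hc)
      -- the points of the curve
      have hfreq : ∃ᶠ z in 𝓝[≠] z₀, U κ Z a 0 0 (α (k + 1) z) (V z) = c ∧ U κ Z a 0 1 (α (k + 1) z) (V z) = 0 := by
        rw [accPt_iff_frequently_nhdsNE] at hacc
        set lam : ℂ := ((k + 1 : ℕ) : ℂ) / N with hlam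
        have hlam0 : lam ≠ 0 := div_ne_zero (by exact_mod_cast Nat.succ_ne_zero k) hNc
        set b : ℂ → ℂ := fun y => z₀ + lam⁻¹ * (y - z₀) with hb
        have hαb : ∀ y, α (k + 1) (b y) = y := by
          intro y
          simp only [hα, hb, add_sub_cancel_left]
          rw [← hlam, ← mul_assoc, mul_inv_cancel₀ hlam0, one_mul]
          ring
        have hbt : Tendsto b (𝓝[≠] z₀) (𝓝[≠] z₀) := by
          refine tendsto_nhdsWithin_iff.2 ⟨?_, ?_⟩
          · have h1 : Continuous b := by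
              simp only [hb]
              fun_prop
            have h2 := h1.tendsto z₀
            have h3 : b z₀ = z₀ := by simp [hb]
            rw [h3] at h2
            exact h2.mono_left nhdsWithin_le_nhds
          · filter_upwards [self_mem_nhdsWithin] with y hy
            intro h1
            apply hy
            have h2 : lam⁻¹ * (y - z₀) = 0 := by
              have h3 : z₀ + lam⁻¹ * (y - z₀) = z₀ := h1
              linear_combination h3
            rcases mul_eq_zero.1 h2 with h3 | h3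
            · exact absurd h3 (inv_ne_zero hlam0)
            · exact sub_eq_zero.1 h3
        have h1 : ∃ᶠ z in 𝓝[≠] z₀, α (k + 1) z ∈ Γ := by
          apply hbt.frequently
          refine hacc.mono fun y hy => ?_
          rw [hαb]
          exact hy
        have h2 : ∀ᶠ z in 𝓝[≠] z₀, z ∈ Metric.ball z₀ r ∧ ‖conj (α (k + 1) z) - W z‖ ≤ δ := by
          have h3 : ContinuousAt (fun z => ‖conj (α (k + 1) z) - W z‖) z₀ := by
            have h4 : ContinuousAt W z₀ := (hWd.continuousOn).continuousAt (Metric.isOpen_ball.mem_nhds hz₀b)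
            have h5 : ContinuousAt (fun z => conj (α (k + 1) z)) z₀ :=
              (Complex.continuous_conj.comp (hαd (k + 1)).continuous).continuousAt
            exact (h5.sub h4).norm
          have h4 : ‖conj (α (k + 1) z₀) - W z₀‖ < δ := by
            rw [hα0, hW0, sub_self, norm_zero]
            exact hδ
          have h5 : ∀ᶠ z in 𝓝 z₀, ‖conj (α (k + 1) z) - W z‖ < δ := h3.eventually_lt_const h4
          have h6 : ∀ᶠ z in 𝓝 z₀, z ∈ Metric.ball z₀ r := Metric.isOpen_ball.mem_nhds hz₀b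
          filter_upwards [h5.filter_mono nhdsWithin_le_nhds, h6.filter_mono nhdsWithin_le_nhds] with z h7 h8
          exact ⟨h8, h7.le⟩
        refine (h1.and_eventually h2).mono ?_
        rintro z ⟨hzΓ, hzb, hzδ⟩
        obtain ⟨g1, g2, g3⟩ := hΓ _ hzΓ
        have h3 : conj (α (k + 1) z) = V z := by
          refine hVu z hzb _ hzδ ?_
          rw [g2, zero_div, add_zero]
        rw [← h3]
        exact ⟨g1, g3⟩
      have hconn : IsPreconnected (Metric.ball z₀ r) := (convex_ball z₀ r).isPreconnected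
      have han : ∀ p q : ℕ, ∀ d : ℂ, AnalyticOnNhd ℂ (fun z => U κ Z a p q (α (k + 1) z) (V z) - d)
          (Metric.ball z₀ r) := by
        intro p q d
        exact ((U_diff (hαd (k + 1)).differentiableOn hVd).sub_const d).analyticOnNhd Metric.isOpen_ball
      have e1 := (han 0 0 c).eqOn_zero_of_preconnected_of_frequently_eq_zero hconn hz₀b
        (hfreq.mono fun z hz => by rw [hz.1, sub_self])
      have e2 := (han 0 1 0).eqOn_zero_of_preconnected_of_frequently_eq_zero hconn hz₀b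
        (hfreq.mono fun z hz => by rw [hz.2, sub_self])
      refine ⟨V, hVd, hV0, fun z hz => ⟨?_, hV10 z hz, ?_⟩⟩
      · exact sub_eq_zero.1 (e1 hz)
      · have := e2 hz
        simpa using this
  obtain ⟨S, hSd, -, hS⟩ := key N
  refine ⟨S, hSd, fun z hz => ?_⟩
  obtain ⟨-, h1, h2⟩ := hS z hz
  have h3 : α N z = z := by
    simp only [hα]
    rw [div_self hNc]
    ring
  rw [h3] at h1 h2
  exact htube _ _ h1 h2

/-- A real wave with at least three (hence four) plane waves has no infinite compact connected critical set. -/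
theorem plane_core {κ : ℝ} (hκ : 0 < κ) {Z : Finset ℂ} {a : ℂ → ℂ} (hZ : ∀ ζ ∈ Z, ‖ζ‖ = 1)
    (hs : ∀ ζ ∈ Z, -ζ ∈ Z) (ha : ∀ ζ ∈ Z, a ζ ≠ 0) (har : ∀ ζ ∈ Z, a (-ζ) = conj (a ζ)) (hcard : 3 ≤ Z.card)
    {g : ℝ → ℂ} (hg : Continuous g) (hinf : (range g).Infinite) (hcpt : IsCompact (range g))
    (hcrit : ∀ s, PW κ Z a 1 0 (g s) = 0) : ∀ x, PW κ Z a 0 0 x = 0 := by
  have hH := helm_PW (κ := κ) hZ hs har
  obtain ⟨c, hc⟩ := hH.const hκ.ne' hg hcrit
  obtain ⟨z₀, hz₀, hacc⟩ := hinf.exists_accPt_of_subset_isCompact hcpt Subset.rfl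
  have hcrit' : ∀ s, PW κ Z a 0 1 (g s) = 0 := by
    intro s
    rw [← hH.real 1 0, hcrit s, map_zero]
  by_cases hc0 : c = 0
  · have hsub : range g ⊆ {x | PW κ Z a 0 0 x = 0 ∧ PW κ Z a 1 0 x = 0} := by
      rintro _ ⟨s, rfl⟩
      exact ⟨(hc s).trans hc0, hcrit s⟩
    exact hH.jet.zero_of_flat (hH.flat (hacc.mono (principal_mono.2 hsub))) (analytic_PW κ Z a)
  · exfalso
    obtain ⟨R, hR, htube⟩ := tube hκ hZ hs ha hcard
    obtain ⟨S, hSd, hS⟩ := extend hκ hZ hc0 hR htube (Γ := range g) (by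
      rintro _ ⟨s, rfl⟩
      exact ⟨hc s, hcrit s, hcrit' s⟩) hz₀ hacc (r := R + 1) (by linarith)
    have := no_section hR hSd hS
    linarith

end DrumF
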