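import Pool.Agent.Lib.MP_d92c84_an.Sol
import Pool.Agent.Lib.MP_d92c84_an.Cir

/-!
# Glue: one frequency at a time
-/

set_option autoImplicit false

namespace DrumF

open Filter Topology Set
open scoped ComplexConjugate

/-- A simple closed curve as a curve on the line. -/
theorem param {γ : Set ℂ} {g : Circle → ℂ} (hg : Continuous g) (hinj : Function.Injective g)
    (hγ : range g = γ) : ∃ h : ℝ → ℂ, Continuous h ∧ range h = γ ∧ γ.Infinite ∧ IsCompact γ ∧ IsPreconnected γ := by
  have hc : IsPreconnected γ := by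
    rw [← hγ]
    have h1 : range g = range (g ∘ Circle.exp) := by
      rw [Circle.exp_surjective.range_comp]
    rw [h1]
    exact isPreconnected_range (hg.comp Circle.exp.continuous)
  refine ⟨g ∘ Circle.exp, hg.comp Circle.exp.continuous, ?_, ?_, ?_, hc⟩
  · rw [Circle.exp_surjective.range_comp, hγ]
  · refine hc.infinite_of_nontrivial ?_
    refine ⟨g 1, hγ ▸ mem_range_self _, g (-1), hγ ▸ mem_range_self _, fun h => ?_⟩
    have h1 := hinj h
    have h2 : ((1 : Circle) : ℂ) = ((-1 : Circle) : ℂ) := by rw [← h1]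
    rw [Circle.coe_neg, Circle.coe_one] at h2
    norm_num at h2
  · rw [← hγ]
    exact isCompact_range hg

/-- The theorem for one frequency. -/
theorem core {κ : ℝ} (hκ : 0 < κ) (β : ℕ → ℂ) (M : ℕ) (p : ℂ) {D R γ : Set ℂ} (hDo : IsOpen D)
    (hDne : D.Nonempty) (hDb : Bornology.IsBounded D) (hfr : frontier D = R) (hRc : IsPreconnected R)
    (hRi : R.Infinite) {g : ℝ → ℂ} (hg : Continuous g) (hgr : range g = γ) (hγi : γ.Infinite)
    (hγc : IsCompact γ) (hR : ∀ x ∈ R, W κ β M p 0 0 x = 0) (hcrit : ∀ x ∈ γ, W κ β M p 0 1 x = 0) :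
    (∀ x, W κ β M p 0 0 x = 0) ∨ ∃ q : ℂ, ∃ ρ : ℝ, 0 < ρ ∧ R = Metric.sphere q ρ := by
  have h1 : ∀ s, W κ β M p 1 0 (g s) = 0 := by
    intro s
    rw [← (helm_W κ β M p).real 0 1, hcrit (g s) (hgr ▸ mem_range_self s), map_zero]
  rcases uniq hκ β p hg (by rwa [hgr]) (by rwa [hgr]) M h1 with h | h
  · exact Or.inl h
  have hW : ∀ x, W κ β M p 0 0 x = (((β 0).re * J 0 (2 * κ * ‖x - p‖) : ℝ) : ℂ) := by
    intro x
    rw [W_zero, Finset.sum_eq_single_of_mem 0 (Finset.mem_range.2 (Nat.succ_pos M))]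
    · have h2 : Hp κ 0 (x - p) = ((J 0 (2 * κ * ‖x - p‖) : ℝ) : ℂ) := by
        by_cases hx : x - p = 0
        · rw [hx]
          unfold Hp
          rw [norm_zero, show 2 * κ * 0 = 0 from mul_zero _, J_zero_zero]
          simp only [mul_zero, pow_zero, one_mul, zero_mul]
          rw [F_zero]
          simp
        · rw [Hp_polar κ 0 hx, pow_zero, mul_one]
      rw [h2, Complex.re_mul_ofReal]
    · intro m hm hm0
      rw [h m (Nat.one_le_iff_ne_zero.2 hm0) (Nat.lt_succ_iff.1 (Finset.mem_range.1 hm)), zero_mul]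
  by_cases h0 : (β 0).re = 0
  · left
    intro x
    rw [hW, h0, zero_mul, Complex.ofReal_zero]
  · right
    refine circle_of_radial hDo hDne hDb hfr hRc hRi (p := p) hκ fun x hx => ?_
    have h2 := hR x hx
    rw [hW] at h2
    have h3 : (β 0).re * J 0 (2 * κ * ‖x - p‖) = 0 := by exact_mod_cast h2
    exact (mul_eq_zero.1 h3).resolve_left h0

/-- One standing wave. -/
theorem wave_term {ω c : ℝ} (a α τ t : ℝ) (m : ℕ) (x : ℂ) :
    a * J m (ω * ‖x‖ / c) * Real.cos (m * x.arg - α) * Real.cos (ω * t - τ) =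
      Real.cos (ω * t) * (((a * Real.cos τ : ℝ) * Complex.exp (-(α * Complex.I))) * Hp (ω / (2 * c)) m x).re +
      Real.sin (ω * t) * (((a * Real.sin τ : ℝ) * Complex.exp (-(α * Complex.I))) * Hp (ω / (2 * c)) m x).re := by
  have h2 : Hp (ω / (2 * c)) m x = ((J m (ω * ‖x‖ / c) : ℝ) : ℂ) * Complex.exp (m * x.arg * Complex.I) := by
    have h3 : 2 * (ω / (2 * c)) * ‖x‖ = ω * ‖x‖ / c := by
      by_cases hc : c = 0
      · simp [hc]
      · field_simp
    by_cases hx : x = 0
    · rw [hx]
      cases m with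
      | zero =>
        unfold Hp
        rw [norm_zero, show ω * 0 / c = 0 by rw [mul_zero, zero_div], J_zero_zero]
        simp only [mul_zero, pow_zero, one_mul, zero_mul, Nat.cast_zero, Complex.exp_zero]
        rw [F_zero]
        simp
      | succ m =>
        have h4 : J (m + 1) 0 = 0 := by
          have h := J_eq (m + 1) 0
          unfold Jc at h
          rw [Complex.ofReal_zero, zero_div, zero_pow (Nat.succ_ne_zero m), zero_mul] at h
          exact_mod_cast h
        rw [norm_zero, show ω * 0 / c = 0 by rw [mul_zero, zero_div], h4]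
        unfold Hp
        simp
    · rw [Hp_polar _ _ hx, h3]
      congr 1
      have h5 : x / (‖x‖ : ℂ) = Complex.exp (x.arg * Complex.I) := by
        have h6 := Complex.norm_mul_exp_arg_mul_I x
        have hn : (‖x‖ : ℂ) ≠ 0 := by exact_mod_cast norm_ne_zero_iff.2 hx
        rw [div_eq_iff hn, mul_comm, h6]
      rw [h5, ← Complex.exp_nat_mul]
      congr 1
      ring
  have h7 : ∀ b : ℝ, ((((b : ℝ) : ℂ) * Complex.exp (-(α * Complex.I))) *
      (((J m (ω * ‖x‖ / c) : ℝ) : ℂ) * Complex.exp (m * x.arg * Complex.I))).re =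
      b * J m (ω * ‖x‖ / c) * Real.cos (m * x.arg - α) := by
    intro b
    have h8 : (((b : ℝ) : ℂ) * Complex.exp (-(α * Complex.I))) *
      (((J m (ω * ‖x‖ / c) : ℝ) : ℂ) * Complex.exp (m * x.arg * Complex.I)) =
      ((b * J m (ω * ‖x‖ / c) : ℝ) : ℂ) * Complex.exp (((m * x.arg - α : ℝ) : ℂ) * Complex.I) := by
      have h9 : Complex.exp (((m * x.arg - α : ℝ) : ℂ) * Complex.I) =
        Complex.exp (-(α * Complex.I)) * Complex.exp (m * x.arg * Complex.I) := by
        rw [← Complex.exp_add]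
        congr 1
        push_cast
        ring
      rw [h9]
      push_cast
      ring
    rw [h8, Complex.re_ofReal_mul, Complex.exp_ofReal_mul_I_re]
  rw [h2, h7, h7, Real.cos_sub (ω * t) τ]
  ring

end DrumF
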