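import Pool.Agent.Lib.MP_d92c84_an.Sup

/-!
# The gradient of a superposition of plane waves
-/

set_option autoImplicit false

namespace DrumF

open Filter Topology Set
open scoped ComplexConjugate

section
variable {ι : Type*} {c : ℝ} {b k : ι → ℂ}

/-- One complex plane wave. -/
noncomputable def pw (c : ℝ) (b k : ι → ℂ) (t : ℝ) (j : ι) (x : ℂ) : ℂ :=
  b j * Complex.exp (Complex.I * (((conj (k j) * x).re - c * ‖k j‖ * t : ℝ) : ℂ))

theorem norm_pw (t : ℝ) (j : ι) (x : ℂ) : ‖pw c b k t j x‖ = ‖b j‖ := by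
  unfold pw
  rw [norm_mul, norm_exp_re, mul_one]

theorem continuous_pw (j : ι) : Continuous fun q : ℂ × ℝ => pw c b k q.2 j q.1 := by
  unfold pw
  fun_prop

theorem summable_b (hsum : Summable fun j => ‖b j‖ * (1 + ‖k j‖)) : Summable fun j => ‖b j‖ :=
  Summable.of_nonneg_of_le (fun j => by positivity) (fun j => by
    nlinarith [norm_nonneg (k j), mul_nonneg (norm_nonneg (b j)) (norm_nonneg (k j))]) hsum

theorem summable_bk (hsum : Summable fun j => ‖b j‖ * (1 + ‖k j‖)) : Summable fun j => ‖b j‖ * ‖k j‖ :=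
  Summable.of_nonneg_of_le (fun j => by positivity) (fun j => by
    nlinarith [norm_nonneg (b j)]) hsum

/-- The linear form `h ↦ Re (conj k h)`. -/
noncomputable def lin (k : ℂ) : ℂ →L[ℝ] ℝ := Complex.reCLM.comp (LL (conj k) 0)

theorem lin_apply (k h : ℂ) : lin k h = (conj k * h).re := by
  unfold lin
  rw [ContinuousLinearMap.comp_apply, LL_apply]
  simp

theorem norm_lin_le (k : ℂ) : ‖lin k‖ ≤ ‖k‖ := by
  refine ContinuousLinearMap.opNorm_le_bound _ (norm_nonneg k) fun h => ?_
  rw [lin_apply]
  refine (Complex.abs_re_le_norm _).trans ?_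
  rw [norm_mul, Complex.norm_conj]

theorem hasFDerivAt_pw_re (t : ℝ) (j : ι) (x : ℂ) :
    HasFDerivAt (fun y => (pw c b k t j y).re) ((-(pw c b k t j x).im) • lin (k j)) x := by
  have h1 : HasFDerivAt (fun y : ℂ => (((conj (k j) * y).re - c * ‖k j‖ * t : ℝ) : ℂ))
      (Complex.ofRealCLM.comp (lin (k j))) x := by
    have h2 : HasFDerivAt (fun y : ℂ => (conj (k j) * y).re - c * ‖k j‖ * t) (lin (k j)) x := by
      have h3 : (fun y : ℂ => (conj (k j) * y).re - c * ‖k j‖ * t) = fun y => lin (k j) y - c * ‖k j‖ * t := by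
        funext y
        rw [lin_apply]
      rw [h3]
      exact (lin (k j)).hasFDerivAt.sub_const _
    exact Complex.ofRealCLM.hasFDerivAt.comp x h2
  have h4 := (((h1.const_mul Complex.I).cexp).const_mul (b j))
  have h5 := Complex.reCLM.hasFDerivAt.comp x h4
  refine h5.congr_fderiv ?_
  ext h
  · simp only [ContinuousLinearMap.comp_apply, smul_apply, smul_eq_mul, Complex.reCLM_apply,
      Complex.ofRealCLM_apply]
    unfold pw
    set X := b j * Complex.exp (Complex.I * (((conj (k j) * x).re - c * ‖k j‖ * t : ℝ) : ℂ)) with hX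
    have h6 : ∀ r : ℝ, (b j * (Complex.exp (Complex.I * (((conj (k j) * x).re - c * ‖k j‖ * t : ℝ) : ℂ)) *
        (Complex.I * (r : ℂ)))).re = -X.im * r := by
      intro r
      have h7 : b j * (Complex.exp (Complex.I * (((conj (k j) * x).re - c * ‖k j‖ * t : ℝ) : ℂ)) *
        (Complex.I * (r : ℂ))) = (Complex.I * X) * (r : ℂ) := by
        rw [hX]
        ring
      rw [h7, Complex.re_mul_ofReal, Complex.I_mul_re]
    exact h6 _

theorem grad_sup (hsum : Summable fun j => ‖b j‖ * (1 + ‖k j‖)) (t : ℝ) (x : ℂ) :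
    HasGradientAt (fun y => ∑' j, (pw c b k t j y).re) (-∑' j, k j * ((pw c b k t j x).im : ℂ)) x := by
  rw [hasGradientAt_iff_hasFDerivAt]
  have hb := summable_b hsum
  have hbk := summable_bk hsum
  have hf' : ∀ j x, ‖(-(pw c b k t j x).im) • lin (k j)‖ ≤ ‖b j‖ * ‖k j‖ := by
    intro j x
    rw [norm_smul, norm_neg, Real.norm_eq_abs]
    have h1 : |(pw c b k t j x).im| ≤ ‖b j‖ := by
      rw [← norm_pw (c := c) (k := k) t j x]
      exact Complex.abs_im_le_norm _
    exact mul_le_mul h1 (norm_lin_le _) (norm_nonneg _) (norm_nonneg _)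
  have h1 := hasFDerivAt_tsum (f := fun j y => (pw c b k t j y).re)
    (f' := fun j y => (-(pw c b k t j y).im) • lin (k j)) (x₀ := (0 : ℂ)) hbk
    (fun j y => hasFDerivAt_pw_re t j y) hf' (by
      refine Summable.of_norm_bounded hb fun j => ?_
      rw [← norm_pw (c := c) (k := k) t j 0]
      exact Complex.abs_re_le_norm _) x
  refine h1.congr_fderiv ?_
  have hs1 : Summable fun j => (-(pw c b k t j x).im) • lin (k j) := Summable.of_norm_bounded hbk fun j => hf' j x
  have hs2 : Summable fun j => k j * ((pw c b k t j x).im : ℂ) := by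
    refine Summable.of_norm_bounded hbk fun j => ?_
    rw [norm_mul, Complex.norm_real, Real.norm_eq_abs, mul_comm]
    have h1 : |(pw c b k t j x).im| ≤ ‖b j‖ := by
      rw [← norm_pw (c := c) (k := k) t j x]
      exact Complex.abs_im_le_norm _
    exact mul_le_mul_of_nonneg_right h1 (norm_nonneg _)
  have hap : ∀ h : ℂ, (∑' j, (-(pw c b k t j x).im) • lin (k j)) h = (InnerProductSpace.toDual ℝ ℂ
      (-∑' j, k j * ((pw c b k t j x).im : ℂ))) h := by
    intro h
    have h2 := (ContinuousLinearMap.apply ℝ ℝ h).map_tsum hs1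
    rw [ContinuousLinearMap.apply_apply] at h2
    rw [h2, InnerProductSpace.toDual_apply_apply, Complex.inner]
    have h3 : (conj (-∑' j, k j * ((pw c b k t j x).im : ℂ)) * h).re =
        ∑' j, (conj (-(k j * ((pw c b k t j x).im : ℂ))) * h).re := by
      rw [← tsum_neg, Complex.conj_tsum, ← tsum_mul_right, Complex.re_tsum]
      have h4 : Summable fun j => conj (-(k j * ((pw c b k t j x).im : ℂ))) := by
        have h5 := (Complex.conjCLE : ℂ →L[ℝ] ℂ).summable hs2.neg
        exact h5
      exact h4.mul_right h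
    first
      | rw [h3]
      | rw [mul_comm, h3]
    refine tsum_congr fun j => ?_
    rw [ContinuousLinearMap.apply_apply, smul_apply, lin_apply, smul_eq_mul, map_neg, map_mul, Complex.conj_ofReal]
    have h4 : -(conj (k j) * ((pw c b k t j x).im : ℂ)) * h = ((-(pw c b k t j x).im : ℝ) : ℂ) * (conj (k j) * h) := by
      push_cast
      ring
    rw [h4, Complex.re_ofReal_mul]
  exact ContinuousLinearMap.ext hap

theorem continuous_sup_re (hsum : Summable fun j => ‖b j‖ * (1 + ‖k j‖)) :
    Continuous fun q : ℂ × ℝ => ∑' j, (pw c b k q.2 j q.1).re := by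
  refine continuous_tsum (fun j => ?_) (summable_b hsum) fun j q => ?_
  · exact Complex.continuous_re.comp (continuous_pw j)
  · rw [← norm_pw (c := c) (k := k) q.2 j q.1]
    exact Complex.abs_re_le_norm _

theorem continuous_sup_grad (hsum : Summable fun j => ‖b j‖ * (1 + ‖k j‖)) :
    Continuous fun q : ℂ × ℝ => -∑' j, k j * ((pw c b k q.2 j q.1).im : ℂ) := by
  refine (continuous_tsum (fun j => ?_) (summable_bk hsum) fun j q => ?_).neg
  · exact continuous_const.mul (Complex.continuous_ofReal.comp (Complex.continuous_im.comp (continuous_pw j)))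
  · rw [norm_mul, Complex.norm_real, Real.norm_eq_abs, mul_comm]
    have h1 : |(pw c b k q.2 j q.1).im| ≤ ‖b j‖ := by
      rw [← norm_pw (c := c) (k := k) q.2 j q.1]
      exact Complex.abs_im_le_norm _
    exact mul_le_mul_of_nonneg_right h1 (norm_nonneg _)

/-- The values and the gradient on the closure. -/
theorem sup_closure {D : Set ℂ} (hDo : IsOpen D) (hsum : Summable fun j => ‖b j‖ * (1 + ‖k j‖))
    {z : ℂ → ℝ → ℝ} {G : ℂ → ℝ → ℂ} (hzc : ContinuousOn (fun q : ℂ × ℝ => z q.1 q.2) (closure D ×ˢ univ))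
    (hG : ∀ x ∈ D, ∀ t, HasGradientAt (fun y => z y t) (G x t) x)
    (hGc : ContinuousOn (fun q : ℂ × ℝ => G q.1 q.2) (closure D ×ˢ univ))
    (hrep : ∀ x ∈ D, ∀ t : ℝ, z x t = ∑' j, (pw c b k t j x).re) :
    ∀ x ∈ closure D, ∀ t, z x t = ∑' j, (pw c b k t j x).re ∧
      G x t = -∑' j, k j * ((pw c b k t j x).im : ℂ) := by
  have hslice : ∀ {Y : Type} [TopologicalSpace Y] {f : ℂ → ℝ → Y},
      ContinuousOn (fun q : ℂ × ℝ => f q.1 q.2) (closure D ×ˢ univ) → ∀ t,
      ContinuousOn (fun x => f x t) (closure D) := by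
    intro Y _ f hf t
    exact hf.comp (f := fun x : ℂ => (x, t)) (by fun_prop) fun x hx => ⟨hx, mem_univ t⟩
  intro x hx t
  constructor
  · have h1 : EqOn (fun y => z y t) (fun y => ∑' j, (pw c b k t j y).re) D := fun y hy => hrep y hy t
    exact h1.of_subset_closure (hslice hzc t)
      ((continuous_sup_re hsum).comp (by fun_prop : Continuous fun y : ℂ => (y, t))).continuousOn
      subset_closure Subset.rfl hx
  · have h1 : EqOn (fun y => G y t) (fun y => -∑' j, k j * ((pw c b k t j y).im : ℂ)) D := by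
      intro y hy
      have h2 := hG y hy t
      have h3 : HasGradientAt (fun y => z y t) (-∑' j, k j * ((pw c b k t j y).im : ℂ)) y := by
        rw [hasGradientAt_iff_hasFDerivAt]
        have h4 := grad_sup (c := c) hsum t y
        rw [hasGradientAt_iff_hasFDerivAt] at h4
        refine h4.congr_of_eventuallyEq ?_
        filter_upwards [hDo.mem_nhds hy] with v hv
        exact hrep v hv t
      exact h2.unique h3
    exact h1.of_subset_closure (hslice hGc t)
      ((continuous_sup_grad hsum).comp (by fun_prop : Continuous fun y : ℂ => (y, t))).continuousOn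
      subset_closure Subset.rfl hx

end

end DrumF
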