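import Pool.Agent.Lib.MP_d92c84_an.Rec
import Pool.Agent.Lib.MP_d92c84_an.Cos

/-!
# Green's identity on a rectangle against a product of sines
-/

set_option autoImplicit false

namespace DrumF

open Filter Topology Set MeasureTheory

/-- Leibniz rule on an interval. -/
theorem leibniz {K K' : ℝ → ℝ → ℝ} (hK : Continuous fun q : ℝ × ℝ => K q.1 q.2)
    (hK' : Continuous fun q : ℝ × ℝ => K' q.1 q.2) (hd : ∀ y t, HasDerivAt (fun t => K y t) (K' y t) t) (a b t : ℝ) :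
    HasDerivAt (fun t => ∫ y in a..b, K y t) (∫ y in a..b, K' y t) t := by
  obtain ⟨C, hC⟩ := (isCompact_uIcc (a := a) (b := b)).prod (isCompact_Icc (a := t - 1) (b := t + 1))
    |>.exists_bound_of_continuousOn hK'.continuousOn
  have hs : Icc (t - 1) (t + 1) ∈ 𝓝 t := Icc_mem_nhds (by linarith) (by linarith)
  refine (intervalIntegral.hasDerivAt_integral_of_dominated_loc_of_deriv_le (F := fun t y => K y t)
    (F' := fun t y => K' y t) (bound := fun _ => C) hs ?_ ?_ ?_ ?_ ?_ ?_).2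
  · refine Eventually.of_forall fun s => ?_
    exact (hK.comp (by fun_prop : Continuous fun y : ℝ => (y, s))).aestronglyMeasurable
  · exact (hK.comp (by fun_prop : Continuous fun y : ℝ => (y, t))).intervalIntegrable a b
  · exact (hK'.comp (by fun_prop : Continuous fun y : ℝ => (y, t))).aestronglyMeasurable
  · refine ae_of_all _ fun y hy s hs => ?_
    exact hC (y, s) ⟨uIoc_subset_uIcc hy, hs⟩
  · exact intervalIntegrable_const
  · exact ae_of_all _ fun y _ s _ => hd y s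

/-- Double integral against `X (x) Y (y)`. -/
noncomputable def di (a₁ a₂ b₁ b₂ : ℝ) (X Y : ℝ → ℝ) (K : ℝ → ℝ → ℝ) : ℝ :=
  ∫ x in a₁..a₂, (∫ y in b₁..b₂, K x y * Y y) * X x

variable {a₁ a₂ b₁ b₂ : ℝ} {X Y : ℝ → ℝ}

theorem continuous_di_inner (hY : Continuous Y) {K : ℝ → ℝ → ℝ → ℝ}
    (hK : Continuous fun q : ℝ × ℝ × ℝ => K q.1 q.2.1 q.2.2) :
    Continuous fun q : ℝ × ℝ => ∫ y in b₁..b₂, K q.1 y q.2 * Y y := by
  refine intervalIntegral.continuous_parametric_intervalIntegral_of_continuous' ?_ b₁ b₂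
  have h1 : Continuous fun q : (ℝ × ℝ) × ℝ => K q.1.1 q.2 q.1.2 :=
    hK.comp (by fun_prop : Continuous fun q : (ℝ × ℝ) × ℝ => (q.1.1, q.2, q.1.2))
  exact h1.mul (hY.comp continuous_snd)

theorem leibniz_di (hX : Continuous X) (hY : Continuous Y) {K K' : ℝ → ℝ → ℝ → ℝ}
    (hK : Continuous fun q : ℝ × ℝ × ℝ => K q.1 q.2.1 q.2.2)
    (hK' : Continuous fun q : ℝ × ℝ × ℝ => K' q.1 q.2.1 q.2.2)
    (hd : ∀ x y t, HasDerivAt (fun t => K x y t) (K' x y t) t) (t : ℝ) :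
    HasDerivAt (fun t => di a₁ a₂ b₁ b₂ X Y fun x y => K x y t) (di a₁ a₂ b₁ b₂ X Y fun x y => K' x y t) t := by
  unfold di
  have hin : ∀ x t, HasDerivAt (fun t => ∫ y in b₁..b₂, K x y t * Y y) (∫ y in b₁..b₂, K' x y t * Y y) t := by
    intro x t
    refine leibniz (K := fun y t => K x y t * Y y) (K' := fun y t => K' x y t * Y y) ?_ ?_ ?_ b₁ b₂ t
    · exact (hK.comp (by fun_prop : Continuous fun q : ℝ × ℝ => (x, q.1, q.2))).mul (hY.comp continuous_fst)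
    · exact (hK'.comp (by fun_prop : Continuous fun q : ℝ × ℝ => (x, q.1, q.2))).mul (hY.comp continuous_fst)
    · intro y t
      exact (hd x y t).mul_const _
  refine leibniz (K := fun x t => (∫ y in b₁..b₂, K x y t * Y y) * X x)
    (K' := fun x t => (∫ y in b₁..b₂, K' x y t * Y y) * X x) ?_ ?_ ?_ a₁ a₂ t
  · exact (continuous_di_inner hY hK).mul (hX.comp continuous_fst)
  · exact (continuous_di_inner hY hK').mul (hX.comp continuous_fst)
  · intro x t
    exact (hin x t).mul_const _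

/-- Order of integration. -/
theorem di_swap (hX : Continuous X) (hY : Continuous Y) {K : ℝ → ℝ → ℝ} (hK : Continuous fun q : ℝ × ℝ => K q.1 q.2) :
    di a₁ a₂ b₁ b₂ X Y K = ∫ y in b₁..b₂, (∫ x in a₁..a₂, K x y * X x) * Y y := by
  unfold di
  have h1 : ∀ x, (∫ y in b₁..b₂, K x y * Y y) * X x = ∫ y in b₁..b₂, K x y * Y y * X x := fun x => by
    rw [intervalIntegral.integral_mul_const]
  have h2 : ∀ y, (∫ x in a₁..a₂, K x y * X x) * Y y = ∫ x in a₁..a₂, K x y * Y y * X x := fun y => by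
    rw [← intervalIntegral.integral_mul_const]
    refine intervalIntegral.integral_congr fun x _ => ?_
    ring
  simp only [h1, h2]
  apply intervalIntegral_intervalIntegral_swap
  have h3 : Continuous (Function.uncurry fun x y => K x y * Y y * X x) :=
    (hK.mul (hY.comp continuous_snd)).mul (hX.comp continuous_fst)
  exact (h3.continuousOn.integrableOn_compact (isCompact_uIcc.prod isCompact_uIcc)).mono_set
    (prod_mono uIoc_subset_uIcc uIoc_subset_uIcc)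

theorem int_add {f g : ℝ → ℝ} (hf : Continuous f) (hg : Continuous g) (a b : ℝ) :
    ∫ x in a..b, (f x + g x) = (∫ x in a..b, f x) + ∫ x in a..b, g x :=
  intervalIntegral.integral_add (hf.intervalIntegrable _ _) (hg.intervalIntegrable _ _)

/-- Integration by parts twice on an interval. -/
theorem parts_two (hab : a₁ ≤ a₂) {u ux uxx : ℝ → ℝ} (hu : Continuous u) (hux : Continuous ux) (huxx : Continuous uxx)
    (h1 : ∀ x ∈ Ioo a₁ a₂, HasDerivAt u (ux x) x) (h2 : ∀ x ∈ Ioo a₁ a₂, HasDerivAt ux (uxx x) x)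
    {X X' : ℝ → ℝ} {p : ℝ} (hX : ∀ x, HasDerivAt X (X' x) x) (hX' : ∀ x, HasDerivAt X' (-(p ^ 2 * X x)) x) :
    ∫ x in a₁..a₂, uxx x * X x = (ux a₂ * X a₂ - u a₂ * X' a₂) - (ux a₁ * X a₁ - u a₁ * X' a₁) -
      p ^ 2 * ∫ x in a₁..a₂, u x * X x := by
  have hXc : Continuous X := continuous_iff_continuousAt.2 fun x => (hX x).continuousAt
  have hX'c : Continuous X' := continuous_iff_continuousAt.2 fun x => (hX' x).continuousAt
  have h3 := intervalIntegral.integral_eq_sub_of_hasDerivAt_of_le (f := fun x => ux x * X x - u x * X' x)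
    (f' := fun x => uxx x * X x + p ^ 2 * (u x * X x)) hab
    ((hux.mul hXc).sub (hu.mul hX'c)).continuousOn (fun x hx => by
      have h4 := ((h2 x hx).mul (hX x)).sub ((h1 x hx).mul (hX' x))
      refine h4.congr_deriv ?_
      ring) (((huxx.mul hXc).add (continuous_const.mul (hu.mul hXc))).intervalIntegrable _ _)
  have h5 : ∫ x in a₁..a₂, (uxx x * X x + p ^ 2 * (u x * X x)) =
      (∫ x in a₁..a₂, uxx x * X x) + p ^ 2 * ∫ x in a₁..a₂, u x * X x := by
    rw [int_add (f := fun x => uxx x * X x) (g := fun x => p ^ 2 * (u x * X x)) (huxx.mul hXc)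
      (continuous_const.mul (hu.mul hXc)), intervalIntegral.integral_const_mul]
  rw [h5] at h3
  linarith

/-- Bound for a boundary term. -/
theorem edge_bound {u₁ v₁ u₂ v₂ : ℝ → ℝ} {X₁ X₁' X₂ X₂' M η ξ p : ℝ} (hb : b₁ ≤ b₂)
    (hv₁ : ∀ y ∈ Icc b₁ b₂, |v₁ y| ≤ M) (hu₁ : ∀ y ∈ Icc b₁ b₂, |u₁ y| ≤ η)
    (hv₂ : ∀ y ∈ Icc b₁ b₂, |v₂ y| ≤ M) (hu₂ : ∀ y ∈ Icc b₁ b₂, |u₂ y| ≤ η)
    (hX₁ : |X₁| ≤ ξ) (hX₁' : |X₁'| ≤ p) (hX₂ : |X₂| ≤ ξ) (hX₂' : |X₂'| ≤ p) (hY : ∀ y, |Y y| ≤ 1)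
    (hM : 0 ≤ M) (hη : 0 ≤ η) :
    |∫ y in b₁..b₂, ((v₂ y * X₂ - u₂ y * X₂') - (v₁ y * X₁ - u₁ y * X₁')) * Y y| ≤
      2 * (M * ξ + η * p) * (b₂ - b₁) := by
  have h1 := intervalIntegral.norm_integral_le_of_norm_le_const (a := b₁) (b := b₂)
    (f := fun y => ((v₂ y * X₂ - u₂ y * X₂') - (v₁ y * X₁ - u₁ y * X₁')) * Y y) (C := 2 * (M * ξ + η * p))
    (fun y hy => by
      rw [uIoc_of_le hb] at hy
      have hy' : y ∈ Icc b₁ b₂ := ⟨hy.1.le, hy.2⟩
      rw [norm_mul, Real.norm_eq_abs, Real.norm_eq_abs]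
      have g1 : |v₂ y * X₂| ≤ M * ξ := by
        rw [abs_mul]
        exact mul_le_mul (hv₂ y hy') hX₂ (abs_nonneg _) hM
      have g2 : |u₂ y * X₂'| ≤ η * p := by
        rw [abs_mul]
        exact mul_le_mul (hu₂ y hy') hX₂' (abs_nonneg _) hη
      have g3 : |v₁ y * X₁| ≤ M * ξ := by
        rw [abs_mul]
        exact mul_le_mul (hv₁ y hy') hX₁ (abs_nonneg _) hM
      have g4 : |u₁ y * X₁'| ≤ η * p := by
        rw [abs_mul]
        exact mul_le_mul (hu₁ y hy') hX₁' (abs_nonneg _) hη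
      have g5 := abs_sub (v₂ y * X₂ - u₂ y * X₂') (v₁ y * X₁ - u₁ y * X₁')
      have g6 := abs_sub (v₂ y * X₂) (u₂ y * X₂')
      have g7 := abs_sub (v₁ y * X₁) (u₁ y * X₁')
      have g8 : |(v₂ y * X₂ - u₂ y * X₂') - (v₁ y * X₁ - u₁ y * X₁')| ≤ 2 * (M * ξ + η * p) := by linarith
      calc _ ≤ 2 * (M * ξ + η * p) * 1 := mul_le_mul g8 (hY y) (abs_nonneg _) ((abs_nonneg _).trans g8)
        _ = _ := mul_one _)
  rw [Real.norm_eq_abs, abs_of_nonneg (by linarith : 0 ≤ b₂ - b₁)] at h1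
  exact h1

/-- The residual of the projected wave equation. -/
theorem green {c p q : ℝ} (ha : a₁ ≤ a₂) (hb : b₁ ≤ b₂) {X' Y' : ℝ → ℝ} (hX : ∀ x, HasDerivAt X (X' x) x)
    (hX' : ∀ x, HasDerivAt X' (-(p ^ 2 * X x)) x) (hY : ∀ x, HasDerivAt Y (Y' x) x)
    (hY' : ∀ x, HasDerivAt Y' (-(q ^ 2 * Y x)) x) (hX1 : ∀ x, |X x| ≤ 1) (hY1 : ∀ x, |Y x| ≤ 1)
    (hXp : ∀ x, |X' x| ≤ p) (hYq : ∀ x, |Y' x| ≤ q)
    {u ux uxx uy uyy utt : ℝ → ℝ → ℝ} (hu : Continuous fun q : ℝ × ℝ => u q.1 q.2)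
    (hux : Continuous fun q : ℝ × ℝ => ux q.1 q.2) (huxx : Continuous fun q : ℝ × ℝ => uxx q.1 q.2)
    (huy : Continuous fun q : ℝ × ℝ => uy q.1 q.2) (huyy : Continuous fun q : ℝ × ℝ => uyy q.1 q.2)
    (dx : ∀ y, ∀ x ∈ Ioo a₁ a₂, HasDerivAt (fun x => u x y) (ux x y) x)
    (dxx : ∀ y, ∀ x ∈ Ioo a₁ a₂, HasDerivAt (fun x => ux x y) (uxx x y) x)
    (dy : ∀ x, ∀ y ∈ Ioo b₁ b₂, HasDerivAt (fun y => u x y) (uy x y) y)
    (dyy : ∀ x, ∀ y ∈ Ioo b₁ b₂, HasDerivAt (fun y => uy x y) (uyy x y) y)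
    (hwave : ∀ x y, utt x y = c ^ 2 * (uxx x y + uyy x y)) {M η ξ : ℝ} (hM : 0 ≤ M) (hη : 0 ≤ η)
    (hMx : ∀ x y, |ux x y| ≤ M) (hMy : ∀ x y, |uy x y| ≤ M)
    (hηx : ∀ y, |u a₁ y| ≤ η ∧ |u a₂ y| ≤ η) (hηy : ∀ x, |u x b₁| ≤ η ∧ |u x b₂| ≤ η)
    (hξX : |X a₁| ≤ ξ ∧ |X a₂| ≤ ξ) (hξY : |Y b₁| ≤ ξ ∧ |Y b₂| ≤ ξ) :
    |di a₁ a₂ b₁ b₂ X Y utt + c ^ 2 * (p ^ 2 + q ^ 2) * di a₁ a₂ b₁ b₂ X Y u| ≤
      c ^ 2 * (2 * (M * ξ + η * p) * (b₂ - b₁) + 2 * (M * ξ + η * q) * (a₂ - a₁)) := by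
  have hXc : Continuous X := continuous_iff_continuousAt.2 fun x => (hX x).continuousAt
  have hYc : Continuous Y := continuous_iff_continuousAt.2 fun x => (hY x).continuousAt
  set E₁ : ℝ := ∫ y in b₁..b₂, ((ux a₂ y * X a₂ - u a₂ y * X' a₂) - (ux a₁ y * X a₁ - u a₁ y * X' a₁)) * Y y with hE₁
  set E₂ : ℝ := ∫ x in a₁..a₂, ((uy x b₂ * Y b₂ - u x b₂ * Y' b₂) - (uy x b₁ * Y b₁ - u x b₁ * Y' b₁)) * X x with hE₂
  have cx : ∀ {K : ℝ → ℝ → ℝ}, (Continuous fun q : ℝ × ℝ => K q.1 q.2) → ∀ y, Continuous fun x => K x y :=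
    fun hK y => hK.comp (by fun_prop : Continuous fun x : ℝ => (x, y))
  have cy : ∀ {K : ℝ → ℝ → ℝ}, (Continuous fun q : ℝ × ℝ => K q.1 q.2) → ∀ x, Continuous fun y => K x y :=
    fun hK x => hK.comp (by fun_prop : Continuous fun y : ℝ => (x, y))
  have cix : Continuous fun y => ∫ x in a₁..a₂, u x y * X x := by
    refine intervalIntegral.continuous_parametric_intervalIntegral_of_continuous' ?_ a₁ a₂
    exact (hu.comp continuous_swap).mul (hXc.comp continuous_snd)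
  have ciy : Continuous fun x => ∫ y in b₁..b₂, u x y * Y y := by
    refine intervalIntegral.continuous_parametric_intervalIntegral_of_continuous' ?_ b₁ b₂
    exact hu.mul (hYc.comp continuous_snd)
  have hxx : di a₁ a₂ b₁ b₂ X Y uxx = E₁ - p ^ 2 * di a₁ a₂ b₁ b₂ X Y u := by
    rw [di_swap hXc hYc huxx, di_swap hXc hYc hu]
    have h1 : ∀ y, (∫ x in a₁..a₂, uxx x y * X x) * Y y =
        ((ux a₂ y * X a₂ - u a₂ y * X' a₂) - (ux a₁ y * X a₁ - u a₁ y * X' a₁)) * Y y -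
          p ^ 2 * ((∫ x in a₁..a₂, u x y * X x) * Y y) := by
      intro y
      rw [parts_two ha (cx hu y) (cx hux y) (cx huxx y) (dx y) (dxx y) hX hX']
      ring
    simp only [h1]
    rw [intervalIntegral.integral_sub, intervalIntegral.integral_const_mul]
    · apply Continuous.intervalIntegrable
      exact ((((cy hux a₂).mul continuous_const).sub ((cy hu a₂).mul continuous_const)).sub
        (((cy hux a₁).mul continuous_const).sub ((cy hu a₁).mul continuous_const))).mul hYc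
    · apply Continuous.intervalIntegrable
      exact continuous_const.mul (cix.mul hYc)
  have hyy : di a₁ a₂ b₁ b₂ X Y uyy = E₂ - q ^ 2 * di a₁ a₂ b₁ b₂ X Y u := by
    unfold di
    have h1 : ∀ x, (∫ y in b₁..b₂, uyy x y * Y y) * X x =
        ((uy x b₂ * Y b₂ - u x b₂ * Y' b₂) - (uy x b₁ * Y b₁ - u x b₁ * Y' b₁)) * X x -
          q ^ 2 * ((∫ y in b₁..b₂, u x y * Y y) * X x) := by
      intro x
      rw [parts_two hb (cy hu x) (cy huy x) (cy huyy x) (dy x) (dyy x) hY hY']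
      ring
    simp only [h1]
    rw [intervalIntegral.integral_sub, intervalIntegral.integral_const_mul]
    · apply Continuous.intervalIntegrable
      exact ((((cx huy b₂).mul continuous_const).sub ((cx hu b₂).mul continuous_const)).sub
        (((cx huy b₁).mul continuous_const).sub ((cx hu b₁).mul continuous_const))).mul hXc
    · apply Continuous.intervalIntegrable
      exact continuous_const.mul (ciy.mul hXc)
  have htt : di a₁ a₂ b₁ b₂ X Y utt = c ^ 2 * (di a₁ a₂ b₁ b₂ X Y uxx + di a₁ a₂ b₁ b₂ X Y uyy) := by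
    unfold di
    have ci1 : Continuous fun x => ∫ y in b₁..b₂, uxx x y * Y y := by
      refine intervalIntegral.continuous_parametric_intervalIntegral_of_continuous' ?_ b₁ b₂
      exact huxx.mul (hYc.comp continuous_snd)
    have ci2 : Continuous fun x => ∫ y in b₁..b₂, uyy x y * Y y := by
      refine intervalIntegral.continuous_parametric_intervalIntegral_of_continuous' ?_ b₁ b₂
      exact huyy.mul (hYc.comp continuous_snd)
    rw [← int_add (f := fun x => (∫ y in b₁..b₂, uxx x y * Y y) * X x)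
      (g := fun x => (∫ y in b₁..b₂, uyy x y * Y y) * X x) (ci1.mul hXc) (ci2.mul hXc),
      ← intervalIntegral.integral_const_mul]
    refine intervalIntegral.integral_congr fun x _ => ?_
    have h1 : ∫ y in b₁..b₂, utt x y * Y y = c ^ 2 * ((∫ y in b₁..b₂, uxx x y * Y y) +
        ∫ y in b₁..b₂, uyy x y * Y y) := by
      rw [← int_add (f := fun y => uxx x y * Y y) (g := fun y => uyy x y * Y y) ((cy huxx x).mul hYc)
        ((cy huyy x).mul hYc), ← intervalIntegral.integral_const_mul]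
      refine intervalIntegral.integral_congr fun y _ => ?_
      rw [hwave]
      ring
    rw [h1]
    ring
  have he : di a₁ a₂ b₁ b₂ X Y utt + c ^ 2 * (p ^ 2 + q ^ 2) * di a₁ a₂ b₁ b₂ X Y u = c ^ 2 * (E₁ + E₂) := by
    rw [htt, hxx, hyy]
    ring
  rw [he, abs_mul, abs_of_nonneg (sq_nonneg c)]
  have b1 : |E₁| ≤ 2 * (M * ξ + η * p) * (b₂ - b₁) :=
    edge_bound hb (fun y _ => hMx _ _) (fun y _ => (hηx y).1) (fun y _ => hMx _ _) (fun y _ => (hηx y).2)
      hξX.1 (hXp _) hξX.2 (hXp _) hY1 hM hη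
  have b2 : |E₂| ≤ 2 * (M * ξ + η * q) * (a₂ - a₁) :=
    edge_bound ha (fun y _ => hMy _ _) (fun y _ => (hηy y).1) (fun y _ => hMy _ _) (fun y _ => (hηy y).2)
      hξY.1 (hYq _) hξY.2 (hYq _) hX1 hM hη
  refine mul_le_mul_of_nonneg_left ?_ (sq_nonneg c)
  exact (abs_add_le _ _).trans (by linarith)

end DrumF
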