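import Pool.Agent.Lib.MP_d92c84_an.Wav

/-!
# Families of derivatives

`Jet f`: `f a b` are smooth functions on `ℂ` with `d (f a b) = f (a + 1) b dx + f a (b + 1) d (conj x)`.
-/

set_option autoImplicit false

namespace DrumF

open Filter Topology
open scoped ComplexConjugate

/-- A family closed under differentiation. -/
def Jet (f : ℕ → ℕ → ℂ → ℂ) : Prop :=
  ∀ a b x, HasFDerivAt (f a b) (LL (f (a + 1) b x) (f a (b + 1) x)) x

theorem Jet.shift1 {f : ℕ → ℕ → ℂ → ℂ} (hf : Jet f) : Jet fun a b => f (a + 1) b :=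
  fun a b x => hf (a + 1) b x

theorem Jet.shift2 {f : ℕ → ℕ → ℂ → ℂ} (hf : Jet f) : Jet fun a b => f a (b + 1) :=
  fun a b x => hf a (b + 1) x

theorem Jet.continuous {f : ℕ → ℕ → ℂ → ℂ} (hf : Jet f) (a b : ℕ) : Continuous (f a b) :=
  continuous_iff_continuousAt.2 fun x => (hf a b x).continuousAt

theorem Jet.sub {f g : ℕ → ℕ → ℂ → ℂ} (hf : Jet f) (hg : Jet g) : Jet fun a b x => f a b x - g a b x := by
  intro a b x
  have h1 := (hf a b x).sub (hg a b x)
  have h2 : LL (f (a + 1) b x) (f a (b + 1) x) - LL (g (a + 1) b x) (g a (b + 1) x) =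
      LL (f (a + 1) b x - g (a + 1) b x) (f a (b + 1) x - g a (b + 1) x) := by
    ext h
    simp only [sub_apply, LL_apply]
    ring
  rw [← h2]
  exact h1

/-- Vanishing of the derivatives of order `< N` gives the order of vanishing. -/
theorem Jet.order (N : ℕ) : ∀ {f : ℕ → ℕ → ℂ → ℂ} (_ : Jet f) (p : ℂ), (∀ a b, a + b < N → f a b p = 0) →
    ∃ C : ℝ, 0 ≤ C ∧ ∀ x, ‖x - p‖ ≤ 1 → ‖f 0 0 x‖ ≤ C * ‖x - p‖ ^ N := by
  induction N with
  | zero =>
    intro f hf p _
    obtain ⟨C, hC⟩ := (isCompact_closedBall p 1).exists_bound_of_continuousOn (hf.continuous 0 0).continuousOn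
    refine ⟨max C 0, le_max_right _ _, fun x hx => ?_⟩
    rw [pow_zero, mul_one]
    exact (hC x (by rwa [Metric.mem_closedBall, dist_eq_norm])).trans (le_max_left _ _)
  | succ N ih =>
    intro f hf p h0
    obtain ⟨C₁, hC₁, h1⟩ := ih hf.shift1 p fun a b hab => h0 (a + 1) b (by omega)
    obtain ⟨C₂, hC₂, h2⟩ := ih hf.shift2 p fun a b hab => h0 a (b + 1) (by omega)
    refine ⟨C₁ + C₂, by positivity, fun x hx => ?_⟩
    have h3 : ∀ y ∈ Metric.closedBall p ‖x - p‖, ‖LL (f 1 0 y) (f 0 1 y)‖ ≤ (C₁ + C₂) * ‖x - p‖ ^ N := by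
      intro y hy
      rw [Metric.mem_closedBall, dist_eq_norm] at hy
      have hy1 : ‖y - p‖ ≤ 1 := hy.trans hx
      refine (norm_LL_le _ _).trans ?_
      have h4 := h1 y hy1
      have h5 := h2 y hy1
      have h6 : ‖y - p‖ ^ N ≤ ‖x - p‖ ^ N := pow_le_pow_left₀ (norm_nonneg _) hy N
      calc ‖f 1 0 y‖ + ‖f 0 1 y‖ ≤ C₁ * ‖y - p‖ ^ N + C₂ * ‖y - p‖ ^ N := add_le_add h4 h5
        _ = (C₁ + C₂) * ‖y - p‖ ^ N := by ring
        _ ≤ (C₁ + C₂) * ‖x - p‖ ^ N := mul_le_mul_of_nonneg_left h6 (by positivity)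
    have h4 : ‖f 0 0 x - f 0 0 p‖ ≤ (C₁ + C₂) * ‖x - p‖ ^ N * ‖x - p‖ :=
      (convex_closedBall p ‖x - p‖).norm_image_sub_le_of_norm_hasFDerivWithin_le
        (fun y _ => (hf 0 0 y).hasFDerivWithinAt) h3 (by simp)
        (by rw [Metric.mem_closedBall, dist_eq_norm])
    rw [h0 0 0 (by omega), sub_zero] at h4
    calc ‖f 0 0 x‖ ≤ (C₁ + C₂) * ‖x - p‖ ^ N * ‖x - p‖ := h4
      _ = (C₁ + C₂) * ‖x - p‖ ^ (N + 1) := by ring

/-- The jet of a monomial. -/
noncomputable def mono (A : ℂ) (n : ℕ) (p : ℂ) (a b : ℕ) (x : ℂ) : ℂ :=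
  if b = 0 ∧ a ≤ n then A / (n - a).factorial * (x - p) ^ (n - a) else 0

theorem jet_mono (A : ℂ) (n : ℕ) (p : ℂ) : Jet (mono A n p) := by
  intro a b x
  by_cases hb : b = 0
  · subst hb
    have e0 : mono A n p a (0 + 1) x = 0 := by simp [mono]
    rcases lt_trichotomy a n with ha | ha | ha
    · have e1 : mono A n p a 0 = fun y => A / (n - a).factorial * (y - p) ^ (n - a) := by
        funext y
        simp [mono, ha.le]
      have e2 : mono A n p (a + 1) 0 x = A / (n - (a + 1)).factorial * (x - p) ^ (n - (a + 1)) := by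
        simp [mono, Nat.succ_le_of_lt ha]
      obtain ⟨j, hj⟩ : ∃ j, n - a = j + 1 := ⟨n - a - 1, by omega⟩
      have hj2 : n - (a + 1) = j := by omega
      rw [e0, e1, e2, hj, hj2]
      have h2 : HasDerivAt (fun y : ℂ => A / (j + 1).factorial * (y - p) ^ (j + 1))
          (A / j.factorial * (x - p) ^ j) x := by
        have h3 : HasDerivAt (fun y : ℂ => y - p) 1 x := (hasDerivAt_id x).sub_const p
        have h4 := (h3.pow (j + 1)).const_mul (A / (j + 1).factorial)
        have h5 : A / ((j + 1).factorial : ℂ) * (((j + 1 : ℕ) : ℂ) * (x - p) ^ (j + 1 - 1) * 1) =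
            A / j.factorial * (x - p) ^ j := by
          have hf : (j.factorial : ℂ) ≠ 0 := by exact_mod_cast j.factorial_ne_zero
          have hf1 : ((j : ℂ) + 1) ≠ 0 := by exact_mod_cast Nat.succ_ne_zero j
          have hf2 : ((j + 1).factorial : ℂ) = ((j : ℂ) + 1) * j.factorial := by
            rw [Nat.factorial_succ]
            push_cast
            ring
          rw [hf2, Nat.add_sub_cancel]
          push_cast
          field_simp
        rw [← h5]
        exact h4
      have h6 := h2.comp_hasFDerivAt x (hasFDerivAt_id (𝕜 := ℝ) x)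
      have h7 : (A / (j.factorial : ℂ) * (x - p) ^ j) • ContinuousLinearMap.id ℝ ℂ =
          LL (A / (j.factorial : ℂ) * (x - p) ^ j) 0 := by
        ext h
        simp [LL_apply]
      rw [← h7]
      exact h6
    · subst ha
      have e1 : mono A a p a 0 = fun _ => A := by
        funext y
        simp [mono]
      have e2 : mono A a p (a + 1) 0 x = 0 := by
        simp [mono]
      rw [e0, e1, e2]
      have h7 : LL 0 0 = 0 := by
        ext h
        simp [LL_apply]
      rw [h7]
      exact hasFDerivAt_const _ _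
    · have e1 : mono A n p a 0 = fun _ => 0 := by
        funext y
        simp [mono, Nat.not_le.2 ha]
      have e2 : mono A n p (a + 1) 0 x = 0 := by
        simp [mono, Nat.not_le.2 (Nat.lt_succ_of_lt ha)]
      rw [e0, e1, e2]
      have h7 : LL 0 0 = 0 := by
        ext h
        simp [LL_apply]
      rw [h7]
      exact hasFDerivAt_const _ _
  · have e1 : mono A n p a b = fun _ => 0 := by
      funext y
      simp [mono, hb]
    have e2 : mono A n p (a + 1) b x = 0 := by
      simp [mono, hb]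
    have e3 : mono A n p a (b + 1) x = 0 := by
      simp [mono]
    rw [e1, e2, e3]
    have h7 : LL 0 0 = 0 := by
      ext h
      simp [LL_apply]
    rw [h7]
    exact hasFDerivAt_const _ _

/-- Real solutions of the Helmholtz equation (`f` the family of derivatives of a real function). -/
structure Helm (κ : ℝ) (f : ℕ → ℕ → ℂ → ℂ) : Prop where
  jet : Jet f
  real : ∀ a b x, conj (f a b x) = f b a x
  eq : ∀ a b x, f (a + 1) (b + 1) x = -(κ : ℂ) ^ 2 * f a b x

/-- At an accumulation point of critical zeros all derivatives vanish. -/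
theorem Helm.flat {κ : ℝ} {f : ℕ → ℕ → ℂ → ℂ} (hf : Helm κ f) {p : ℂ}
    (hp : AccPt p (𝓟 {x | f 0 0 x = 0 ∧ f 1 0 x = 0})) : ∀ a b, f a b p = 0 := by
  have hfreq : ∃ᶠ x in 𝓝[≠] p, f 0 0 x = 0 ∧ f 1 0 x = 0 := by
    rw [accPt_iff_frequently_nhdsNE] at hp
    exact hp
  have hz : ∀ {g : ℂ → ℂ}, Continuous g → (∃ᶠ x in 𝓝[≠] p, g x = 0) → g p = 0 := by
    intro g hg hfr
    by_contra hne
    have h1 : ∀ᶠ x in 𝓝 p, g x ≠ 0 := hg.continuousAt.eventually_ne hne
    exact hfr (h1.filter_mono nhdsWithin_le_nhds)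
  have key : ∀ n : ℕ, ∀ a b, a + b ≤ n + 1 → f a b p = 0 := by
    intro n
    induction n with
    | zero =>
      intro a b hab
      have h00 : f 0 0 p = 0 := hz (hf.jet.continuous 0 0) (hfreq.mono fun x hx => hx.1)
      have h10 : f 1 0 p = 0 := hz (hf.jet.continuous 1 0) (hfreq.mono fun x hx => hx.2)
      have h01 : f 0 1 p = 0 := by rw [← hf.real 1 0, h10, map_zero]
      have h3 : (a = 0 ∧ b = 0) ∨ (a = 1 ∧ b = 0) ∨ (a = 0 ∧ b = 1) := by omega
      rcases h3 with ⟨rfl, rfl⟩ | ⟨rfl, rfl⟩ | ⟨rfl, rfl⟩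
      · exact h00
      · exact h10
      · exact h01
    | succ n ih =>
      have hA : f (n + 2) 0 p = 0 := by
        set A := f (n + 2) 0 p with hAdef
        have hd := hf.jet.shift1.sub (jet_mono A (n + 1) p)
        obtain ⟨C, hC, h1⟩ := hd.order (n + 2) p (by
          intro a b hab
          rcases b with _ | b
          · rcases Nat.lt_or_ge a (n + 1) with ha | ha
            · have h2 : mono A (n + 1) p a 0 p = 0 := by
                have h3 : n + 1 - a ≠ 0 := by omega
                simp [mono, ha.le, h3]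
              simp only [h2, sub_zero]
              exact ih (a + 1) 0 (by omega)
            · have ha' : a = n + 1 := by omega
              subst ha'
              simp [mono, hAdef]
          · have h2 : mono A (n + 1) p a (b + 1) p = 0 := by simp [mono]
            simp only [h2, sub_zero]
            rw [hf.eq a b p, ih a b (by omega), mul_zero])
        by_contra hne
        have hApos : 0 < ‖A‖ := norm_pos_iff.2 hne
        have h2 : ∃ᶠ x in 𝓝[≠] p, ‖A‖ / ((n + 1).factorial : ℝ) ≤ C * ‖x - p‖ := by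
          have hball : ∀ᶠ x in 𝓝[≠] p, x ≠ p ∧ ‖x - p‖ ≤ 1 := by
            have h3 : ∀ᶠ x in 𝓝[≠] p, x ∈ Metric.closedBall p 1 :=
              nhdsWithin_le_nhds (Metric.closedBall_mem_nhds p one_pos)
            have h4 : ∀ᶠ x in 𝓝[≠] p, x ≠ p := eventually_mem_nhdsWithin
            filter_upwards [h3, h4] with x hx hx'
            refine ⟨hx', ?_⟩
            rwa [Metric.mem_closedBall, dist_eq_norm] at hx
          refine (hfreq.and_eventually hball).mono ?_
          rintro x ⟨⟨_, hx10⟩, hxp, hx1⟩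
          have h3 := h1 x hx1
          have h4 : mono A (n + 1) p 0 0 x = A / ((n + 1).factorial : ℂ) * (x - p) ^ (n + 1) := by
            simp [mono]
          simp only [h4] at h3
          rw [show f (0 + 1) 0 x = 0 from hx10, zero_sub, norm_neg, norm_mul, norm_div, norm_pow,
            Complex.norm_natCast] at h3
          have h5 : 0 < ‖x - p‖ := norm_pos_iff.2 (sub_ne_zero.2 hxp)
          have h6 : ‖A‖ / ((n + 1).factorial : ℝ) * ‖x - p‖ ^ (n + 1) ≤ C * ‖x - p‖ * ‖x - p‖ ^ (n + 1) := by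
            calc _ ≤ C * ‖x - p‖ ^ (n + 2) := h3
              _ = _ := by ring
          exact le_of_mul_le_mul_right h6 (pow_pos h5 _)
        have h3 : Tendsto (fun x : ℂ => C * ‖x - p‖) (𝓝[≠] p) (𝓝 0) := by
          have h4 : Continuous fun x : ℂ => C * ‖x - p‖ := by fun_prop
          have h5 := h4.tendsto p
          simp only [sub_self, norm_zero, mul_zero] at h5
          exact h5.mono_left nhdsWithin_le_nhds
        have h4 : ∀ᶠ x in 𝓝[≠] p, C * ‖x - p‖ < ‖A‖ / ((n + 1).factorial : ℝ) :=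
          h3.eventually_lt_const (by positivity)
        exact h2 (h4.mono fun x hx => not_le.2 hx)
      intro a b hab
      rcases Nat.lt_or_ge (a + b) (n + 2) with h | h
      · exact ih a b (by omega)
      · have hab' : a + b = n + 2 := by omega
        rcases a with _ | a
        · have hb : b = n + 2 := by omega
          subst hb
          rw [← hf.real (n + 2) 0, hA, map_zero]
        · rcases b with _ | b
          · have ha : a + 1 = n + 2 := by omega
            rw [ha]
            exact hA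
          · rw [hf.eq a b p, ih a b (by omega), mul_zero]
  intro a b
  exact key (a + b) a b (by omega)

/-- An analytic solution with all derivatives `0` at a point is `0`. -/
theorem Jet.zero_of_flat {f : ℕ → ℕ → ℂ → ℂ} (hf : Jet f) {p : ℂ} (hp : ∀ a b, f a b p = 0)
    (han : ∀ x, AnalyticAt ℝ (f 0 0) x) : ∀ x, f 0 0 x = 0 := by
  intro x
  set h : ℂ := x - p with hh
  set φ : ℝ → ℂ := fun t => f 0 0 (p + t * h) with hφ
  have hφan : ∀ t : ℝ, AnalyticAt ℝ φ t := by
    intro t
    have h1 : AnalyticAt ℝ (fun t : ℝ => p + (t : ℂ) * h) t :=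
      analyticAt_const.add ((Complex.ofRealCLM.analyticAt t).mul analyticAt_const)
    exact AnalyticAt.fun_comp (han _) h1
  have hev : ∀ᶠ t in 𝓝 (0 : ℝ), φ t = 0 := by
    rcases (hφan 0).eventually_eq_zero_or_eventually_ne_zero with h0 | h0
    · exact h0
    exfalso
    obtain ⟨n, g, hg, hg0, hgt⟩ := (hφan 0).exists_eventuallyEq_pow_smul_nonzero_iff.2 (by
      intro hc
      have h1 := (hc.filter_mono nhdsWithin_le_nhds : ∀ᶠ t in 𝓝[≠] (0 : ℝ), φ t = 0)
      exact (h0.and h1).exists.elim fun t ht => ht.1 ht.2)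
    obtain ⟨C, hC, hb⟩ := hf.order (n + 1) p fun a b _ => hp a b
    have h1 : ∀ᶠ t in 𝓝[≠] (0 : ℝ), ‖g t‖ ≤ C * ‖h‖ ^ (n + 1) * |t| := by
      have h2 : ∀ᶠ t in 𝓝[≠] (0 : ℝ), |t| * ‖h‖ ≤ 1 := by
        have h3 : Continuous fun t : ℝ => |t| * ‖h‖ := by fun_prop
        have h4 := h3.tendsto 0
        simp only [abs_zero, zero_mul] at h4
        exact (h4.eventually_le_const one_pos).filter_mono nhdsWithin_le_nhds
      filter_upwards [h2, hgt.filter_mono nhdsWithin_le_nhds, self_mem_nhdsWithin] with t ht1 ht2 ht3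
      have ht0 : t ≠ 0 := ht3
      have h5 : ‖p + t * h - p‖ = |t| * ‖h‖ := by
        rw [add_sub_cancel_left, norm_mul, Complex.norm_real, Real.norm_eq_abs]
      have h6 := hb (p + t * h) (by rw [h5]; exact ht1)
      rw [h5] at h6
      have h7 : ‖φ t‖ = |t| ^ n * ‖g t‖ := by
        rw [ht2, norm_smul, norm_pow, Real.norm_eq_abs, sub_zero]
      have h8 : |t| ^ n * ‖g t‖ ≤ |t| ^ n * (C * ‖h‖ ^ (n + 1) * |t|) := by
        rw [← h7]
        calc ‖φ t‖ ≤ C * (|t| * ‖h‖) ^ (n + 1) := h6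
          _ = _ := by ring
      exact le_of_mul_le_mul_left h8 (pow_pos (abs_pos.2 ht0) n)
    have h2 : Tendsto (fun t : ℝ => C * ‖h‖ ^ (n + 1) * |t|) (𝓝[≠] 0) (𝓝 0) := by
      have h3 : Continuous fun t : ℝ => C * ‖h‖ ^ (n + 1) * |t| := by fun_prop
      have h4 := h3.tendsto 0
      simp only [abs_zero, mul_zero] at h4
      exact h4.mono_left nhdsWithin_le_nhds
    have h3 : Tendsto g (𝓝[≠] 0) (𝓝 (g 0)) := hg.continuousAt.tendsto.mono_left nhdsWithin_le_nhds
    have h4 : Tendsto g (𝓝[≠] 0) (𝓝 0) := by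
      rw [tendsto_zero_iff_norm_tendsto_zero]
      exact squeeze_zero' (Eventually.of_forall fun t => norm_nonneg _) h1 h2
    exact hg0 (tendsto_nhds_unique h3 h4)
  have hall : φ = fun _ => 0 := by
    have h1 : AnalyticOnNhd ℝ φ Set.univ := fun t _ => hφan t
    have h2 : AnalyticOnNhd ℝ (fun _ : ℝ => (0 : ℂ)) Set.univ := fun t _ => analyticAt_const
    exact h1.eq_of_eventuallyEq h2 hev
  have h1 := congrFun hall 1
  simp only [hφ, Complex.ofReal_one, one_mul, hh, add_sub_cancel] at h1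
  exact h1

end DrumF
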