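import Pool.Agent.Lib.MP_d92c84_an.Jet

/-!
# A solution is constant along a connected set of critical points
-/

set_option autoImplicit false

namespace DrumF

open Filter Topology Set
open scoped ComplexConjugate

/-- Local quadratic bound near a critical point with nonzero Laplacian. -/
theorem Jet.local_bound {f : ℕ → ℕ → ℂ → ℂ} (hf : Jet f) {p : ℂ} (hp : f 1 1 p ≠ 0) :
    ∃ δ > 0, ∃ C : ℝ, 0 ≤ C ∧ ∃ ℓ : ℂ → ℝ, Continuous ℓ ∧ ∀ P ∈ Metric.ball p δ, ∀ Q ∈ Metric.ball p δ,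
      f 1 0 P = 0 → f 0 1 P = 0 → f 1 0 Q = 0 → f 0 1 Q = 0 → ‖f 0 0 P - f 0 0 Q‖ ≤ C * (ℓ P - ℓ Q) ^ 2 := by
  -- a direction with nonzero second derivative
  obtain ⟨e, he, hD⟩ : ∃ e : ℂ, e * conj e = 1 ∧
      (f 2 0 p * e + f 1 1 p * conj e) * e + (f 1 1 p * e + f 0 2 p * conj e) * conj e ≠ 0 := by
    by_contra hcon
    push Not at hcon
    have h1 := hcon 1 (by simp)
    have h2 := hcon Complex.I (by simp)
    simp only [map_one, mul_one, Complex.conj_I] at h1 h2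
    have h3 : (4 : ℂ) * f 1 1 p = 0 := by
      linear_combination h1 + h2 - (f 2 0 p + f 0 2 p) * Complex.I_mul_I +
        (2 * f 1 1 p) * Complex.I_mul_I
    rcases mul_eq_zero.1 h3 with h4 | h4
    · norm_num at h4
    · exact hp h4
  have hen : ‖e‖ = 1 := by
    have h1 : ‖e‖ * ‖e‖ = 1 := by
      have := congrArg norm he
      rwa [norm_mul, Complex.norm_conj, norm_one] at this
    nlinarith [norm_nonneg e, sq_nonneg (‖e‖ - 1)]
  set L : ℂ →L[ℝ] ℂ := e • LL (f 2 0 p) (f 1 1 p) + conj e • LL (f 1 1 p) (f 0 2 p) with hL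
  set D : ℂ := L e with hDdef
  have hDne : D ≠ 0 := by
    rw [hDdef, hL]
    simp only [add_apply, smul_apply, LL_apply, smul_eq_mul]
    intro h0
    apply hD
    linear_combination h0
  have hDpos : 0 < ‖D‖ := norm_pos_iff.2 hDne
  -- strict differentiability of the first derivatives
  have hcd : ∀ a b, HasStrictFDerivAt (f a b) (LL (f (a + 1) b p) (f a (b + 1) p)) p := by
    intro a b
    apply hasStrictFDerivAt_of_hasFDerivAt_of_continuousAt (f' := fun x => LL (f (a + 1) b x) (f a (b + 1) x))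
    · exact Eventually.of_forall fun x => hf a b x
    · have h1 : Continuous fun x => LL (f (a + 1) b x) (f a (b + 1) x) := by
        unfold LL
        have h2 := hf.continuous (a + 1) b
        have h3 := hf.continuous a (b + 1)
        fun_prop
      exact h1.continuousAt
  have hv : HasStrictFDerivAt (fun x => e * f 1 0 x + conj e * f 0 1 x) L p := by
    have h1 := ((hcd 1 0).const_mul e).add ((hcd 0 1).const_mul (conj e))
    exact h1
  have hv2 := hv.isLittleO.def (show 0 < ‖D‖ / 2 by positivity)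
  have hlip10 := (hcd 1 0).exists_lipschitzOnWith
  have hlip01 := (hcd 0 1).exists_lipschitzOnWith
  obtain ⟨K1, s1, hs1, hK1⟩ := hlip10
  obtain ⟨K2, s2, hs2, hK2⟩ := hlip01
  rw [nhds_prod_eq] at hv2
  obtain ⟨s3, hs3, hs3'⟩ : ∃ s ∈ 𝓝 p, ∀ P ∈ s, ∀ Q ∈ s,
      ‖(e * f 1 0 P + conj e * f 0 1 P) - (e * f 1 0 Q + conj e * f 0 1 Q) - L (P - Q)‖ ≤
        ‖D‖ / 2 * ‖P - Q‖ := by
    obtain ⟨s, hs, hs'⟩ := (mem_prod_same_iff.1 hv2)
    exact ⟨s, hs, fun P hP Q hQ => hs' (mk_mem_prod hP hQ)⟩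
  obtain ⟨δ, hδ, hball⟩ := Metric.mem_nhds_iff.1 (inter_mem (inter_mem hs1 hs2) hs3)
  set B : ℝ := ‖L (Complex.I * e)‖ + ‖D‖ / 2 with hB
  have hB0 : 0 ≤ B := by positivity
  set C1 : ℝ := 2 * B / ‖D‖ + 1 with hC1
  have hC10 : 0 ≤ C1 := by positivity
  refine ⟨δ, hδ, (K1 + K2) * C1 ^ 2, by positivity, fun x => (x * conj (Complex.I * e)).re, by fun_prop, ?_⟩
  intro P hP Q hQ hP1 hP2 hQ1 hQ2
  have hP' := hball hP
  have hQ' := hball hQ
  -- components of `P - Q`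
  set α : ℝ := ((P - Q) * conj e).re with hα
  set β : ℝ := ((P - Q) * conj (Complex.I * e)).re with hβ
  have hdec : P - Q = (α : ℂ) * e + (β : ℂ) * (Complex.I * e) := by
    have h1 : (P - Q) * conj e = α + β * Complex.I := by
      apply Complex.ext
      · simp [hα]
      · simp only [hβ, map_mul, Complex.conj_I, Complex.add_im, Complex.ofReal_im, Complex.mul_im,
          Complex.ofReal_re, Complex.I_im, Complex.I_re, Complex.mul_re, Complex.conj_re, Complex.conj_im,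
          Complex.neg_re, Complex.neg_im]
        ring
    calc P - Q = (P - Q) * (e * conj e) := by rw [he, mul_one]
      _ = ((P - Q) * conj e) * e := by ring
      _ = (α + β * Complex.I) * e := by rw [h1]
      _ = _ := by ring
  have hnorm : ‖P - Q‖ ≤ |α| + |β| := by
    rw [hdec]
    refine (norm_add_le _ _).trans ?_
    rw [norm_mul, norm_mul, norm_mul, hen, Complex.norm_I, Complex.norm_real, Complex.norm_real,
      Real.norm_eq_abs, Real.norm_eq_abs]
    linarith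
  have hLd : L (P - Q) = (α : ℂ) * D + (β : ℂ) * L (Complex.I * e) := by
    rw [hdec, map_add]
    have h1 : ∀ (t : ℝ) (y : ℂ), L ((t : ℂ) * y) = (t : ℂ) * L y := by
      intro t y
      have := L.map_smul t y
      simpa [Complex.real_smul] using this
    rw [h1, h1]
  have h3 := hs3' P hP'.2 Q hQ'.2
  rw [hP1, hP2, hQ1, hQ2] at h3
  simp only [mul_zero, add_zero, sub_zero, zero_sub, norm_neg] at h3
  have h4 : |α| * ‖D‖ ≤ |β| * ‖L (Complex.I * e)‖ + ‖D‖ / 2 * (|α| + |β|) := by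
    have h5 : (α : ℂ) * D = L (P - Q) - (β : ℂ) * L (Complex.I * e) := by
      rw [hLd]
      ring
    have h6 : ‖(α : ℂ) * D‖ ≤ ‖L (P - Q)‖ + ‖(β : ℂ) * L (Complex.I * e)‖ := by
      rw [h5]
      exact norm_sub_le _ _
    rw [norm_mul, norm_mul, Complex.norm_real, Complex.norm_real, Real.norm_eq_abs, Real.norm_eq_abs] at h6
    have h7 : ‖D‖ / 2 * ‖P - Q‖ ≤ ‖D‖ / 2 * (|α| + |β|) := by gcongr
    linarith
  have h5 : |α| ≤ 2 * B / ‖D‖ * |β| := by
    have h6 : |α| * ‖D‖ ≤ 2 * B * |β| := by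
      rw [hB]
      nlinarith [abs_nonneg α, abs_nonneg β]
    rw [div_mul_eq_mul_div, le_div_iff₀ hDpos]
    exact h6
  have h6 : ‖P - Q‖ ≤ C1 * |β| := by
    rw [hC1]
    linarith
  -- the quadratic bound
  have hconv : Convex ℝ (Metric.ball p δ ∩ Metric.closedBall Q ‖P - Q‖) :=
    (convex_ball p δ).inter (convex_closedBall Q _)
  have h7 : ‖f 0 0 P - f 0 0 Q‖ ≤ (K1 + K2) * ‖P - Q‖ * ‖P - Q‖ := by
    refine hconv.norm_image_sub_le_of_norm_hasFDerivWithin_le
      (fun y _ => (hf 0 0 y).hasFDerivWithinAt) ?_ ⟨hQ, by simp⟩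
      ⟨hP, by rw [Metric.mem_closedBall, dist_eq_norm]⟩
    intro y hy
    have hy1 := hball hy.1
    have hy2 : ‖y - Q‖ ≤ ‖P - Q‖ := by
      have := hy.2
      rwa [Metric.mem_closedBall, dist_eq_norm] at this
    refine (norm_LL_le _ _).trans ?_
    have h8 := hK1.norm_sub_le hy1.1.1 hQ'.1.1
    have h9 := hK2.norm_sub_le hy1.1.2 hQ'.1.2
    rw [hQ1, sub_zero] at h8
    rw [hQ2, sub_zero] at h9
    have h10 : (K1 : ℝ) * ‖y - Q‖ ≤ K1 * ‖P - Q‖ := by gcongr
    have h11 : (K2 : ℝ) * ‖y - Q‖ ≤ K2 * ‖P - Q‖ := by gcongr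
    calc ‖f (0 + 1) 0 y‖ + ‖f 0 (0 + 1) y‖ ≤ K1 * ‖y - Q‖ + K2 * ‖y - Q‖ := add_le_add h8 h9
      _ ≤ (K1 + K2) * ‖P - Q‖ := by linarith
  have h8 : (P * conj (Complex.I * e)).re - (Q * conj (Complex.I * e)).re = β := by
    rw [hβ, sub_mul, Complex.sub_re]
  rw [h8]
  calc ‖f 0 0 P - f 0 0 Q‖ ≤ (K1 + K2) * ‖P - Q‖ * ‖P - Q‖ := h7
    _ = (K1 + K2) * ‖P - Q‖ ^ 2 := by ring
    _ ≤ (K1 + K2) * (C1 * |β|) ^ 2 := by gcongr
    _ = (K1 + K2) * C1 ^ 2 * β ^ 2 := by rw [mul_pow, sq_abs]; ring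

/-- A function with a quadratic bound in terms of a continuous function is constant on intervals. -/
theorem const_of_sq_bound {W : Set ℝ} (hW : IsPreconnected W) {a : ℝ → ℝ} {b : ℝ → ℂ} (ha : ContinuousOn a W)
    {C : ℝ} (hC : 0 ≤ C) (h : ∀ s ∈ W, ∀ t ∈ W, ‖b s - b t‖ ≤ C * (a s - a t) ^ 2) :
    ∀ s ∈ W, ∀ t ∈ W, b s = b t := by
  intro s hs t ht
  have hT : IsPreconnected (a '' W) := hW.image a ha
  have hTc : Convex ℝ (a '' W) := hT.ordConnected.convex
  choose! σ hσ using fun y (hy : y ∈ a '' W) => hy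
  have h1 : ∀ y ∈ a '' W, ∀ z ∈ a '' W, ‖b (σ y) - b (σ z)‖ ≤ C * (y - z) ^ 2 := by
    intro y hy z hz
    have := h (σ y) (hσ y hy).1 (σ z) (hσ z hz).1
    rwa [(hσ y hy).2, (hσ z hz).2] at this
  have h2 : ∀ y ∈ a '' W, HasFDerivWithinAt (fun y => b (σ y)) (0 : ℝ →L[ℝ] ℂ) (a '' W) y := by
    intro y hy
    rw [hasFDerivWithinAt_iff_isLittleO]
    have h3 : (fun z : ℝ => C * (z - y) ^ 2) =o[𝓝[a '' W] y] fun z => z - y := by
      have h4 : (fun z : ℝ => z - y) =o[𝓝[a '' W] y] fun _ => (1 : ℝ) := by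
        rw [Asymptotics.isLittleO_one_iff]
        have h5 : Continuous fun z : ℝ => z - y := by fun_prop
        have h6 := h5.tendsto y
        rw [sub_self] at h6
        exact h6.mono_left nhdsWithin_le_nhds
      have h5 : (fun z : ℝ => (z - y) * (z - y)) =o[𝓝[a '' W] y] fun z => 1 * (z - y) :=
        h4.mul_isBigO (Asymptotics.isBigO_refl _ _)
      have h6 : (fun z : ℝ => C * (z - y) ^ 2) = fun z => C * ((z - y) * (z - y)) := by
        funext z
        ring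
      rw [h6]
      simp only [one_mul] at h5
      exact h5.const_mul_left C
    refine Asymptotics.IsBigO.trans_isLittleO (Asymptotics.IsBigO.of_bound 1 ?_) h3
    filter_upwards [self_mem_nhdsWithin] with z hz
    have h4 := h1 z hz y hy
    rw [one_mul, Real.norm_eq_abs, abs_of_nonneg (by positivity)]
    simpa using h4
  have h3 : ∀ y ∈ a '' W, ∀ z ∈ a '' W, b (σ y) = b (σ z) := by
    intro y hy z hz
    have h4 := hTc.norm_image_sub_le_of_norm_hasFDerivWithin_le (C := 0) h2 (by simp) hz hy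
    rw [zero_mul] at h4
    exact sub_eq_zero.1 (norm_le_zero_iff.1 h4)
  have h4 : ∀ s ∈ W, b s = b (σ (a s)) := by
    intro s hs
    have h5 := h s hs (σ (a s)) (hσ _ (mem_image_of_mem a hs)).1
    rw [(hσ _ (mem_image_of_mem a hs)).2, sub_self] at h5
    have h6 : ‖b s - b (σ (a s))‖ ≤ 0 := by
      simpa using h5
    exact sub_eq_zero.1 (norm_le_zero_iff.1 h6)
  rw [h4 s hs, h4 t ht]
  exact h3 _ (mem_image_of_mem a hs) _ (mem_image_of_mem a ht)

/-- A solution is constant along a curve of critical points. -/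
theorem Helm.const {κ : ℝ} (hκ : κ ≠ 0) {f : ℕ → ℕ → ℂ → ℂ} (hf : Helm κ f) {g : ℝ → ℂ} (hg : Continuous g)
    (hcrit : ∀ s, f 1 0 (g s) = 0) : ∃ c : ℂ, ∀ s, f 0 0 (g s) = c := by
  by_cases h0 : ∀ s, f 0 0 (g s) = 0
  · exact ⟨0, h0⟩
  push Not at h0
  obtain ⟨s₀, hs₀⟩ := h0
  refine ⟨f 0 0 (g s₀), ?_⟩
  have hcrit' : ∀ s, f 0 1 (g s) = 0 := by
    intro s
    rw [← hf.real 1 0, hcrit s, map_zero]
  set v := f 0 0 (g s₀) with hv
  have hcl : IsClosed {s | f 0 0 (g s) = v} :=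
    isClosed_eq ((hf.jet.continuous 0 0).comp hg) continuous_const
  have hop : IsOpen {s | f 0 0 (g s) = v} := by
    rw [Metric.isOpen_iff]
    intro s hs
    have hs' : f 0 0 (g s) = v := hs
    have h11 : f 1 1 (g s) ≠ 0 := by
      rw [hf.eq 0 0, hs']
      exact mul_ne_zero (neg_ne_zero.2 (pow_ne_zero _ (by exact_mod_cast hκ))) hs₀
    obtain ⟨δ, hδ, C, hC, ℓ, hℓ, hb⟩ := hf.jet.local_bound h11
    obtain ⟨ε, hε, hε'⟩ := Metric.mem_nhds_iff.1 (hg.continuousAt.preimage_mem_nhds (Metric.ball_mem_nhds (g s) hδ))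
    refine ⟨ε, hε, fun t ht => ?_⟩
    have hW : IsPreconnected (Metric.ball s ε) := (convex_ball s ε).isPreconnected
    have h1 := const_of_sq_bound hW (a := fun t => ℓ (g t)) (b := fun t => f 0 0 (g t))
      ((hℓ.comp hg).continuousOn) hC (fun t ht u hu => hb (g t) (hε' ht) (g u) (hε' hu)
        (hcrit t) (hcrit' t) (hcrit u) (hcrit' u)) t ht s (Metric.mem_ball_self hε)
    have h2 : f 0 0 (g t) = f 0 0 (g s) := h1
    show f 0 0 (g t) = v
    rw [h2, hs']
  have huniv : {s | f 0 0 (g s) = v} = univ := IsClopen.eq_univ ⟨hcl, hop⟩ ⟨s₀, rfl⟩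
  intro s
  have : s ∈ {s | f 0 0 (g s) = v} := by rw [huniv]; exact mem_univ s
  exact this

end DrumF
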