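import Pool.Agent.Lib.MP_d92c84_an.Ext
import Pool.Agent.Lib.MP_d92c84_an.Fin

/-!
# One frequency: a finite sum of plane waves with a closed critical curve vanishes
-/

set_option autoImplicit false

namespace DrumF

open Filter Topology Set
open scoped ComplexConjugate

/-- There is no injective continuous map from the circle to the line. -/
theorem no_circle_line {ψ : Circle → ℝ} (hc : Continuous ψ) (hi : Function.Injective ψ) : False := by
  set f : ℝ → ℝ := fun θ => ψ (Circle.exp θ) - ψ (Circle.exp (θ + Real.pi)) with hf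
  have hfc : Continuous f := by
    have h1 : Continuous fun θ : ℝ => Circle.exp θ := Circle.exp.continuous
    have h2 : Continuous fun θ : ℝ => Circle.exp (θ + Real.pi) := h1.comp (continuous_add_const Real.pi)
    exact (hc.comp h1).sub (hc.comp h2)
  have hper : f Real.pi = -f 0 := by
    simp only [hf]
    have h1 : Circle.exp (Real.pi + Real.pi) = Circle.exp 0 := by
      rw [← two_mul, Circle.exp_two_pi, Circle.exp_zero]
    rw [h1, zero_add]
    ring
  have h0 : (0 : ℝ) ∈ range f := by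
    rcases le_total (f 0) 0 with h | h
    · exact mem_range_of_exists_le_of_exists_ge hfc ⟨0, h⟩ ⟨Real.pi, by rw [hper]; linarith⟩
    · exact mem_range_of_exists_le_of_exists_ge hfc ⟨Real.pi, by rw [hper]; linarith⟩ ⟨0, h⟩
  obtain ⟨θ, hθ⟩ := h0
  have h1 : Circle.exp θ = Circle.exp (θ + Real.pi) := hi (by
    have : ψ (Circle.exp θ) - ψ (Circle.exp (θ + Real.pi)) = 0 := hθ
    linarith)
  have h2 : ((Circle.exp θ : Circle) : ℂ) = ((Circle.exp (θ + Real.pi) : Circle) : ℂ) := by rw [← h1]
  rw [Circle.coe_exp, Circle.coe_exp] at h2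
  push_cast at h2
  rw [add_mul, Complex.exp_add, Complex.exp_pi_mul_I] at h2
  have h3 : Complex.exp (θ * Complex.I) = 0 := by linear_combination h2 / 2
  exact Complex.exp_ne_zero _ h3

section
variable {ι : Type*} (F : Finset ι) (b ζ : ι → ℂ)

open Classical in
/-- The collected coefficients. -/
noncomputable def coef (ξ : ℂ) : ℂ :=
  1 / 2 * ∑ j ∈ F.filter fun j => ζ j = ξ, b j + 1 / 2 * ∑ j ∈ F.filter fun j => -ζ j = ξ, conj (b j)

open Classical in
/-- The wave vectors with nonzero coefficient. -/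
noncomputable def dirs : Finset ℂ := (F.image ζ ∪ F.image fun j => -ζ j).filter fun ξ => coef F b ζ ξ ≠ 0

variable {F b ζ}

theorem coef_neg (ξ : ℂ) : coef F b ζ (-ξ) = conj (coef F b ζ ξ) := by
  classical
  unfold coef
  rw [map_add, map_mul, map_mul, map_sum, map_sum]
  have hhalf : conj (1 / 2 : ℂ) = 1 / 2 := by
    rw [map_div₀, map_one, Complex.conj_ofNat]
  rw [hhalf]
  have e1 : (F.filter fun j => ζ j = -ξ) = F.filter fun j => -ζ j = ξ := by
    refine Finset.filter_congr fun j _ => ?_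
    constructor
    · intro h
      rw [h, neg_neg]
    · intro h
      rw [← h, neg_neg]
  have e2 : (F.filter fun j => -ζ j = -ξ) = F.filter fun j => ζ j = ξ := by
    refine Finset.filter_congr fun j _ => ?_
    exact neg_inj
  rw [e1, e2]
  simp only [Complex.conj_conj]
  rw [add_comm]

theorem dirs_neg {ξ : ℂ} (h : ξ ∈ dirs F b ζ) : -ξ ∈ dirs F b ζ := by
  classical
  unfold dirs at h ⊢
  obtain ⟨h1, h2⟩ := Finset.mem_filter.1 h
  refine Finset.mem_filter.2 ⟨?_, ?_⟩
  · rcases Finset.mem_union.1 h1 with h3 | h3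
    · obtain ⟨j, hj, rfl⟩ := Finset.mem_image.1 h3
      exact Finset.mem_union_right _ (Finset.mem_image.2 ⟨j, hj, rfl⟩)
    · obtain ⟨j, hj, rfl⟩ := Finset.mem_image.1 h3
      exact Finset.mem_union_left _ (Finset.mem_image.2 ⟨j, hj, by rw [neg_neg]⟩)
  · rw [coef_neg]
    exact fun h0 => h2 (by simpa using h0)

theorem dirs_norm (hζ : ∀ j ∈ F, ‖ζ j‖ = 1) {ξ : ℂ} (h : ξ ∈ dirs F b ζ) : ‖ξ‖ = 1 := by
  classical
  unfold dirs at h
  obtain ⟨h1, h2⟩ := Finset.mem_filter.1 h
  rcases Finset.mem_union.1 h1 with h3 | h3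
  · obtain ⟨j, hj, rfl⟩ := Finset.mem_image.1 h3
    exact hζ j hj
  · obtain ⟨j, hj, rfl⟩ := Finset.mem_image.1 h3
    rw [norm_neg]
    exact hζ j hj

theorem dirs_coef {ξ : ℂ} (h : ξ ∈ dirs F b ζ) : coef F b ζ ξ ≠ 0 := by
  classical
  exact (Finset.mem_filter.1 h).2

theorem sum_dirs (Ψ : ℂ → ℂ) : ∑ ξ ∈ dirs F b ζ, coef F b ζ ξ * Ψ ξ =
    1 / 2 * ∑ j ∈ F, (b j * Ψ (ζ j) + conj (b j) * Ψ (-ζ j)) := by
  classical
  unfold dirs
  rw [Finset.sum_filter_of_ne (p := fun ξ => coef F b ζ ξ ≠ 0) fun ξ _ h0 h1 => h0 (by rw [h1, zero_mul])]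
  set T : Finset ℂ := F.image ζ ∪ F.image fun j => -ζ j with hT
  have h1 : ∑ ξ ∈ T, coef F b ζ ξ * Ψ ξ = 1 / 2 * ∑ ξ ∈ T, (∑ j ∈ F.filter fun j => ζ j = ξ, b j * Ψ (ζ j)) +
      1 / 2 * ∑ ξ ∈ T, (∑ j ∈ F.filter fun j => -ζ j = ξ, conj (b j) * Ψ (-ζ j)) := by
    rw [Finset.mul_sum, Finset.mul_sum, ← Finset.sum_add_distrib]
    refine Finset.sum_congr rfl fun ξ _ => ?_
    unfold coef
    rw [add_mul, mul_assoc, mul_assoc, Finset.sum_mul, Finset.sum_mul]
    congr 2
    · refine Finset.sum_congr rfl fun j hj => ?_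
      rw [(Finset.mem_filter.1 hj).2]
    · refine Finset.sum_congr rfl fun j hj => ?_
      rw [(Finset.mem_filter.1 hj).2]
  rw [h1, Finset.sum_fiberwise_of_maps_to (fun j hj => Finset.mem_union_left _ (Finset.mem_image_of_mem ζ hj)),
    Finset.sum_fiberwise_of_maps_to (fun j hj => Finset.mem_union_right _
      (Finset.mem_image_of_mem (fun j => -ζ j) hj)), ← mul_add, ← Finset.sum_add_distrib]

theorem PW_dirs (κ : ℝ) (p q : ℕ) (x : ℂ) : PW κ (dirs F b ζ) (coef F b ζ) p q x =
    1 / 2 * ∑ j ∈ F, (b j * ((Complex.I * κ * ζ j) ^ p * (Complex.I * κ * conj (ζ j)) ^ q *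
      Complex.exp (Complex.I * κ * (ζ j * x + conj (ζ j) * conj x))) +
      conj (b j) * ((Complex.I * κ * -ζ j) ^ p * (Complex.I * κ * conj (-ζ j)) ^ q *
      Complex.exp (Complex.I * κ * (-ζ j * x + conj (-ζ j) * conj x)))) := by
  rw [← sum_dirs (F := F) (b := b) (ζ := ζ) fun ξ => (Complex.I * κ * ξ) ^ p * (Complex.I * κ * conj ξ) ^ q *
    Complex.exp (Complex.I * κ * (ξ * x + conj ξ * conj x))]
  unfold PW U
  refine Finset.sum_congr rfl fun ξ _ => ?_
  ring

theorem PW_dirs_zero (κ : ℝ) (x : ℂ) : PW κ (dirs F b ζ) (coef F b ζ) 0 0 x =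
    ((∑ j ∈ F, b j * Complex.exp (Complex.I * κ * (ζ j * x + conj (ζ j) * conj x))).re : ℂ) := by
  rw [PW_dirs, Complex.re_eq_add_conj, map_sum, ← Finset.sum_add_distrib, Finset.mul_sum, Finset.sum_div]
  refine Finset.sum_congr rfl fun j _ => ?_
  have h1 : conj (b j * Complex.exp (Complex.I * κ * (ζ j * x + conj (ζ j) * conj x))) =
      conj (b j) * Complex.exp (Complex.I * κ * (-ζ j * x + conj (-ζ j) * conj x)) := by
    rw [map_mul, ← Complex.exp_conj]
    congr 2
    simp only [map_mul, map_add, Complex.conj_I, Complex.conj_ofReal, Complex.conj_conj, map_neg]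
    ring
  rw [h1]
  ring

/-- The theorem for one frequency. -/
theorem plane_one {κ : ℝ} (hκ : 0 < κ) (hζ : ∀ j ∈ F, ‖ζ j‖ = 1) {g : Circle → ℂ} (hg : Continuous g)
    (hinj : Function.Injective g) (hcrit : ∀ s, PW κ (dirs F b ζ) (coef F b ζ) 1 0 (g s) = 0) (x : ℂ) :
    (∑ j ∈ F, b j * Complex.exp (Complex.I * κ * (ζ j * x + conj (ζ j) * conj x))).re = 0 := by
  classical
  set Z := dirs F b ζ with hZdef
  set a := coef F b ζ with hadef
  have hZ : ∀ ξ ∈ Z, ‖ξ‖ = 1 := fun ξ h => dirs_norm hζ h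
  have hs : ∀ ξ ∈ Z, -ξ ∈ Z := fun ξ h => dirs_neg h
  have ha : ∀ ξ ∈ Z, a ξ ≠ 0 := fun ξ h => dirs_coef h
  have har : ∀ ξ ∈ Z, a (-ξ) = conj (a ξ) := fun ξ _ => coef_neg ξ
  suffices h : PW κ Z a 0 0 x = 0 by
    rw [PW_dirs_zero] at h
    exact_mod_cast h
  by_cases hcard : 3 ≤ Z.card
  · obtain ⟨h, hh, hhr, hi, hcpt, -⟩ := param hg hinj rfl
    refine plane_core hκ hZ hs ha har hcard hh (by rwa [hhr]) (by rwa [hhr]) (fun s => ?_) x
    obtain ⟨t, ht⟩ : h s ∈ range g := hhr ▸ mem_range_self s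
    rw [← ht]
    exact hcrit t
  · push Not at hcard
    rcases Z.eq_empty_or_nonempty with h0 | ⟨ξ, hξ⟩
    · rw [h0]
      simp [PW, U]
    exfalso
    have hne : ξ ≠ -ξ := by
      intro h
      have h1 : ξ = 0 := by linear_combination h / 2
      have h2 := hZ ξ hξ
      rw [h1, norm_zero] at h2
      exact zero_ne_one h2
    have hZeq : Z = {ξ, -ξ} := by
      symm
      refine Finset.eq_of_subset_of_card_le ?_ ?_
      · intro y hy
        rw [Finset.mem_insert, Finset.mem_singleton] at hy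
        rcases hy with rfl | rfl
        · exact hξ
        · exact hs ξ hξ
      · rw [Finset.card_pair hne]
        omega
    have haξ := ha ξ hξ
    have hn := hZ ξ hξ
    -- the wave depends on `Re (ξ x)` only
    have him : ∀ s : Circle, (a ξ * Complex.exp (Complex.I * ((2 * κ * (ξ * g s).re : ℝ) : ℂ))).im = 0 := by
      intro s
      have h1 := hcrit s
      rw [hZeq] at h1
      unfold PW U at h1
      rw [Finset.sum_pair hne, har ξ hξ] at h1
      have h2 : ∀ y : ℂ, Complex.I * κ * (ξ * y + conj ξ * conj y) = Complex.I * ((2 * κ * (ξ * y).re : ℝ) : ℂ) := by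
        intro y
        have h3 : ξ * y + conj ξ * conj y = ((2 * (ξ * y).re : ℝ) : ℂ) := by
          rw [← map_mul, Complex.add_conj]
        rw [h3]
        push_cast
        ring
      have h3 : Complex.I * κ * (-ξ * g s + conj (-ξ) * conj (g s)) =
          -(Complex.I * ((2 * κ * (ξ * g s).re : ℝ) : ℂ)) := by
        rw [← h2, map_neg]
        ring
      rw [h2, h3] at h1
      set P : ℂ := a ξ * Complex.exp (Complex.I * ((2 * κ * (ξ * g s).re : ℝ) : ℂ)) with hP
      have h4 : conj P = conj (a ξ) * Complex.exp (-(Complex.I * ((2 * κ * (ξ * g s).re : ℝ) : ℂ))) := by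
        rw [hP, map_mul, ← Complex.exp_conj]
        congr 2
        rw [map_mul, Complex.conj_I, Complex.conj_ofReal]
        ring
      have h5 : (Complex.I * κ * ξ) * (P - conj P) = 0 := by
        rw [h4, hP]
        linear_combination h1
      have h6 : (Complex.I * κ * ξ : ℂ) ≠ 0 := by
        refine mul_ne_zero (mul_ne_zero Complex.I_ne_zero (by exact_mod_cast hκ.ne')) ?_
        intro h7
        rw [h7, norm_zero] at hn
        exact zero_ne_one hn
      have h7 := (mul_eq_zero.1 h5).resolve_left h6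
      exact Complex.conj_eq_iff_im.1 (sub_eq_zero.1 h7).symm
    -- hence `Re (ξ x)` is constant along the curve
    set φ : Circle → ℝ := fun s => (ξ * g s).re with hφ
    have hφc : Continuous φ := Complex.continuous_re.comp (continuous_const.mul hg)
    have hconst : ∀ s t : Circle, ¬ φ s < φ t := by
      intro s t hst
      set d : ℝ := min (φ t - φ s) (Real.pi / (4 * κ)) with hd
      have hd0 : 0 < d := lt_min (by linarith) (by have := Real.pi_pos; positivity)
      have hd1 : d ≤ φ t - φ s := min_le_left _ _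
      have hd2 : d ≤ Real.pi / (4 * κ) := min_le_right _ _
      have hconn : IsPreconnected (range φ) := by
        have h1 : range φ = range (φ ∘ Circle.exp) := by rw [Circle.exp_surjective.range_comp]
        rw [h1]
        exact isPreconnected_range (hφc.comp Circle.exp.continuous)
      have h2 : φ s + d ∈ range φ := hconn.Icc_subset (mem_range_self s) (mem_range_self t)
        ⟨by linarith, by linarith⟩
      obtain ⟨r, hr⟩ := h2
      have g1 := him s
      have g2 := him r
      set P : ℂ := a ξ * Complex.exp (Complex.I * ((2 * κ * (ξ * g s).re : ℝ) : ℂ)) with hP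
      have hPne : P ≠ 0 := mul_ne_zero haξ (Complex.exp_ne_zero _)
      have h3 : a ξ * Complex.exp (Complex.I * ((2 * κ * (ξ * g r).re : ℝ) : ℂ)) =
          P * Complex.exp (((2 * κ * d : ℝ) : ℂ) * Complex.I) := by
        rw [hP, mul_assoc (a ξ), ← Complex.exp_add]
        congr 2
        have h4 : (ξ * g r).re = (ξ * g s).re + d := hr
        rw [h4]
        push_cast
        ring
      rw [h3, Complex.mul_im, g1, zero_mul, add_zero, Complex.exp_ofReal_mul_I_im] at g2
      have h4 : 0 < Real.sin (2 * κ * d) := by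
        apply Real.sin_pos_of_pos_of_lt_pi (by positivity)
        rw [le_div_iff₀ (by positivity)] at hd2
        nlinarith [Real.pi_pos]
      have h5 : P.re = 0 := (mul_eq_zero.1 g2).resolve_right h4.ne'
      exact hPne (Complex.ext h5 g1)
    have hconst' : ∀ s t : Circle, φ s = φ t := fun s t =>
      le_antisymm (not_lt.1 (hconst t s)) (not_lt.1 (hconst s t))
    refine no_circle_line (ψ := fun s => (ξ * g s).im) (Complex.continuous_im.comp (continuous_const.mul hg)) ?_
    intro s t hst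
    apply hinj
    have h1 : ξ * g s = ξ * g t := Complex.ext (hconst' s t) hst
    refine mul_left_cancel₀ ?_ h1
    intro h7
    rw [h7, norm_zero] at hn
    exact zero_ne_one hn

end

end DrumF
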