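import Pool.Agent.Lib.MP_d92c84_an.Box

/-!
# The sine coefficients of a drum solution satisfy the cosine functional equation
-/

set_option autoImplicit false

namespace DrumF

open Filter Topology Set MeasureTheory

theorem di_bound {B N : ℝ} {X Y : ℝ → ℝ} (hX1 : ∀ x, |X x| ≤ 1) (hY1 : ∀ x, |Y x| ≤ 1)
    {K : ℝ → ℝ → ℝ} (hN : 0 ≤ N) {a₁ a₂ b₁ b₂ : ℝ} (hb : |b₂ - b₁| ≤ B)
    (hK : ∀ x ∈ uIcc a₁ a₂, ∀ y ∈ uIcc b₁ b₂, |K x y| ≤ N) :
    |di a₁ a₂ b₁ b₂ X Y K| ≤ N * B * |a₂ - a₁| := by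
  unfold di
  have h1 := intervalIntegral.norm_integral_le_of_norm_le_const (a := a₁) (b := a₂)
    (f := fun x => (∫ y in b₁..b₂, K x y * Y y) * X x) (C := N * B) (fun x hx => by
      have hx' := uIoc_subset_uIcc hx
      have h2 := intervalIntegral.norm_integral_le_of_norm_le_const (a := b₁) (b := b₂)
        (f := fun y => K x y * Y y) (C := N) (fun y hy => by
          rw [norm_mul, Real.norm_eq_abs, Real.norm_eq_abs]
          calc |K x y| * |Y y| ≤ N * 1 :=
                mul_le_mul (hK x hx' y (uIoc_subset_uIcc hy)) (hY1 y) (abs_nonneg _) hN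
            _ = N := mul_one N)
      rw [norm_mul, Real.norm_eq_abs (X x)]
      calc _ ≤ (N * |b₂ - b₁|) * 1 := mul_le_mul h2 (hX1 x) (abs_nonneg _) (by positivity)
        _ ≤ N * B := by rw [mul_one]; gcongr)
  rw [Real.norm_eq_abs] at h1
  exact h1

/-- Shrinking the rectangle changes the double integral little. -/
theorem di_close {A B N ε : ℝ} (hε : 0 ≤ ε) (hA : 2 * ε ≤ A) (hB : 2 * ε ≤ B) {X Y : ℝ → ℝ} (hX : Continuous X)
    (hY : Continuous Y) (hX1 : ∀ x, |X x| ≤ 1) (hY1 : ∀ x, |Y x| ≤ 1)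
    {K : ℝ → ℝ → ℝ} (hK : Continuous fun q : ℝ × ℝ => K q.1 q.2) (hN : 0 ≤ N)
    (hKN : ∀ x ∈ Icc 0 A, ∀ y ∈ Icc 0 B, |K x y| ≤ N) :
    |di ε (A - ε) ε (B - ε) X Y K - di 0 A 0 B X Y K| ≤ N * (2 * ε * (A + B)) := by
  have hA0 : 0 ≤ A := by linarith
  have hB0 : 0 ≤ B := by linarith
  have cy : ∀ x, Continuous fun y => K x y * Y y := fun x =>
    (hK.comp (by fun_prop : Continuous fun y : ℝ => (x, y))).mul hY
  have ci : ∀ b₁ b₂ : ℝ, Continuous fun x => (∫ y in b₁..b₂, K x y * Y y) * X x := fun b₁ b₂ =>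
    (intervalIntegral.continuous_parametric_intervalIntegral_of_continuous'
      (hK.mul (hY.comp continuous_snd)) b₁ b₂).mul hX
  -- splitting in x
  have sx : di 0 A 0 B X Y K = di 0 ε 0 B X Y K + di ε (A - ε) 0 B X Y K + di (A - ε) A 0 B X Y K := by
    unfold di
    rw [intervalIntegral.integral_add_adjacent_intervals ((ci 0 B).intervalIntegrable _ _)
      ((ci 0 B).intervalIntegrable _ _), intervalIntegral.integral_add_adjacent_intervals
      ((ci 0 B).intervalIntegrable _ _) ((ci 0 B).intervalIntegrable _ _)]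
  have sy : di ε (A - ε) 0 B X Y K = di ε (A - ε) 0 ε X Y K + di ε (A - ε) ε (B - ε) X Y K +
      di ε (A - ε) (B - ε) B X Y K := by
    unfold di
    rw [← int_add (f := fun x => (∫ y in (0 : ℝ)..ε, K x y * Y y) * X x)
      (g := fun x => (∫ y in ε..(B - ε), K x y * Y y) * X x) (ci 0 ε) (ci ε (B - ε)),
      ← int_add (f := fun x => (∫ y in (0 : ℝ)..ε, K x y * Y y) * X x + (∫ y in ε..(B - ε), K x y * Y y) * X x)
      (g := fun x => (∫ y in (B - ε)..B, K x y * Y y) * X x) ((ci 0 ε).add (ci ε (B - ε))) (ci (B - ε) B)]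
    refine intervalIntegral.integral_congr fun x _ => ?_
    have h1 : ∫ y in (0 : ℝ)..B, K x y * Y y = (∫ y in (0 : ℝ)..ε, K x y * Y y) + (∫ y in ε..(B - ε), K x y * Y y) +
        ∫ y in (B - ε)..B, K x y * Y y := by
      rw [intervalIntegral.integral_add_adjacent_intervals ((cy x).intervalIntegrable _ _)
        ((cy x).intervalIntegrable _ _), intervalIntegral.integral_add_adjacent_intervals
        ((cy x).intervalIntegrable _ _) ((cy x).intervalIntegrable _ _)]
    rw [h1]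
    ring
  have e1 : |di 0 ε 0 B X Y K| ≤ N * B * ε := by
    have h1 := di_bound (B := B) hX1 hY1 hN (a₁ := 0) (a₂ := ε) (b₁ := 0) (b₂ := B) (K := K)
      (by rw [sub_zero, abs_of_nonneg hB0]) (by
        rw [uIcc_of_le hε, uIcc_of_le hB0]
        exact fun x hx y hy => hKN x ⟨hx.1, by linarith [hx.2]⟩ y hy)
    rwa [sub_zero, abs_of_nonneg hε] at h1
  have e2 : |di (A - ε) A 0 B X Y K| ≤ N * B * ε := by
    have h1 := di_bound (B := B) hX1 hY1 hN (a₁ := A - ε) (a₂ := A) (b₁ := 0) (b₂ := B) (K := K)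
      (by rw [sub_zero, abs_of_nonneg hB0]) (by
        rw [uIcc_of_le (by linarith : A - ε ≤ A), uIcc_of_le hB0]
        exact fun x hx y hy => hKN x ⟨by linarith [hx.1], hx.2⟩ y hy)
    have h2 : A - (A - ε) = ε := by ring
    rwa [h2, abs_of_nonneg hε] at h1
  have e3 : |di ε (A - ε) 0 ε X Y K| ≤ N * ε * A := by
    have h1 := di_bound (B := ε) hX1 hY1 hN (a₁ := ε) (a₂ := A - ε) (b₁ := 0) (b₂ := ε) (K := K)
      (by rw [sub_zero, abs_of_nonneg hε]) (by
        rw [uIcc_of_le (by linarith : ε ≤ A - ε), uIcc_of_le hε]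
        exact fun x hx y hy => hKN x ⟨by linarith [hx.1], by linarith [hx.2]⟩ y ⟨hy.1, by linarith [hy.2]⟩)
    rw [abs_of_nonneg (by linarith : 0 ≤ A - ε - ε)] at h1
    exact h1.trans (mul_le_mul_of_nonneg_left (by linarith) (by positivity))
  have e4 : |di ε (A - ε) (B - ε) B X Y K| ≤ N * ε * A := by
    have h1 := di_bound (B := ε) hX1 hY1 hN (a₁ := ε) (a₂ := A - ε) (b₁ := B - ε) (b₂ := B) (K := K)
      (by rw [show B - (B - ε) = ε by ring, abs_of_nonneg hε]) (by
        rw [uIcc_of_le (by linarith : ε ≤ A - ε), uIcc_of_le (by linarith : B - ε ≤ B)]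
        exact fun x hx y hy => hKN x ⟨by linarith [hx.1], by linarith [hx.2]⟩ y ⟨by linarith [hy.1], hy.2⟩)
    rw [abs_of_nonneg (by linarith : 0 ≤ A - ε - ε)] at h1
    exact h1.trans (mul_le_mul_of_nonneg_left (by linarith) (by positivity))
  have e5 : di ε (A - ε) ε (B - ε) X Y K - di 0 A 0 B X Y K =
      -(di 0 ε 0 B X Y K + di (A - ε) A 0 B X Y K + (di ε (A - ε) 0 ε X Y K + di ε (A - ε) (B - ε) B X Y K)) := by
    rw [sx, sy]
    ring
  rw [e5, abs_neg]
  have g1 := abs_add_le (di 0 ε 0 B X Y K + di (A - ε) A 0 B X Y K)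
    (di ε (A - ε) 0 ε X Y K + di ε (A - ε) (B - ε) B X Y K)
  have g2 := abs_add_le (di 0 ε 0 B X Y K) (di (A - ε) A 0 B X Y K)
  have g3 := abs_add_le (di ε (A - ε) 0 ε X Y K) (di ε (A - ε) (B - ε) B X Y K)
  calc _ ≤ N * B * ε + N * B * ε + (N * ε * A + N * ε * A) := by linarith
    _ = _ := by ring

theorem di_congr {a₁ a₂ b₁ b₂ : ℝ} {X Y : ℝ → ℝ} (ha : a₁ ≤ a₂) (hb : b₁ ≤ b₂) {K L : ℝ → ℝ → ℝ}
    (h : ∀ x ∈ Icc a₁ a₂, ∀ y ∈ Icc b₁ b₂, K x y = L x y) : di a₁ a₂ b₁ b₂ X Y K = di a₁ a₂ b₁ b₂ X Y L := by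
  unfold di
  refine intervalIntegral.integral_congr fun x hx => ?_
  rw [uIcc_of_le ha] at hx
  have h1 : ∫ y in b₁..b₂, K x y * Y y = ∫ y in b₁..b₂, L x y * Y y := by
    refine intervalIntegral.integral_congr fun y hy => ?_
    rw [uIcc_of_le hb] at hy
    rw [h x hx y hy]
  rw [h1]

/-- The wave numbers and frequencies. -/
noncomputable def pm (A : ℝ) (m : ℕ) : ℝ := ((m : ℝ) + 1) * Real.pi / A

theorem pm_pos {A : ℝ} (hA : 0 < A) (m : ℕ) : 0 < pm A m := by
  unfold pm
  have := Real.pi_pos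
  positivity

/-- The frequency of the mode `(m, n)`. -/
noncomputable def om (c A B : ℝ) (m n : ℕ) : ℝ := c * √(pm A m ^ 2 + pm B n ^ 2)

theorem om_pos {c A B : ℝ} (hc : 0 < c) (hA : 0 < A) (m n : ℕ) : 0 < om c A B m n := by
  unfold om
  have h1 := pm_pos hA m
  have h2 : 0 < pm A m ^ 2 + pm B n ^ 2 := by positivity
  exact mul_pos hc (Real.sqrt_pos.2 h2)

theorem om_sq (c A B : ℝ) (m n : ℕ) : om c A B m n ^ 2 = c ^ 2 * (pm A m ^ 2 + pm B n ^ 2) := by
  unfold om
  rw [mul_pow, Real.sq_sqrt (by positivity)]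

/-- The sine coefficient as a function of time. -/
noncomputable def bc (A B : ℝ) (z : ℂ → ℝ → ℝ) (m n : ℕ) (t : ℝ) : ℝ :=
  di 0 A 0 B (sn A m) (sn B n) fun x y => zc A B z x y t

theorem Drum.cosEq {c A B : ℝ} (hc : 0 < c) (hA : 0 < A) (hB : 0 < B) {z : ℂ → ℝ → ℝ} {G : ℂ → ℝ → ℂ}
    (h : Drum c A B z G) (m n : ℕ) : CosEq (om c A B m n) (bc A B z m n) := by
  have hD := isOpen_rect A B
  refine cos_limit (om_pos hc hA m n) fun T τ hτ => ?_
  set p : ℝ := pm A m with hp
  set q : ℝ := pm B n with hq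
  have hp0 : 0 < p := pm_pos hA m
  have hq0 : 0 < q := pm_pos hB n
  set X := sn A m with hX
  set Y := sn B n with hY
  -- bounds
  have hK := (isCompact_rect hA hB).prod (isCompact_Icc (a := -T) (b := T))
  have hsub : closure (Rect A B) ×ˢ Icc (-T) T ⊆ closure (Rect A B) ×ˢ univ := prod_mono Subset.rfl (subset_univ _)
  obtain ⟨M₀, hM₀⟩ := hK.exists_bound_of_continuousOn (h.continuousOn_gradient.mono hsub)
  obtain ⟨N₀, hN₀⟩ := hK.exists_bound_of_continuousOn (h.continuousOn.mono hsub)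
  set M : ℝ := max M₀ 0 with hM
  set N : ℝ := max N₀ 0 with hN
  have hM0 : 0 ≤ M := le_max_right _ _
  have hN0 : 0 ≤ N := le_max_right _ _
  -- uniform continuity
  have hzc := continuous_zc hA hB h.continuousOn
  have hKc : IsCompact (Icc (0 : ℝ) A ×ˢ (Icc (0 : ℝ) B ×ˢ Icc (-T) T)) :=
    isCompact_Icc.prod (isCompact_Icc.prod isCompact_Icc)
  have huc := hKc.uniformContinuousOn_of_continuous hzc.continuousOn
  set η : ℝ := τ / (2 * (c ^ 2 * (2 * p * B + 2 * q * A) + 1)) with hη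
  have hη0 : 0 < η := by positivity
  obtain ⟨δ, hδ, hδu⟩ := Metric.uniformContinuousOn_iff.1 huc η hη0
  -- choice of `ε`
  have hev : ∀ᶠ ε in 𝓝[>] (0 : ℝ), ε < δ ∧ 2 * ε < A ∧ 2 * ε < B ∧
      c ^ 2 * (2 * (M * ((p + q) * ε)) * B + 2 * (M * ((p + q) * ε)) * A) < τ / 2 ∧ N * (2 * ε * (A + B)) < τ := by
    have t1 : ∀ {f : ℝ → ℝ} {r : ℝ}, Continuous f → f 0 < r → ∀ᶠ ε in 𝓝[>] (0 : ℝ), f ε < r := by
      intro f r hf h0
      exact ((hf.tendsto 0).eventually_lt_const h0).filter_mono nhdsWithin_le_nhds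
    have e1 := t1 (f := fun ε => ε) (r := δ) continuous_id hδ
    have e2 := t1 (f := fun ε => 2 * ε) (r := A) (by fun_prop) (by simpa using hA)
    have e3 := t1 (f := fun ε => 2 * ε) (r := B) (by fun_prop) (by simpa using hB)
    have e4 := t1 (f := fun ε => c ^ 2 * (2 * (M * ((p + q) * ε)) * B + 2 * (M * ((p + q) * ε)) * A)) (r := τ / 2)
      (by fun_prop) (by
        simp only [mul_zero, zero_mul, add_zero]
        positivity)
    have e5 := t1 (f := fun ε => N * (2 * ε * (A + B))) (r := τ) (by fun_prop) (by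
        simp only [mul_zero, zero_mul]
        exact hτ)
    filter_upwards [e1, e2, e3, e4, e5] with ε h1 h2 h3 h4 h5
    exact ⟨h1, h2, h3, h4, h5⟩
  obtain ⟨ε, ⟨hεδ, hεA, hεB, hεM, hεN⟩, hε⟩ := (hev.and self_mem_nhdsWithin).exists
  have hε0 : 0 < ε := hε
  have hpt : ∀ x y, pt A B ε x y ∈ Rect A B := pt_mem hε0 hεA hεB
  -- continuity of compositions
  have hmap : Continuous fun q : ℝ × ℝ × ℝ => ((pt A B ε q.1 q.2.1, q.2.2) : ℂ × ℝ) :=
    ((continuous_pt A B ε).comp (by fun_prop : Continuous fun q : ℝ × ℝ × ℝ => (q.1, q.2.1))).prodMk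
      (continuous_snd.comp continuous_snd)
  have c0 : Continuous fun q : ℝ × ℝ × ℝ => FF z (pt A B ε q.1 q.2.1, q.2.2) :=
    h.contDiffOn.continuousOn.comp_continuous hmap fun q => ⟨hpt _ _, mem_univ _⟩
  have c1 : ∀ v : ℂ × ℝ, Continuous fun q : ℝ × ℝ × ℝ => fderiv ℝ (FF z) (pt A B ε q.1 q.2.1, q.2.2) v := by
    intro v
    have h1 : Continuous fun q : ℝ × ℝ × ℝ => fderiv ℝ (FF z) (pt A B ε q.1 q.2.1, q.2.2) :=
      (cont1 hD h.contDiffOn).comp_continuous hmap fun q => ⟨hpt _ _, mem_univ _⟩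
    exact h1.clm_apply continuous_const
  have c2 : ∀ v w : ℂ × ℝ, Continuous fun q : ℝ × ℝ × ℝ =>
      fderiv ℝ (fderiv ℝ (FF z)) (pt A B ε q.1 q.2.1, q.2.2) v w := by
    intro v w
    have h1 : Continuous fun q : ℝ × ℝ × ℝ => fderiv ℝ (fderiv ℝ (FF z)) (pt A B ε q.1 q.2.1, q.2.2) :=
      (cont2 hD h.contDiffOn).comp_continuous hmap fun q => ⟨hpt _ _, mem_univ _⟩
    exact (h1.clm_apply continuous_const).clm_apply continuous_const
  have hφt : ∀ x y t : ℝ, HasDerivAt (fun s : ℝ => ((pt A B ε x y, s) : ℂ × ℝ)) ((0 : ℂ), (1 : ℝ)) t := fun x y t =>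
    (hasDerivAt_const t (pt A B ε x y)).prodMk (hasDerivAt_id t)
  refine ⟨fun t => di ε (A - ε) ε (B - ε) X Y fun x y => FF z (pt A B ε x y, t),
    fun t => di ε (A - ε) ε (B - ε) X Y fun x y => fderiv ℝ (FF z) (pt A B ε x y, t) (0, 1),
    fun t => di ε (A - ε) ε (B - ε) X Y fun x y => fderiv ℝ (fderiv ℝ (FF z)) (pt A B ε x y, t) (0, 1) (0, 1),
    ?_, ?_, ?_⟩
  · exact leibniz_di (continuous_sn A m) (continuous_sn B n) (K := fun x y t => FF z (pt A B ε x y, t))
      (K' := fun x y t => fderiv ℝ (FF z) (pt A B ε x y, t) (0, 1)) c0 (c1 _)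
      fun x y t => along1 hD h.contDiffOn (hpt x y) (hφt x y t)
  · exact leibniz_di (continuous_sn A m) (continuous_sn B n)
      (K := fun x y t => fderiv ℝ (FF z) (pt A B ε x y, t) (0, 1))
      (K' := fun x y t => fderiv ℝ (fderiv ℝ (FF z)) (pt A B ε x y, t) (0, 1) (0, 1)) (c1 _) (c2 _ _)
      fun x y t => along2 hD h.contDiffOn (hpt x y) (hφt x y t) _
  · intro t ht
    have htT : t ∈ Icc (-T) T := abs_le.1 ht
    have hεA' : ε ≤ A - ε := by linarith
    have hεB' : ε ≤ B - ε := by linarith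
    have slice : ∀ {K : ℝ → ℝ → ℝ → ℝ}, (Continuous fun q : ℝ × ℝ × ℝ => K q.1 q.2.1 q.2.2) →
        Continuous fun q : ℝ × ℝ => K q.1 q.2 t := fun hK =>
      hK.comp (by fun_prop : Continuous fun q : ℝ × ℝ => (q.1, q.2, t))
    constructor
    · have hdx : ∀ y, ∀ x ∈ Ioo ε (A - ε), HasDerivAt (fun x : ℝ => ((pt A B ε x y, t) : ℂ × ℝ)) ((1 : ℂ), (0 : ℝ)) x := by
        intro y x hx
        refine HasDerivAt.prodMk ?_ (hasDerivAt_const x t)
        have h1 : HasDerivAt (fun x : ℝ => (x : ℂ) + (cl ε (B - ε) y : ℂ) * Complex.I) 1 x :=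
          (Complex.ofRealCLM.hasDerivAt (x := x)).add_const _
        refine h1.congr_of_eventuallyEq ?_
        filter_upwards [Ioo_mem_nhds hx.1 hx.2] with s hs
        unfold pt
        rw [cl_of_mem ⟨hs.1.le, hs.2.le⟩]
      have hdy : ∀ x, ∀ y ∈ Ioo ε (B - ε), HasDerivAt (fun y : ℝ => ((pt A B ε x y, t) : ℂ × ℝ))
          ((Complex.I : ℂ), (0 : ℝ)) y := by
        intro x y hy
        refine HasDerivAt.prodMk ?_ (hasDerivAt_const y t)
        have h1 : HasDerivAt (fun y : ℝ => (cl ε (A - ε) x : ℂ) + (y : ℂ) * Complex.I) (1 * Complex.I) y :=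
          ((Complex.ofRealCLM.hasDerivAt (x := y)).mul_const Complex.I).const_add _
        rw [one_mul] at h1
        refine h1.congr_of_eventuallyEq ?_
        filter_upwards [Ioo_mem_nhds hy.1 hy.2] with s hs
        unfold pt
        rw [cl_of_mem (l := ε) (r := B - ε) ⟨hs.1.le, hs.2.le⟩]
      have hGb : ∀ x y, ‖G (pt A B ε x y) t‖ ≤ M := fun x y =>
        (hM₀ (pt A B ε x y, t) ⟨subset_closure (hpt x y), htT⟩).trans (le_max_left _ _)
      have hgx : ∀ x y, |fderiv ℝ (FF z) (pt A B ε x y, t) (1, 0)| ≤ M := by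
        intro x y
        rw [(grad1 hD h.contDiffOn (hpt x y) (h.gradient _ (hpt x y) t)).1]
        exact (Complex.abs_re_le_norm _).trans (hGb x y)
      have hgy : ∀ x y, |fderiv ℝ (FF z) (pt A B ε x y, t) (Complex.I, 0)| ≤ M := by
        intro x y
        rw [(grad1 hD h.contDiffOn (hpt x y) (h.gradient _ (hpt x y) t)).2]
        exact (Complex.abs_im_le_norm _).trans (hGb x y)
      -- values near the edges
      have hval : ∀ x y, FF z (pt A B ε x y, t) = zc A B z (cl ε (A - ε) x) (cl ε (B - ε) y) t := by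
        intro x y
        have h1 := cl_mem hεA' x
        have h2 := cl_mem hεB' y
        unfold zc FF
        rw [pt_eq (ε := 0) (x := cl ε (A - ε) x) (y := cl ε (B - ε) y) ⟨by linarith [h1.1], by linarith [h1.2]⟩
          ⟨by linarith [h2.1], by linarith [h2.2]⟩]
        rfl
      have hzero : ∀ x ∈ Icc 0 A, ∀ y ∈ Icc 0 B, (x = 0 ∨ x = A ∨ y = 0 ∨ y = B) → zc A B z x y t = 0 := by
        intro x hx y hy hor
        unfold zc
        refine h.clamped _ (pt_mem_closure hA hB le_rfl (by linarith) (by linarith) x y) ?_ t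
        simp only [Rect, mem_ofPred_eq, pt_re, pt_im]
        rw [sub_zero, sub_zero, cl_of_mem hx, cl_of_mem hy]
        rintro ⟨g1, g2, g3, g4⟩
        rcases hor with rfl | rfl | rfl | rfl
        · exact lt_irrefl _ g1
        · exact lt_irrefl _ g2
        · exact lt_irrefl _ g3
        · exact lt_irrefl _ g4
      have hnear : ∀ x ∈ Icc 0 A, ∀ y ∈ Icc 0 B, ∀ x' ∈ Icc 0 A, ∀ y' ∈ Icc 0 B,
          |x - x'| < δ → |y - y'| < δ → (x' = 0 ∨ x' = A ∨ y' = 0 ∨ y' = B) → |zc A B z x y t| ≤ η := by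
        intro x hx y hy x' hx' y' hy' g1 g2 hor
        have h1 := hδu (x, y, t) ⟨hx, hy, htT⟩ (x', y', t) ⟨hx', hy', htT⟩ (by
          rw [Prod.dist_eq, Prod.dist_eq]
          simp only [dist_self, Real.dist_eq]
          exact max_lt g1 (max_lt g2 hδ))
        simp only [Real.dist_eq] at h1
        rw [hzero x' hx' y' hy' hor, sub_zero] at h1
        exact h1.le
      have hεabs : |ε| < δ := by rwa [abs_of_pos hε0]
      have hηx : ∀ y, |FF z (pt A B ε ε y, t)| ≤ η ∧ |FF z (pt A B ε (A - ε) y, t)| ≤ η := by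
        intro y
        have h2 := cl_mem hεB' y
        have h2' : cl ε (B - ε) y ∈ Icc 0 B := ⟨by linarith [h2.1], by linarith [h2.2]⟩
        constructor
        · rw [hval, cl_of_mem ⟨le_rfl, hεA'⟩]
          exact hnear ε ⟨hε0.le, by linarith⟩ _ h2' 0 ⟨le_rfl, hA.le⟩ _ h2' (by rwa [sub_zero])
            (by rw [sub_self, abs_zero]; exact hδ) (Or.inl rfl)
        · rw [hval, cl_of_mem ⟨hεA', le_rfl⟩]
          refine hnear (A - ε) ⟨by linarith, by linarith⟩ _ h2' A ⟨hA.le, le_rfl⟩ _ h2' ?_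
            (by rw [sub_self, abs_zero]; exact hδ) (Or.inr (Or.inl rfl))
          rw [show A - ε - A = -ε by ring, abs_neg]
          exact hεabs
      have hηy : ∀ x, |FF z (pt A B ε x ε, t)| ≤ η ∧ |FF z (pt A B ε x (B - ε), t)| ≤ η := by
        intro x
        have h2 := cl_mem hεA' x
        have h2' : cl ε (A - ε) x ∈ Icc 0 A := ⟨by linarith [h2.1], by linarith [h2.2]⟩
        constructor
        · rw [hval, cl_of_mem (l := ε) (r := B - ε) ⟨le_rfl, hεB'⟩]
          exact hnear _ h2' ε ⟨hε0.le, by linarith⟩ _ h2' 0 ⟨le_rfl, hB.le⟩ (by rw [sub_self, abs_zero]; exact hδ)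
            (by rwa [sub_zero]) (Or.inr (Or.inr (Or.inl rfl)))
        · rw [hval, cl_of_mem (l := ε) (r := B - ε) ⟨hεB', le_rfl⟩]
          refine hnear _ h2' (B - ε) ⟨by linarith, by linarith⟩ _ h2' B ⟨hB.le, le_rfl⟩
            (by rw [sub_self, abs_zero]; exact hδ) ?_ (Or.inr (Or.inr (Or.inr rfl)))
          rw [show B - ε - B = -ε by ring, abs_neg]
          exact hεabs
      have hg := green (c := c) (p := p) (q := q) hεA' hεB' (hasDerivAt_sn A m) (hasDerivAt_csn A m)
        (hasDerivAt_sn B n) (hasDerivAt_csn B n) (abs_sn_le A m) (abs_sn_le B n) (abs_csn_le hA m) (abs_csn_le hB n)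
        (u := fun x y => FF z (pt A B ε x y, t))
        (ux := fun x y => fderiv ℝ (FF z) (pt A B ε x y, t) (1, 0))
        (uxx := fun x y => fderiv ℝ (fderiv ℝ (FF z)) (pt A B ε x y, t) (1, 0) (1, 0))
        (uy := fun x y => fderiv ℝ (FF z) (pt A B ε x y, t) (Complex.I, 0))
        (uyy := fun x y => fderiv ℝ (fderiv ℝ (FF z)) (pt A B ε x y, t) (Complex.I, 0) (Complex.I, 0))
        (utt := fun x y => fderiv ℝ (fderiv ℝ (FF z)) (pt A B ε x y, t) (0, 1) (0, 1))
        (slice (K := fun x y t => FF z (pt A B ε x y, t)) c0)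
        (slice (K := fun x y t => fderiv ℝ (FF z) (pt A B ε x y, t) (1, 0)) (c1 _))
        (slice (K := fun x y t => fderiv ℝ (fderiv ℝ (FF z)) (pt A B ε x y, t) (1, 0) (1, 0)) (c2 _ _))
        (slice (K := fun x y t => fderiv ℝ (FF z) (pt A B ε x y, t) (Complex.I, 0)) (c1 _))
        (slice (K := fun x y t => fderiv ℝ (fderiv ℝ (FF z)) (pt A B ε x y, t) (Complex.I, 0) (Complex.I, 0))
          (c2 _ _))
        (fun y x hx => along1 hD h.contDiffOn (hpt x y) (hdx y x hx))
        (fun y x hx => along2 hD h.contDiffOn (hpt x y) (hdx y x hx) _)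
        (fun x y hy => along1 hD h.contDiffOn (hpt x y) (hdy x y hy))
        (fun x y hy => along2 hD h.contDiffOn (hpt x y) (hdy x y hy) _)
        (fun x y => h.wave _ (hpt x y) t) hM0 hη0.le hgx hgy hηx hηy
        (ξ := (p + q) * ε)
        ⟨(abs_sn_left hA hε0.le m).trans (by
            have : 0 ≤ q * ε := by positivity
            have e : pm A m * ε = p * ε := rfl
            unfold pm at e
            linarith),
          (abs_sn_right hA hε0.le m).trans (by
            have : 0 ≤ q * ε := by positivity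
            have e : pm A m * ε = p * ε := rfl
            unfold pm at e
            linarith)⟩
        ⟨(abs_sn_left hB hε0.le n).trans (by
            have : 0 ≤ p * ε := by positivity
            have e : pm B n * ε = q * ε := rfl
            unfold pm at e
            linarith),
          (abs_sn_right hB hε0.le n).trans (by
            have : 0 ≤ p * ε := by positivity
            have e : pm B n * ε = q * ε := rfl
            unfold pm at e
            linarith)⟩
      rw [om_sq, ← hp, ← hq]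
      refine hg.trans ?_
      have hc2 : 0 < c ^ 2 := by positivity
      have s1 : 2 * (M * ((p + q) * ε) + η * p) * (B - ε - ε) ≤ 2 * (M * ((p + q) * ε) + η * p) * B :=
        mul_le_mul_of_nonneg_left (by linarith) (by positivity)
      have s2 : 2 * (M * ((p + q) * ε) + η * q) * (A - ε - ε) ≤ 2 * (M * ((p + q) * ε) + η * q) * A :=
        mul_le_mul_of_nonneg_left (by linarith) (by positivity)
      have s3 : c ^ 2 * (2 * p * B + 2 * q * A) * η ≤ τ / 2 := by
        rw [hη]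
        set P : ℝ := c ^ 2 * (2 * p * B + 2 * q * A) with hP
        have hP0 : 0 ≤ P := by positivity
        rw [mul_div_assoc', div_le_div_iff₀ (by positivity) (by norm_num)]
        nlinarith
      calc c ^ 2 * (2 * (M * ((p + q) * ε) + η * p) * (B - ε - ε) + 2 * (M * ((p + q) * ε) + η * q) * (A - ε - ε))
          ≤ c ^ 2 * (2 * (M * ((p + q) * ε) + η * p) * B + 2 * (M * ((p + q) * ε) + η * q) * A) := by
            gcongr
        _ = c ^ 2 * (2 * (M * ((p + q) * ε)) * B + 2 * (M * ((p + q) * ε)) * A) +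
            c ^ 2 * (2 * p * B + 2 * q * A) * η := by ring
        _ ≤ τ := by linarith
    · have h1 : di ε (A - ε) ε (B - ε) X Y (fun x y => FF z (pt A B ε x y, t)) =
          di ε (A - ε) ε (B - ε) X Y fun x y => zc A B z x y t := by
        refine di_congr hεA' hεB' fun x hx y hy => ?_
        unfold zc FF
        rw [pt_eq hx hy, pt_eq (ε := 0) (x := x) (y := y) ⟨by linarith [hx.1], by linarith [hx.2]⟩
          ⟨by linarith [hy.1], by linarith [hy.2]⟩]
      simp only
      rw [h1]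
      unfold bc
      refine (di_close hε0.le hεA.le hεB.le (continuous_sn A m) (continuous_sn B n) (abs_sn_le A m) (abs_sn_le B n)
        (slice hzc) hN0 fun x hx y hy => ?_).trans hεN.le
      have h2 := hN₀ (pt A B 0 x y, t) ⟨pt_mem_closure hA hB le_rfl (by linarith) (by linarith) x y, htT⟩
      exact h2.trans (le_max_left _ _)

end DrumF
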