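import Pool.Agent.Lib.MP_d92c84_an.Sol

/-!
# Finite sums of plane waves of one wave number
-/

set_option autoImplicit false

namespace DrumF

open Filter Topology Set
open scoped ComplexConjugate

/-- The derivatives (in `z` and `w`) of `∑ a_ζ exp (i κ (ζ z + conj ζ w))`. -/
noncomputable def U (κ : ℝ) (Z : Finset ℂ) (a : ℂ → ℂ) (p q : ℕ) (z w : ℂ) : ℂ :=
  ∑ ζ ∈ Z, a ζ * (Complex.I * κ * ζ) ^ p * (Complex.I * κ * conj ζ) ^ q *
    Complex.exp (Complex.I * κ * (ζ * z + conj ζ * w))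

theorem U_hasDerivAt_z (κ : ℝ) (Z : Finset ℂ) (a : ℂ → ℂ) (p q : ℕ) (z w : ℂ) :
    HasDerivAt (fun z => U κ Z a p q z w) (U κ Z a (p + 1) q z w) z := by
  unfold U
  refine HasDerivAt.fun_sum fun ζ _ => ?_
  have h1 : HasDerivAt (fun z : ℂ => Complex.I * κ * (ζ * z + conj ζ * w)) (Complex.I * κ * ζ) z := by
    have h2 : HasDerivAt (fun z : ℂ => ζ * z + conj ζ * w) ζ z := by
      simpa using ((hasDerivAt_id z).const_mul ζ).add_const (conj ζ * w)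
    exact h2.const_mul _
  have h3 := h1.cexp.const_mul (a ζ * (Complex.I * κ * ζ) ^ p * (Complex.I * κ * conj ζ) ^ q)
  refine h3.congr_deriv ?_
  ring

theorem U_hasDerivAt_w (κ : ℝ) (Z : Finset ℂ) (a : ℂ → ℂ) (p q : ℕ) (z w : ℂ) :
    HasDerivAt (fun w => U κ Z a p q z w) (U κ Z a p (q + 1) z w) w := by
  unfold U
  refine HasDerivAt.fun_sum fun ζ _ => ?_
  have h1 : HasDerivAt (fun w : ℂ => Complex.I * κ * (ζ * z + conj ζ * w)) (Complex.I * κ * conj ζ) w := by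
    have h2 : HasDerivAt (fun w : ℂ => ζ * z + conj ζ * w) (conj ζ) w := by
      simpa using ((hasDerivAt_id w).const_mul (conj ζ)).const_add (ζ * z)
    exact h2.const_mul _
  have h3 := h1.cexp.const_mul (a ζ * (Complex.I * κ * ζ) ^ p * (Complex.I * κ * conj ζ) ^ q)
  refine h3.congr_deriv ?_
  ring

theorem U_diff {κ : ℝ} {Z : Finset ℂ} {a : ℂ → ℂ} {p q : ℕ} {B : Set ℂ} {α V : ℂ → ℂ}
    (hα : DifferentiableOn ℂ α B) (hV : DifferentiableOn ℂ V B) :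
    DifferentiableOn ℂ (fun z => U κ Z a p q (α z) (V z)) B := by
  unfold U
  refine DifferentiableOn.fun_sum fun ζ _ => ?_
  refine DifferentiableOn.const_mul ?_ _
  refine DifferentiableOn.cexp ?_
  exact ((hα.const_mul ζ).add (hV.const_mul (conj ζ))).const_mul _

theorem U_eq {κ : ℝ} {Z : Finset ℂ} {a : ℂ → ℂ} (hZ : ∀ ζ ∈ Z, ‖ζ‖ = 1) (p q : ℕ) (z w : ℂ) :
    U κ Z a (p + 1) (q + 1) z w = -(κ : ℂ) ^ 2 * U κ Z a p q z w := by
  unfold U
  rw [Finset.mul_sum]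
  refine Finset.sum_congr rfl fun ζ hζ => ?_
  have h1 : ζ * conj ζ = 1 := by
    rw [Complex.mul_conj, Complex.normSq_eq_norm_sq, hZ ζ hζ]
    simp
  have h2 : (Complex.I * κ * ζ) ^ (p + 1) * (Complex.I * κ * conj ζ) ^ (q + 1) =
      -(κ : ℂ) ^ 2 * ((Complex.I * κ * ζ) ^ p * (Complex.I * κ * conj ζ) ^ q) := by
    have h3 : (Complex.I * κ * ζ) * (Complex.I * κ * conj ζ) = -(κ : ℂ) ^ 2 := by
      linear_combination (κ : ℂ) ^ 2 * ζ * conj ζ * Complex.I_sq - (κ : ℂ) ^ 2 * h1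
    rw [pow_succ, pow_succ]
    linear_combination ((Complex.I * κ * ζ) ^ p * (Complex.I * κ * conj ζ) ^ q) * h3
  rw [mul_assoc (a ζ), h2]
  ring

theorem norm_exp_plane {κ : ℝ} {ζ : ℂ} (z w : ℂ) :
    ‖Complex.exp (Complex.I * κ * (ζ * z + conj ζ * w))‖ = Real.exp (-(κ * (conj ζ * (w - conj z)).im)) := by
  rw [Complex.norm_exp]
  congr 1
  have h1 : Complex.I * κ * (ζ * z + conj ζ * w) =
      Complex.I * ((κ * (2 * (ζ * z).re) : ℝ) : ℂ) + Complex.I * κ * (conj ζ * (w - conj z)) := by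
    have h2 : ((2 * (ζ * z).re : ℝ) : ℂ) = ζ * z + conj ζ * conj z := by
      rw [← map_mul, Complex.add_conj]
    have h3 : ((κ * (2 * (ζ * z).re) : ℝ) : ℂ) = κ * (ζ * z + conj ζ * conj z) := by
      rw [← h2]
      push_cast
      ring
    rw [h3]
    ring
  rw [h1, Complex.add_re, Complex.I_mul_re, Complex.ofReal_im, neg_zero, zero_add, mul_assoc, Complex.I_mul_re,
    Complex.im_ofReal_mul]

theorem norm_exp_plane_le {κ : ℝ} (hκ : 0 < κ) {ζ : ℂ} (hζ : ‖ζ‖ = 1) (z w : ℂ) :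
    ‖Complex.exp (Complex.I * κ * (ζ * z + conj ζ * w))‖ ≤ Real.exp (κ * ‖w - conj z‖) := by
  rw [norm_exp_plane]
  apply Real.exp_le_exp.2
  have h1 : |(conj ζ * (w - conj z)).im| ≤ ‖w - conj z‖ := by
    refine (Complex.abs_im_le_norm _).trans ?_
    rw [norm_mul, Complex.norm_conj, hζ, one_mul]
  have h2 : -(conj ζ * (w - conj z)).im ≤ ‖w - conj z‖ := (neg_le_abs _).trans h1
  nlinarith

/-- The sum of the moduli of the coefficients. -/
noncomputable def As (Z : Finset ℂ) (a : ℂ → ℂ) : ℝ := ∑ ζ ∈ Z, ‖a ζ‖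

theorem As_nonneg (Z : Finset ℂ) (a : ℂ → ℂ) : 0 ≤ As Z a := Finset.sum_nonneg fun _ _ => norm_nonneg _

theorem norm_U_le {κ : ℝ} (hκ : 0 < κ) {Z : Finset ℂ} {a : ℂ → ℂ} (hZ : ∀ ζ ∈ Z, ‖ζ‖ = 1) (p q : ℕ) (z w : ℂ) :
    ‖U κ Z a p q z w‖ ≤ As Z a * κ ^ (p + q) * Real.exp (κ * ‖w - conj z‖) := by
  unfold U As
  rw [Finset.sum_mul, Finset.sum_mul]
  refine norm_sum_le_of_le _ fun ζ hζ => ?_
  have h1 := norm_exp_plane_le hκ (hZ ζ hζ) z w
  rw [norm_mul, norm_mul, norm_mul, norm_pow, norm_pow, norm_mul, norm_mul, norm_mul, norm_mul, Complex.norm_I,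
    Complex.norm_conj, hZ ζ hζ, Complex.norm_real, Real.norm_eq_abs, abs_of_pos hκ, one_mul, mul_one, pow_add]
  calc ‖a ζ‖ * κ ^ p * κ ^ q * ‖Complex.exp (Complex.I * κ * (ζ * z + conj ζ * w))‖
      ≤ ‖a ζ‖ * κ ^ p * κ ^ q * Real.exp (κ * ‖w - conj z‖) := by gcongr
    _ = _ := by ring

/-- The real wave. -/
noncomputable def PW (κ : ℝ) (Z : Finset ℂ) (a : ℂ → ℂ) (p q : ℕ) (x : ℂ) : ℂ := U κ Z a p q x (conj x)

theorem jet_PW (κ : ℝ) (Z : Finset ℂ) (a : ℂ → ℂ) : Jet (PW κ Z a) := by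
  intro p q x
  have h1 : ∀ ζ : ℂ, HasFDerivAt (fun y : ℂ => a ζ * (Complex.I * κ * ζ) ^ p * (Complex.I * κ * conj ζ) ^ q *
      Complex.exp (Complex.I * κ * (ζ * y + conj ζ * conj y)))
      (LL (a ζ * (Complex.I * κ * ζ) ^ (p + 1) * (Complex.I * κ * conj ζ) ^ q *
        Complex.exp (Complex.I * κ * (ζ * x + conj ζ * conj x)))
        (a ζ * (Complex.I * κ * ζ) ^ p * (Complex.I * κ * conj ζ) ^ (q + 1) *
        Complex.exp (Complex.I * κ * (ζ * x + conj ζ * conj x)))) x := by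
    intro ζ
    have h2 : HasFDerivAt (fun y : ℂ => Complex.I * κ * (ζ * y + conj ζ * conj y))
        (LL (Complex.I * κ * ζ) (Complex.I * κ * conj ζ)) x := by
      have h3 : HasFDerivAt (fun y : ℂ => ζ * y + conj ζ * conj y)
          (ζ • ContinuousLinearMap.id ℝ ℂ + conj ζ • (Complex.conjCLE : ℂ →L[ℝ] ℂ)) x :=
        ((hasFDerivAt_id x).const_mul ζ).add
          (((Complex.conjCLE : ℂ →L[ℝ] ℂ).hasFDerivAt (x := x)).const_mul (conj ζ))
      have h4 := h3.const_mul (Complex.I * κ)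
      have h5 : (Complex.I * (κ : ℂ)) • (ζ • ContinuousLinearMap.id ℝ ℂ +
          conj ζ • (Complex.conjCLE : ℂ →L[ℝ] ℂ)) = LL (Complex.I * κ * ζ) (Complex.I * κ * conj ζ) := by
        ext h
        simp [LL]
        ring
      rw [← h5]
      exact h4
    have h6 := (h2.cexp).const_mul (a ζ * (Complex.I * κ * ζ) ^ p * (Complex.I * κ * conj ζ) ^ q)
    have h7 : (a ζ * (Complex.I * κ * ζ) ^ p * (Complex.I * κ * conj ζ) ^ q) •
        (Complex.exp (Complex.I * κ * (ζ * x + conj ζ * conj x)) •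
          LL (Complex.I * κ * ζ) (Complex.I * κ * conj ζ)) =
        (LL (a ζ * (Complex.I * κ * ζ) ^ (p + 1) * (Complex.I * κ * conj ζ) ^ q *
        Complex.exp (Complex.I * κ * (ζ * x + conj ζ * conj x)))
        (a ζ * (Complex.I * κ * ζ) ^ p * (Complex.I * κ * conj ζ) ^ (q + 1) *
        Complex.exp (Complex.I * κ * (ζ * x + conj ζ * conj x)))) := by
      ext h
      simp only [smul_apply, LL_apply, smul_eq_mul]
      ring
    rw [← h7]
    exact h6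
  have h8 := HasFDerivAt.fun_sum (u := Z) fun ζ _ => h1 ζ
  have h9 : LL (PW κ Z a (p + 1) q x) (PW κ Z a p (q + 1) x) = ∑ ζ ∈ Z,
      (LL (a ζ * (Complex.I * κ * ζ) ^ (p + 1) * (Complex.I * κ * conj ζ) ^ q *
        Complex.exp (Complex.I * κ * (ζ * x + conj ζ * conj x)))
        (a ζ * (Complex.I * κ * ζ) ^ p * (Complex.I * κ * conj ζ) ^ (q + 1) *
        Complex.exp (Complex.I * κ * (ζ * x + conj ζ * conj x)))) := by
    ext h
    rw [LL_apply, _root_.sum_apply]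
    unfold PW U
    rw [Finset.sum_mul, Finset.sum_mul, ← Finset.sum_add_distrib]
    refine Finset.sum_congr rfl fun ζ _ => ?_
    rw [LL_apply]
  rw [h9]
  exact h8

theorem real_PW {κ : ℝ} {Z : Finset ℂ} {a : ℂ → ℂ} (hs : ∀ ζ ∈ Z, -ζ ∈ Z) (ha : ∀ ζ ∈ Z, a (-ζ) = conj (a ζ))
    (p q : ℕ) (x : ℂ) : conj (PW κ Z a p q x) = PW κ Z a q p x := by
  unfold PW U
  rw [map_sum]
  refine Finset.sum_bij (fun ζ _ => -ζ) (fun ζ hζ => hs ζ hζ) (fun ζ _ ξ _ h => neg_injective h)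
    (fun ζ hζ => ⟨-ζ, hs ζ hζ, neg_neg ζ⟩) fun ζ hζ => ?_
  rw [ha ζ hζ, map_mul, map_mul, map_mul, map_pow, map_pow, ← Complex.exp_conj]
  simp only [map_mul, map_add, Complex.conj_I, Complex.conj_ofReal, Complex.conj_conj, map_neg]
  have e1 : -Complex.I * (κ : ℂ) * conj ζ = Complex.I * κ * -conj ζ := by ring
  have e2 : -Complex.I * (κ : ℂ) * ζ = Complex.I * κ * -ζ := by ring
  have e3 : -Complex.I * (κ : ℂ) * (conj ζ * conj x + ζ * x) = Complex.I * κ * (-ζ * x + -conj ζ * conj x) := by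
    ring
  rw [e1, e2, e3]
  ring

theorem helm_PW {κ : ℝ} {Z : Finset ℂ} {a : ℂ → ℂ} (hZ : ∀ ζ ∈ Z, ‖ζ‖ = 1) (hs : ∀ ζ ∈ Z, -ζ ∈ Z)
    (ha : ∀ ζ ∈ Z, a (-ζ) = conj (a ζ)) : Helm κ (PW κ Z a) :=
  ⟨jet_PW κ Z a, real_PW hs ha, fun p q x => U_eq hZ p q x (conj x)⟩

theorem analytic_PW (κ : ℝ) (Z : Finset ℂ) (a : ℂ → ℂ) (x : ℂ) : AnalyticAt ℝ (PW κ Z a 0 0) x := by
  unfold PW U
  refine Finset.analyticAt_fun_sum _ fun ζ _ => ?_
  refine analyticAt_const.mul ?_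
  have h1 : AnalyticAt ℝ (fun y : ℂ => Complex.I * κ * (ζ * y + conj ζ * conj y)) x :=
    analyticAt_const.mul ((analyticAt_const.mul analyticAt_id).add
      (analyticAt_const.mul ((Complex.conjCLE : ℂ →L[ℝ] ℂ).analyticAt x)))
  have h2 : AnalyticAt ℝ Complex.exp (Complex.I * κ * (ζ * x + conj ζ * conj x)) :=
    (Complex.differentiable_exp.analyticAt _).restrictScalars
  exact AnalyticAt.fun_comp h2 h1

end DrumF
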