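import Pool.Agent.Lib.MP_d92c84_an.Rpw

/-!
# No drum solution on a rectangle has a closed critical curve
-/

set_option autoImplicit false

namespace DrumF

open Filter Topology Set MeasureTheory
open scoped ComplexConjugate

theorem om_mono {c A B : ℝ} (hc : 0 < c) (hA : 0 < A) (hB : 0 < B) (m n : ℕ) : om c A B 0 0 ≤ om c A B m n := by
  unfold om
  have hpi := Real.pi_pos
  have h1 : pm A 0 ≤ pm A m := by
    unfold pm
    push_cast
    gcongr
    simp
  have h2 : pm B 0 ≤ pm B n := by
    unfold pm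
    push_cast
    gcongr
    simp
  have h3 := pm_pos hA 0
  have h4 := pm_pos hB 0
  gcongr

/-- Summability of the smoothed coefficients. -/
theorem summable_om {c A B : ℝ} (hc : 0 < c) (hA : 0 < A) (hB : 0 < B) :
    Summable fun q : ℕ × ℕ => (1 + om c A B q.1 q.2 / c) / om c A B q.1 q.2 ^ 5 := by
  have hpi := Real.pi_pos
  set w₀ := om c A B 0 0 with hw₀
  have hw₀0 : 0 < w₀ := om_pos hc hA 0 0
  set κ : ℝ := c ^ 2 * Real.pi ^ 2 / (A * B) with hκ
  have hκ0 : 0 < κ := by positivity
  have hbase : Summable fun q : ℕ × ℕ => (1 / (((q.1 : ℝ) + 1) ^ 2)) * (1 / (((q.2 : ℝ) + 1) ^ 2)) := by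
    have h1 : Summable fun m : ℕ => 1 / (((m : ℝ) + 1) ^ 2) := by
      have h2 := (summable_nat_add_iff (f := fun n : ℕ => 1 / ((n : ℝ) ^ 2)) 1).2
        (Real.summable_one_div_nat_pow.2 (by norm_num))
      refine h2.congr fun m => ?_
      push_cast
      rfl
    exact h1.mul_of_nonneg h1 (fun m => by simp only [Pi.zero_apply]; positivity)
      (fun m => by simp only [Pi.zero_apply]; positivity)
  refine Summable.of_nonneg_of_le (fun q => ?_) (fun q => ?_) (hbase.mul_left ((1 / w₀ + 1 / c) / κ ^ 2))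
  · have := om_pos (B := B) hc hA q.1 q.2
    positivity
  · obtain ⟨m, n⟩ := q
    simp only
    set w := om c A B m n with hw
    have hw0 : 0 < w := om_pos hc hA m n
    have hww : w₀ ≤ w := om_mono hc hA hB m n
    have hsq : κ * (((m : ℝ) + 1) * ((n : ℝ) + 1)) ≤ w ^ 2 := by
      rw [hw, om_sq, hκ]
      unfold pm
      have h1 : c ^ 2 * Real.pi ^ 2 / (A * B) * (((m : ℝ) + 1) * ((n : ℝ) + 1)) =
          c ^ 2 * ((((m : ℝ) + 1) * Real.pi / A) * (((n : ℝ) + 1) * Real.pi / B)) := by
        field_simp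
      rw [h1]
      have h2 := sq_nonneg ((((m : ℝ) + 1) * Real.pi / A) - (((n : ℝ) + 1) * Real.pi / B))
      have h3 : 0 ≤ (((m : ℝ) + 1) * Real.pi / A) * (((n : ℝ) + 1) * Real.pi / B) := by positivity
      apply mul_le_mul_of_nonneg_left _ (sq_nonneg c)
      nlinarith
    have hfour : κ ^ 2 * (((m : ℝ) + 1) ^ 2 * ((n : ℝ) + 1) ^ 2) ≤ w ^ 4 := by
      calc κ ^ 2 * (((m : ℝ) + 1) ^ 2 * ((n : ℝ) + 1) ^ 2) = (κ * (((m : ℝ) + 1) * ((n : ℝ) + 1))) ^ 2 := by ring
        _ ≤ (w ^ 2) ^ 2 := by gcongr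
        _ = w ^ 4 := by ring
    have e1 : (1 + w / c) / w ^ 5 = (1 / w + 1 / c) / w ^ 4 := by
      field_simp
    rw [e1]
    calc (1 / w + 1 / c) / w ^ 4 ≤ (1 / w₀ + 1 / c) / (κ ^ 2 * (((m : ℝ) + 1) ^ 2 * ((n : ℝ) + 1) ^ 2)) := by
          gcongr
      _ = _ := by
          field_simp

/-- Main theorem on rectangles. -/
theorem Drum.zero_of_crit {c A B : ℝ} (hc : 0 < c) (hA : 0 < A) (hB : 0 < B) {z : ℂ → ℝ → ℝ} {G : ℂ → ℝ → ℂ}
    (hz : Drum c A B z G) {g : Circle → ℂ} (hg : Continuous g) (hinj : Function.Injective g)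
    (hgD : ∀ s, g s ∈ closure (Rect A B)) (hcrit : ∀ s t, G (g s) t = 0) :
    ∀ x ∈ closure (Rect A B), ∀ t, z x t = 0 := by
  have hpi := Real.pi_pos
  have hP : Pre A B z G := ⟨hz.continuousOn, hz.gradient, hz.continuousOn_gradient, hz.clamped⟩
  -- all sine coefficients vanish
  have hbc : ∀ m n t, bc A B z m n t = 0 := by
    intro m n t
    set w₁ := om c A B m n with hw₁
    have hw₁0 : 0 < w₁ := om_pos hc hA m n
    set h : ℝ := Real.pi / (2 * w₁) with hh
    have hh0 : 0 < h := by positivity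
    set W := it h z 5 with hW
    set GW := it h G 5 with hGW
    have hPW : Pre A B W GW := hP.it hA hB h 5
    -- bound for the coefficients
    set w₀ := om c A B 0 0 with hw₀
    have hw₀0 : 0 < w₀ := om_pos hc hA 0 0
    set T₀ : ℝ := Real.pi / (2 * w₀) with hT₀
    obtain ⟨N₀, hN₀⟩ := ((isCompact_rect hA hB).prod (isCompact_Icc (a := -T₀) (b := T₀))
      ).exists_bound_of_continuousOn (hz.continuousOn.mono (prod_mono Subset.rfl (subset_univ _)))
    set N : ℝ := max N₀ 0 with hN
    have hN0 : 0 ≤ N := le_max_right _ _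
    have hbd : ∀ m n t, |t| ≤ Real.pi / (2 * om c A B m n) → |bc A B z m n t| ≤ N * B * A := by
      intro m n t ht
      have h1 : |t| ≤ T₀ := by
        refine ht.trans ?_
        rw [hT₀]
        have := om_mono hc hA hB m n
        gcongr
      unfold bc
      have h2 := di_bound (abs_sn_le A m) (abs_sn_le B n) hN0 (a₁ := 0) (a₂ := A) (b₁ := 0) (b₂ := B)
        (K := fun x y => zc A B z x y t) (by rw [sub_zero, abs_of_pos hB]) (fun x _ y _ => by
          have h3 := hN₀ (pt A B 0 x y, t) ⟨pt_mem_closure hA hB le_rfl (by linarith) (by linarith) x y, abs_le.1 h1⟩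
          exact h3.trans (le_max_left _ _))
      rwa [sub_zero, abs_of_pos hA] at h2
    set C : ℕ × ℕ → ℂ := fun q => ⟨4 / (A * B) * (snc (om c A B q.1 q.2 * h) ^ 5 * bc A B z q.1 q.2 0),
      4 / (A * B) * (snc (om c A B q.1 q.2 * h) ^ 5 * ((bc A B z q.1 q.2 (Real.pi / (2 * om c A B q.1 q.2)) -
        bc A B z q.1 q.2 (-(Real.pi / (2 * om c A B q.1 q.2)))) / 2))⟩ with hC
    have hCre : ∀ m n, (C (m, n)).re = 4 / (A * B) * (snc (om c A B m n * h) ^ 5 * bc A B z m n 0) := fun m n => rfl
    have hCim : ∀ m n, (C (m, n)).im = 4 / (A * B) * (snc (om c A B m n * h) ^ 5 *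
        ((bc A B z m n (Real.pi / (2 * om c A B m n)) - bc A B z m n (-(Real.pi / (2 * om c A B m n)))) / 2)) :=
      fun m n => rfl
    have hco : ∀ m n t, 4 / (A * B) * bc A B W m n t =
        (C (m, n)).re * Real.cos (om c A B m n * t) + (C (m, n)).im * Real.sin (om c A B m n * t) := by
      intro m n t
      have h1 := hz.cosEq hc hA hB m n
      rw [hCre, hCim, hW, bc_it hA hB hc hh0 hP h1 5 t, h1.eq (om_pos hc hA m n) t]
      ring
    have hCn : ∀ q : ℕ × ℕ, ‖C q‖ ≤ (8 * N / h ^ 5) * (1 / om c A B q.1 q.2 ^ 5) := by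
      rintro ⟨m, n⟩
      have hw := om_pos (B := B) hc hA m n
      have hs : |snc (om c A B m n * h) ^ 5| ≤ 1 / (om c A B m n ^ 5 * h ^ 5) := by
        rw [abs_pow]
        have h1 := abs_snc_le (x := om c A B m n * h) (by positivity)
        calc |snc (om c A B m n * h)| ^ 5 ≤ (1 / (om c A B m n * h)) ^ 5 := by gcongr
          _ = _ := by
            rw [div_pow, one_pow, mul_pow]
      have hp : 0 ≤ Real.pi / (2 * om c A B m n) := by positivity
      have b0 := hbd m n 0 (by rw [abs_zero]; exact hp)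
      have b1 := hbd m n (Real.pi / (2 * om c A B m n)) (abs_of_nonneg hp).le
      have b2 := hbd m n (-(Real.pi / (2 * om c A B m n))) (by rw [abs_neg]; exact (abs_of_nonneg hp).le)
      have hAB : (0 : ℝ) < A * B := by positivity
      have r1 : |(C (m, n)).re| ≤ 4 * N / h ^ 5 * (1 / om c A B m n ^ 5) := by
        rw [hCre, abs_mul, abs_mul, abs_of_pos (by positivity : 0 < 4 / (A * B))]
        calc 4 / (A * B) * (|snc (om c A B m n * h) ^ 5| * |bc A B z m n 0|)
            ≤ 4 / (A * B) * (1 / (om c A B m n ^ 5 * h ^ 5) * (N * B * A)) := by gcongr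
          _ = _ := by
            field_simp
      have r2 : |(C (m, n)).im| ≤ 4 * N / h ^ 5 * (1 / om c A B m n ^ 5) := by
        rw [hCim, abs_mul, abs_mul, abs_of_pos (by positivity : 0 < 4 / (A * B)), abs_div, abs_two]
        have b3 := (abs_sub (bc A B z m n (Real.pi / (2 * om c A B m n)))
          (bc A B z m n (-(Real.pi / (2 * om c A B m n))))).trans (add_le_add b1 b2)
        calc 4 / (A * B) * (|snc (om c A B m n * h) ^ 5| * (|bc A B z m n (Real.pi / (2 * om c A B m n)) -
              bc A B z m n (-(Real.pi / (2 * om c A B m n)))| / 2))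
            ≤ 4 / (A * B) * (1 / (om c A B m n ^ 5 * h ^ 5) * ((N * B * A + N * B * A) / 2)) := by gcongr
          _ = _ := by
            field_simp
            ring
      refine (Complex.norm_le_abs_re_add_abs_im _).trans ((add_le_add r1 r2).trans (le_of_eq ?_))
      ring
    have hsum : Summable fun q : ℕ × ℕ => ‖C q‖ * (1 + om c A B q.1 q.2 / c) := by
      refine Summable.of_nonneg_of_le (fun q => ?_) (fun q => ?_) ((summable_om hc hA hB).mul_left (8 * N / h ^ 5))
      · have := om_pos (B := B) hc hA q.1 q.2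
        positivity
      · have hw := om_pos (B := B) hc hA q.1 q.2
        have h1 := hCn q
        calc ‖C q‖ * (1 + om c A B q.1 q.2 / c) ≤ (8 * N / h ^ 5) * (1 / om c A B q.1 q.2 ^ 5) *
              (1 + om c A B q.1 q.2 / c) := by gcongr
          _ = _ := by ring
    have hrep : ∀ x ∈ closure (Rect A B), ∀ t : ℝ, W x t = ∑' j, (pw c (bb C) (kk A B) t j x).re :=
      fun x hx t => hPW.rep hc hA hB hco hsum hx t
    have hcl := sup_closure (isOpen_rect A B) (summable_bb hc hsum) hPW.cz hPW.gr hPW.cG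
      fun x hx t => hrep x (subset_closure hx) t
    obtain ⟨-, hzero⟩ := planes_zero (b := bb C) hc (kk_ne hA) (summable_bb hc hsum) (kk_fin hA hB) hg hinj
      (fun s t => by
        have h2 := (hcl (g s) (hgD s) t).2
        rw [hGW, it_zero (fun t => hcrit s t) 5 t] at h2
        exact neg_eq_zero.1 h2.symm)
    have hW0 : ∀ x ∈ closure (Rect A B), ∀ t, W x t = 0 := by
      intro x hx t
      rw [(hcl x hx t).1]
      have h1 : (∑' j, pw c (bb C) (kk A B) t j x).re = ∑' j, (pw c (bb C) (kk A B) t j x).re :=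
        Complex.re_tsum (Summable.of_norm_bounded (summable_b (summable_bb hc hsum)) fun j => (norm_pw t j x).le)
      rw [← h1]
      have h2 : ∑' j, pw c (bb C) (kk A B) t j x = 0 := hzero x t
      rw [h2, Complex.zero_re]
    have hbW : bc A B W m n t = 0 := by
      unfold bc
      have h1 : ∀ x y, zc A B W x y t = 0 := fun x y =>
        hW0 _ (pt_mem_closure hA hB le_rfl (by linarith) (by linarith) x y) t
      unfold di
      simp [h1]
    rw [hW, bc_it hA hB hc hh0 hP (hz.cosEq hc hA hB m n) 5 t] at hbW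
    have hs : snc (w₁ * h) ≠ 0 := by
      have h1 : w₁ * h = Real.pi / 2 := by
        rw [hh]
        field_simp
      unfold snc
      rw [h1, Real.sin_pi_div_two]
      positivity
    exact (mul_eq_zero.1 hbW).resolve_left (pow_ne_zero 5 hs)
  -- hence `z = 0`
  intro x hx t
  have hco : ∀ m n t, 4 / (A * B) * bc A B z m n t =
      ((fun _ : ℕ × ℕ => (0 : ℂ)) (m, n)).re * Real.cos (om c A B m n * t) +
        ((fun _ : ℕ × ℕ => (0 : ℂ)) (m, n)).im * Real.sin (om c A B m n * t) := by
    intro m n t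
    rw [hbc]
    simp
  have h1 := hP.rep hc hA hB (C := fun _ => 0) hco (by simp) hx t
  rw [h1]
  have h2 : ∀ j, (pw c (bb fun _ => 0) (kk A B) t j x).re = 0 := by
    intro j
    unfold pw bb
    simp
  rw [tsum_congr h2, tsum_zero]

end DrumF
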