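import Pool.Agent.Lib.MP_d92c84_an.Sin

/-!
# Double sine series on a rectangle
-/

set_option autoImplicit false

namespace DrumF

open Filter Topology Set MeasureTheory

/-- The double sine coefficient (not normalised). -/
noncomputable def dc (A B : ℝ) (f : ℝ → ℝ → ℝ) (m n : ℕ) : ℝ :=
  ∫ x in (0 : ℝ)..A, (∫ y in (0 : ℝ)..B, f x y * sn B n y) * sn A m x

theorem continuous_inner {B : ℝ} {f : ℝ → ℝ → ℝ} (hf : Continuous fun q : ℝ × ℝ => f q.1 q.2) (n : ℕ) :
    Continuous fun x => ∫ y in (0 : ℝ)..B, f x y * sn B n y := by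
  refine intervalIntegral.continuous_parametric_intervalIntegral_of_continuous' ?_ 0 B
  exact hf.mul ((continuous_sn B n).comp continuous_snd)

/-- Double sine series. -/
theorem rect_rep {A B : ℝ} (hA : 0 < A) (hB : 0 < B) {f : ℝ → ℝ → ℝ} (hf : Continuous fun q : ℝ × ℝ => f q.1 q.2)
    (h1 : ∀ y ∈ Icc 0 B, f 0 y = 0 ∧ f A y = 0) (h2 : ∀ x ∈ Icc 0 A, f x 0 = 0 ∧ f x B = 0)
    {s : ℕ → ℕ → ℝ} (hs : ∀ m n, s m n = 4 / (A * B) * dc A B f m n)
    (hsum : Summable fun q : ℕ × ℕ => |s q.1 q.2|) {x y : ℝ} (hx : x ∈ Icc 0 A) (hy : y ∈ Icc 0 B) :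
    HasSum (fun q : ℕ × ℕ => s q.1 q.2 * (sn A q.1 x * sn B q.2 y)) (f x y) := by
  have hcol : ∀ n, Summable fun m => |s m n| := fun n => by
    have h3 : Function.Injective fun m : ℕ => (m, n) := fun a b h => (Prod.mk.inj h).1
    exact hsum.comp_injective h3
  -- inner coefficients
  have hin : ∀ n, HasSum (fun m => s m n * sn A m x) (2 / B * ∫ y in (0 : ℝ)..B, f x y * sn B n y) := by
    intro n
    have hend : ∀ x₀ : ℝ, (∀ y ∈ Icc 0 B, f x₀ y = 0) → 2 / B * ∫ y in (0 : ℝ)..B, f x₀ y * sn B n y = 0 := by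
      intro x₀ hx₀
      rw [intervalIntegral.integral_congr (g := fun _ => (0 : ℝ)) fun y hy => by
        rw [uIcc_of_le hB.le] at hy
        simp only
        rw [hx₀ y hy, zero_mul]]
      simp
    refine sine_rep hA (f := fun x => 2 / B * ∫ y in (0 : ℝ)..B, f x y * sn B n y)
      (continuous_const.mul (continuous_inner hf n)).continuousOn (hend 0 fun y hy => (h1 y hy).1)
      (hend A fun y hy => (h1 y hy).2) (fun m => ?_) (hcol n) hx
    rw [hs m n]
    unfold dc
    rw [← intervalIntegral.integral_const_mul, ← intervalIntegral.integral_const_mul]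
    refine intervalIntegral.integral_congr fun u _ => ?_
    field_simp
    ring
  -- outer series
  have hbd : Summable fun n => |2 / B * ∫ y in (0 : ℝ)..B, f x y * sn B n y| := by
    have h3 : Summable fun q : ℕ × ℕ => |s q.2 q.1| := by
      have h4 := (Equiv.prodComm ℕ ℕ).summable_iff.2 hsum
      exact h4
    have h4 := h3.prod
    refine Summable.of_nonneg_of_le (fun n => abs_nonneg _) (fun n => ?_) h4
    rw [← (hin n).tsum_eq]
    have h5 : Summable fun m => ‖s m n * sn A m x‖ := by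
      refine Summable.of_nonneg_of_le (fun m => norm_nonneg _) (fun m => ?_) (hcol n)
      rw [norm_mul, Real.norm_eq_abs, Real.norm_eq_abs]
      calc |s m n| * |sn A m x| ≤ |s m n| * 1 := by
            have := abs_sn_le A m x
            gcongr
        _ = _ := mul_one _
    have h6 := norm_tsum_le_tsum_norm h5
    rw [Real.norm_eq_abs] at h6
    refine h6.trans (h5.tsum_le_tsum (fun m => ?_) (hcol n))
    rw [norm_mul, Real.norm_eq_abs, Real.norm_eq_abs]
    calc |s m n| * |sn A m x| ≤ |s m n| * 1 := by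
          have := abs_sn_le A m x
          gcongr
      _ = _ := mul_one _
  have hout : HasSum (fun n => (2 / B * ∫ y in (0 : ℝ)..B, f x y * sn B n y) * sn B n y) (f x y) :=
    sine_rep hB (f := fun y => f x y) (hf.comp (by fun_prop : Continuous fun y : ℝ => (x, y))).continuousOn
      (h2 x hx).1 (h2 x hx).2 (fun n => rfl) hbd hy
  have hall : Summable fun q : ℕ × ℕ => s q.1 q.2 * (sn A q.1 x * sn B q.2 y) := by
    refine Summable.of_norm_bounded hsum fun q => ?_
    rw [norm_mul, norm_mul, Real.norm_eq_abs, Real.norm_eq_abs, Real.norm_eq_abs]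
    have g1 := abs_sn_le A q.1 x
    have g2 := abs_sn_le B q.2 y
    calc |s q.1 q.2| * (|sn A q.1 x| * |sn B q.2 y|) ≤ |s q.1 q.2| * (1 * 1) := by gcongr
      _ = _ := by ring
  have hval : ∑' q : ℕ × ℕ, s q.1 q.2 * (sn A q.1 x * sn B q.2 y) = f x y := by
    rw [← hout.tsum_eq]
    have h3 : ∑' q : ℕ × ℕ, s q.1 q.2 * (sn A q.1 x * sn B q.2 y) =
        ∑' q : ℕ × ℕ, s q.2 q.1 * (sn A q.2 x * sn B q.1 y) :=
      ((Equiv.prodComm ℕ ℕ).tsum_eq fun q : ℕ × ℕ => s q.1 q.2 * (sn A q.1 x * sn B q.2 y)).symm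
    have h4 : Summable fun q : ℕ × ℕ => s q.2 q.1 * (sn A q.2 x * sn B q.1 y) :=
      (Equiv.prodComm ℕ ℕ).summable_iff.2 hall
    rw [h3, h4.tsum_prod]
    refine tsum_congr fun n => ?_
    rw [← (hin n).tsum_eq, ← tsum_mul_right]
    refine tsum_congr fun m => ?_
    ring
  rw [← hval]
  exact hall.hasSum

end DrumF
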