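import Pool.Agent.Lib.MP_d92c84_an.Rct

/-!
# Rectangles in arbitrary position
-/

set_option autoImplicit false

namespace DrumF

open Filter Topology Set MeasureTheory
open scoped ComplexConjugate

/-- The rotation by `e`, in space only. -/
noncomputable def rotL (e : ℂ) : ℂ × ℝ →L[ℝ] ℂ × ℝ :=
  ((ContinuousLinearMap.mul ℝ ℂ e).comp (ContinuousLinearMap.fst ℝ ℂ ℝ)).prod (ContinuousLinearMap.snd ℝ ℂ ℝ)

theorem rotL_apply (e : ℂ) (v : ℂ × ℝ) : rotL e v = (e * v.1, v.2) := by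
  simp [rotL]

/-- The affine map. -/
def rotT (p e : ℂ) (q : ℂ × ℝ) : ℂ × ℝ := (p + e * q.1, q.2)

theorem hasFDerivAt_rotT (p e : ℂ) (q : ℂ × ℝ) : HasFDerivAt (rotT p e) (rotL e) q := by
  have h1 : HasFDerivAt (fun q : ℂ × ℝ => rotL e q) (rotL e) q := (rotL e).hasFDerivAt
  have h2 : HasFDerivAt (fun q : ℂ × ℝ => ((p, (0 : ℝ)) : ℂ × ℝ) + rotL e q) (rotL e) q := h1.const_add _
  have h3 : rotT p e = fun q : ℂ × ℝ => ((p, (0 : ℝ)) : ℂ × ℝ) + rotL e q := by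
    funext q
    rw [rotL_apply]
    simp [rotT]
  rw [h3]
  exact h2

theorem contDiff_rotT (p e : ℂ) : ContDiff ℝ 2 (rotT p e) := by
  unfold rotT
  fun_prop

theorem rot_fderiv {D : Set ℂ} (hD : IsOpen D) {z : ℂ → ℝ → ℝ} (h : ContDiffOn ℝ 2 (FF z) (D ×ˢ univ)) (p e : ℂ)
    {q : ℂ × ℝ} (hq : p + e * q.1 ∈ D) :
    fderiv ℝ (FF fun x t => z (p + e * x) t) q = (fderiv ℝ (FF z) (rotT p e q)).comp (rotL e) := by
  have h1 := (hasF1 hD h (q := rotT p e q) hq).comp q (hasFDerivAt_rotT p e q)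
  exact h1.fderiv

theorem rot_fderiv2 {D : Set ℂ} (hD : IsOpen D) {z : ℂ → ℝ → ℝ} (h : ContDiffOn ℝ 2 (FF z) (D ×ˢ univ)) (p e : ℂ)
    {q : ℂ × ℝ} (hq : p + e * q.1 ∈ D) (v w : ℂ × ℝ) :
    fderiv ℝ (fderiv ℝ (FF fun x t => z (p + e * x) t)) q v w =
      fderiv ℝ (fderiv ℝ (FF z)) (rotT p e q) (rotL e v) (rotL e w) := by
  have h0 : {q : ℂ × ℝ | p + e * q.1 ∈ D} ∈ 𝓝 q := by
    have : IsOpen {q : ℂ × ℝ | p + e * q.1 ∈ D} := hD.preimage (by fun_prop)
    exact this.mem_nhds hq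
  have h2 : fderiv ℝ (FF fun x t => z (p + e * x) t) =ᶠ[𝓝 q]
      fun q => (fderiv ℝ (FF z) (rotT p e q)).comp (rotL e) := by
    filter_upwards [h0] with y hy
    exact rot_fderiv hD h p e hy
  have h4 := (hasF2 hD h (q := rotT p e q) hq).comp q (hasFDerivAt_rotT p e q)
  have h5 := (((ContinuousLinearMap.compL ℝ (ℂ × ℝ) (ℂ × ℝ) ℝ).flip (rotL e)).hasFDerivAt
    (x := fderiv ℝ (FF z) (rotT p e q))).comp q h4
  have h6 : fderiv ℝ (fderiv ℝ (FF fun x t => z (p + e * x) t)) q =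
      ((ContinuousLinearMap.compL ℝ (ℂ × ℝ) (ℂ × ℝ) ℝ).flip (rotL e)).comp
        ((fderiv ℝ (fderiv ℝ (FF z)) (rotT p e q)).comp (rotL e)) := by
    rw [h2.fderiv_eq]
    exact h5.fderiv
  rw [h6]
  simp

/-- Rotation invariance of the trace. -/
theorem trace_rot (Q : ℂ × ℝ →L[ℝ] ℂ × ℝ →L[ℝ] ℝ) {e : ℂ} (he : ‖e‖ = 1) :
    Q (e, 0) (e, 0) + Q (e * Complex.I, 0) (e * Complex.I, 0) = Q (1, 0) (1, 0) + Q (Complex.I, 0) (Complex.I, 0) := by
  have h1 : ((e, 0) : ℂ × ℝ) = e.re • ((1, 0) : ℂ × ℝ) + e.im • ((Complex.I, 0) : ℂ × ℝ) := by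
    refine Prod.ext ?_ ?_
    · apply Complex.ext <;> simp
    · simp
  have h2 : ((e * Complex.I, 0) : ℂ × ℝ) = (-e.im) • ((1, 0) : ℂ × ℝ) + e.re • ((Complex.I, 0) : ℂ × ℝ) := by
    refine Prod.ext ?_ ?_
    · apply Complex.ext <;> simp
    · simp
  have h3 : e.re ^ 2 + e.im ^ 2 = 1 := by
    have h4 := Complex.sq_norm e
    rw [he, Complex.normSq_apply] at h4
    nlinarith
  rw [h1, h2]
  simp only [map_add, map_smul, add_apply, smul_apply, smul_eq_mul]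
  linear_combination (Q (1, 0) (1, 0) + Q (Complex.I, 0) (Complex.I, 0)) * h3

theorem rot_gradient {z : ℂ → ℝ → ℝ} {p e x : ℂ} {t : ℝ} {g : ℂ} (h : HasGradientAt (fun y => z y t) g (p + e * x)) :
    HasGradientAt (fun y => z (p + e * y) t) (conj e * g) x := by
  rw [hasGradientAt_iff_hasFDerivAt] at h ⊢
  have h1 : HasFDerivAt (fun y : ℂ => p + e * y) (ContinuousLinearMap.mul ℝ ℂ e) x := by
    have h2 : HasFDerivAt (fun y : ℂ => ContinuousLinearMap.mul ℝ ℂ e y) (ContinuousLinearMap.mul ℝ ℂ e) x :=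
      (ContinuousLinearMap.mul ℝ ℂ e).hasFDerivAt
    exact h2.const_add p
  have h2 := h.comp x h1
  have h3 : (InnerProductSpace.toDual ℝ ℂ) (conj e * g) =
      ((InnerProductSpace.toDual ℝ ℂ) g).comp (ContinuousLinearMap.mul ℝ ℂ e) := by
    ext v
    rw [ContinuousLinearMap.comp_apply, InnerProductSpace.toDual_apply_apply, InnerProductSpace.toDual_apply_apply,
      Complex.inner, Complex.inner]
    simp only [map_mul, Complex.conj_conj, ContinuousLinearMap.mul_apply']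
    congr 1
    ring
  rw [h3]
  exact h2

/-- The homeomorphism `x ↦ p + e x`. -/
noncomputable def rotH (p e : ℂ) (he : e ≠ 0) : ℂ ≃ₜ ℂ := (Homeomorph.mulLeft₀ e he).trans (Homeomorph.addLeft p)

theorem rotH_apply (p e : ℂ) (he : e ≠ 0) (x : ℂ) : rotH p e he x = p + e * x := rfl

/-- Transport of a drum solution on a rectangle in arbitrary position. -/
theorem drum_rot {c : ℝ} {A B : ℝ} {p e : ℂ} (he : ‖e‖ = 1) {D : Set ℂ} (hD : D = (fun x => p + e * x) '' Rect A B)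
    {z : ℂ → ℝ → ℝ} {G : ℂ → ℝ → ℂ} (h1 : ContDiffOn ℝ 2 (fun q : ℂ × ℝ => z q.1 q.2) (D ×ˢ univ))
    (h2 : ContinuousOn (fun q : ℂ × ℝ => z q.1 q.2) (closure D ×ˢ univ))
    (h3 : ∀ x ∈ D, ∀ t, HasGradientAt (fun y => z y t) (G x t) x)
    (h4 : ContinuousOn (fun q : ℂ × ℝ => G q.1 q.2) (closure D ×ˢ univ))
    (h5 : ∀ x ∈ D, ∀ t, iteratedDeriv 2 (z x) t = c ^ 2 * Laplacian.laplacian (fun y => z y t) x)
    (h6 : ∀ x ∈ frontier D, ∀ t, z x t = 0) :
    Drum c A B (fun x t => z (p + e * x) t) (fun x t => conj e * G (p + e * x) t) ∧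
      (∀ x, x ∈ closure (Rect A B) ↔ p + e * x ∈ closure D) := by
  have he0 : e ≠ 0 := by
    intro h
    rw [h, norm_zero] at he
    exact zero_ne_one he
  have hDo : IsOpen D := by
    rw [hD]
    exact (rotH p e he0).isOpenMap _ (isOpen_rect A B)
  have hmem : ∀ x, x ∈ Rect A B ↔ p + e * x ∈ D := by
    intro x
    rw [hD]
    constructor
    · intro hx
      exact ⟨x, hx, rfl⟩
    · rintro ⟨y, hy, hxy⟩
      have : y = x := (rotH p e he0).injective hxy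
      rwa [this] at hy
  have hcl : ∀ x, x ∈ closure (Rect A B) ↔ p + e * x ∈ closure D := by
    intro x
    have h7 : closure D = (rotH p e he0) '' closure (Rect A B) := by
      rw [(rotH p e he0).image_closure, hD]
      rfl
    rw [h7]
    constructor
    · intro hx
      exact ⟨x, hx, rfl⟩
    · rintro ⟨y, hy, hxy⟩
      have : y = x := (rotH p e he0).injective hxy
      rwa [this] at hy
  refine ⟨⟨?_, ?_, ?_, ?_, ?_, ?_⟩, hcl⟩
  · have h8 : ContDiffOn ℝ 2 (FF z) (D ×ˢ univ) := h1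
    refine h8.comp (contDiff_rotT p e).contDiffOn ?_
    intro q hq
    exact ⟨(hmem q.1).1 hq.1, mem_univ _⟩
  · refine h2.comp (t := closure D ×ˢ univ) (f := fun q : ℂ × ℝ => (p + e * q.1, q.2)) (by fun_prop) ?_
    intro q hq
    exact ⟨(hcl q.1).1 hq.1, mem_univ _⟩
  · intro x hx t
    exact rot_gradient (h3 _ ((hmem x).1 hx) t)
  · have h9 : ContinuousOn (fun q : ℂ × ℝ => G (p + e * q.1) q.2) (closure (Rect A B) ×ˢ univ) := by
      refine h4.comp (t := closure D ×ˢ univ) (f := fun q : ℂ × ℝ => (p + e * q.1, q.2)) (by fun_prop) ?_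
      intro q hq
      exact ⟨(hcl q.1).1 hq.1, mem_univ _⟩
    exact continuousOn_const.mul h9
  · intro x hx t
    have hx' := (hmem x).1 hx
    have h10 := wave2 (c := c) hDo h1 hx' (h5 _ hx' t)
    rw [rot_fderiv2 hDo h1 p e (q := (x, t)) hx', rot_fderiv2 hDo h1 p e (q := (x, t)) hx',
      rot_fderiv2 hDo h1 p e (q := (x, t)) hx', rotL_apply, rotL_apply, rotL_apply]
    simp only [mul_zero, mul_one]
    rw [trace_rot _ he]
    exact h10
  · intro x hx hx' t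
    apply h6
    rw [frontier, hDo.interior_eq]
    exact ⟨(hcl x).1 hx, fun h => hx' ((hmem x).2 h)⟩

/-- The theorem on rectangles in arbitrary position. -/
theorem rect_zero {c : ℝ} (hc : 0 < c) {A B : ℝ} (hA : 0 < A) (hB : 0 < B) {p e : ℂ} (he : ‖e‖ = 1) {D : Set ℂ}
    (hD : D = (fun x => p + e * x) '' Rect A B)
    {z : ℂ → ℝ → ℝ} {G : ℂ → ℝ → ℂ} (h1 : ContDiffOn ℝ 2 (fun q : ℂ × ℝ => z q.1 q.2) (D ×ˢ univ))
    (h2 : ContinuousOn (fun q : ℂ × ℝ => z q.1 q.2) (closure D ×ˢ univ))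
    (h3 : ∀ x ∈ D, ∀ t, HasGradientAt (fun y => z y t) (G x t) x)
    (h4 : ContinuousOn (fun q : ℂ × ℝ => G q.1 q.2) (closure D ×ˢ univ))
    (h5 : ∀ x ∈ D, ∀ t, iteratedDeriv 2 (z x) t = c ^ 2 * Laplacian.laplacian (fun y => z y t) x)
    (h6 : ∀ x ∈ frontier D, ∀ t, z x t = 0) {g : Circle → ℂ} (hg : Continuous g) (hinj : Function.Injective g)
    (hgD : ∀ s, g s ∈ closure D) (hcrit : ∀ s t, G (g s) t = 0) : ∀ x ∈ closure D, ∀ t, z x t = 0 := by
  have he0 : e ≠ 0 := by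
    intro h
    rw [h, norm_zero] at he
    exact zero_ne_one he
  obtain ⟨hdr, hcl⟩ := drum_rot he hD h1 h2 h3 h4 h5 h6
  set H := rotH p e he0 with hH
  have hHs : ∀ y, p + e * (H.symm y) = y := fun y => by
    have := H.apply_symm_apply y
    rw [hH, rotH_apply] at this
    exact this
  have hz0 := hdr.zero_of_crit hc hA hB (g := fun s => H.symm (g s)) (H.symm.continuous.comp hg)
    (H.symm.injective.comp hinj) (fun s => by
      rw [hcl, hHs]
      exact hgD s) (fun s t => by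
      rw [hHs, hcrit, mul_zero])
  intro x hx t
  have h7 := hz0 (H.symm x) (by rw [hcl, hHs]; exact hx) t
  rwa [hHs] at h7

end DrumF
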