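import Pool.Agent.Lib.MP_d92c84_an.Smo

/-!
# Smoothed solutions on a rectangle are superpositions of plane waves
-/

set_option autoImplicit false

namespace DrumF

open Filter Topology Set MeasureTheory
open scoped ComplexConjugate

/-- The sign. -/
def sg (b : Bool) : ℝ := if b then 1 else -1

theorem sg_sq (b : Bool) : sg b ^ 2 = 1 := by cases b <;> simp [sg]

theorem abs_sg (b : Bool) : |sg b| = 1 := by cases b <;> simp [sg]

/-- The wave vectors. -/
noncomputable def kk (A B : ℝ) (j : (ℕ × ℕ) × (Bool × Bool)) : ℂ :=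
  ((sg j.2.1 * pm A j.1.1 : ℝ) : ℂ) + ((sg j.2.2 * pm B j.1.2 : ℝ) : ℂ) * Complex.I

/-- The coefficients. -/
noncomputable def bb (C : ℕ × ℕ → ℂ) (j : (ℕ × ℕ) × (Bool × Bool)) : ℂ :=
  ((-(1 / 4) * (sg j.2.1 * sg j.2.2) : ℝ) : ℂ) * C j.1

theorem norm_kk (A B : ℝ) (j : (ℕ × ℕ) × (Bool × Bool)) : ‖kk A B j‖ = √(pm A j.1.1 ^ 2 + pm B j.1.2 ^ 2) := by
  unfold kk
  rw [Complex.norm_add_mul_I, mul_pow, mul_pow, sg_sq, sg_sq, one_mul, one_mul]

theorem mul_norm_kk (c A B : ℝ) (j : (ℕ × ℕ) × (Bool × Bool)) : c * ‖kk A B j‖ = om c A B j.1.1 j.1.2 := by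
  rw [norm_kk]
  rfl

theorem kk_ne {A B : ℝ} (hA : 0 < A) (j : (ℕ × ℕ) × (Bool × Bool)) : kk A B j ≠ 0 := by
  rw [← norm_pos_iff, norm_kk]
  have h1 := pm_pos hA j.1.1
  exact Real.sqrt_pos.2 (by positivity)

theorem norm_bb (C : ℕ × ℕ → ℂ) (j : (ℕ × ℕ) × (Bool × Bool)) : ‖bb C j‖ = 1 / 4 * ‖C j.1‖ := by
  unfold bb
  rw [norm_mul, Complex.norm_real, Real.norm_eq_abs, abs_mul, abs_mul, abs_sg, abs_sg, abs_neg,
    abs_of_pos (by norm_num : (0 : ℝ) < 1 / 4)]
  ring

theorem kk_fin {A B : ℝ} (hA : 0 < A) (hB : 0 < B) (w : ℝ) : {j | ‖kk A B j‖ = w}.Finite := by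
  obtain ⟨M, hM⟩ := exists_nat_gt (w * A / Real.pi)
  obtain ⟨N, hN⟩ := exists_nat_gt (w * B / Real.pi)
  have hpi := Real.pi_pos
  refine (((Finset.range M ×ˢ Finset.range N) ×ˢ (Finset.univ : Finset (Bool × Bool))).finite_toSet).subset ?_
  rintro ⟨⟨m, n⟩, σ⟩ hj
  have hj' : √(pm A m ^ 2 + pm B n ^ 2) = w := by
    rw [← norm_kk A B ((m, n), σ)]
    exact hj
  have h1 : pm A m ≤ w := by
    rw [← hj']
    exact Real.le_sqrt_of_sq_le (by nlinarith [sq_nonneg (pm B n)])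
  have h2 : pm B n ≤ w := by
    rw [← hj']
    exact Real.le_sqrt_of_sq_le (by nlinarith [sq_nonneg (pm A m)])
  have h3 : m < M := by
    have h4 : (m : ℝ) < M := by
      refine lt_of_le_of_lt ?_ hM
      rw [le_div_iff₀ hpi]
      unfold pm at h1
      rw [div_le_iff₀ hA] at h1
      nlinarith
    exact_mod_cast h4
  have h4 : n < N := by
    have h5 : (n : ℝ) < N := by
      refine lt_of_le_of_lt ?_ hN
      rw [le_div_iff₀ hpi]
      unfold pm at h2
      rw [div_le_iff₀ hB] at h2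
      nlinarith
    exact_mod_cast h5
  simp [h3, h4]

/-- The product of sines as a sum of four plane waves. -/
theorem mode (c A B : ℝ) (C : ℕ × ℕ → ℂ) (m n : ℕ) (x y t : ℝ) :
    ∑ σ : Bool × Bool, (pw c (bb C) (kk A B) t ((m, n), σ) ((x : ℂ) + (y : ℂ) * Complex.I)).re =
      ((C (m, n)).re * Real.cos (om c A B m n * t) + (C (m, n)).im * Real.sin (om c A B m n * t)) *
        (sn A m x * sn B n y) := by
  set P : ℝ := pm A m * x with hP
  set Q : ℝ := pm B n * y with hQ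
  set ω : ℝ := om c A B m n with hω
  have hterm : ∀ σ : Bool × Bool, pw c (bb C) (kk A B) t ((m, n), σ) ((x : ℂ) + (y : ℂ) * Complex.I) =
      (C (m, n) * Complex.exp (-(Complex.I * ((ω * t : ℝ) : ℂ)))) * (((-(1 / 4) * (sg σ.1 * sg σ.2) : ℝ) : ℂ) *
        (Complex.exp (Complex.I * ((sg σ.1 * P : ℝ) : ℂ)) * Complex.exp (Complex.I * ((sg σ.2 * Q : ℝ) : ℂ)))) := by
    intro σ
    unfold pw bb
    rw [mul_norm_kk]
    have h1 : (conj (kk A B ((m, n), σ)) * ((x : ℂ) + (y : ℂ) * Complex.I)).re = sg σ.1 * P + sg σ.2 * Q := by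
      unfold kk
      simp only [map_add, map_mul, Complex.conj_ofReal, Complex.conj_I, Complex.mul_re, Complex.add_re,
        Complex.add_im, Complex.mul_im, Complex.ofReal_re, Complex.ofReal_im, Complex.neg_re, Complex.neg_im,
        Complex.I_re, Complex.I_im]
      rw [hP, hQ]
      ring
    rw [h1, ← Complex.exp_add]
    have h2 : Complex.exp (Complex.I * (((sg σ.1 * P + sg σ.2 * Q) - om c A B m n * t : ℝ) : ℂ)) =
        Complex.exp (-(Complex.I * ((ω * t : ℝ) : ℂ))) *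
          Complex.exp (Complex.I * ((sg σ.1 * P : ℝ) : ℂ) + Complex.I * ((sg σ.2 * Q : ℝ) : ℂ)) := by
      rw [← Complex.exp_add]
      congr 1
      rw [← hω]
      push_cast
      ring
    rw [h2]
    ring
  have hsum : ∑ σ : Bool × Bool, (((-(1 / 4) * (sg σ.1 * sg σ.2) : ℝ) : ℂ) *
        (Complex.exp (Complex.I * ((sg σ.1 * P : ℝ) : ℂ)) * Complex.exp (Complex.I * ((sg σ.2 * Q : ℝ) : ℂ)))) =
      ((Real.sin P * Real.sin Q : ℝ) : ℂ) := by
    rw [Fintype.sum_prod_type, Fintype.sum_bool, Fintype.sum_bool, Fintype.sum_bool]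
    simp only [sg, if_true, Bool.false_eq_true, if_false]
    push_cast
    rw [Complex.sin, Complex.sin]
    have e1 : Complex.I * (1 * (P : ℂ)) = (P : ℂ) * Complex.I := by ring
    have e2 : Complex.I * (1 * (Q : ℂ)) = (Q : ℂ) * Complex.I := by ring
    have e3 : Complex.I * (-1 * (P : ℂ)) = -(P : ℂ) * Complex.I := by ring
    have e4 : Complex.I * (-1 * (Q : ℂ)) = -(Q : ℂ) * Complex.I := by ring
    rw [e1, e2, e3, e4]
    linear_combination (-(1 / 4 : ℂ) * ((Complex.exp (-(P : ℂ) * Complex.I) - Complex.exp ((P : ℂ) * Complex.I)) *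
      (Complex.exp (-(Q : ℂ) * Complex.I) - Complex.exp ((Q : ℂ) * Complex.I)))) * Complex.I_sq
  rw [← Complex.re_sum, Finset.sum_congr rfl fun σ _ => hterm σ, ← Finset.mul_sum, hsum, Complex.re_mul_ofReal]
  have h3 : (C (m, n) * Complex.exp (-(Complex.I * ((ω * t : ℝ) : ℂ)))).re =
      (C (m, n)).re * Real.cos (ω * t) + (C (m, n)).im * Real.sin (ω * t) := by
    have h4 : -(Complex.I * ((ω * t : ℝ) : ℂ)) = ((-(ω * t) : ℝ) : ℂ) * Complex.I := by
      push_cast
      ring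
    rw [h4, Complex.mul_re, Complex.exp_ofReal_mul_I_re, Complex.exp_ofReal_mul_I_im, Real.cos_neg, Real.sin_neg]
    ring
  rw [h3]
  have h5 : Real.sin P = sn A m x := by
    unfold sn
    rw [hP]
    unfold pm
    congr 1
    ring
  have h6 : Real.sin Q = sn B n y := by
    unfold sn
    rw [hQ]
    unfold pm
    congr 1
    ring
  rw [h5, h6]

theorem summable_bb {c A B : ℝ} (hc : 0 < c) {C : ℕ × ℕ → ℂ}
    (hsum : Summable fun q : ℕ × ℕ => ‖C q‖ * (1 + om c A B q.1 q.2 / c)) :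
    Summable fun j => ‖bb C j‖ * (1 + ‖kk A B j‖) := by
  have h1 : (fun j : (ℕ × ℕ) × (Bool × Bool) => ‖bb C j‖ * (1 + ‖kk A B j‖)) = fun j =>
      (‖C j.1‖ * (1 + om c A B j.1.1 j.1.2 / c)) * (1 / 4) := by
    funext j
    rw [norm_bb, ← mul_norm_kk c A B j, mul_div_cancel_left₀ _ hc.ne']
    ring
  rw [h1]
  have h2 : Summable fun _ : Bool × Bool => (1 / 4 : ℝ) := Summable.of_finite
  exact hsum.mul_of_nonneg h2 (fun q => by
    have : 0 ≤ om c A B q.1 q.2 / c := by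
      unfold om
      positivity
    simp only [Pi.zero_apply]
    positivity) fun _ => by
    simp only [Pi.zero_apply]
    norm_num

/-- The representation by plane waves. -/
theorem Pre.rep {c A B : ℝ} (hc : 0 < c) (hA : 0 < A) (hB : 0 < B) {W : ℂ → ℝ → ℝ} {GW : ℂ → ℝ → ℂ}
    (hP : Pre A B W GW) {C : ℕ × ℕ → ℂ}
    (hco : ∀ m n t, 4 / (A * B) * bc A B W m n t =
      (C (m, n)).re * Real.cos (om c A B m n * t) + (C (m, n)).im * Real.sin (om c A B m n * t))
    (hsum : Summable fun q : ℕ × ℕ => ‖C q‖ * (1 + om c A B q.1 q.2 / c)) {x : ℂ} (hx : x ∈ closure (Rect A B))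
    (t : ℝ) : W x t = ∑' j, (pw c (bb C) (kk A B) t j x).re := by
  have hom : ∀ m n, 0 ≤ om c A B m n / c := by
    intro m n
    unfold om
    positivity
  have hx' := hx
  rw [closure_rect hA hB, Complex.mem_reProdIm] at hx'
  have hcs : Summable fun q : ℕ × ℕ => ‖C q‖ :=
    Summable.of_nonneg_of_le (fun q => norm_nonneg _) (fun q => by
      have := hom q.1 q.2
      nlinarith [norm_nonneg (C q)]) hsum
  have hzW : zc A B W x.re x.im t = W x t := by
    unfold zc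
    rw [pt_eq (by rw [sub_zero]; exact hx'.1) (by rw [sub_zero]; exact hx'.2), Complex.re_add_im]
  have hzero : ∀ x ∈ Icc 0 A, ∀ y ∈ Icc 0 B, (x = 0 ∨ x = A ∨ y = 0 ∨ y = B) → zc A B W x y t = 0 := by
    intro x hx y hy hor
    unfold zc
    refine hP.bd _ (pt_mem_closure hA hB le_rfl (by linarith) (by linarith) x y) ?_ t
    simp only [Rect, mem_ofPred_eq, pt_re, pt_im]
    rw [sub_zero, sub_zero, cl_of_mem hx, cl_of_mem hy]
    rintro ⟨g1, g2, g3, g4⟩
    rcases hor with rfl | rfl | rfl | rfl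
    · exact lt_irrefl _ g1
    · exact lt_irrefl _ g2
    · exact lt_irrefl _ g3
    · exact lt_irrefl _ g4
  have hrep := rect_rep hA hB (f := fun x y => zc A B W x y t)
    ((continuous_zc hA hB hP.cz).comp (by fun_prop : Continuous fun q : ℝ × ℝ => (q.1, q.2, t)))
    (fun y hy => ⟨hzero 0 ⟨le_rfl, hA.le⟩ y hy (Or.inl rfl), hzero A ⟨hA.le, le_rfl⟩ y hy (Or.inr (Or.inl rfl))⟩)
    (fun x hx => ⟨hzero x hx 0 ⟨le_rfl, hB.le⟩ (Or.inr (Or.inr (Or.inl rfl))),
      hzero x hx B ⟨hB.le, le_rfl⟩ (Or.inr (Or.inr (Or.inr rfl)))⟩)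
    (s := fun m n => (C (m, n)).re * Real.cos (om c A B m n * t) + (C (m, n)).im * Real.sin (om c A B m n * t))
    (fun m n => (hco m n t).symm) (by
      refine Summable.of_nonneg_of_le (fun q => abs_nonneg _) (fun q => ?_) (hcs.mul_left 2)
      refine (abs_add_le _ _).trans ?_
      rw [abs_mul, abs_mul]
      have h1 := Complex.abs_re_le_norm (C q)
      have h2 := Complex.abs_im_le_norm (C q)
      have h3 := Real.abs_cos_le_one (om c A B q.1 q.2 * t)
      have h4 := Real.abs_sin_le_one (om c A B q.1 q.2 * t)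
      calc |(C (q.1, q.2)).re| * |Real.cos (om c A B q.1 q.2 * t)| + |(C (q.1, q.2)).im| *
            |Real.sin (om c A B q.1 q.2 * t)| ≤ ‖C q‖ * 1 + ‖C q‖ * 1 := by gcongr
        _ = _ := by ring) hx'.1 hx'.2
  rw [← hzW, ← hrep.tsum_eq]
  have hs : Summable fun j => (pw c (bb C) (kk A B) t j x).re := by
    refine Summable.of_norm_bounded (summable_b (summable_bb hc hsum)) fun j => ?_
    rw [← norm_pw (c := c) (k := kk A B) t j x]
    exact Complex.abs_re_le_norm _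
  rw [hs.tsum_prod]
  refine tsum_congr fun q => ?_
  rw [tsum_fintype]
  have h1 := mode c A B C q.1 q.2 x.re x.im t
  rw [Complex.re_add_im] at h1
  exact h1.symm

end DrumF
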