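import Mathlib

/-!
# Absolutely convergent sine series on an interval
-/

set_option autoImplicit false

namespace DrumF

open Filter Topology Set MeasureTheory

/-- The sine `sin ((m + 1) π x / A)`. -/
noncomputable def sn (A : ℝ) (m : ℕ) (x : ℝ) : ℝ := Real.sin (((m : ℝ) + 1) * Real.pi * x / A)

theorem sn_zero (A : ℝ) (m : ℕ) : sn A m 0 = 0 := by simp [sn]

theorem sn_end {A : ℝ} (hA : 0 < A) (m : ℕ) : sn A m A = 0 := by
  unfold sn
  rw [mul_div_assoc, div_self hA.ne', mul_one]
  have h := Real.sin_nat_mul_pi (m + 1)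
  push_cast at h
  exact h

theorem abs_sn_le (A : ℝ) (m : ℕ) (x : ℝ) : |sn A m x| ≤ 1 := Real.abs_sin_le_one _

theorem continuous_sn (A : ℝ) (m : ℕ) : Continuous (sn A m) := by
  unfold sn
  fun_prop

theorem integral_symm_real (A : ℝ) {H : ℝ → ℂ} (hH : Continuous H) :
    ∫ x in (-A)..A, H x = ∫ x in (0 : ℝ)..A, (H x + H (-x)) := by
  have h1 : ∫ x in (-A)..(0 : ℝ), H x = ∫ x in (0 : ℝ)..A, H (-x) := by
    have h2 := intervalIntegral.integral_comp_neg (a := 0) (b := A) H
    rw [neg_zero] at h2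
    exact h2.symm
  have hi : ∀ a b : ℝ, IntervalIntegrable H volume a b := fun a b => hH.intervalIntegrable a b
  have hi' : IntervalIntegrable (fun x => H (-x)) volume 0 A := (hH.comp continuous_neg).intervalIntegrable 0 A
  rw [← intervalIntegral.integral_add_adjacent_intervals (hi (-A) 0) (hi 0 A), h1,
    intervalIntegral.integral_add (hi 0 A) hi', add_comm]

/-- A continuous function on `[0, A]` vanishing at the ends is the sum of its sine series when the coefficients
are summable. -/
theorem sine_rep {A : ℝ} (hA : 0 < A) {f : ℝ → ℝ} (hf : ContinuousOn f (Icc 0 A)) (h0 : f 0 = 0) (hA0 : f A = 0)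
    {s : ℕ → ℝ} (hs : ∀ m, s m = 2 / A * ∫ x in (0 : ℝ)..A, f x * sn A m x) (hsum : Summable fun m => |s m|)
    {x : ℝ} (hx : x ∈ Icc 0 A) : HasSum (fun m => s m * sn A m x) (f x) := by
  have hT : Fact ((0 : ℝ) < 2 * A) := ⟨by positivity⟩
  -- clamped extension
  set e : ℝ → ℝ := IccExtend hA.le (fun y : Icc (0 : ℝ) A => f y) with he
  have hec : Continuous e := by
    refine Continuous.Icc_extend' ?_
    exact continuousOn_iff_continuous_domRestrict.1 hf
  have he1 : ∀ y ∈ Icc (0 : ℝ) A, e y = f y := fun y hy => IccExtend_of_mem hA.le _ hy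
  have he2 : ∀ y, y ≤ 0 → e y = 0 := by
    intro y hy
    rw [he, IccExtend_of_le_left hA.le _ hy]
    exact h0
  set F : ℝ → ℝ := fun y => e y - e (-y) with hF
  have hFc : Continuous F := hec.sub (hec.comp continuous_neg)
  have hF1 : ∀ y ∈ Icc (0 : ℝ) A, F y = f y := by
    intro y hy
    rw [hF]
    simp only
    rw [he1 y hy, he2 (-y) (by linarith [hy.1]), sub_zero]
  have hFodd : ∀ y, F (-y) = -F y := by
    intro y
    simp only [hF, neg_neg]
    ring
  set Fc : ℝ → ℂ := fun y => (F y : ℂ) with hFcdef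
  have hFcc : Continuous Fc := Complex.continuous_ofReal.comp hFc
  have hend : Fc (-A) = Fc (-A + 2 * A) := by
    have h1 : -A + 2 * A = A := by ring
    rw [h1]
    simp only [hFcdef]
    rw [hFodd A, hF1 A ⟨hA.le, le_rfl⟩, hA0, neg_zero]
  have hlift : Continuous (AddCircle.liftIco (2 * A) (-A) Fc) := AddCircle.liftIco_continuous hend hFcc.continuousOn
  set g : C(AddCircle (2 * A), ℂ) := ⟨AddCircle.liftIco (2 * A) (-A) Fc, hlift⟩ with hg
  set I : ℤ → ℝ := fun n => ∫ y in (0 : ℝ)..A, f y * Real.sin (n * Real.pi * y / A) with hI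
  have hIneg : ∀ n : ℤ, I (-n) = -I n := by
    intro n
    simp only [hI]
    rw [← intervalIntegral.integral_neg]
    refine intervalIntegral.integral_congr fun y _ => ?_
    have h1 : ((-n : ℤ) : ℝ) * Real.pi * y / A = -((n : ℝ) * Real.pi * y / A) := by
      push_cast
      ring
    rw [h1, Real.sin_neg]
    ring
  have hcoef : ∀ n : ℤ, fourierCoeff g n = -Complex.I / A * (I n : ℂ) := by
    intro n
    have h1 : fourierCoeff g n = fourierCoeffOn (lt_add_of_pos_right (-A) hT.out) Fc n :=
      fourierCoeff_liftIco_eq Fc n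
    rw [h1, fourierCoeffOn_eq_integral]
    have h2 : -A + 2 * A = A := by ring
    have h3 : ∀ y : ℝ, fourier (-n) (y : AddCircle (-A + 2 * A - -A)) • Fc y =
        Complex.exp (-(((n : ℝ) * Real.pi * y / A : ℝ) : ℂ) * Complex.I) * Fc y := by
      intro y
      rw [fourier_coe_apply, smul_eq_mul]
      congr 2
      have h4 : (-A + 2 * A - -A : ℝ) = 2 * A := by ring
      rw [h4]
      push_cast
      have : (A : ℂ) ≠ 0 := by exact_mod_cast hA.ne'
      field_simp
    rw [intervalIntegral.integral_congr (g := fun y => Complex.exp (-(((n : ℝ) * Real.pi * y / A : ℝ) : ℂ) *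
      Complex.I) * Fc y) fun y _ => h3 y, h2, integral_symm_real A (by fun_prop)]
    have h5 : ∀ y ∈ uIcc (0 : ℝ) A, Complex.exp (-(((n : ℝ) * Real.pi * y / A : ℝ) : ℂ) * Complex.I) * Fc y +
        Complex.exp (-(((n : ℝ) * Real.pi * -y / A : ℝ) : ℂ) * Complex.I) * Fc (-y) =
        (-2 * Complex.I) * ((f y * Real.sin (n * Real.pi * y / A) : ℝ) : ℂ) := by
      intro y hy
      rw [uIcc_of_le hA.le] at hy
      have h6 : (n : ℝ) * Real.pi * -y / A = -((n : ℝ) * Real.pi * y / A) := by ring
      rw [h6]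
      simp only [hFcdef]
      rw [hFodd, hF1 y hy]
      push_cast
      rw [Complex.sin, neg_neg]
      have hI2 : (Complex.I : ℂ) * Complex.I = -1 := Complex.I_mul_I
      linear_combination ((f y : ℂ) * (Complex.exp (-((n : ℂ) * Real.pi * y / A) * Complex.I) -
        Complex.exp ((n : ℂ) * Real.pi * y / A * Complex.I))) * hI2
    rw [intervalIntegral.integral_congr h5, intervalIntegral.integral_const_mul, intervalIntegral.integral_ofReal]
    simp only [hI]
    have h7 : (A - -A : ℝ) = 2 * A := by ring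
    rw [h7, Complex.real_smul]
    push_cast
    have : (A : ℂ) ≠ 0 := by exact_mod_cast hA.ne'
    field_simp
  have hIs : ∀ m : ℕ, s m = 2 / A * I ((m : ℤ) + 1) := by
    intro m
    rw [hs m]
    simp only [hI, sn]
    push_cast
    rfl
  have hI0 : I 0 = 0 := by
    simp only [hI]
    simp
  have hsumI : Summable fun m : ℕ => fourierCoeff g ((m : ℤ) + 1) := by
    refine Summable.of_norm_bounded hsum fun m => ?_
    rw [hcoef, norm_mul, norm_div, norm_neg, Complex.norm_I, Complex.norm_real, Complex.norm_real, Real.norm_eq_abs,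
      Real.norm_eq_abs, hIs m, abs_mul, abs_div, abs_of_pos hA, abs_two]
    have h1 : 1 / A ≤ 2 / A := by
      gcongr
      norm_num
    exact mul_le_mul_of_nonneg_right h1 (abs_nonneg _)
  have hsumZ : Summable (fourierCoeff g) := by
    refine Summable.of_nat_of_neg_add_one ?_ ?_
    · refine (summable_nat_add_iff (f := fun n : ℕ => fourierCoeff g (n : ℤ)) 1).1 ?_
      refine hsumI.congr fun m => ?_
      push_cast
      rfl
    · refine hsumI.neg.congr fun m => ?_
      rw [hcoef, hcoef, hIneg]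
      push_cast
      ring
  have hpt := has_pointwise_sum_fourier_series_of_summable (f := g) hsumZ (x : AddCircle (2 * A))
  have hgx : g (x : AddCircle (2 * A)) = (f x : ℂ) := by
    by_cases hxA : x = A
    · have h1 : ((x : ℝ) : AddCircle (2 * A)) = ((-A : ℝ) : AddCircle (2 * A)) := by
        have h2 : x = -A + 2 * A := by rw [hxA]; ring
        rw [h2]
        exact AddCircle.coe_add_period (2 * A) (-A)
      rw [h1]
      have h3 : AddCircle.liftIco (2 * A) (-A) Fc ((-A : ℝ) : AddCircle (2 * A)) = Fc (-A) :=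
        AddCircle.liftIco_coe_apply (f := Fc) (show (-A : ℝ) ∈ Ico (-A) (-A + 2 * A) from ⟨le_rfl, by linarith⟩)
      change AddCircle.liftIco (2 * A) (-A) Fc ((-A : ℝ) : AddCircle (2 * A)) = _
      rw [h3]
      simp only [hFcdef]
      rw [hFodd, hF1 A ⟨hA.le, le_rfl⟩, hxA, hA0, neg_zero]
    · have h2 : AddCircle.liftIco (2 * A) (-A) Fc (x : AddCircle (2 * A)) = Fc x :=
        AddCircle.liftIco_coe_apply (f := Fc) (show x ∈ Ico (-A) (-A + 2 * A) from ⟨by linarith [hx.1], by
          have := lt_of_le_of_ne hx.2 hxA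
          linarith⟩)
      change AddCircle.liftIco (2 * A) (-A) Fc (x : AddCircle (2 * A)) = _
      rw [h2]
      simp only [hFcdef]
      rw [hF1 x hx]
  rw [hgx] at hpt
  have h1 := hpt.nat_add_neg
  have hI0' : fourierCoeff g 0 = 0 := by
    rw [hcoef, hI0]
    simp
  rw [hI0', zero_smul, add_zero] at h1
  have h2 := (hasSum_nat_add_iff' (f := fun n : ℕ => fourierCoeff g (n : ℤ) • fourier (n : ℤ) (x : AddCircle (2 * A)) +
    fourierCoeff g (-(n : ℤ)) • fourier (-(n : ℤ)) (x : AddCircle (2 * A))) 1).2 h1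
  rw [← Complex.hasSum_ofReal]
  have h3 : (f x : ℂ) - ∑ i ∈ Finset.range 1, (fourierCoeff g (i : ℤ) • fourier (i : ℤ) (x : AddCircle (2 * A)) +
    fourierCoeff g (-(i : ℤ)) • fourier (-(i : ℤ)) (x : AddCircle (2 * A))) = (f x : ℂ) := by
    rw [Finset.sum_range_one]
    simp only [Nat.cast_zero, neg_zero]
    rw [hI0']
    simp
  rw [h3] at h2
  refine h2.congr_fun fun m => ?_
  rw [fourier_coe_apply, fourier_coe_apply, hcoef, hcoef, hIneg, hIs m, smul_eq_mul, smul_eq_mul]
  unfold sn
  push_cast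
  rw [Complex.sin]
  have hAc : (A : ℂ) ≠ 0 := by exact_mod_cast hA.ne'
  have e1 : 2 * (Real.pi : ℂ) * Complex.I * ((m : ℂ) + 1) * x / (2 * A) =
      ((m : ℂ) + 1) * Real.pi * x / A * Complex.I := by
    field_simp
  have e2 : 2 * (Real.pi : ℂ) * Complex.I * -((m : ℂ) + 1) * x / (2 * A) =
      -(((m : ℂ) + 1) * Real.pi * x / A) * Complex.I := by
    field_simp
  rw [e1, e2]
  ring

end DrumF
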