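import Pool.Agent.Lib.MP_d92c84_an.Osc
import Pool.Agent.Lib.MP_d92c84_an.Gra

/-!
# Smoothing in time
-/

set_option autoImplicit false

namespace DrumF

open Filter Topology Set MeasureTheory
open scoped ComplexConjugate

/-- The properties kept by smoothing. -/
structure Pre (A B : ℝ) (z : ℂ → ℝ → ℝ) (G : ℂ → ℝ → ℂ) : Prop where
  cz : ContinuousOn (fun q : ℂ × ℝ => z q.1 q.2) (closure (Rect A B) ×ˢ univ)
  gr : ∀ x ∈ Rect A B, ∀ t, HasGradientAt (fun y => z y t) (G x t) x
  cG : ContinuousOn (fun q : ℂ × ℝ => G q.1 q.2) (closure (Rect A B) ×ˢ univ)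
  bd : ∀ x ∈ closure (Rect A B), x ∉ Rect A B → ∀ t, z x t = 0

/-- Retraction onto the closed rectangle. -/
noncomputable def ret (A B : ℝ) (x : ℂ) : ℂ := pt A B 0 x.re x.im

theorem continuous_ret (A B : ℝ) : Continuous (ret A B) :=
  (continuous_pt A B 0).comp (Complex.continuous_re.prodMk Complex.continuous_im)

theorem ret_mem {A B : ℝ} (hA : 0 < A) (hB : 0 < B) (x : ℂ) : ret A B x ∈ closure (Rect A B) :=
  pt_mem_closure hA hB le_rfl (by linarith) (by linarith) _ _

theorem ret_of_mem {A B : ℝ} (hA : 0 < A) (hB : 0 < B) {x : ℂ} (hx : x ∈ closure (Rect A B)) : ret A B x = x := by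
  rw [closure_rect hA hB, Complex.mem_reProdIm] at hx
  unfold ret
  rw [pt_eq (by rw [sub_zero]; exact hx.1) (by rw [sub_zero]; exact hx.2), Complex.re_add_im]

theorem continuous_of_on {E : Type*} [TopologicalSpace E] {A B : ℝ} (hA : 0 < A) (hB : 0 < B) {f : ℂ → ℝ → E}
    (hf : ContinuousOn (fun q : ℂ × ℝ => f q.1 q.2) (closure (Rect A B) ×ˢ univ)) :
    Continuous fun q : ℂ × ℝ => f (ret A B q.1) q.2 :=
  hf.comp_continuous (f := fun q : ℂ × ℝ => (ret A B q.1, q.2))
    (((continuous_ret A B).comp continuous_fst).prodMk continuous_snd) fun _ => ⟨ret_mem hA hB _, mem_univ _⟩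

theorem continuousOn_Sm {E : Type*} [NormedAddCommGroup E] [NormedSpace ℝ E] {A B : ℝ} (hA : 0 < A)
    (hB : 0 < B) {f : ℂ → ℝ → E} (h : ℝ)
    (hf : ContinuousOn (fun q : ℂ × ℝ => f q.1 q.2) (closure (Rect A B) ×ˢ univ)) :
    ContinuousOn (fun q : ℂ × ℝ => Sm h (f q.1) q.2) (closure (Rect A B) ×ˢ univ) := by
  have h1 := continuous_of_on hA hB hf
  have h2 : Continuous fun q : ℂ × ℝ => Sm h (f (ret A B q.1)) q.2 := by
    unfold Sm
    refine Continuous.const_smul ?_ _
    refine intervalIntegral.continuous_parametric_intervalIntegral_of_continuous'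
      (f := fun (q : ℂ × ℝ) (s : ℝ) => f (ret A B q.1) (q.2 + s)) ?_ (-h) h
    exact h1.comp (by fun_prop : Continuous fun r : (ℂ × ℝ) × ℝ => (r.1.1, r.1.2 + r.2))
  refine h2.continuousOn.congr fun q hq => ?_
  simp only
  rw [ret_of_mem hA hB hq.1]

theorem toDual_eq_lin (k : ℂ) : (InnerProductSpace.toDual ℝ ℂ k : ℂ →L[ℝ] ℝ) = lin k := by
  ext h
  rw [InnerProductSpace.toDual_apply_apply, lin_apply, Complex.inner]
  try rw [mul_comm]

theorem lin_symm (k h : ℂ) : lin k h = lin h k := by
  rw [lin_apply, lin_apply, ← Complex.conj_re, map_mul, Complex.conj_conj, mul_comm]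

theorem Pre.smooth {A B : ℝ} (hA : 0 < A) (hB : 0 < B) {z : ℂ → ℝ → ℝ} {G : ℂ → ℝ → ℂ} (hP : Pre A B z G) (h : ℝ) :
    Pre A B (fun x => Sm h (z x)) fun x => Sm h (G x) := by
  refine ⟨continuousOn_Sm hA hB h hP.cz, ?_, continuousOn_Sm hA hB h hP.cG, ?_⟩
  · intro x hx t
    rw [hasGradientAt_iff_hasFDerivAt, toDual_eq_lin]
    have hzc := continuous_of_on hA hB hP.cz
    have hGc := continuous_of_on hA hB hP.cG
    have hopen : Rect A B ∈ 𝓝 x := (isOpen_rect A B).mem_nhds hx
    have hzl : ∀ y ∈ Rect A B, Continuous fun s : ℝ => z y (t + s) := by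
      intro y hy
      have h1 := hzc.comp (by fun_prop : Continuous fun s : ℝ => (y, t + s))
      refine h1.congr fun s => ?_
      simp only [Function.comp]
      rw [ret_of_mem hA hB (subset_closure hy)]
    have hGl : Continuous fun s : ℝ => G x (t + s) := by
      have h1 := hGc.comp (by fun_prop : Continuous fun s : ℝ => (x, t + s))
      refine h1.congr fun s => ?_
      simp only [Function.comp]
      rw [ret_of_mem hA hB (subset_closure hx)]
    have hlin : Continuous fun k : ℂ => lin k := by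
      unfold lin LL
      fun_prop
    obtain ⟨C, hC⟩ := ((isCompact_rect hA hB).prod (isCompact_uIcc (a := t + -h) (b := t + h))
      ).exists_bound_of_continuousOn (hP.cG.mono (prod_mono Subset.rfl (subset_univ _)))
    have h1 : HasFDerivAt (fun y => ∫ s in (-h)..h, z y (t + s)) (∫ s in (-h)..h, lin (G x (t + s))) x := by
      refine intervalIntegral.hasFDerivAt_integral_of_dominated_of_fderiv_le (F := fun y s => z y (t + s))
        (F' := fun y s => lin (G y (t + s))) (bound := fun _ => C) hopen ?_ ?_ ?_ ?_ ?_ ?_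
      · filter_upwards [hopen] with y hy
        exact (hzl y hy).aestronglyMeasurable
      · exact (hzl x hx).intervalIntegrable _ _
      · exact (hlin.comp hGl).aestronglyMeasurable
      · refine ae_of_all _ fun s hs y hy => (norm_lin_le _).trans ?_
        refine hC (y, t + s) ⟨subset_closure hy, ?_⟩
        have h2 := uIoc_subset_uIcc hs
        rcases le_total (-h) h with h3 | h3
        · rw [uIcc_of_le h3] at h2
          rw [uIcc_of_le (by linarith)]
          exact ⟨by linarith [h2.1], by linarith [h2.2]⟩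
        · rw [uIcc_of_ge h3] at h2
          rw [uIcc_of_ge (by linarith)]
          exact ⟨by linarith [h2.1], by linarith [h2.2]⟩
      · exact intervalIntegrable_const
      · refine ae_of_all _ fun s _ y hy => ?_
        have h2 := hP.gr y hy (t + s)
        rwa [hasGradientAt_iff_hasFDerivAt, toDual_eq_lin] at h2
    have h2 := h1.const_smul (1 / (2 * h))
    refine h2.congr_fderiv ?_
    refine ContinuousLinearMap.ext fun v => ?_
    have hi : IntervalIntegrable (fun s => lin (G x (t + s))) volume (-h) h :=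
      (hlin.comp hGl).intervalIntegrable (-h) h
    have h3 : (∫ s in (-h)..h, lin (G x (t + s))) v = ∫ s in (-h)..h, lin (G x (t + s)) v :=
      ContinuousLinearMap.intervalIntegral_apply hi v
    have h4 : ∫ s in (-h)..h, lin v (G x (t + s)) = lin v (∫ s in (-h)..h, G x (t + s)) :=
      ContinuousLinearMap.intervalIntegral_comp_comm (lin v) (hGl.intervalIntegrable (-h) h)
    unfold Sm
    rw [smul_apply, h3, lin_symm, map_smul, ← h4]
    congr 1
    refine intervalIntegral.integral_congr fun s _ => ?_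
    exact lin_symm _ _
  · intro x hx hx' t
    unfold Sm
    simp only [hP.bd x hx hx']
    simp

/-- The double integral commutes with an integral over a parameter. -/
theorem di_int {a₁ a₂ b₁ b₂ : ℝ} {X Y : ℝ → ℝ} (hX : Continuous X) (hY : Continuous Y) {K : ℝ → ℝ → ℝ → ℝ}
    (hK : Continuous fun q : ℝ × ℝ × ℝ => K q.1 q.2.1 q.2.2) (c₁ c₂ : ℝ) :
    di a₁ a₂ b₁ b₂ X Y (fun x y => ∫ s in c₁..c₂, K x y s) = ∫ s in c₁..c₂, di a₁ a₂ b₁ b₂ X Y fun x y => K x y s := by
  unfold di
  have h1 : ∀ x, ∫ y in b₁..b₂, (∫ s in c₁..c₂, K x y s) * Y y = ∫ s in c₁..c₂, ∫ y in b₁..b₂, K x y s * Y y := by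
    intro x
    have h2 : ∀ y, (∫ s in c₁..c₂, K x y s) * Y y = ∫ s in c₁..c₂, K x y s * Y y := fun y => by
      rw [intervalIntegral.integral_mul_const]
    simp only [h2]
    apply intervalIntegral_intervalIntegral_swap
    have h3 : Continuous (Function.uncurry fun y s => K x y s * Y y) :=
      (hK.comp (by fun_prop : Continuous fun q : ℝ × ℝ => (x, q.1, q.2))).mul (hY.comp continuous_fst)
    exact (h3.continuousOn.integrableOn_compact (isCompact_uIcc.prod isCompact_uIcc)).mono_set
      (prod_mono uIoc_subset_uIcc uIoc_subset_uIcc)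
  simp only [h1]
  have h4 : ∀ x, (∫ s in c₁..c₂, ∫ y in b₁..b₂, K x y s * Y y) * X x =
      ∫ s in c₁..c₂, (∫ y in b₁..b₂, K x y s * Y y) * X x := fun x => by
    rw [intervalIntegral.integral_mul_const]
  simp only [h4]
  apply intervalIntegral_intervalIntegral_swap
  have h5 : Continuous (Function.uncurry fun x s => (∫ y in b₁..b₂, K x y s * Y y) * X x) :=
    (continuous_di_inner hY hK).mul (hX.comp continuous_fst)
  exact (h5.continuousOn.integrableOn_compact (isCompact_uIcc.prod isCompact_uIcc)).mono_set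
    (prod_mono uIoc_subset_uIcc uIoc_subset_uIcc)

theorem di_smul {a₁ a₂ b₁ b₂ : ℝ} {X Y : ℝ → ℝ} (r : ℝ) (K : ℝ → ℝ → ℝ) :
    di a₁ a₂ b₁ b₂ X Y (fun x y => r * K x y) = r * di a₁ a₂ b₁ b₂ X Y K := by
  unfold di
  rw [← intervalIntegral.integral_const_mul]
  refine intervalIntegral.integral_congr fun x _ => ?_
  have h1 : ∫ y in b₁..b₂, r * K x y * Y y = r * ∫ y in b₁..b₂, K x y * Y y := by
    rw [← intervalIntegral.integral_const_mul]
    refine intervalIntegral.integral_congr fun y _ => ?_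
    ring
  rw [h1]
  ring

theorem continuous_bc {A B : ℝ} (hA : 0 < A) (hB : 0 < B) {z : ℂ → ℝ → ℝ}
    (hz : ContinuousOn (fun q : ℂ × ℝ => z q.1 q.2) (closure (Rect A B) ×ˢ univ)) (m n : ℕ) :
    Continuous (bc A B z m n) := by
  unfold bc di
  refine intervalIntegral.continuous_parametric_intervalIntegral_of_continuous' (f := fun t x =>
    (∫ y in (0 : ℝ)..B, zc A B z x y t * sn B n y) * sn A m x) ?_ 0 A
  exact ((continuous_di_inner (continuous_sn B n) (continuous_zc hA hB hz)).comp continuous_swap).mul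
    ((continuous_sn A m).comp continuous_snd)

theorem bc_Sm {A B : ℝ} (hA : 0 < A) (hB : 0 < B) {z : ℂ → ℝ → ℝ}
    (hz : ContinuousOn (fun q : ℂ × ℝ => z q.1 q.2) (closure (Rect A B) ×ˢ univ)) (h : ℝ) (m n : ℕ) (t : ℝ) :
    bc A B (fun x => Sm h (z x)) m n t = Sm h (bc A B z m n) t := by
  have h1 : bc A B (fun x => Sm h (z x)) m n t =
      di 0 A 0 B (sn A m) (sn B n) fun x y => (1 / (2 * h)) * ∫ s in (-h)..h, zc A B z x y (t + s) := by
    unfold bc zc Sm
    rfl
  rw [h1, di_smul, di_int (continuous_sn A m) (continuous_sn B n) (K := fun x y s => zc A B z x y (t + s))]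
  · rfl
  · exact (continuous_zc hA hB hz).comp (by fun_prop : Continuous fun q : ℝ × ℝ × ℝ => (q.1, q.2.1, t + q.2.2))

/-- Iterated smoothing. -/
noncomputable def it {E : Type*} [NormedAddCommGroup E] [NormedSpace ℝ E] (h : ℝ) (f : ℂ → ℝ → E) : ℕ → ℂ → ℝ → E
  | 0 => f
  | k + 1 => fun x => Sm h (it h f k x)

theorem Pre.it {A B : ℝ} (hA : 0 < A) (hB : 0 < B) {z : ℂ → ℝ → ℝ} {G : ℂ → ℝ → ℂ} (hP : Pre A B z G) (h : ℝ)
    (k : ℕ) : Pre A B (it h z k) (it h G k) := by
  induction k with
  | zero => exact hP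
  | succ k ih => exact ih.smooth hA hB h

theorem it_zero {E : Type*} [NormedAddCommGroup E] [NormedSpace ℝ E] {h : ℝ} {f : ℂ → ℝ → E} {x : ℂ}
    (hf : ∀ t, f x t = 0) (k : ℕ) : ∀ t, it h f k x t = 0 := by
  induction k with
  | zero => exact hf
  | succ k ih =>
    intro t
    have h1 : it h f (k + 1) x t = Sm h (it h f k x) t := rfl
    rw [h1]
    unfold Sm
    simp only [ih]
    simp

theorem bc_it {A B c h : ℝ} (hA : 0 < A) (hB : 0 < B) (hc : 0 < c) (hh : 0 < h) {z : ℂ → ℝ → ℝ} {G : ℂ → ℝ → ℂ}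
    (hP : Pre A B z G) {m n : ℕ} (hb : CosEq (om c A B m n) (bc A B z m n)) (k : ℕ) (t : ℝ) :
    bc A B (it h z k) m n t = snc (om c A B m n * h) ^ k * bc A B z m n t := by
  induction k generalizing t with
  | zero =>
    rw [pow_zero, one_mul]
    rfl
  | succ k ih =>
    have h1 : bc A B (it h z (k + 1)) m n t = Sm h (bc A B (it h z k) m n) t :=
      bc_Sm hA hB (hP.it hA hB h k).cz h m n t
    have h2 : bc A B (it h z k) m n = fun t => snc (om c A B m n * h) ^ k * bc A B z m n t := funext ih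
    have h3 : CosEq (om c A B m n) (bc A B (it h z k) m n) := by
      rw [h2]
      intro t s
      have := hb t s
      simp only
      linear_combination snc (om c A B m n * h) ^ k * this
    rw [h1, h3.smooth (om_pos hc hA m n) hh (continuous_bc hA hB (hP.it hA hB h k).cz m n), ih]
    ring

end DrumF
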