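import Pool.Agent.Lib.MP_d92c84_an.Loc
import Pool.Agent.Lib.MP_d92c84_an.Dis

/-!
# Solutions with finitely many circular modes
-/

set_option autoImplicit false

namespace DrumF

open Filter Topology Set
open scoped ComplexConjugate

/-- The family of derivatives of `Re ∑_{m ≤ M} β_m J_m(2 κ r) e^{i m θ}` (polar coordinates at `p`). -/
noncomputable def W (κ : ℝ) (β : ℕ → ℂ) (M : ℕ) (p : ℂ) (a b : ℕ) (x : ℂ) : ℂ :=
  (κ : ℂ) ^ (a + b) * (-1) ^ b * (1 / 2) * ∑ m ∈ Finset.range (M + 1),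
    (β m * H κ ((m : ℤ) - a + b) (x - p) + (-1) ^ m * conj (β m) * H κ (-(m : ℤ) - a + b) (x - p))

theorem jet_W (κ : ℝ) (β : ℕ → ℂ) (M : ℕ) (p : ℂ) : Jet (W κ β M p) := by
  intro a b x
  have hH : ∀ n : ℤ, HasFDerivAt (fun y => H κ n (y - p))
      (LL (κ * H κ (n - 1) (x - p)) (-(κ * H κ (n + 1) (x - p)))) x := by
    intro n
    have h1 := (hasFDerivAt_H κ n (x - p)).comp x ((hasFDerivAt_id (𝕜 := ℝ) x).sub_const p)
    exact h1
  have h1 := (HasFDerivAt.fun_sum (u := Finset.range (M + 1)) fun m _ =>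
    ((hH ((m : ℤ) - a + b)).const_mul (β m)).add
      ((hH (-(m : ℤ) - a + b)).const_mul ((-1) ^ m * conj (β m)))).const_mul
        ((κ : ℂ) ^ (a + b) * (-1) ^ b * (1 / 2))
  have h2 : LL (W κ β M p (a + 1) b x) (W κ β M p a (b + 1) x) =
      ((κ : ℂ) ^ (a + b) * (-1) ^ b * (1 / 2)) • ∑ m ∈ Finset.range (M + 1),
        (β m • LL (κ * H κ ((m : ℤ) - a + b - 1) (x - p)) (-(κ * H κ ((m : ℤ) - a + b + 1) (x - p))) +
          ((-1) ^ m * conj (β m)) • LL (κ * H κ (-(m : ℤ) - a + b - 1) (x - p))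
            (-(κ * H κ (-(m : ℤ) - a + b + 1) (x - p)))) := by
    ext h
    rw [LL_apply, smul_apply, _root_.sum_apply]
    simp only [add_apply, smul_apply, LL_apply, smul_eq_mul]
    unfold W
    rw [Finset.mul_sum, Finset.mul_sum, Finset.mul_sum, Finset.sum_mul, Finset.sum_mul, ← Finset.sum_add_distrib]
    refine Finset.sum_congr rfl fun m _ => ?_
    have e1 : (m : ℤ) - ((a + 1 : ℕ) : ℤ) + b = (m : ℤ) - a + b - 1 := by push_cast; ring
    have e2 : -(m : ℤ) - ((a + 1 : ℕ) : ℤ) + b = -(m : ℤ) - a + b - 1 := by push_cast; ring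
    have e3 : (m : ℤ) - a + ((b + 1 : ℕ) : ℤ) = (m : ℤ) - a + b + 1 := by push_cast; ring
    have e4 : -(m : ℤ) - a + ((b + 1 : ℕ) : ℤ) = -(m : ℤ) - a + b + 1 := by push_cast; ring
    rw [e1, e2, e3, e4]
    ring
  rw [h2]
  exact h1

private theorem neg_one_zpow_mul_self (n : ℕ) : (-1 : ℂ) ^ n * (-1) ^ n = 1 := by
  rw [← mul_pow]
  norm_num

private theorem neg_one_inv (n : ℕ) : ((-1 : ℂ) ^ n)⁻¹ = (-1) ^ n :=
  inv_eq_of_mul_eq_one_right (neg_one_zpow_mul_self n)

theorem conj_H (κ : ℝ) (n : ℤ) (x : ℂ) : conj (H κ n x) = (-1) ^ n * H κ (-n) x := by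
  obtain ⟨m, rfl | rfl⟩ := n.eq_nat_or_neg
  · rw [H_natCast, conj_Hp, H_neg_natCast, zpow_natCast]
  · rw [neg_neg, H_natCast, H_neg_natCast, zpow_neg, zpow_natCast, neg_one_inv]
    have h1 := conj_Hp κ m x
    have h2 : conj (conj (Hp κ m x)) = conj ((-1) ^ m * Hn κ m x) := by rw [h1]
    rw [Complex.conj_conj, map_mul, map_pow, map_neg, map_one] at h2
    rw [h2, ← mul_assoc, neg_one_zpow_mul_self, one_mul]

theorem real_W (κ : ℝ) (β : ℕ → ℂ) (M : ℕ) (p : ℂ) (a b : ℕ) (x : ℂ) :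
    conj (W κ β M p a b x) = W κ β M p b a x := by
  unfold W
  rw [map_mul, map_mul, map_mul, map_pow, map_pow, map_sum, Complex.conj_ofReal]
  have hhalf : conj (1 / 2 : ℂ) = 1 / 2 := by
    rw [map_div₀, map_one, Complex.conj_ofNat]
  have hneg : conj (-1 : ℂ) = -1 := by rw [map_neg, map_one]
  rw [hhalf, hneg, Finset.mul_sum, Finset.mul_sum]
  refine Finset.sum_congr rfl fun m _ => ?_
  rw [map_add, map_mul, map_mul, map_mul, conj_H, conj_H, map_pow, hneg, Complex.conj_conj]
  have e1 : -((m : ℤ) - a + b) = -(m : ℤ) - b + a := by ring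
  have e2 : -(-(m : ℤ) - a + b) = (m : ℤ) - b + a := by ring
  rw [e1, e2]
  have hne : (-1 : ℂ) ≠ 0 := by norm_num
  have e3 : (-1 : ℂ) ^ ((m : ℤ) - a + b) = (-1) ^ m * (-1) ^ a * (-1) ^ b := by
    rw [zpow_add₀ hne, zpow_sub₀ hne, zpow_natCast, zpow_natCast, zpow_natCast, div_eq_mul_inv, neg_one_inv]
  have e4 : (-1 : ℂ) ^ (-(m : ℤ) - a + b) = (-1) ^ m * (-1) ^ a * (-1) ^ b := by
    rw [zpow_add₀ hne, zpow_sub₀ hne, zpow_neg, zpow_natCast, zpow_natCast, zpow_natCast, div_eq_mul_inv,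
      neg_one_inv, neg_one_inv]
  rw [e3, e4, add_comm a b]
  have hb := neg_one_zpow_mul_self b
  have hm := neg_one_zpow_mul_self m
  linear_combination ((κ : ℂ) ^ (b + a) * (1 / 2) * (-1) ^ a) *
    (conj (β m) * (-1) ^ m * H κ (-(m : ℤ) - b + a) (x - p) * hb +
      β m * H κ ((m : ℤ) - b + a) (x - p) * ((-1) ^ b * (-1) ^ b * hm + hb))

theorem eq_W (κ : ℝ) (β : ℕ → ℂ) (M : ℕ) (p : ℂ) (a b : ℕ) (x : ℂ) :
    W κ β M p (a + 1) (b + 1) x = -(κ : ℂ) ^ 2 * W κ β M p a b x := by
  unfold W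
  have e1 : ∀ m : ℕ, (m : ℤ) - ((a + 1 : ℕ) : ℤ) + ((b + 1 : ℕ) : ℤ) = (m : ℤ) - a + b := by
    intro m
    push_cast
    ring
  have e2 : ∀ m : ℕ, -(m : ℤ) - ((a + 1 : ℕ) : ℤ) + ((b + 1 : ℕ) : ℤ) = -(m : ℤ) - a + b := by
    intro m
    push_cast
    ring
  simp only [e1, e2]
  ring

theorem helm_W (κ : ℝ) (β : ℕ → ℂ) (M : ℕ) (p : ℂ) : Helm κ (W κ β M p) :=
  ⟨jet_W κ β M p, real_W κ β M p, eq_W κ β M p⟩

theorem analytic_W (κ : ℝ) (β : ℕ → ℂ) (M : ℕ) (p x : ℂ) : AnalyticAt ℝ (W κ β M p 0 0) x := by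
  unfold W
  refine analyticAt_const.mul (Finset.analyticAt_fun_sum _ fun m _ => ?_)
  have hH : ∀ n : ℤ, AnalyticAt ℝ (fun y => H κ n (y - p)) x := by
    intro n
    exact AnalyticAt.fun_comp (analyticAt_H κ n (x - p)) (analyticAt_id.fun_sub analyticAt_const)
  exact (analyticAt_const.mul (hH _)).fun_add (analyticAt_const.mul (hH _))

theorem W_zero (κ : ℝ) (β : ℕ → ℂ) (M : ℕ) (p x : ℂ) :
    W κ β M p 0 0 x = ((∑ m ∈ Finset.range (M + 1), β m * Hp κ m (x - p)).re : ℂ) := by
  unfold W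
  rw [Complex.re_eq_add_conj, map_sum, ← Finset.sum_add_distrib]
  have h1 : ∀ m : ℕ, β m * H κ ((m : ℤ) - ((0 : ℕ) : ℤ) + ((0 : ℕ) : ℤ)) (x - p) +
      (-1) ^ m * conj (β m) * H κ (-(m : ℤ) - ((0 : ℕ) : ℤ) + ((0 : ℕ) : ℤ)) (x - p) =
      β m * Hp κ m (x - p) + conj (β m * Hp κ m (x - p)) := by
    intro m
    rw [map_mul, conj_Hp]
    have e1 : (m : ℤ) - ((0 : ℕ) : ℤ) + ((0 : ℕ) : ℤ) = (m : ℤ) := by push_cast; ring
    have e2 : -(m : ℤ) - ((0 : ℕ) : ℤ) + ((0 : ℕ) : ℤ) = -(m : ℤ) := by push_cast; ring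
    rw [e1, e2, H_natCast, H_neg_natCast]
    ring
  rw [Finset.sum_congr rfl fun m _ => h1 m]
  simp only [add_zero, pow_zero]
  ring

theorem J_rec (m : ℕ) {x : ℝ} (hx : x ≠ 0) : J m x + J (m + 2) x = 2 * ((m : ℝ) + 1) / x * J (m + 1) x := by
  have h1 := (hasDerivAt_J (m + 1) hx).unique (hasDerivAt_J' m hx)
  push_cast at h1
  have h2 : 2 * ((m : ℝ) + 1) / x * J (m + 1) x = ((m : ℝ) + 1) / x * J (m + 1) x +
    ((m : ℝ) + 1) / x * J (m + 1) x := by ring
  rw [h2]
  linarith

/-- Main uniqueness theorem for one frequency. -/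
theorem uniq {κ : ℝ} (hκ : 0 < κ) (β : ℕ → ℂ) (p : ℂ) {g : ℝ → ℂ} (hg : Continuous g)
    (hinf : (range g).Infinite) (hcpt : IsCompact (range g)) (M : ℕ)
    (hcrit : ∀ s, W κ β M p 1 0 (g s) = 0) :
    (∀ x, W κ β M p 0 0 x = 0) ∨ ∀ m, 1 ≤ m → m ≤ M → β m = 0 := by
  induction M with
  | zero =>
    right
    intro m h1 h2
    omega
  | succ M ih =>
    by_cases hβ : β (M + 1) = 0
    · have hW : W κ β (M + 1) p = W κ β M p := by
        funext a b x
        unfold W
        rw [Finset.sum_range_succ _ (M + 1), hβ, map_zero, mul_zero, zero_mul, zero_mul, add_zero, add_zero]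
      rw [hW] at hcrit ⊢
      rcases ih hcrit with h | h
      · exact Or.inl h
      · right
        intro m h1 h2
        rcases Nat.lt_or_ge m (M + 1) with h3 | h3
        · exact h m h1 (by omega)
        · have : m = M + 1 := by omega
          rw [this]
          exact hβ
    left
    have hH := helm_W κ β (M + 1) p
    have hcrit' : ∀ s, W κ β (M + 1) p 0 1 (g s) = 0 := by
      intro s
      rw [← hH.real 1 0, hcrit s, map_zero]
    obtain ⟨c, hc⟩ := hH.const hκ.ne' hg hcrit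
    by_cases hc0 : c = 0
    · obtain ⟨q, -, hq⟩ := hinf.exists_accPt_of_subset_isCompact hcpt Subset.rfl
      have hsub : range g ⊆ {x | W κ β (M + 1) p 0 0 x = 0 ∧ W κ β (M + 1) p 1 0 x = 0} := by
        rintro _ ⟨s, rfl⟩
        exact ⟨(hc s).trans hc0, hcrit s⟩
      exact hH.jet.zero_of_flat (hH.flat (hq.mono (principal_mono.2 hsub))) (analytic_W κ β (M + 1) p)
    exfalso
    by_cases hr : ∃ s₁ s₂, ‖g s₁ - p‖ < ‖g s₂ - p‖
    · obtain ⟨s₁, s₂, hs⟩ := hr
      refine no_double (M + 1) (by omega) β (fun m => conj (β m)) (fun m => Complex.norm_conj _) hβ c hc0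
        (2 * κ * ‖g s₁ - p‖) (2 * κ * ‖g s₂ - p‖) (by gcongr) ?_
      intro r hr
      have hcont : Continuous fun s => 2 * κ * ‖g s - p‖ := by fun_prop
      obtain ⟨s, hs'⟩ := mem_range_of_exists_le_of_exists_ge hcont ⟨s₁, hr.1.le⟩ ⟨s₂, hr.2.le⟩
      have hr0 : 0 < r := lt_of_le_of_lt (by positivity) hr.1
      have hn0 : 0 < ‖g s - p‖ := by
        by_contra hcon
        have h1 : ‖g s - p‖ = 0 := le_antisymm (not_lt.1 hcon) (norm_nonneg _)
        simp only [h1, mul_zero] at hs'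
        exact hr0.ne hs'
      set x : ℂ := g s - p with hx
      have hx0 : x ≠ 0 := norm_pos_iff.1 hn0
      have hxn : (‖x‖ : ℂ) ≠ 0 := by exact_mod_cast hn0.ne'
      set T : ℂ := x / ‖x‖ with hT
      have hTi : (‖x‖ : ℂ) / x = T⁻¹ := by rw [hT, inv_div]
      have hr' : 2 * κ * ‖x‖ = r := hs'
      have hpp : ∀ m : ℕ, Hp κ m x = (J m r : ℂ) * T ^ m := by
        intro m
        rw [Hp_polar κ m hx0, hr']
      have hnn : ∀ m : ℕ, Hn κ m x = (-1) ^ m * ((J m r : ℂ) * T⁻¹ ^ m) := by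
        intro m
        rw [Hn_polar κ m hx0, hr', hTi]
      refine ⟨T, div_ne_zero hx0 hxn, ?_, ?_⟩
      · have h1 := hc s
        unfold W at h1
        rw [← h1, ← hx]
        simp only [add_zero, pow_zero, one_mul]
        rw [← mul_assoc, mul_one_div_cancel two_ne_zero, one_mul]
        refine Finset.sum_congr rfl fun m _ => ?_
        have e1 : (m : ℤ) - ((0 : ℕ) : ℤ) + ((0 : ℕ) : ℤ) = (m : ℤ) := by push_cast; ring
        have e2 : -(m : ℤ) - ((0 : ℕ) : ℤ) + ((0 : ℕ) : ℤ) = -(m : ℤ) := by push_cast; ring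
        rw [e1, e2, H_natCast, H_neg_natCast, hpp, hnn]
        linear_combination (-(conj (β m) * (J m r : ℂ) * T⁻¹ ^ m)) * neg_one_zpow_mul_self m
      · have h1 : x * W κ β (M + 1) p 1 0 (g s) - conj x * W κ β (M + 1) p 0 1 (g s) = 0 := by
          rw [hcrit s, hcrit' s]
          ring
        unfold W at h1
        rw [← hx] at h1
        have h2 : ∀ m : ℕ, (J m r : ℂ) * (m * (β m * T ^ m - conj (β m) * T⁻¹ ^ m)) =
            κ * (x * (β m * H κ ((m : ℤ) - 1) x + (-1) ^ m * conj (β m) * H κ (-(m : ℤ) - 1) x) +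
              conj x * (β m * H κ ((m : ℤ) + 1) x + (-1) ^ m * conj (β m) * H κ (-(m : ℤ) + 1) x)) := by
          intro m
          have r1 := H_rot κ (m : ℤ) x
          have r2 := H_rot κ (-(m : ℤ)) x
          rw [H_natCast, hpp] at r1
          rw [H_neg_natCast, hnn] at r2
          push_cast at r1 r2
          linear_combination (-(β m)) * r1 - (-1) ^ m * conj (β m) * r2 +
            (m * conj (β m) * (J m r : ℂ) * T⁻¹ ^ m) * neg_one_zpow_mul_self m
        rw [Finset.sum_congr rfl fun m _ => h2 m, ← Finset.mul_sum, Finset.sum_add_distrib, ← Finset.mul_sum,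
          ← Finset.mul_sum]
        have h3 : ∀ m : ℕ, (m : ℤ) - ((1 : ℕ) : ℤ) + ((0 : ℕ) : ℤ) = (m : ℤ) - 1 := by intro m; push_cast; ring
        have h4 : ∀ m : ℕ, -(m : ℤ) - ((1 : ℕ) : ℤ) + ((0 : ℕ) : ℤ) = -(m : ℤ) - 1 := by intro m; push_cast; ring
        have h5 : ∀ m : ℕ, (m : ℤ) - ((0 : ℕ) : ℤ) + ((1 : ℕ) : ℤ) = (m : ℤ) + 1 := by intro m; push_cast; ring
        have h6 : ∀ m : ℕ, -(m : ℤ) - ((0 : ℕ) : ℤ) + ((1 : ℕ) : ℤ) = -(m : ℤ) + 1 := by intro m; push_cast; ring
        simp only [h3, h4, h5, h6] at h1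
        linear_combination 2 * h1
    · -- all points at the same distance
      push Not at hr
      have hconst : ∀ s, ‖g s - p‖ = ‖g 0 - p‖ := fun s => le_antisymm (hr 0 s) (hr s 0)
      set ρ : ℝ := ‖g 0 - p‖ with hρ
      have hρ0 : 0 < ρ := by
        by_contra hcon
        have h1 : ρ = 0 := le_antisymm (not_lt.1 hcon) (norm_nonneg _)
        apply hinf
        refine (finite_singleton p).subset ?_
        rintro _ ⟨s, rfl⟩
        have h2 := hconst s
        rw [h1, norm_eq_zero, sub_eq_zero] at h2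
        exact h2
      have hρc : (ρ : ℂ) ≠ 0 := by exact_mod_cast hρ0.ne'
      set r : ℝ := 2 * κ * ρ with hrdef
      have hr0 : 0 < r := by positivity
      set N : ℕ := M + 1 with hN
      set A : ℕ → ℂ := fun m => if m = 0 then -(β 0 * J 1 r) else β m * J (m - 1) r with hA
      set Q : Polynomial ℂ := ∑ m ∈ Finset.range (N + 1),
        (Polynomial.C (A m) * Polynomial.X ^ (N + m) +
          Polynomial.C (-(conj (β m) * J (m + 1) r)) * Polynomial.X ^ (N - m)) with hQ
      have hroot : ∀ s, Q.eval ((g s - p) / ρ) = 0 := by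
        intro s
        set x : ℂ := g s - p with hx
        have hxρ : ‖x‖ = ρ := hconst s
        have hx0 : x ≠ 0 := norm_pos_iff.1 (by rw [hxρ]; exact hρ0)
        set T : ℂ := x / ρ with hT
        have hT0 : T ≠ 0 := div_ne_zero hx0 hρc
        have hTi : (ρ : ℂ) / x = T⁻¹ := by rw [hT, inv_div]
        have hr' : 2 * κ * ‖x‖ = r := by rw [hxρ]
        have hpp : ∀ m : ℕ, Hp κ m x = (J m r : ℂ) * T ^ m := by
          intro m
          rw [Hp_polar κ m hx0, hr', hxρ]
        have hnn : ∀ m : ℕ, Hn κ m x = (-1) ^ m * ((J m r : ℂ) * T⁻¹ ^ m) := by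
          intro m
          rw [Hn_polar κ m hx0, hr', hxρ, hTi]
        have h1 := hcrit s
        unfold W at h1
        rw [← hx] at h1
        have hκ1 : (κ : ℂ) ^ (1 + 0) * (-1) ^ 0 * (1 / 2) ≠ 0 := by
          have : (κ : ℂ) ≠ 0 := by exact_mod_cast hκ.ne'
          simp [this]
        have h2 := (mul_eq_zero.1 h1).resolve_left hκ1
        have h3 : Q.eval T = T ^ N * (T * ∑ m ∈ Finset.range (M + 1 + 1),
            (β m * H κ ((m : ℤ) - ((1 : ℕ) : ℤ) + ((0 : ℕ) : ℤ)) x +
              (-1) ^ m * conj (β m) * H κ (-(m : ℤ) - ((1 : ℕ) : ℤ) + ((0 : ℕ) : ℤ)) x)) := by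
          rw [hQ, Polynomial.eval_finsetSum, Finset.mul_sum, Finset.mul_sum]
          refine Finset.sum_congr rfl fun m hm => ?_
          have hm' : m ≤ N := by
            have := Finset.mem_range.1 hm
            omega
          simp only [Polynomial.eval_add, Polynomial.eval_mul, Polynomial.eval_C, Polynomial.eval_pow,
            Polynomial.eval_X]
          have e1 : T ^ N = T ^ (N - m) * T ^ m := by rw [← pow_add, Nat.sub_add_cancel hm']
          have e2 : T ^ (N - m) = T ^ N * T⁻¹ ^ m := by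
            rw [e1, mul_assoc, ← mul_pow, mul_inv_cancel₀ hT0, one_pow, mul_one]
          have e3 : -(m : ℤ) - ((1 : ℕ) : ℤ) + ((0 : ℕ) : ℤ) = -((m + 1 : ℕ) : ℤ) := by push_cast; ring
          rw [e2, e3, H_neg_natCast, hnn, pow_add]
          have hTT : T * T⁻¹ = 1 := mul_inv_cancel₀ hT0
          rcases m with _ | m
          · have e4 : ((0 : ℕ) : ℤ) - ((1 : ℕ) : ℤ) + ((0 : ℕ) : ℤ) = -((1 : ℕ) : ℤ) := by
              norm_num
            rw [e4, H_neg_natCast, hnn]
            simp only [hA, if_true]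
            push_cast
            linear_combination (T ^ N * (β 0 * (J 1 r : ℂ) + conj (β 0) * (J (0 + 1) r : ℂ))) * hTT
          · have e4 : ((m + 1 : ℕ) : ℤ) - ((1 : ℕ) : ℤ) + ((0 : ℕ) : ℤ) = (m : ℤ) := by
              push_cast
              ring
            rw [e4, H_natCast, hpp]
            have e5 : A (m + 1) = β (m + 1) * J m r := by simp [hA]
            rw [e5]
            have e6 := neg_one_zpow_mul_self (m + 1)
            linear_combination
              (T ^ N * conj (β (m + 1)) * (J (m + 1 + 1) r : ℂ) * T⁻¹ ^ (m + 1)) * ((-1) ^ (m + 1) * (-1) ^ (m + 1) * hTT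
                + e6)
        rw [h3, h2, mul_zero, mul_zero]
      have hQ0 : Q = 0 := by
        apply Polynomial.eq_zero_of_infinite_isRoot
        have h1 : (range fun s => (g s - p) / (ρ : ℂ)).Infinite := by
          have h2 : (range fun s => (g s - p) / (ρ : ℂ)) = (fun y => (y - p) / (ρ : ℂ)) '' range g := by
            rw [← range_comp]
            rfl
          rw [h2]
          refine hinf.image ?_
          intro y _ z _ hyz
          have h3 : (y - p) / (ρ : ℂ) = (z - p) / (ρ : ℂ) := hyz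
          rw [div_left_inj' hρc] at h3
          exact sub_left_inj.1 h3
        refine h1.mono ?_
        rintro _ ⟨s, rfl⟩
        exact hroot s
      have hcoef : ∀ k, Q.coeff k = ∑ m ∈ Finset.range (N + 1),
          ((if k = N + m then A m else 0) + (if k = N - m then -(conj (β m) * J (m + 1) r) else 0)) := by
        intro k
        rw [hQ, Polynomial.finsetSum_coeff]
        simp only [Polynomial.coeff_add, Polynomial.coeff_C_mul_X_pow]
      have htop : A N = 0 := by
        have h1 := hcoef (2 * N)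
        rw [hQ0, Polynomial.coeff_zero, Finset.sum_eq_single N] at h1
        · rw [if_pos (by omega), if_neg (by omega), add_zero] at h1
          exact h1.symm
        · intro m hm hmN
          have hm' : m ≤ N := by
            have := Finset.mem_range.1 hm
            omega
          rw [if_neg (by omega), if_neg (by omega), add_zero]
        · intro hcon
          exact absurd (Finset.mem_range.2 (Nat.lt_succ_self N)) hcon
      have hbot : -(conj (β N) * J (N + 1) r) = 0 := by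
        have h1 := hcoef 0
        rw [hQ0, Polynomial.coeff_zero, Finset.sum_eq_single N] at h1
        · rw [if_neg (by omega), if_pos (by omega), zero_add] at h1
          exact h1.symm
        · intro m hm hmN
          have hm' : m ≤ N := by
            have := Finset.mem_range.1 hm
            omega
          rw [if_neg (by omega), if_neg (by omega), add_zero]
        · intro hcon
          exact absurd (Finset.mem_range.2 (Nat.lt_succ_self N)) hcon
      have hJ1 : J M r = 0 := by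
        have h1 : A N = β (M + 1) * J M r := by simp [hA, hN]
        rw [h1] at htop
        exact_mod_cast (mul_eq_zero.1 htop).resolve_left hβ
      have hJ2 : J (M + 2) r = 0 := by
        have h1 := neg_eq_zero.1 hbot
        have h2 : conj (β N) ≠ 0 := by
          rw [hN]
          exact (map_ne_zero _).2 hβ
        exact_mod_cast (mul_eq_zero.1 h1).resolve_left h2
      have hJ3 : J (M + 1) r = 0 := by
        have h1 := J_rec M hr0.ne'
        rw [hJ1, hJ2, add_zero] at h1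
        have h2 : 2 * ((M : ℝ) + 1) / r ≠ 0 := by positivity
        exact (mul_eq_zero.1 h1.symm).resolve_left h2
      have hen := en_pos M hr0
      unfold en at hen
      rw [hJ1, hJ3] at hen
      norm_num at hen

end DrumF
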