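import Pool.Agent.Lib.MP_d92c84_an.One
import Pool.Agent.Lib.MP_d92c84_an.Boh

/-!
# Superpositions of plane waves with finitely many waves at each frequency
-/

set_option autoImplicit false

namespace DrumF

open Filter Topology Set
open scoped ComplexConjugate

section
variable {ι : Type*} {c : ℝ} {b k : ι → ℂ}

theorem exp_split (c : ℝ) (k x : ℂ) (t : ℝ) :
    Complex.exp (Complex.I * (((conj k * x).re - c * ‖k‖ * t : ℝ) : ℂ)) =
      Complex.exp (Complex.I * ((conj k * x).re : ℂ)) * Complex.exp (Complex.I * ((-(c * ‖k‖) : ℝ) : ℂ) * t) := by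
  rw [← Complex.exp_add]
  congr 1
  push_cast
  ring

theorem norm_exp_re (y : ℝ) : ‖Complex.exp (Complex.I * (y : ℂ))‖ = 1 := by
  rw [mul_comm, Complex.norm_exp_ofReal_mul_I]

/-- Orthogonality to a fixed frequency, for the two complex components of the gradient. -/
theorem fiber_sums [Countable ι] (hc : 0 < c) (hk0 : ∀ j, k j ≠ 0)
    (hsum : Summable fun j => ‖b j‖ * ‖k j‖) (hfin : ∀ w : ℝ, {j | ‖k j‖ = w}.Finite) {y : ℂ}
    (hcrit : ∀ t : ℝ, ∑' j, k j *
      ((b j * Complex.exp (Complex.I * (((conj (k j) * y).re - c * ‖k j‖ * t : ℝ) : ℂ))).im : ℂ) = 0)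
    {w : ℝ} (hw : 0 < w) :
    ∑ j ∈ (hfin w).toFinset, k j * (b j * Complex.exp (Complex.I * ((conj (k j) * y).re : ℂ))) = 0 ∧
      ∑ j ∈ (hfin w).toFinset, conj (k j) * (b j * Complex.exp (Complex.I * ((conj (k j) * y).re : ℂ))) = 0 := by
  classical
  have hgen : ∀ l : ι → ℂ, (∀ j, ‖l j‖ = ‖k j‖) → (∀ t : ℝ, ∑' j, l j *
      ((b j * Complex.exp (Complex.I * (((conj (k j) * y).re - c * ‖k j‖ * t : ℝ) : ℂ))).im : ℂ) = 0) →
      ∑ j ∈ (hfin w).toFinset, l j * (b j * Complex.exp (Complex.I * ((conj (k j) * y).re : ℂ))) = 0 := by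
    intro l hl h0
    set e : ι → ℂ := fun j => Complex.exp (Complex.I * ((conj (k j) * y).re : ℂ)) with he
    have hen : ∀ j, ‖e j‖ = 1 := fun j => norm_exp_re _
    have hp : Summable fun j => ‖l j * (b j * e j)‖ := by
      refine hsum.congr fun j => ?_
      rw [norm_mul, norm_mul, hen, hl, mul_one, mul_comm]
    have hq : Summable fun j => ‖-(l j * conj (b j * e j))‖ := by
      refine hsum.congr fun j => ?_
      rw [norm_neg, norm_mul, Complex.norm_conj, norm_mul, hen, hl, mul_one, mul_comm]
    have h1 := bohr hp hq (ω := fun j => c * ‖k j‖) (fun j => mul_pos hc (norm_pos_iff.2 (hk0 j))) (fun t => by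
      have h2 : ∀ j, l j * (b j * e j) * Complex.exp (Complex.I * ((-(c * ‖k j‖) : ℝ) : ℂ) * t) +
          -(l j * conj (b j * e j)) * Complex.exp (Complex.I * ((c * ‖k j‖ : ℝ) : ℂ) * t) =
          (2 * Complex.I) * (l j *
      ((b j * Complex.exp (Complex.I * (((conj (k j) * y).re - c * ‖k j‖ * t : ℝ) : ℂ))).im : ℂ)) := by
        intro j
        rw [exp_split, Complex.im_eq_sub_conj]
        have h3 : conj (b j * (Complex.exp (Complex.I * ((conj (k j) * y).re : ℂ)) *
            Complex.exp (Complex.I * ((-(c * ‖k j‖) : ℝ) : ℂ) * t))) =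
            conj (b j * e j) * Complex.exp (Complex.I * ((c * ‖k j‖ : ℝ) : ℂ) * t) := by
          rw [← mul_assoc, map_mul (starRingEnd ℂ) (b j * _)]
          congr 1
          rw [← Complex.exp_conj]
          congr 1
          simp only [map_mul, Complex.conj_I, Complex.conj_ofReal]
          push_cast
          ring
        rw [h3]
        have hI : (Complex.I : ℂ) ≠ 0 := Complex.I_ne_zero
        field_simp
        ring
      rw [tsum_congr h2, tsum_mul_left, h0 t, mul_zero]) (mul_pos hc hw)
    rw [tsum_eq_sum (s := (hfin w).toFinset)] at h1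
    · rw [← h1]
      refine Finset.sum_congr rfl fun j hj => ?_
      have h2 : ‖k j‖ = w := by simpa using hj
      rw [if_pos (by rw [h2, sub_self]), mul_one]
    · intro j hj
      have h2 : ‖k j‖ ≠ w := by simpa using hj
      rw [if_neg, mul_zero]
      intro h3
      apply h2
      have h4 : c * (w - ‖k j‖) = 0 := by linarith
      rcases mul_eq_zero.1 h4 with h5 | h5
      · exact absurd h5 hc.ne'
      · linarith
  refine ⟨hgen k (fun _ => rfl) hcrit, hgen (fun j => conj (k j)) (fun j => Complex.norm_conj _) fun t => ?_⟩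
  have h1 := congrArg conj (hcrit t)
  rw [Complex.conj_tsum, map_zero] at h1
  rw [← h1]
  refine tsum_congr fun j => ?_
  rw [map_mul, Complex.conj_ofReal]

/-- A superposition of plane waves with a closed critical curve vanishes. -/
theorem planes_zero [Countable ι] (hc : 0 < c) (hk0 : ∀ j, k j ≠ 0)
    (hsum : Summable fun j => ‖b j‖ * (1 + ‖k j‖)) (hfin : ∀ w : ℝ, {j | ‖k j‖ = w}.Finite)
    {g : Circle → ℂ} (hg : Continuous g) (hinj : Function.Injective g)
    (hcrit : ∀ s, ∀ t : ℝ, ∑' j, k j *
      ((b j * Complex.exp (Complex.I * (((conj (k j) * g s).re - c * ‖k j‖ * t : ℝ) : ℂ))).im : ℂ) = 0) :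
    (∀ w x, ∑ j ∈ (hfin w).toFinset, b j * Complex.exp (Complex.I * ((conj (k j) * x).re : ℂ)) = 0) ∧
    ∀ x, ∀ t : ℝ, ∑' j, b j * Complex.exp (Complex.I * (((conj (k j) * x).re - c * ‖k j‖ * t : ℝ) : ℂ)) = 0 := by
  classical
  have hsum1 : Summable fun j => ‖b j‖ * ‖k j‖ :=
    Summable.of_nonneg_of_le (fun j => by positivity) (fun j => by
      have := norm_nonneg (b j)
      nlinarith [norm_nonneg (k j)]) hsum
  have hsum0 : Summable fun j => ‖b j‖ :=
    Summable.of_nonneg_of_le (fun j => by positivity) (fun j => by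
      have := norm_nonneg (b j)
      nlinarith [norm_nonneg (k j), mul_nonneg (norm_nonneg (b j)) (norm_nonneg (k j))]) hsum
  have hA : ∀ w x, ∑ j ∈ (hfin w).toFinset, b j * Complex.exp (Complex.I * ((conj (k j) * x).re : ℂ)) = 0 := by
    intro w x
    rcases le_or_gt w 0 with hw | hw
    · have h1 : (hfin w).toFinset = ∅ := by
        ext j
        simp only [Finite.mem_toFinset, mem_ofPred_eq, Finset.notMem_empty, iff_false]
        intro h2
        have := norm_pos_iff.2 (hk0 j)
        linarith
      rw [h1, Finset.sum_empty]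
    set F := (hfin w).toFinset with hF
    have hFw : ∀ j ∈ F, ‖k j‖ = w := fun j hj => by simpa [hF] using hj
    have hwc : (w : ℂ) ≠ 0 := by exact_mod_cast hw.ne'
    set ζ : ι → ℂ := fun j => conj (k j) / w with hζ
    have hζn : ∀ j ∈ F, ‖ζ j‖ = 1 := by
      intro j hj
      rw [hζ]
      simp only
      rw [norm_div, Complex.norm_conj, hFw j hj, Complex.norm_real, Real.norm_eq_abs, abs_of_pos hw, div_self hw.ne']
    have hphase : ∀ j, ∀ y : ℂ, Complex.I * ((w / 2 : ℝ) : ℂ) * (ζ j * y + conj (ζ j) * conj y) =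
        Complex.I * ((conj (k j) * y).re : ℂ) := by
      intro j y
      rw [Complex.re_eq_add_conj]
      simp only [hζ, map_mul, map_div₀, Complex.conj_conj, Complex.conj_ofReal]
      push_cast
      field_simp
    have hphase' : ∀ j, ∀ y : ℂ, Complex.I * ((w / 2 : ℝ) : ℂ) * (-ζ j * y + conj (-ζ j) * conj y) =
        -(Complex.I * ((conj (k j) * y).re : ℂ)) := by
      intro j y
      rw [← hphase, map_neg]
      ring
    have hone : ∀ θ : ℂ, (∑ j ∈ F, (θ * b j) * Complex.exp (Complex.I * ((conj (k j) * x).re : ℂ))).re = 0 := by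
      intro θ
      have h1 := plane_one (F := F) (b := fun j => θ * b j) (ζ := ζ) (κ := w / 2) (by positivity) hζn hg hinj
        (fun s => by
          obtain ⟨f1, f2⟩ := fiber_sums hc hk0 hsum1 hfin (hcrit s) hw
          rw [PW_dirs]
          set E : ι → ℂ := fun j => Complex.exp (Complex.I * ((conj (k j) * g s).re : ℂ)) with hE
          have h2 : ∀ j ∈ F, θ * b j * ((Complex.I * ((w / 2 : ℝ) : ℂ) * ζ j) ^ 1 *
              (Complex.I * ((w / 2 : ℝ) : ℂ) * conj (ζ j)) ^ 0 *
              Complex.exp (Complex.I * ((w / 2 : ℝ) : ℂ) * (ζ j * g s + conj (ζ j) * conj (g s)))) +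
              conj (θ * b j) * ((Complex.I * ((w / 2 : ℝ) : ℂ) * -ζ j) ^ 1 *
              (Complex.I * ((w / 2 : ℝ) : ℂ) * conj (-ζ j)) ^ 0 *
              Complex.exp (Complex.I * ((w / 2 : ℝ) : ℂ) * (-ζ j * g s + conj (-ζ j) * conj (g s)))) =
              (Complex.I / 2 * θ) * (conj (k j) * (b j * E j)) -
                (Complex.I / 2 * conj θ) * conj (k j * (b j * E j)) := by
            intro j hj
            rw [hphase, hphase']
            have h3 : conj (E j) = Complex.exp (-(Complex.I * ((conj (k j) * g s).re : ℂ))) := by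
              rw [hE]
              simp only
              rw [← Complex.exp_conj]
              congr 1
              rw [map_mul, Complex.conj_I, Complex.conj_ofReal]
              ring
            rw [map_mul conj (k j), map_mul conj (b j), h3, map_mul conj θ]
            simp only [hζ, hE]
            push_cast
            field_simp
            ring
          rw [Finset.sum_congr rfl h2, Finset.sum_sub_distrib, ← Finset.mul_sum, ← Finset.mul_sum, ← map_sum, f1, f2]
          simp) x
      rw [← h1]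
      congr 1
      refine Finset.sum_congr rfl fun j _ => ?_
      rw [hphase]
    have h1 := hone 1
    have h2 := hone (-Complex.I)
    have h3 : ∑ j ∈ F, (-Complex.I * b j) * Complex.exp (Complex.I * ((conj (k j) * x).re : ℂ)) =
        -Complex.I * ∑ j ∈ F, b j * Complex.exp (Complex.I * ((conj (k j) * x).re : ℂ)) := by
      rw [Finset.mul_sum]
      refine Finset.sum_congr rfl fun j _ => ?_
      ring
    rw [h3] at h2
    simp only [one_mul] at h1
    refine Complex.ext h1 ?_
    have h4 : (-Complex.I * ∑ j ∈ F, b j * Complex.exp (Complex.I * ((conj (k j) * x).re : ℂ))).re =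
        (∑ j ∈ F, b j * Complex.exp (Complex.I * ((conj (k j) * x).re : ℂ))).im := by
      rw [neg_mul, Complex.neg_re, Complex.I_mul_re, neg_neg]
    rw [h4] at h2
    rw [h2, Complex.zero_im]
  refine ⟨hA, fun x t => ?_⟩
  set f : ι → ℂ := fun j => b j * Complex.exp (Complex.I * (((conj (k j) * x).re - c * ‖k j‖ * t : ℝ) : ℂ)) with hf
  have hfs : Summable f := by
    refine Summable.of_norm_bounded hsum0 fun j => ?_
    rw [hf]
    simp only
    rw [norm_mul, norm_exp_re, mul_one]
  set e := Equiv.sigmaFiberEquiv (fun j => ‖k j‖) with he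
  rw [← e.tsum_eq f]
  have h1 : Summable fun q : (y : ℝ) × {j // ‖k j‖ = y} => f (e q) := e.summable_iff.2 hfs
  rw [h1.tsum_sigma]
  have h2 : ∀ w : ℝ, ∑' q : {j // ‖k j‖ = w}, f (e ⟨w, q⟩) = 0 := by
    intro w
    have h3 : ∑' q : {j // ‖k j‖ = w}, f (e ⟨w, q⟩) = ∑' q : {j | ‖k j‖ = w}, f q := rfl
    rw [h3, tsum_subtype {j | ‖k j‖ = w} f, tsum_eq_sum (s := (hfin w).toFinset)]
    · have h4 : ∀ j ∈ (hfin w).toFinset, {j | ‖k j‖ = w}.indicator f j =
          (b j * Complex.exp (Complex.I * ((conj (k j) * x).re : ℂ))) *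
            Complex.exp (Complex.I * ((-(c * w) : ℝ) : ℂ) * t) := by
        intro j hj
        have h5 : ‖k j‖ = w := by simpa using hj
        rw [indicator_of_mem (show j ∈ {j | ‖k j‖ = w} from h5)]
        simp only [hf]
        rw [exp_split, h5]
        ring
      rw [Finset.sum_congr rfl h4, ← Finset.sum_mul, hA w x, zero_mul]
    · intro j hj
      have h5 : j ∉ {j | ‖k j‖ = w} := by simpa using hj
      rw [indicator_of_notMem h5]
  rw [tsum_congr h2, tsum_zero]

end

end DrumF
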