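import Pool.Agent.Lib.MP_d92c84_an.Pla

/-!
# The critical points of a complexified plane wave sum lie in a tube about the real plane
-/

set_option autoImplicit false

namespace DrumF

open Filter Topology Set
open scoped ComplexConjugate

theorem exists_lower {ι : Type*} (S : Finset ι) (f : ι → ℝ) (hf : ∀ i ∈ S, 0 < f i) :
    ∃ δ > 0, ∀ i ∈ S, δ ≤ f i := by
  rcases S.eq_empty_or_nonempty with h | h
  · exact ⟨1, one_pos, fun i hi => by simp [h] at hi⟩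
  · obtain ⟨j, hj, hmin⟩ := S.exists_min_image f h
    exact ⟨f j, hf j hj, hmin⟩

private theorem mul_conj_one {ζ : ℂ} (h : ‖ζ‖ = 1) : ζ * conj ζ = 1 := by
  rw [Complex.mul_conj, Complex.normSq_eq_norm_sq, h]
  simp

/-- Three distinct points of the unit circle are not collinear. -/
theorem noncol {α β γ : ℂ} (hα : ‖α‖ = 1) (hβ : ‖β‖ = 1) (hγ : ‖γ‖ = 1) (h1 : α ≠ β) (h2 : α ≠ γ) (h3 : β ≠ γ) :
    (conj (α - β) * (α - γ)).im ≠ 0 := by
  intro h0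
  have h4 : conj (conj (α - β) * (α - γ)) = conj (α - β) * (α - γ) := Complex.conj_eq_iff_im.2 h0
  rw [map_mul, Complex.conj_conj, map_sub, map_sub] at h4
  have a1 := mul_conj_one hα
  have b1 := mul_conj_one hβ
  have c1 := mul_conj_one hγ
  have h5 : (α - β) * (α - γ) * (β - γ) = 0 := by
    have e1 : α * β * (conj α - conj β) = β - α := by linear_combination β * a1 - α * b1
    have e2 : α * γ * (conj α - conj γ) = γ - α := by linear_combination γ * a1 - α * c1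
    linear_combination (-(α * β * γ)) * h4 - (γ * (α - γ)) * e1 + (β * (α - β)) * e2
  rcases mul_eq_zero.1 h5 with h6 | h6
  · rcases mul_eq_zero.1 h6 with h7 | h7
    · exact h1 (sub_eq_zero.1 h7)
    · exact h2 (sub_eq_zero.1 h7)
  · exact h3 (sub_eq_zero.1 h6)

theorem two_forms (p q e : ℂ) :
    |(conj p * q).im| * ‖e‖ ≤ ‖p‖ * |(conj q * e).re| + ‖q‖ * |(conj p * e).re| := by
  have h1 : ((conj p * q).im : ℂ) * e = Complex.I * (p * ((conj q * e).re : ℂ) - q * ((conj p * e).re : ℂ)) := by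
    have h2 : ((conj p * q).im : ℂ) = (conj p * q - p * conj q) / (2 * Complex.I) := by
      rw [Complex.im_eq_sub_conj, map_mul, Complex.conj_conj]
    have h3 : ((conj q * e).re : ℂ) = (conj q * e + q * conj e) / 2 := by
      rw [Complex.re_eq_add_conj, map_mul, Complex.conj_conj]
    have h4 : ((conj p * e).re : ℂ) = (conj p * e + p * conj e) / 2 := by
      rw [Complex.re_eq_add_conj, map_mul, Complex.conj_conj]
    rw [h2, h3, h4]
    have hI : Complex.I ≠ 0 := Complex.I_ne_zero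
    field_simp
    linear_combination (q * conj p * e - p * conj q * e) * Complex.I_sq
  have h2 : |(conj p * q).im| * ‖e‖ = ‖((conj p * q).im : ℂ) * e‖ := by
    rw [norm_mul, Complex.norm_real, Real.norm_eq_abs]
  rw [h2, h1, norm_mul, Complex.norm_I, one_mul]
  refine (norm_sub_le _ _).trans ?_
  rw [norm_mul, norm_mul, Complex.norm_real, Complex.norm_real, Real.norm_eq_abs, Real.norm_eq_abs]

/-- Uniform gap for the weights. -/
theorem gap {Z : Finset ℂ} (hZ : ∀ ζ ∈ Z, ‖ζ‖ = 1) : ∃ δ > 0, ∀ α ∈ Z, ∀ β ∈ Z, ∀ γ ∈ Z, α ≠ β → α ≠ γ → β ≠ γ →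
    ∀ e : ℂ, δ * ‖e‖ ≤ max |(conj (α - β) * e).re| |(conj (α - γ) * e).re| := by
  classical
  obtain ⟨δ, hδ, h⟩ := exists_lower ((Z ×ˢ Z ×ˢ Z).filter fun t => t.1 ≠ t.2.1 ∧ t.1 ≠ t.2.2 ∧ t.2.1 ≠ t.2.2)
    (fun t => |(conj (t.1 - t.2.1) * (t.1 - t.2.2)).im|) (by
      rintro ⟨α, β, γ⟩ ht
      obtain ⟨ht1, h1, h2, h3⟩ := Finset.mem_filter.1 ht
      obtain ⟨hα, ht2⟩ := Finset.mem_product.1 ht1
      obtain ⟨hβ, hγ⟩ := Finset.mem_product.1 ht2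
      exact abs_pos.2 (noncol (hZ α hα) (hZ β hβ) (hZ γ hγ) h1 h2 h3))
  refine ⟨δ / 4, by positivity, ?_⟩
  intro α hα β hβ γ hγ h1 h2 h3 e
  have h4 := h (α, β, γ) (Finset.mem_filter.2 ⟨Finset.mem_product.2 ⟨hα, Finset.mem_product.2 ⟨hβ, hγ⟩⟩, h1, h2, h3⟩)
  have h5 := two_forms (α - β) (α - γ) e
  have n1 : ‖α - β‖ ≤ 2 := by
    refine (norm_sub_le _ _).trans ?_
    rw [hZ α hα, hZ β hβ]
    norm_num
  have n2 : ‖α - γ‖ ≤ 2 := by
    refine (norm_sub_le _ _).trans ?_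
    rw [hZ α hα, hZ γ hγ]
    norm_num
  have m1 := le_max_left |(conj (α - β) * e).re| |(conj (α - γ) * e).re|
  have m2 := le_max_right |(conj (α - β) * e).re| |(conj (α - γ) * e).re|
  set m := max |(conj (α - β) * e).re| |(conj (α - γ) * e).re| with hm
  have p1 : δ * ‖e‖ ≤ |(conj (α - β) * (α - γ)).im| * ‖e‖ := mul_le_mul_of_nonneg_right h4 (norm_nonneg _)
  have p2 : ‖α - β‖ * |(conj (α - γ) * e).re| ≤ 2 * m :=
    mul_le_mul n1 m2 (abs_nonneg _) (by norm_num)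
  have p3 : ‖α - γ‖ * |(conj (α - β) * e).re| ≤ 2 * m :=
    mul_le_mul n2 m1 (abs_nonneg _) (by norm_num)
  linarith

/-- All critical points of the complexified wave are near the real plane. -/
theorem tube {κ : ℝ} (hκ : 0 < κ) {Z : Finset ℂ} {a : ℂ → ℂ} (hZ : ∀ ζ ∈ Z, ‖ζ‖ = 1) (hs : ∀ ζ ∈ Z, -ζ ∈ Z)
    (ha : ∀ ζ ∈ Z, a ζ ≠ 0) (hcard : 3 ≤ Z.card) :
    ∃ R : ℝ, 0 ≤ R ∧ ∀ z w : ℂ, U κ Z a 1 0 z w = 0 → U κ Z a 0 1 z w = 0 → ‖w - conj z‖ ≤ R := by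
  classical
  obtain ⟨δ, hδ, hgap⟩ := gap hZ
  obtain ⟨m, hm, hmin⟩ := exists_lower Z (fun ζ => ‖a ζ‖) fun ζ hζ => norm_pos_iff.2 (ha ζ hζ)
  obtain ⟨δ', hδ', hdet⟩ := exists_lower ((Z ×ˢ Z).filter fun t => t.1 ≠ t.2 ∧ t.1 ≠ -t.2)
    (fun t => ‖conj t.2 * t.1 - t.2 * conj t.1‖) (by
      rintro ⟨α, β⟩ ht
      obtain ⟨ht1, h1, h2⟩ := Finset.mem_filter.1 ht
      obtain ⟨hα, hβ⟩ := Finset.mem_product.1 ht1
      rw [norm_pos_iff]
      intro h0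
      have a1 := mul_conj_one (hZ α hα)
      have b1 := mul_conj_one (hZ β hβ)
      have h3 : (α - β) * (α + β) = 0 := by
        have h4 : conj β * α - β * conj α = 0 := h0
        linear_combination (α * β) * h4 - α ^ 2 * b1 + β ^ 2 * a1
      rcases mul_eq_zero.1 h3 with h5 | h5
      · exact h1 (sub_eq_zero.1 h5)
      · exact h2 (eq_neg_of_add_eq_zero_left h5))
  refine ⟨2 * As Z a / (δ' * m * (κ * δ)), by have := As_nonneg Z a; positivity, ?_⟩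
  intro z w h10 h01
  set D : ℂ := w - conj z with hD
  set e : ℂ := Complex.I * D with he
  have hen : ‖e‖ = ‖D‖ := by rw [he, norm_mul, Complex.norm_I, one_mul]
  set h : ℂ → ℝ := fun ζ => κ * (conj ζ * e).re with hh
  set A : ℂ → ℂ := fun ζ => a ζ * Complex.exp (Complex.I * κ * (ζ * z + conj ζ * w)) with hA
  have hAn : ∀ ζ, ‖A ζ‖ = ‖a ζ‖ * Real.exp (h ζ) := by
    intro ζ
    rw [hA]
    simp only
    rw [norm_mul, norm_exp_plane]
    congr 2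
    rw [hh, he]
    simp only
    have h1 : conj ζ * (Complex.I * D) = Complex.I * (conj ζ * D) := by ring
    rw [h1, Complex.I_mul_re]
    ring
  have hκc : (Complex.I * κ : ℂ) ≠ 0 := mul_ne_zero Complex.I_ne_zero (by exact_mod_cast hκ.ne')
  have s1 : ∑ ζ ∈ Z, ζ * A ζ = 0 := by
    have h1 : U κ Z a 1 0 z w = (Complex.I * κ) * ∑ ζ ∈ Z, ζ * A ζ := by
      unfold U
      rw [Finset.mul_sum]
      refine Finset.sum_congr rfl fun ζ _ => ?_
      rw [hA]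
      ring
    rw [h1] at h10
    exact (mul_eq_zero.1 h10).resolve_left hκc
  have s2 : ∑ ζ ∈ Z, conj ζ * A ζ = 0 := by
    have h1 : U κ Z a 0 1 z w = (Complex.I * κ) * ∑ ζ ∈ Z, conj ζ * A ζ := by
      unfold U
      rw [Finset.mul_sum]
      refine Finset.sum_congr rfl fun ζ _ => ?_
      rw [hA]
      ring
    rw [h1] at h01
    exact (mul_eq_zero.1 h01).resolve_left hκc
  -- the two largest weights
  obtain ⟨ζ₁, hζ₁, hmax₁⟩ := Z.exists_max_image h (Finset.card_pos.1 (by omega))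
  obtain ⟨ζ₂, hζ₂', hmax₂⟩ := (Z.erase ζ₁).exists_max_image h
    (Finset.card_pos.1 (by rw [Finset.card_erase_of_mem hζ₁]; omega))
  have hζ₂ : ζ₂ ∈ Z := Finset.mem_of_mem_erase hζ₂'
  have h12 : ζ₁ ≠ ζ₂ := (Finset.ne_of_mem_erase hζ₂').symm
  have hle12 : h ζ₂ ≤ h ζ₁ := hmax₁ ζ₂ hζ₂
  have hsub : ∀ α β : ℂ, h α - h β = κ * (conj (α - β) * e).re := by
    intro α β
    simp only [hh]
    rw [map_sub, sub_mul, Complex.sub_re]
    ring
  have hg : ∀ ζ ∈ Z, ζ ≠ ζ₁ → ζ ≠ ζ₂ → κ * δ * ‖D‖ ≤ h ζ₁ - h ζ := by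
    intro ζ hζ hne1 hne2
    have h1 := hgap ζ₁ hζ₁ ζ₂ hζ₂ ζ hζ h12 hne1.symm hne2.symm e
    have h2 : h ζ ≤ h ζ₂ := hmax₂ ζ (Finset.mem_erase.2 ⟨hne1, hζ⟩)
    have h3 : κ * |(conj (ζ₁ - ζ₂) * e).re| = |h ζ₁ - h ζ₂| := by
      rw [hsub, abs_mul, abs_of_pos hκ]
    have h4 : κ * |(conj (ζ₁ - ζ) * e).re| = |h ζ₁ - h ζ| := by
      rw [hsub, abs_mul, abs_of_pos hκ]
    rw [show |h ζ₁ - h ζ₂| = h ζ₁ - h ζ₂ from abs_of_nonneg (by linarith)] at h3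
    rw [show |h ζ₁ - h ζ| = h ζ₁ - h ζ from abs_of_nonneg (by linarith)] at h4
    rw [hen] at h1
    rcases le_max_iff.1 h1 with h5 | h5
    · have h6 := mul_le_mul_of_nonneg_left h5 hκ.le
      rw [h3] at h6
      calc κ * δ * ‖D‖ = κ * (δ * ‖D‖) := by ring
        _ ≤ h ζ₁ - h ζ₂ := h6
        _ ≤ h ζ₁ - h ζ := by linarith
    · have h6 := mul_le_mul_of_nonneg_left h5 hκ.le
      rw [h4] at h6
      calc κ * δ * ‖D‖ = κ * (δ * ‖D‖) := by ring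
        _ ≤ h ζ₁ - h ζ := h6
  have hR0 : 0 ≤ 2 * As Z a / (δ' * m * (κ * δ)) := by have := As_nonneg Z a; positivity
  by_cases hanti : ζ₁ = -ζ₂
  · -- then `D = 0`
    obtain ⟨ζ₃, hζ₃, h31, h32⟩ : ∃ ζ₃ ∈ Z, ζ₃ ≠ ζ₁ ∧ ζ₃ ≠ ζ₂ := by
      have h1 : 0 < ((Z.erase ζ₁).erase ζ₂).card := by
        rw [Finset.card_erase_of_mem hζ₂', Finset.card_erase_of_mem hζ₁]
        omega
      obtain ⟨ζ₃, h3⟩ := Finset.card_pos.1 h1
      exact ⟨ζ₃, Finset.mem_of_mem_erase (Finset.mem_of_mem_erase h3),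
        Finset.ne_of_mem_erase (Finset.mem_of_mem_erase h3), Finset.ne_of_mem_erase h3⟩
    have hneg : ∀ ζ, h (-ζ) = -h ζ := by
      intro ζ
      simp only [hh]
      rw [map_neg, neg_mul, Complex.neg_re]
      ring
    have g1 := hg ζ₃ hζ₃ h31 h32
    have g2 := hg (-ζ₃) (hs ζ₃ hζ₃) (fun hc => h32 (by rw [hanti] at hc; exact neg_injective hc))
      (fun hc => h31 (by rw [← neg_neg ζ₃, hc, ← hanti]))
    have q1 : h ζ₃ ≤ h ζ₂ := hmax₂ ζ₃ (Finset.mem_erase.2 ⟨h31, hζ₃⟩)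
    have q2 : h (-ζ₃) ≤ h ζ₂ := hmax₂ (-ζ₃) (Finset.mem_erase.2
      ⟨fun hc => h32 (by rw [hanti] at hc; exact neg_injective hc), hs ζ₃ hζ₃⟩)
    have q3 : h ζ₁ = -h ζ₂ := by rw [hanti, hneg]
    rw [hneg] at q2 g2
    have q4 : κ * δ * ‖D‖ ≤ 0 := by linarith
    have q5 : 0 < κ * δ := by positivity
    have q6 : ‖D‖ ≤ 0 := by
      by_contra hc
      push Not at hc
      nlinarith
    linarith
  · have hd := hdet (ζ₁, ζ₂) (Finset.mem_filter.2 ⟨Finset.mem_product.2 ⟨hζ₁, hζ₂⟩, h12, hanti⟩)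
    have s3 : ∑ ζ ∈ Z, (conj ζ₂ * ζ - ζ₂ * conj ζ) * A ζ = 0 := by
      have h1 : ∑ ζ ∈ Z, (conj ζ₂ * ζ - ζ₂ * conj ζ) * A ζ =
          conj ζ₂ * ∑ ζ ∈ Z, ζ * A ζ - ζ₂ * ∑ ζ ∈ Z, conj ζ * A ζ := by
        rw [Finset.mul_sum, Finset.mul_sum, ← Finset.sum_sub_distrib]
        refine Finset.sum_congr rfl fun ζ _ => ?_
        ring
      rw [h1, s1, s2]
      ring
    rw [← Finset.add_sum_erase Z _ hζ₁] at s3
    have s4 : ‖(conj ζ₂ * ζ₁ - ζ₂ * conj ζ₁) * A ζ₁‖ ≤ 2 * As Z a * Real.exp (h ζ₁ - κ * δ * ‖D‖) := by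
      rw [eq_neg_of_add_eq_zero_left s3, norm_neg]
      calc ‖∑ ζ ∈ Z.erase ζ₁, (conj ζ₂ * ζ - ζ₂ * conj ζ) * A ζ‖
          ≤ ∑ ζ ∈ Z.erase ζ₁, 2 * ‖a ζ‖ * Real.exp (h ζ₁ - κ * δ * ‖D‖) := by
            refine norm_sum_le_of_le _ fun ζ hζ => ?_
            have hζZ := Finset.mem_of_mem_erase hζ
            by_cases h2 : ζ = ζ₂
            · rw [h2, mul_comm (conj ζ₂) ζ₂, sub_self, zero_mul, norm_zero]
              positivity
            · rw [norm_mul, hAn]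
              have h3 : ‖conj ζ₂ * ζ - ζ₂ * conj ζ‖ ≤ 2 := by
                refine (norm_sub_le _ _).trans ?_
                rw [norm_mul, norm_mul, Complex.norm_conj, Complex.norm_conj, hZ ζ hζZ, hZ ζ₂ hζ₂]
                norm_num
              have h4 : Real.exp (h ζ) ≤ Real.exp (h ζ₁ - κ * δ * ‖D‖) :=
                Real.exp_le_exp.2 (by linarith [hg ζ hζZ (Finset.ne_of_mem_erase hζ) h2])
              calc ‖conj ζ₂ * ζ - ζ₂ * conj ζ‖ * (‖a ζ‖ * Real.exp (h ζ))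
                  ≤ 2 * (‖a ζ‖ * Real.exp (h ζ₁ - κ * δ * ‖D‖)) := by gcongr
                _ = _ := by ring
        _ ≤ ∑ ζ ∈ Z, 2 * ‖a ζ‖ * Real.exp (h ζ₁ - κ * δ * ‖D‖) :=
            Finset.sum_le_sum_of_subset_of_nonneg (Finset.erase_subset _ _) fun _ _ _ => by positivity
        _ = _ := by
            unfold As
            rw [Finset.mul_sum, Finset.sum_mul]
    rw [norm_mul, hAn, Real.exp_sub] at s4
    have hE : 0 < Real.exp (h ζ₁) := Real.exp_pos _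
    have hE2 : 0 < Real.exp (κ * δ * ‖D‖) := Real.exp_pos _
    have s5 : δ' * m ≤ 2 * As Z a / Real.exp (κ * δ * ‖D‖) := by
      have t1 : δ' * (m * Real.exp (h ζ₁)) ≤ ‖conj ζ₂ * ζ₁ - ζ₂ * conj ζ₁‖ * (‖a ζ₁‖ * Real.exp (h ζ₁)) := by
        have := hmin ζ₁ hζ₁
        gcongr
      have t2 := t1.trans s4
      have t3 : 2 * As Z a * (Real.exp (h ζ₁) / Real.exp (κ * δ * ‖D‖)) =
          2 * As Z a / Real.exp (κ * δ * ‖D‖) * Real.exp (h ζ₁) := by ring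
      rw [t3, ← mul_assoc] at t2
      exact le_of_mul_le_mul_right t2 hE
    rw [le_div_iff₀ hE2] at s5
    have s6 : κ * δ * ‖D‖ ≤ Real.exp (κ * δ * ‖D‖) := by
      have := Real.add_one_le_exp (κ * δ * ‖D‖)
      linarith
    rw [le_div_iff₀ (by positivity)]
    calc ‖D‖ * (δ' * m * (κ * δ)) = δ' * m * (κ * δ * ‖D‖) := by ring
      _ ≤ δ' * m * Real.exp (κ * δ * ‖D‖) := by gcongr
      _ ≤ 2 * As Z a := s5

end DrumF
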