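import Pool.Agent.Lib.MP_d92c84_an.Bes

/-!
# Circular waves

`H κ n x = J_n (2 κ |x|) (x / |x|) ^ n` for `n ∈ ℤ` (with `J_{-n} = (-1)^n J_n`), as smooth functions on `ℂ`.
-/

set_option autoImplicit false

namespace DrumF

open Filter Topology
open scoped ComplexConjugate

/-- The real linear map `h ↦ α h + β conj h`. -/
noncomputable def LL (α β : ℂ) : ℂ →L[ℝ] ℂ :=
  α • ContinuousLinearMap.id ℝ ℂ + β • (Complex.conjCLE : ℂ →L[ℝ] ℂ)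

theorem LL_apply (α β h : ℂ) : LL α β h = α * h + β * conj h := by
  simp [LL]

theorem norm_LL_le (α β : ℂ) : ‖LL α β‖ ≤ ‖α‖ + ‖β‖ := by
  refine ContinuousLinearMap.opNorm_le_bound _ (by positivity) fun h => ?_
  rw [LL_apply]
  refine (norm_add_le _ _).trans ?_
  rw [norm_mul, norm_mul, Complex.norm_conj]
  linarith [mul_nonneg (norm_nonneg α) (norm_nonneg h)]

/-- Positive modes. -/
noncomputable def Hp (κ : ℝ) (m : ℕ) (x : ℂ) : ℂ := (κ * x) ^ m * F m (κ ^ 2 * x * conj x)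

/-- Negative modes. -/
noncomputable def Hn (κ : ℝ) (m : ℕ) (x : ℂ) : ℂ := (-(κ * conj x)) ^ m * F m (κ ^ 2 * x * conj x)

/-- All modes. -/
noncomputable def H (κ : ℝ) : ℤ → ℂ → ℂ
  | Int.ofNat m => Hp κ m
  | Int.negSucc m => Hn κ (m + 1)

theorem H_natCast (κ : ℝ) (m : ℕ) : H κ (m : ℤ) = Hp κ m := rfl

theorem Hn_zero (κ : ℝ) : Hn κ 0 = Hp κ 0 := by
  funext x
  simp [Hn, Hp]

theorem H_neg_natCast (κ : ℝ) (m : ℕ) : H κ (-(m : ℤ)) = Hn κ m := by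
  cases m with
  | zero => rw [Hn_zero]; rfl
  | succ n => rfl

private theorem hasFDerivAt_w (κ : ℝ) (x : ℂ) :
    HasFDerivAt (fun y : ℂ => (κ : ℂ) ^ 2 * y * conj y) (LL ((κ : ℂ) ^ 2 * conj x) ((κ : ℂ) ^ 2 * x)) x := by
  have h1 : HasFDerivAt (fun y : ℂ => (κ : ℂ) ^ 2 * y) ((κ : ℂ) ^ 2 • ContinuousLinearMap.id ℝ ℂ) x :=
    (hasFDerivAt_id x).const_mul _
  have h2 : HasFDerivAt (fun y : ℂ => conj y) (Complex.conjCLE : ℂ →L[ℝ] ℂ) x :=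
    (Complex.conjCLE : ℂ →L[ℝ] ℂ).hasFDerivAt
  have h3 := h1.mul h2
  have h4 : ((κ : ℂ) ^ 2 * x) • (Complex.conjCLE : ℂ →L[ℝ] ℂ) +
      conj x • ((κ : ℂ) ^ 2 • ContinuousLinearMap.id ℝ ℂ) = LL ((κ : ℂ) ^ 2 * conj x) ((κ : ℂ) ^ 2 * x) := by
    ext h
    simp [LL]
    ring
  rw [← h4]
  exact h3

private theorem hasFDerivAt_Fw (κ : ℝ) (m : ℕ) (x : ℂ) :
    HasFDerivAt (fun y : ℂ => F m ((κ : ℂ) ^ 2 * y * conj y))
      (LL (-F (m + 1) ((κ : ℂ) ^ 2 * x * conj x) * ((κ : ℂ) ^ 2 * conj x))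
        (-F (m + 1) ((κ : ℂ) ^ 2 * x * conj x) * ((κ : ℂ) ^ 2 * x))) x := by
  have h1 := (hasDerivAt_F m ((κ : ℂ) ^ 2 * x * conj x)).comp_hasFDerivAt x (hasFDerivAt_w κ x)
  have h4 : (-F (m + 1) ((κ : ℂ) ^ 2 * x * conj x)) • LL ((κ : ℂ) ^ 2 * conj x) ((κ : ℂ) ^ 2 * x) =
      LL (-F (m + 1) ((κ : ℂ) ^ 2 * x * conj x) * ((κ : ℂ) ^ 2 * conj x))
        (-F (m + 1) ((κ : ℂ) ^ 2 * x * conj x) * ((κ : ℂ) ^ 2 * x)) := by
    ext h
    simp only [smul_apply, LL_apply, smul_eq_mul]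
    ring
  rw [← h4]
  exact h1

theorem hasFDerivAt_Hp (κ : ℝ) (m : ℕ) (x : ℂ) :
    HasFDerivAt (Hp κ m) (LL ((m : ℂ) * (κ * x) ^ (m - 1) * κ * F m ((κ : ℂ) ^ 2 * x * conj x) +
      (κ * x) ^ m * (-F (m + 1) ((κ : ℂ) ^ 2 * x * conj x) * ((κ : ℂ) ^ 2 * conj x)))
      ((κ * x) ^ m * (-F (m + 1) ((κ : ℂ) ^ 2 * x * conj x) * ((κ : ℂ) ^ 2 * x)))) x := by
  have h1 : HasFDerivAt (fun y : ℂ => ((κ : ℂ) * y) ^ m)
      (((m : ℂ) * (κ * x) ^ (m - 1) * κ) • ContinuousLinearMap.id ℝ ℂ) x := by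
    have h2 : HasDerivAt (fun y : ℂ => ((κ : ℂ) * y) ^ m) ((m : ℂ) * (κ * x) ^ (m - 1) * κ) x := by
      have h3 : HasDerivAt (fun y : ℂ => (κ : ℂ) * y) (κ : ℂ) x := by
        simpa using (hasDerivAt_id x).const_mul (κ : ℂ)
      exact h3.pow m
    have h4 := h2.comp_hasFDerivAt x (hasFDerivAt_id (𝕜 := ℝ) x)
    exact h4
  have h2 := h1.mul (hasFDerivAt_Fw κ m x)
  have h3 : ((κ : ℂ) * x) ^ m • LL (-F (m + 1) ((κ : ℂ) ^ 2 * x * conj x) * ((κ : ℂ) ^ 2 * conj x))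
        (-F (m + 1) ((κ : ℂ) ^ 2 * x * conj x) * ((κ : ℂ) ^ 2 * x)) +
      F m ((κ : ℂ) ^ 2 * x * conj x) • (((m : ℂ) * (κ * x) ^ (m - 1) * κ) • ContinuousLinearMap.id ℝ ℂ) =
      LL ((m : ℂ) * (κ * x) ^ (m - 1) * κ * F m ((κ : ℂ) ^ 2 * x * conj x) +
      (κ * x) ^ m * (-F (m + 1) ((κ : ℂ) ^ 2 * x * conj x) * ((κ : ℂ) ^ 2 * conj x)))
      ((κ * x) ^ m * (-F (m + 1) ((κ : ℂ) ^ 2 * x * conj x) * ((κ : ℂ) ^ 2 * x))) := by
    ext h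
    simp only [add_apply, smul_apply, LL_apply, smul_eq_mul,
      ContinuousLinearMap.id_apply]
    ring
  rw [← h3]
  exact h2

theorem hasFDerivAt_Hn (κ : ℝ) (m : ℕ) (x : ℂ) :
    HasFDerivAt (Hn κ m) (LL ((-(κ * conj x)) ^ m * (-F (m + 1) ((κ : ℂ) ^ 2 * x * conj x) * ((κ : ℂ) ^ 2 * conj x)))
      (-((m : ℂ) * (-(κ * conj x)) ^ (m - 1) * κ * F m ((κ : ℂ) ^ 2 * x * conj x)) +
      (-(κ * conj x)) ^ m * (-F (m + 1) ((κ : ℂ) ^ 2 * x * conj x) * ((κ : ℂ) ^ 2 * x)))) x := by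
  have h1 : HasFDerivAt (fun y : ℂ => (-((κ : ℂ) * conj y)) ^ m)
      (((m : ℂ) * (-(κ * conj x)) ^ (m - 1) * (-κ)) • (Complex.conjCLE : ℂ →L[ℝ] ℂ)) x := by
    have h2 : HasDerivAt (fun y : ℂ => (-((κ : ℂ) * y)) ^ m) ((m : ℂ) * (-(κ * conj x)) ^ (m - 1) * (-κ)) (conj x) := by
      have h3 : HasDerivAt (fun y : ℂ => -((κ : ℂ) * y)) (-(κ : ℂ)) (conj x) := by
        have h4 : HasDerivAt (fun y : ℂ => (κ : ℂ) * y) (κ : ℂ) (conj x) := by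
          simpa using (hasDerivAt_id (conj x)).const_mul (κ : ℂ)
        exact h4.neg
      exact h3.pow m
    have h4 := h2.comp_hasFDerivAt x ((Complex.conjCLE : ℂ →L[ℝ] ℂ).hasFDerivAt (x := x))
    exact h4
  have h2 := h1.mul (hasFDerivAt_Fw κ m x)
  have h3 : (-((κ : ℂ) * conj x)) ^ m • LL (-F (m + 1) ((κ : ℂ) ^ 2 * x * conj x) * ((κ : ℂ) ^ 2 * conj x))
        (-F (m + 1) ((κ : ℂ) ^ 2 * x * conj x) * ((κ : ℂ) ^ 2 * x)) +
      F m ((κ : ℂ) ^ 2 * x * conj x) •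
        (((m : ℂ) * (-(κ * conj x)) ^ (m - 1) * (-κ)) • (Complex.conjCLE : ℂ →L[ℝ] ℂ)) =
      LL ((-(κ * conj x)) ^ m * (-F (m + 1) ((κ : ℂ) ^ 2 * x * conj x) * ((κ : ℂ) ^ 2 * conj x)))
      (-((m : ℂ) * (-(κ * conj x)) ^ (m - 1) * κ * F m ((κ : ℂ) ^ 2 * x * conj x)) +
      (-(κ * conj x)) ^ m * (-F (m + 1) ((κ : ℂ) ^ 2 * x * conj x) * ((κ : ℂ) ^ 2 * x))) := by
    ext h
    simp only [add_apply, smul_apply, LL_apply, smul_eq_mul,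
      ContinuousLinearEquiv.coe_coe, Complex.conjCLE_apply]
    ring
  rw [← h3]
  exact h2

theorem hasFDerivAt_H (κ : ℝ) (n : ℤ) (x : ℂ) :
    HasFDerivAt (H κ n) (LL (κ * H κ (n - 1) x) (-(κ * H κ (n + 1) x))) x := by
  obtain ⟨m, rfl | rfl⟩ := n.eq_nat_or_neg
  · have h1 := hasFDerivAt_Hp κ m x
    have e1 : H κ ((m : ℤ) + 1) x = Hp κ (m + 1) x := rfl
    rcases m with _ | m
    · have e2 : H κ (((0 : ℕ) : ℤ) - 1) x = Hn κ 1 x := rfl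
      rw [e2, e1]
      have e3 : LL (((0 : ℕ) : ℂ) * (κ * x) ^ (0 - 1) * κ * F 0 ((κ : ℂ) ^ 2 * x * conj x) +
          (κ * x) ^ 0 * (-F (0 + 1) ((κ : ℂ) ^ 2 * x * conj x) * ((κ : ℂ) ^ 2 * conj x)))
          ((κ * x) ^ 0 * (-F (0 + 1) ((κ : ℂ) ^ 2 * x * conj x) * ((κ : ℂ) ^ 2 * x))) =
          LL (κ * Hn κ 1 x) (-(κ * Hp κ (0 + 1) x)) := by
        unfold Hn Hp
        congr 1
        · push_cast
          ring
        · ring
      rw [← e3]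
      exact h1
    · have e2 : H κ (((m + 1 : ℕ) : ℤ) - 1) x = Hp κ m x := by
        have : (((m + 1 : ℕ) : ℤ) - 1) = (m : ℤ) := by push_cast; ring
        rw [this]
        rfl
      rw [e2, e1]
      have hr := F_rec m ((κ : ℂ) ^ 2 * x * conj x)
      have e3 : LL (((m + 1 : ℕ) : ℂ) * (κ * x) ^ (m + 1 - 1) * κ * F (m + 1) ((κ : ℂ) ^ 2 * x * conj x) +
          (κ * x) ^ (m + 1) * (-F (m + 1 + 1) ((κ : ℂ) ^ 2 * x * conj x) * ((κ : ℂ) ^ 2 * conj x)))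
          ((κ * x) ^ (m + 1) * (-F (m + 1 + 1) ((κ : ℂ) ^ 2 * x * conj x) * ((κ : ℂ) ^ 2 * x))) =
          LL (κ * Hp κ m x) (-(κ * Hp κ (m + 1 + 1) x)) := by
        unfold Hp
        congr 1
        · rw [← hr, Nat.add_sub_cancel]
          push_cast
          ring
        · ring
      rw [← e3]
      exact h1
  · rw [H_neg_natCast]
    have h1 := hasFDerivAt_Hn κ m x
    have e1 : H κ (-(m : ℤ) - 1) x = Hn κ (m + 1) x := by
      have : (-(m : ℤ) - 1) = -((m + 1 : ℕ) : ℤ) := by push_cast; ring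
      rw [this, H_neg_natCast]
    rcases m with _ | m
    · have e2 : H κ (-((0 : ℕ) : ℤ) + 1) x = Hp κ 1 x := rfl
      rw [e2, e1]
      have e3 : LL ((-(κ * conj x)) ^ 0 * (-F (0 + 1) ((κ : ℂ) ^ 2 * x * conj x) * ((κ : ℂ) ^ 2 * conj x)))
          (-(((0 : ℕ) : ℂ) * (-(κ * conj x)) ^ (0 - 1) * κ * F 0 ((κ : ℂ) ^ 2 * x * conj x)) +
          (-(κ * conj x)) ^ 0 * (-F (0 + 1) ((κ : ℂ) ^ 2 * x * conj x) * ((κ : ℂ) ^ 2 * x))) =
          LL (κ * Hn κ (0 + 1) x) (-(κ * Hp κ 1 x)) := by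
        unfold Hn Hp
        congr 1
        · ring
        · push_cast
          ring
      rw [← e3]
      exact h1
    · have e2 : H κ (-((m + 1 : ℕ) : ℤ) + 1) x = Hn κ m x := by
        have : (-((m + 1 : ℕ) : ℤ) + 1) = -(m : ℤ) := by push_cast; ring
        rw [this, H_neg_natCast]
      rw [e2, e1]
      have hr := F_rec m ((κ : ℂ) ^ 2 * x * conj x)
      have e3 : LL ((-(κ * conj x)) ^ (m + 1) * (-F (m + 1 + 1) ((κ : ℂ) ^ 2 * x * conj x) * ((κ : ℂ) ^ 2 * conj x)))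
          (-(((m + 1 : ℕ) : ℂ) * (-(κ * conj x)) ^ (m + 1 - 1) * κ * F (m + 1) ((κ : ℂ) ^ 2 * x * conj x)) +
          (-(κ * conj x)) ^ (m + 1) * (-F (m + 1 + 1) ((κ : ℂ) ^ 2 * x * conj x) * ((κ : ℂ) ^ 2 * x))) =
          LL (κ * Hn κ (m + 1 + 1) x) (-(κ * Hn κ m x)) := by
        unfold Hn
        congr 1
        · ring
        · rw [← hr, Nat.add_sub_cancel]
          push_cast
          ring
      rw [← e3]
      exact h1

/-- The rotation derivative. -/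
theorem H_rot (κ : ℝ) (n : ℤ) (x : ℂ) :
    κ * (x * H κ (n - 1) x + conj x * H κ (n + 1) x) = n * H κ n x := by
  obtain ⟨m, rfl | rfl⟩ := n.eq_nat_or_neg
  · rcases m with _ | m
    · have e1 : H κ (((0 : ℕ) : ℤ) - 1) x = Hn κ 1 x := rfl
      have e2 : H κ (((0 : ℕ) : ℤ) + 1) x = Hp κ 1 x := rfl
      rw [e1, e2]
      unfold Hn Hp
      push_cast
      ring
    · have e1 : H κ (((m + 1 : ℕ) : ℤ) - 1) x = Hp κ m x := by
        have : (((m + 1 : ℕ) : ℤ) - 1) = (m : ℤ) := by push_cast; ring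
        rw [this]
        rfl
      have e2 : H κ (((m + 1 : ℕ) : ℤ) + 1) x = Hp κ (m + 2) x := rfl
      have e3 : H κ ((m + 1 : ℕ) : ℤ) x = Hp κ (m + 1) x := rfl
      rw [e1, e2, e3]
      have hr := F_rec m ((κ : ℂ) ^ 2 * x * conj x)
      unfold Hp
      rw [← hr]
      push_cast
      ring
  · rcases m with _ | m
    · have e1 : H κ (-((0 : ℕ) : ℤ) - 1) x = Hn κ 1 x := rfl
      have e2 : H κ (-((0 : ℕ) : ℤ) + 1) x = Hp κ 1 x := rfl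
      rw [e1, e2]
      unfold Hn Hp
      push_cast
      ring
    · have e1 : H κ (-((m + 1 : ℕ) : ℤ) + 1) x = Hn κ m x := by
        have : (-((m + 1 : ℕ) : ℤ) + 1) = -(m : ℤ) := by push_cast; ring
        rw [this, H_neg_natCast]
      have e2 : H κ (-((m + 1 : ℕ) : ℤ) - 1) x = Hn κ (m + 2) x := by
        have : (-((m + 1 : ℕ) : ℤ) - 1) = -((m + 2 : ℕ) : ℤ) := by push_cast; ring
        rw [this, H_neg_natCast]
      rw [e1, e2, H_neg_natCast]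
      have hr := F_rec m ((κ : ℂ) ^ 2 * x * conj x)
      unfold Hn
      rw [← hr]
      push_cast
      ring

private theorem norm_arg (κ : ℝ) (x : ℂ) : (κ : ℂ) ^ 2 * x * conj x = ((2 * κ * ‖x‖ : ℝ) : ℂ) ^ 2 / 4 := by
  rw [mul_assoc, Complex.mul_conj, Complex.normSq_eq_norm_sq]
  push_cast
  ring

theorem Hp_polar (κ : ℝ) (m : ℕ) {x : ℂ} (hx : x ≠ 0) :
    Hp κ m x = J m (2 * κ * ‖x‖) * (x / ‖x‖) ^ m := by
  rw [J_eq]
  unfold Hp Jc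
  rw [norm_arg]
  have hn : (‖x‖ : ℂ) ≠ 0 := by exact_mod_cast norm_ne_zero_iff.2 hx
  have h1 : (κ * x) ^ m = (((2 * κ * ‖x‖ : ℝ) : ℂ) / 2) ^ m * (x / ‖x‖) ^ m := by
    rw [← mul_pow]
    congr 1
    push_cast
    field_simp
  rw [h1]
  ring

theorem Hn_polar (κ : ℝ) (m : ℕ) {x : ℂ} (hx : x ≠ 0) :
    Hn κ m x = (-1) ^ m * (J m (2 * κ * ‖x‖) * (‖x‖ / x) ^ m) := by
  rw [J_eq]
  unfold Hn Jc
  rw [norm_arg]
  have hn : (‖x‖ : ℂ) ≠ 0 := by exact_mod_cast norm_ne_zero_iff.2 hx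
  have h2 : conj x = (‖x‖ : ℂ) * (‖x‖ / x) := by
    have h3 : x * conj x = (‖x‖ : ℂ) ^ 2 := by
      rw [Complex.mul_conj, Complex.normSq_eq_norm_sq]
      push_cast
      ring
    field_simp
    rw [← h3]
    ring
  have h1 : (-(κ * conj x)) ^ m = (-1) ^ m * (((2 * κ * ‖x‖ : ℝ) : ℂ) / 2) ^ m * (‖x‖ / x) ^ m := by
    rw [← mul_pow, ← mul_pow]
    congr 1
    rw [h2]
    push_cast
    ring
  rw [h1]
  ring

theorem conj_F (m : ℕ) (w : ℂ) : conj (F m w) = F m (conj w) := by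
  unfold F
  rw [Complex.conj_tsum]
  refine tsum_congr fun j => ?_
  simp

theorem conj_Hp (κ : ℝ) (m : ℕ) (x : ℂ) : conj (Hp κ m x) = (-1) ^ m * Hn κ m x := by
  unfold Hp Hn
  rw [map_mul, map_pow, map_mul, Complex.conj_ofReal, conj_F, ← mul_assoc, ← mul_pow]
  congr 1
  · congr 1
    ring
  · congr 1
    rw [map_mul, map_mul, map_pow, Complex.conj_ofReal, Complex.conj_conj]
    ring

theorem analyticAt_H (κ : ℝ) (n : ℤ) (x : ℂ) : AnalyticAt ℝ (H κ n) x := by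
  have hc : ∀ y : ℂ, AnalyticAt ℝ (fun y : ℂ => conj y) y := fun y =>
    (Complex.conjCLE : ℂ →L[ℝ] ℂ).analyticAt y
  have hF : ∀ m : ℕ, AnalyticAt ℝ (fun y : ℂ => F m ((κ : ℂ) ^ 2 * y * conj y)) x := by
    intro m
    have h1 : AnalyticAt ℝ (F m) ((κ : ℂ) ^ 2 * x * conj x) :=
      ((differentiable_F m).analyticAt _).restrictScalars
    have h2 : AnalyticAt ℝ (fun y : ℂ => (κ : ℂ) ^ 2 * y * conj y) x :=
      (analyticAt_const.mul analyticAt_id).mul (hc x)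
    exact AnalyticAt.fun_comp h1 h2
  obtain ⟨m, rfl | rfl⟩ := n.eq_nat_or_neg
  · exact ((analyticAt_const.mul analyticAt_id).pow m).mul (hF m)
  · rw [H_neg_natCast]
    exact ((analyticAt_const.mul (hc x)).neg.pow m).mul (hF m)

end DrumF
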